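import Mathlib
import Pool.Agent.Work.MP_3d425c_gt.Bg.LatEnd
import Pool.Agent.Work.MP_3d425c_gt.Bg.Bdy
import Pool.Agent.Work.MP_3d425c_gt.Bg.Tf2
import Pool.Agent.Work.MP_3d425c_gt.Bq.Ibase
import Pool.Agent.Work.MP_3d425c_gt.To.CvA
import Pool.Agent.Work.MP_3d425c_gt.Ta.Defs

-- merged part: Pool.Agent.Work.MP_3d425c_gt.Bg.Surf
section
/-! A connected regular cover of a closed surface of non-negative Euler characteristic whose deck
group is torsion free with cyclic centralisers has cyclic deck group. -/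

namespace Pool.Agent.Work.MP_3d425c_gt.Bg.Sf
open Relation MulAction Function

section Grp
variable {D : Type*} [Group D]

theorem zpow_ne_one (tf : ∀ a : D, a ≠ 1 → ¬ IsOfFinOrder a) {s : D} (hs : s ≠ 1) {m : ℤ}
    (hm : m ≠ 0) : s ^ m ≠ 1 := fun h =>
  tf s hs (isOfFinOrder_iff_zpow_eq_one.2 ⟨m, hm, h⟩)

theorem cyc_of_comm (cent : ∀ a : D, a ≠ 1 → IsCyclic (Subgroup.centralizer ({a} : Set D)))
    {s t c : D} (hg : Subgroup.closure {s, t} = ⊤) (hc : c ≠ 1) (h1 : s * c = c * s)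
    (h2 : t * c = c * t) : IsCyclic D := by
  have h : Subgroup.centralizer ({c} : Set D) = ⊤ := by
    rw [eq_top_iff, ← hg, Subgroup.closure_le]
    rintro x (rfl | rfl)
    · exact Subgroup.mem_centralizer_singleton_iff.2 h1
    · exact Subgroup.mem_centralizer_singleton_iff.2 h2
  have := cent c hc
  rw [h] at this
  exact isCyclic_of_surjective Subgroup.topEquiv Subgroup.topEquiv.surjective

theorem exists_gen (cent : ∀ a : D, a ≠ 1 → IsCyclic (Subgroup.centralizer ({a} : Set D)))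
    {x : D} (hx : x ≠ 1) : ∃ c : D, c * x = x * c ∧ ∀ y, y * x = x * y → ∃ k : ℤ, y = c ^ k := by
  obtain ⟨⟨c, hc⟩, h⟩ := (cent x hx).exists_generator
  refine ⟨c, Subgroup.mem_centralizer_singleton_iff.1 hc, fun y hy => ?_⟩
  obtain ⟨k, hk⟩ := Subgroup.mem_zpowers_iff.1
    (h ⟨y, Subgroup.mem_centralizer_singleton_iff.2 hy⟩)
  exact ⟨k, (congrArg Subtype.val hk).symm⟩

theorem cyc_of_bs (tf : ∀ a : D, a ≠ 1 → ¬ IsOfFinOrder a)
    (cent : ∀ a : D, a ≠ 1 → IsCyclic (Subgroup.centralizer ({a} : Set D)))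
    {s t : D} (hg : Subgroup.closure {s, t} = ⊤) (ht : t ≠ 1) {m n : ℤ} (hm : s ^ m ≠ 1)
    (h : s ^ m * t = t * s ^ n) : IsCyclic D := by
  have hn : s ^ n ≠ 1 := fun e => hm (by rw [e, mul_one] at h; simpa using h)
  obtain ⟨c, hc, hC⟩ := exists_gen cent hm
  obtain ⟨d, hd, hD⟩ := exists_gen cent hn
  obtain ⟨i, hi⟩ := hC s (Commute.self_zpow s m).eq
  obtain ⟨j, hj⟩ := hD s (Commute.self_zpow s n).eq
  have hc1 : c ≠ 1 := by rintro rfl; exact hm (by rw [hi]; simp)
  have cs : Commute c s := hi ▸ Commute.self_zpow c i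
  have ds : Commute d s := hj ▸ Commute.self_zpow d j
  have e1 : s ^ m = t * s ^ n * t⁻¹ := by rw [← h]; group
  have e2 : s ^ n = t⁻¹ * s ^ m * t := by rw [e1]; group
  obtain ⟨k, hk⟩ := hC (t * c * t⁻¹) (by
    rw [e1]
    calc _ = t * (c * s ^ n) * t⁻¹ := by group
      _ = t * (s ^ n * c) * t⁻¹ := by rw [(cs.zpow_right n).eq]
      _ = _ := by group)
  obtain ⟨l, hl⟩ := hD (t⁻¹ * c * t) (by
    rw [e2]
    calc _ = t⁻¹ * (c * s ^ m) * t := by group
      _ = t⁻¹ * (s ^ m * c) * t := by rw [hc]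
      _ = _ := by group)
  obtain ⟨q, hq⟩ := hC d (ds.zpow_right m).eq
  have hl' : t⁻¹ * c * t = c ^ (q * l) := by rw [hl, hq, zpow_mul]
  have hkl : k * (q * l) = 1 := by
    by_contra hne
    refine zpow_ne_one tf hc1 (sub_ne_zero.2 hne) ?_
    have : c ^ (k * (q * l)) = c := by
      rw [zpow_mul, ← hk, conj_zpow, ← hl']; group
    rw [zpow_sub, this]; simp
  have hkk : k * k = 1 := by
    rcases Int.eq_one_or_neg_one_of_mul_eq_one hkl with rfl | rfl <;> rfl
  have t2 : Commute c (t * t) := by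
    have : t * t * c * (t * t)⁻¹ = c := by
      calc _ = t * (t * c * t⁻¹) * t⁻¹ := by group
        _ = (t * c * t⁻¹) ^ k := by rw [conj_zpow, ← hk]
        _ = c := by rw [hk, ← zpow_mul, hkk, zpow_one]
    exact (mul_inv_eq_iff_eq_mul.1 this).symm
  refine cyc_of_comm cent hg (c := t * t) ?_ ?_ (by group)
  · have := zpow_ne_one tf ht (m := 2) (by norm_num)
    rwa [zpow_two] at this
  · rw [hi]; exact (t2.zpow_left i).eq

theorem cyc_of_sq (tf : ∀ a : D, a ≠ 1 → ¬ IsOfFinOrder a)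
    (cent : ∀ a : D, a ≠ 1 → IsCyclic (Subgroup.centralizer ({a} : Set D)))
    {s t : D} (hg : Subgroup.closure {s, t} = ⊤) {m n : ℤ} (hm : t * s ^ m ≠ 1)
    (h : t * s ^ m * t = s ^ n) : IsCyclic D := by
  have e : (t * s ^ m) * (t * s ^ m) = s ^ (n + m) := by rw [zpow_add, ← h]; group
  refine cyc_of_comm cent hg (c := (t * s ^ m) * (t * s ^ m)) ?_ ?_ ?_
  · have := zpow_ne_one tf hm (m := 2) (by norm_num)
    rwa [zpow_two] at this
  · rw [e]; exact (Commute.self_zpow s _).eq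
  · calc _ = (t * s ^ (n + m) * s ^ m) * s ^ (-m) := by rw [e]; group
      _ = (t * s ^ m * s ^ (n + m)) * s ^ (-m) := by group
      _ = (t * s ^ m * ((t * s ^ m) * (t * s ^ m))) * s ^ (-m) := by rw [e]
      _ = _ := by group

theorem cyc_of_mem {s t : D} (hg : Subgroup.closure {s, t} = ⊤) (h : t ∈ Subgroup.zpowers s) :
    IsCyclic D := by
  refine ⟨s, fun x => ?_⟩
  have : Subgroup.closure {s, t} ≤ Subgroup.zpowers s := by
    rw [Subgroup.closure_le]
    rintro x (rfl | rfl)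
    exacts [Subgroup.mem_zpowers _, h]
  exact this (hg ▸ Subgroup.mem_top x)

/-- A relation read off a mod 2 cycle with two `t`-edges, modulo the cosets of `s`. -/
theorem cyc_of_cycle (tf : ∀ a : D, a ≠ 1 → ¬ IsOfFinOrder a)
    (cent : ∀ a : D, a ≠ 1 → IsCyclic (Subgroup.centralizer ({a} : Set D)))
    {s t x y : D} (hg : Subgroup.closure {s, t} = ⊤) (hxy : x ≠ y)
    (h : ∀ u : D → ZMod 2, (∀ g, u (g * s) = u g) → u x + u (x * t) + (u y + u (y * t)) = 0) :
    IsCyclic D := by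
  classical
  by_cases hts : t ∈ Subgroup.zpowers s
  · exact cyc_of_mem hg hts
  have ht : t ≠ 1 := by rintro rfl; exact hts (one_mem _)
  have key : ∀ z : D, (if z⁻¹ * x ∈ Subgroup.zpowers s then (1 : ZMod 2) else 0) +
      (if z⁻¹ * (x * t) ∈ Subgroup.zpowers s then 1 else 0) +
      ((if z⁻¹ * y ∈ Subgroup.zpowers s then 1 else 0) +
      (if z⁻¹ * (y * t) ∈ Subgroup.zpowers s then 1 else 0)) = 0 := fun z =>
    h (fun g => if z⁻¹ * g ∈ Subgroup.zpowers s then 1 else 0) fun g => by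
      simp only [← mul_assoc, Subgroup.mul_mem_cancel_right _ (Subgroup.mem_zpowers s)]
  have k1 := key x
  have k2 := key (x * t)
  have a1 : x⁻¹ * (x * t) ∉ Subgroup.zpowers s := by simpa using hts
  have a2 : (x * t)⁻¹ * x ∉ Subgroup.zpowers s := by simpa using hts
  rw [if_pos (by simp), if_neg a1] at k1
  rw [if_neg a2, if_pos (by simp)] at k2
  by_cases b1 : x⁻¹ * y ∈ Subgroup.zpowers s
  · have b2 : (x * t)⁻¹ * y ∉ Subgroup.zpowers s := fun b => a2 (by
      have := mul_mem b (inv_mem b1)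
      simpa [mul_assoc] using this)
    have b3 : (x * t)⁻¹ * (y * t) ∈ Subgroup.zpowers s := by
      by_contra b3
      rw [if_neg b2, if_neg b3] at k2
      exact absurd k2 (by decide)
    obtain ⟨m, hm⟩ := Subgroup.mem_zpowers_iff.1 b1
    obtain ⟨n, hn⟩ := Subgroup.mem_zpowers_iff.1 b3
    refine cyc_of_bs tf cent hg ht (m := m) (n := n) ?_ (by rw [hm, hn]; group)
    rw [hm]
    exact fun e => hxy (inv_mul_eq_one.1 e)
  · have b2 : x⁻¹ * (y * t) ∈ Subgroup.zpowers s := by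
      by_contra b2
      rw [if_neg b1, if_neg b2] at k1
      exact absurd k1 (by decide)
    have b3 : (x * t)⁻¹ * (y * t) ∉ Subgroup.zpowers s := fun b => a2 (by
      have := mul_mem b (inv_mem b2)
      simpa [mul_assoc] using this)
    have b4 : (x * t)⁻¹ * y ∈ Subgroup.zpowers s := by
      by_contra b4
      rw [if_neg b4, if_neg b3] at k2
      exact absurd k2 (by decide)
    obtain ⟨n, hn⟩ := Subgroup.mem_zpowers_iff.1 b2
    obtain ⟨m, hm⟩ := Subgroup.mem_zpowers_iff.1 b4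
    refine cyc_of_sq tf cent hg (m := m) (n := n) (fun e => hts ?_) (by rw [hm, hn]; group)
    rw [mul_eq_one_iff_eq_inv] at e
    rw [e]
    exact inv_mem (Subgroup.zpow_mem_zpowers s m)

end Grp

section Off
variable (D : Type) {X : Type} [Group D] [MulAction D X]

/-- The complement of an orbit. -/
def off (y : X) : SubMulAction D X where
  carrier := {x | x ∉ orbit D y}
  smul_mem' := fun g _ hx h => hx (by simpa using mem_orbit_of_mem_orbit g⁻¹ h)

theorem off_card (y : X) [Finite (orbitRel.Quotient D X)] :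
    Finite (orbitRel.Quotient D (off D y)) ∧
      Nat.card (orbitRel.Quotient D (off D y)) + 1 = Nat.card (orbitRel.Quotient D X) := by
  classical
  let j : orbitRel.Quotient D (off D y) → {q : orbitRel.Quotient D X // ¬ q = Quotient.mk'' y} :=
    Quotient.lift (fun x => ⟨Quotient.mk'' x.1, fun h => x.2 (Quotient.exact h)⟩)
      fun a b ⟨g, h⟩ => Subtype.ext (Quotient.sound ⟨g, congrArg Subtype.val h⟩)
  have hj : Bijective j := by
    constructor
    · rintro ⟨a⟩ ⟨b⟩ h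
      obtain ⟨g, hg⟩ := Quotient.exact (congrArg Subtype.val h)
      exact Quotient.sound ⟨g, Subtype.ext hg⟩
    · rintro ⟨⟨x⟩, hx⟩
      exact ⟨Quotient.mk'' ⟨x, fun h => hx (Quotient.sound h)⟩, rfl⟩
  refine ⟨Finite.of_injective j hj.1, ?_⟩
  rw [Nat.card_eq_of_bijective j hj]
  have := Fintype.ofFinite (orbitRel.Quotient D X)
  rw [Nat.card_eq_fintype_card, Nat.card_eq_fintype_card, Fintype.card_subtype_compl,
    Fintype.card_subtype_eq]
  have : 0 < Fintype.card (orbitRel.Quotient D X) := Fintype.card_pos_iff.2 ⟨Quotient.mk'' y⟩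
  omega

end Off

/-- Vertices, edges with two ends and two sides, faces; a free action with finitely many orbits;
both graphs are connected and the mod 2 boundary of a boundary vanishes. -/
structure Srf (D V E F : Type) [Group D] [MulAction D V] [MulAction D E] [MulAction D F] where
  a0 : E → V
  a1 : E → V
  p0 : E → F
  p1 : E → F
  ea0 : ∀ (g : D) e, a0 (g • e) = g • a0 e
  ea1 : ∀ (g : D) e, a1 (g • e) = g • a1 e
  ep0 : ∀ (g : D) e, p0 (g • e) = g • p0 e
  ep1 : ∀ (g : D) e, p1 (g • e) = g • p1 e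
  fV : ∀ (g : D) (v : V), g • v = v → g = 1
  fF : ∀ (g : D) (f : F), g • f = f → g = 1
  neV : Nonempty V
  neF : Nonempty F
  cV : ∀ x y, EqvGen (fun x y => ∃ e, a0 e = x ∧ a1 e = y) x y
  cF : ∀ x y, EqvGen (fun x y => ∃ e, p0 e = x ∧ p1 e = y) x y
  finV : Finite (orbitRel.Quotient D V)
  finE : Finite (orbitRel.Quotient D E)
  finF : Finite (orbitRel.Quotient D F)
  orth : ∀ (u : V → ZMod 2) (w : F → ZMod 2), (support u).Finite ∨ (support w).Finite →
    ∑ᶠ e, (u (a0 e) + u (a1 e)) * (w (p0 e) + w (p1 e)) = 0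

variable {D V E F : Type} [Group D] [MulAction D V] [MulAction D E] [MulAction D F]

/-- The dual cell structure. -/
def Srf.swap (S : Srf D V E F) : Srf D F E V :=
  { a0 := S.p0, a1 := S.p1, p0 := S.a0, p1 := S.a1, ea0 := S.ep0, ea1 := S.ep1, ep0 := S.ea0,
    ep1 := S.ea1, fV := S.fF, fF := S.fV, neV := S.neF, neF := S.neV, cV := S.cF, cF := S.cV,
    finV := S.finF, finE := S.finE, finF := S.finV,
    orth := fun u w h => by simpa only [mul_comm] using S.orth w u h.symm }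

theorem free_inj {X : Type} [MulAction D X] (fr : ∀ (g : D) (x : X), g • x = x → g = 1) {g h : D}
    {x : X} (e : g • x = h • x) : g = h :=
  (inv_mul_eq_one.1 (fr (h⁻¹ * g) x (by rw [mul_smul, e, inv_smul_smul]))).symm

theorem const_of_eqv {X : Type} {r : X → X → Prop} {P : X → Prop} (h : ∀ x y, r x y → (P x ↔ P y))
    {x y : X} (e : EqvGen r x y) : P x ↔ P y := by
  induction e with
  | rel x y e => exact h x y e
  | refl => rfl
  | symm _ _ _ ih => exact ih.symm
  | trans _ _ _ _ _ i j => exact i.trans j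

theorem ind_fin {X : Type} [DecidableEq X] (y : X) :
    (support fun x => if x = y then (1 : ZMod 2) else 0).Finite :=
  (Set.finite_singleton y).subset fun x hx => by
    by_contra h
    exact hx (if_neg h)

theorem exists_retr (fF : ∀ (g : D) (f : F), g • f = f → g = 1) {y z : F} (h : y ∉ orbit D z) :
    ∃ r : F → off D z, (∀ (g : D) f, r (g • f) = g • r f) ∧ (∀ f : off D z, r f.1 = f) ∧
      (r z).1 = y ∧ ∀ b, (r ⁻¹' {b}).Finite := by
  classical
  let r : F → off D z := fun f =>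
    if hf : f ∈ orbit D z then ⟨hf.choose • y, (off D z).smul_mem _ h⟩ else ⟨f, hf⟩
  have r1 : ∀ g : D, (r (g • z)).1 = g • y := fun g => by
    have hf : g • z ∈ orbit D z := mem_orbit z g
    simp only [r, dif_pos hf]
    rw [free_inj fF hf.choose_spec]
  have r2 : ∀ f : off D z, r f.1 = f := fun f => dif_neg f.2
  refine ⟨r, fun g f => ?_, r2, by simpa using r1 1, fun b => ?_⟩
  · by_cases hf : f ∈ orbit D z
    · obtain ⟨k, rfl⟩ := hf
      exact Subtype.ext (by rw [SubMulAction.val_smul, ← mul_smul, r1, r1, mul_smul])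
    · exact (r2 (g • ⟨f, hf⟩)).trans (congrArg _ (r2 ⟨f, hf⟩).symm)
  · have hs : ({g : D | g • y = b.1}).Subsingleton := fun g hg k hk =>
      free_inj fF (hg.trans hk.symm)
    refine ((hs.finite.image fun g => g • z).insert b.1).subset fun f hf => ?_
    by_cases hz : f ∈ orbit D z
    · obtain ⟨k, rfl⟩ := hz
      exact Or.inr ⟨k, (r1 k).symm.trans (congrArg Subtype.val hf), rfl⟩
    · exact Or.inl (congrArg Subtype.val ((r2 ⟨f, hz⟩).symm.trans hf))

/-- Two faces in different orbits are merged across an edge, equivariantly. -/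
theorem Srf.merge (S : Srf D V E F) (e : E) (h : S.p0 e ∉ orbit D (S.p1 e)) :
    Nonempty (Srf D V (off D e) (off D (S.p1 e))) := by
  classical
  obtain ⟨r, re, r2, r1, rf⟩ := exists_retr S.fF h
  have := S.finE
  have := S.finF
  have rr : ∀ x ∈ orbit D e, r (S.p0 x) = r (S.p1 x) := by
    rintro _ ⟨g, rfl⟩
    rw [S.ep0, S.ep1, re, re, r2 ⟨S.p0 e, h⟩]
    exact congrArg _ (Subtype.ext r1.symm)
  have con : ∀ x ∈ orbit D e, EqvGen (fun x y => ∃ e : off D e, S.a0 e.1 = x ∧ S.a1 e.1 = y)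
      (S.a0 x) (S.a1 x) := by
    rintro _ ⟨g, rfl⟩
    by_contra hc
    have o := S.orth (fun v => if EqvGen (fun x y => ∃ e : off D e, S.a0 e.1 = x ∧ S.a1 e.1 = y)
      (S.a0 (g • e)) v then 1 else 0) (fun f => if f = S.p0 (g • e) then 1 else 0)
      (Or.inr (ind_fin _))
    have n1 : ∀ k : D, S.p1 (k • e) ≠ S.p0 (g • e) := fun k hk => h ⟨g⁻¹ * k, by
      rw [S.ep1, S.ep0] at hk
      simp only [mul_smul, hk, inv_smul_smul]⟩
    rw [finsum_eq_single _ (g • e)] at o
    · rw [if_pos (EqvGen.refl _), if_neg hc, if_pos rfl, if_neg (n1 g)] at o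
      exact absurd o (by decide)
    · intro x hx
      by_cases hx' : x ∈ orbit D e
      · obtain ⟨k, rfl⟩ := hx'
        have n0 : S.p0 (k • e) ≠ S.p0 (g • e) := fun hk => hx (by
          rw [S.ep0, S.ep0] at hk
          simp only [free_inj S.fF hk])
        rw [if_neg (n1 k), if_neg n0, add_zero, mul_zero]
      · have st := EqvGen.rel (r := fun x y => ∃ e : off D e, S.a0 e.1 = x ∧ S.a1 e.1 = y) _ _
          ⟨⟨x, hx'⟩, rfl, rfl⟩
        rw [if_congr (⟨fun c => c.trans _ _ _ st, fun c => c.trans _ _ _ (st.symm _ _)⟩ :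
          EqvGen _ _ (S.a0 x) ↔ EqvGen _ _ (S.a1 x)) rfl rfl, CharTwo.add_self_eq_zero, zero_mul]
  refine ⟨{ a0 := fun x => S.a0 x.1
            a1 := fun x => S.a1 x.1
            p0 := fun x => r (S.p0 x.1)
            p1 := fun x => r (S.p1 x.1)
            ea0 := fun g x => S.ea0 g x.1
            ea1 := fun g x => S.ea1 g x.1
            ep0 := fun g x => by rw [SubMulAction.val_smul, S.ep0, re]
            ep1 := fun g x => by rw [SubMulAction.val_smul, S.ep1, re]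
            fV := S.fV
            fF := fun g f hf => S.fF g f.1 (congrArg Subtype.val hf)
            neV := S.neV
            neF := ⟨⟨_, h⟩⟩
            cV := fun x y => ?_
            cF := fun x y => ?_
            finV := S.finV
            finE := (off_card D e).1
            finF := (off_card D _).1
            orth := fun u w hw => ?_ }⟩
  · have := S.cV x y
    induction this with
    | rel x y c =>
      obtain ⟨c, rfl, rfl⟩ := c
      by_cases hc : c ∈ orbit D e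
      · exact con c hc
      · exact EqvGen.rel _ _ ⟨⟨c, hc⟩, rfl, rfl⟩
    | refl => exact EqvGen.refl _
    | symm _ _ _ ih => exact ih.symm _ _
    | trans _ _ _ _ _ i j => exact i.trans _ _ _ j
  · rw [← r2 x, ← r2 y]
    have := S.cF x.1 y.1
    generalize x.1 = a, y.1 = b at this
    induction this with
    | rel x y c =>
      obtain ⟨c, rfl, rfl⟩ := c
      by_cases hc : c ∈ orbit D e
      · rw [rr c hc]; exact EqvGen.refl _
      · exact EqvGen.rel _ _ ⟨⟨c, hc⟩, rfl, rfl⟩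
    | refl => exact EqvGen.refl _
    | symm _ _ _ ih => exact ih.symm _ _
    | trans _ _ _ _ _ i j => exact i.trans _ _ _ j
  · have o := S.orth u (fun f => w (r f)) (hw.imp id fun hw => hw.preimage' fun b _ => rf b)
    rw [← o]
    refine (finsum_subtype_eq_finsum_cond (f := fun x => (u (S.a0 x) + u (S.a1 x)) *
      (w (r (S.p0 x)) + w (r (S.p1 x)))) (p := fun x => x ∉ orbit D e)).trans
      (finsum_congr fun x => ?_)
    rw [finsum_eq_if]
    split_ifs with hx
    · rw [rr x hx, CharTwo.add_self_eq_zero, mul_zero]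
    · rfl

theorem Srf.gen (S : Srf D V E F) {v : V} (tr : ∀ x, ∃ g : D, g • v = x) (H : Subgroup D)
    (hH : ∀ e (s : D), S.a0 e = v → S.a1 e = s • v → s ∈ H) : H = ⊤ := by
  refine eq_top_iff.2 fun g _ => ?_
  have := (const_of_eqv (P := fun x => ∃ k ∈ H, k • v = x) ?_ (S.cV v (g • v))).1
    ⟨1, one_mem _, one_smul _ _⟩
  · obtain ⟨k, hk, e⟩ := this
    exact free_inj S.fV e ▸ hk
  · rintro _ _ ⟨e, rfl, rfl⟩
    obtain ⟨a, ha⟩ := tr (S.a0 e)
    obtain ⟨b, hb⟩ := tr (S.a1 e)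
    have := hH (a⁻¹ • e) (a⁻¹ * b) (by rw [S.ea0, ← ha, inv_smul_smul])
      (by rw [S.ea1, mul_smul, hb])
    constructor
    · rintro ⟨k, hk, c⟩
      obtain rfl := free_inj S.fV (c.trans ha.symm)
      exact ⟨b, by simpa using mul_mem hk this, hb⟩
    · rintro ⟨k, hk, c⟩
      obtain rfl := free_inj S.fV (c.trans hb.symm)
      exact ⟨a, by simpa using mul_mem hk (inv_mem this), ha⟩

theorem Srf.two (S : Srf D V E F) (tf : ∀ a : D, a ≠ 1 → ¬ IsOfFinOrder a)
    (cent : ∀ a : D, a ≠ 1 → IsCyclic (Subgroup.centralizer ({a} : Set D)))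
    {v : V} (tr : ∀ x, ∃ g : D, g • v = x) {e e' : E} {s t x y : D} {f : F}
    (hg : Subgroup.closure {s, t} = ⊤) (h0 : S.a0 e = v) (h1 : S.a1 e = s • v) (k0 : S.a0 e' = v)
    (k1 : S.a1 e' = t • v) (all : ∀ c, c ∈ orbit D e ∨ c ∈ orbit D e') (hx : x • S.p0 e' = f)
    (hy : y • S.p1 e' = f) (hxy : x ≠ y) : IsCyclic D := by
  classical
  refine cyc_of_cycle tf cent hg hxy fun u hu => ?_
  choose c hc using tr
  have cc : ∀ g : D, c (g • v) = g := fun g => free_inj S.fV (hc _)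
  have o := S.orth (fun z => u (c z)) (fun z => if z = f then 1 else 0) (Or.inr (ind_fin _))
  have i0 : ∀ g : D, S.p0 (g • e') = f ↔ g = x := fun g => by
    rw [S.ep0, ← hx]; exact ⟨free_inj S.fF, fun h => by rw [h]⟩
  have i1 : ∀ g : D, S.p1 (g • e') = f ↔ g = y := fun g => by
    rw [S.ep1, ← hy]; exact ⟨free_inj S.fF, fun h => by rw [h]⟩
  have ne : x • e' ≠ y • e' := fun h => hxy (free_inj S.fV (by rw [← S.ea0, ← S.ea0, h]))
  rw [finsum_eq_sum_of_support_subset (s := {x • e', y • e'}), Finset.sum_pair ne] at o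
  · simp only [i0, i1, S.ea0, S.ea1, k0, k1, ← mul_smul, cc, hxy, hxy.symm] at o
    simpa using o
  · intro z hz
    rcases all z with ⟨g, rfl⟩ | ⟨g, rfl⟩
    · refine absurd ?_ hz
      simp only [S.ea0, S.ea1, h0, h1, ← mul_smul, cc, hu, CharTwo.add_self_eq_zero, zero_mul]
    · by_contra hn
      refine hz ?_
      have n0 : g ≠ x := by rintro rfl; exact hn (by simp)
      have n1 : g ≠ y := by rintro rfl; exact hn (by simp)
      simp [i0, i1, n0, n1]

theorem Srf.last (S : Srf D V E F) (tf : ∀ a : D, a ≠ 1 → ¬ IsOfFinOrder a)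
    (cent : ∀ a : D, a ≠ 1 → IsCyclic (Subgroup.centralizer ({a} : Set D)))
    (tV : ∀ v x : V, ∃ g : D, g • v = x) (tF : ∀ v x : F, ∃ g : D, g • v = x)
    (h2 : Nat.card (orbitRel.Quotient D E) ≤ 2) : IsCyclic D := by
  obtain ⟨v⟩ := S.neV
  obtain ⟨f⟩ := S.neF
  have := S.finE
  have one : ∀ s : D, Subgroup.zpowers s = ⊤ → IsCyclic D := fun s h =>
    ⟨s, fun x => (h ▸ Subgroup.mem_top x : x ∈ Subgroup.zpowers s)⟩
  have uniq : ∀ c e, S.a0 c = v → S.a0 e = v → c ∈ orbit D e → c = e := by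
    rintro _ e hc he ⟨g, rfl⟩
    rw [S.ea0, he] at hc
    simp only [S.fV g v hc, one_smul]
  by_cases hN : ∃ e, S.a0 e = v
  swap
  · exact one 1 (S.gen (tV v) _ fun e s h _ => (hN ⟨e, h⟩).elim)
  obtain ⟨e, h0⟩ := hN
  obtain ⟨s, h1⟩ := tV v (S.a1 e)
  by_cases hN : ∃ e', S.a0 e' = v ∧ e' ≠ e
  swap
  · refine one s (S.gen (tV v) _ fun c t h k => ?_)
    obtain rfl : c = e := by by_contra n; exact hN ⟨c, h, n⟩
    rw [free_inj S.fV (k.symm.trans h1.symm)]
    exact Subgroup.mem_zpowers s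
  obtain ⟨e', k0, ne⟩ := hN
  obtain ⟨t, k1⟩ := tV v (S.a1 e')
  have all : ∀ c, c ∈ orbit D e ∨ c ∈ orbit D e' := fun c => by
    by_contra n
    rw [not_or] at n
    have := Fintype.ofFinite (orbitRel.Quotient D E)
    rw [Nat.card_eq_fintype_card] at h2
    exact absurd (Fintype.two_lt_card_iff.2 ⟨Quotient.mk'' c, Quotient.mk'' e', Quotient.mk'' e,
      fun q => n.2 (Quotient.exact q), fun q => n.1 (Quotient.exact q),
      fun q => ne (uniq _ _ k0 h0 (Quotient.exact q))⟩) (not_lt.2 h2)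
  have hg : Subgroup.closure {s, t} = ⊤ := S.gen (tV v) _ fun c q h k => by
    rcases all c with n | n
    · obtain rfl := uniq _ _ h h0 n
      rw [free_inj S.fV (k.symm.trans h1.symm)]
      exact Subgroup.subset_closure (by simp)
    · obtain rfl := uniq _ _ h k0 n
      rw [free_inj S.fV (k.symm.trans k1.symm)]
      exact Subgroup.subset_closure (by simp)
  obtain ⟨x, hx⟩ := tF (S.p0 e') f
  obtain ⟨y, hy⟩ := tF (S.p1 e') f
  obtain ⟨x', hx'⟩ := tF (S.p0 e) f
  obtain ⟨y', hy'⟩ := tF (S.p1 e) f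
  by_cases hxy : x = y
  swap
  · exact S.two tf cent (tV v) hg h0 h1.symm k0 k1.symm all hx hy hxy
  by_cases hxy' : x' = y'
  swap
  · exact S.two tf cent (tV v) (Set.pair_comm s t ▸ hg) k0 k1.symm h0 h1.symm
      (fun c => (all c).symm) hx' hy' hxy'
  subst hxy hxy'
  have q' : S.p0 e' = S.p1 e' := smul_left_cancel x (hx.trans hy.symm)
  have q : S.p0 e = S.p1 e := smul_left_cancel x' (hx'.trans hy'.symm)
  refine one 1 (eq_top_iff.2 fun g _ => ?_)
  have := (const_of_eqv (P := fun z => z = f) ?_ (S.cF f (g • f))).1 rfl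
  · rw [S.fF g f this]; exact one_mem _
  · rintro _ _ ⟨c, rfl, rfl⟩
    rcases all c with ⟨k, rfl⟩ | ⟨k, rfl⟩
    · rw [S.ep0, S.ep1, q]
    · rw [S.ep0, S.ep1, q']

theorem Srf.trans_F (S : Srf D V E F) (h : ∀ e, S.p0 e ∈ orbit D (S.p1 e)) (v x : F) :
    ∃ g : D, g • v = x := by
  refine (const_of_eqv (P := fun x => x ∈ orbit D v) ?_ (S.cF v x)).1 (mem_orbit_self v)
  rintro _ _ ⟨e, rfl, rfl⟩
  obtain ⟨g, hg⟩ := h e
  refine ⟨fun c => ?_, fun c => hg ▸ mem_orbit_of_mem_orbit g c⟩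
  have := mem_orbit_of_mem_orbit g⁻¹ c
  rwa [← hg, inv_smul_smul] at this

theorem card_le_one {X : Type} [MulAction D X] (h : ∀ v x : X, ∃ g : D, g • v = x) :
    Nat.card (orbitRel.Quotient D X) ≤ 1 := by
  have : Subsingleton (orbitRel.Quotient D X) :=
    ⟨by rintro ⟨a⟩ ⟨b⟩; exact Quotient.sound (h b a)⟩
  exact Finite.card_le_one_iff_subsingleton.2 this

theorem Srf.cyc_aux (tf : ∀ a : D, a ≠ 1 → ¬ IsOfFinOrder a)
    (cent : ∀ a : D, a ≠ 1 → IsCyclic (Subgroup.centralizer ({a} : Set D))) (n : ℕ) :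
    ∀ (V E F : Type) [MulAction D V] [MulAction D E] [MulAction D F] (_ : Srf D V E F),
      Nat.card (orbitRel.Quotient D E) = n →
      n ≤ Nat.card (orbitRel.Quotient D V) + Nat.card (orbitRel.Quotient D F) → IsCyclic D := by
  induction n using Nat.strong_induction_on with
  | _ n ih =>
    intro V E F _ _ _ S hn hc
    have := S.finV
    have := S.finE
    have := S.finF
    by_cases h1 : ∀ e, S.p0 e ∈ orbit D (S.p1 e)
    · by_cases h2 : ∀ e, S.a0 e ∈ orbit D (S.a1 e)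
      · have a := card_le_one (S.trans_F h1)
        have b := card_le_one (S.swap.trans_F h2)
        exact S.last tf cent (S.swap.trans_F h2) (S.trans_F h1) (by omega)
      · obtain ⟨e, he⟩ := not_forall.1 h2
        obtain ⟨S'⟩ := S.swap.merge e he
        have a := (off_card D e).2
        have b := (off_card D (S.swap.p1 e)).2
        exact ih _ (by omega) _ _ _ S' rfl (by omega)
    · obtain ⟨e, he⟩ := not_forall.1 h1
      obtain ⟨S'⟩ := S.merge e he
      have a := (off_card D e).2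
      have b := (off_card D (S.p1 e)).2
      exact ih _ (by omega) _ _ _ S' rfl (by omega)

/-- Surface lemma: non-negative Euler characteristic of the quotient forces a cyclic group. -/
theorem Srf.cyc (S : Srf D V E F) (tf : ∀ a : D, a ≠ 1 → ¬ IsOfFinOrder a)
    (cent : ∀ a : D, a ≠ 1 → IsCyclic (Subgroup.centralizer ({a} : Set D)))
    (chi : Nat.card (orbitRel.Quotient D E) ≤
      Nat.card (orbitRel.Quotient D V) + Nat.card (orbitRel.Quotient D F)) : IsCyclic D :=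
  Srf.cyc_aux tf cent _ V E F S rfl chi

end Pool.Agent.Work.MP_3d425c_gt.Bg.Sf
end

-- merged part: Pool.Agent.Work.MP_3d425c_gt.Bg.Surf2
section
/-! The surface lemma without connectivity: some component has a cyclic stabiliser. -/

namespace Pool.Agent.Work.MP_3d425c_gt.Bg.Sf
open Relation MulAction Function Pointwise Pool.Agent.Work.MP_3d425c_gt.Cy

theorem hyp_le {D : Type} [Group D] (h : Hyp D) (H : Subgroup D) : Hyp H := by
  refine ⟨fun a ha k => h.tf a.1 (fun e => ha (Subtype.ext e)) (H.subtype.isOfFinOrder k),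
    fun a ha => ?_⟩
  have := h.cent a.1 fun e => ha (Subtype.ext e)
  let j : Subgroup.centralizer ({a} : Set H) →* Subgroup.centralizer ({a.1} : Set D) :=
    (H.subtype.comp (Subgroup.subtype _)).codRestrict _ fun x =>
      Subgroup.mem_centralizer_singleton_iff.2
        (congrArg Subtype.val (Subgroup.mem_centralizer_singleton_iff.1 x.2))
  refine isCyclic_of_injective j fun x y e => Subtype.ext (Subtype.ext ?_)
  exact (congrArg Subtype.val e : (j x).1 = (j y).1)

theorem sum_even {ι β : Type} (g : ι → β) (f : β → ZMod 2) (s : Finset ι)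
    (hs : ∀ a, a ∉ s → f (g a) = 0) (ev : ∀ b, Even (Nat.card {a // g a = b})) :
    ∑ a ∈ s, f (g a) = 0 := by
  classical
  rw [Finset.sum_comp]
  refine Finset.sum_eq_zero fun b _ => ?_
  by_cases hb : f b = 0
  · rw [hb, smul_zero]
  · have := ev b
    rw [Nat.subtype_card (s.filter fun a => g a = b) fun a => by
      rw [Finset.mem_filter]
      exact ⟨fun h => h.2, fun h => ⟨by by_contra n; exact hb (h ▸ hs a n), h⟩⟩] at this
    obtain ⟨k, hk⟩ := this
    rw [hk, add_smul, CharTwo.add_self_eq_zero]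

variable {D X K : Type} [Group D] [MulAction D X] [MulAction D K]

theorem fibre_fin [Finite (orbitRel.Quotient D X)] (fr : ∀ (g : D) (b : K), g • b = b → g = 1)
    (f : X → K) (hf : ∀ (g : D) a, f (g • a) = g • f a) (b : K) : {a | f a = b}.Finite := by
  refine Set.Finite.of_finite_image (f := fun a => (Quotient.mk'' a : orbitRel.Quotient D X))
    (Set.toFinite _) fun a ha c hc e => ?_
  obtain ⟨g, rfl⟩ := Quotient.exact e
  have : g • b = b := by rw [← show f c = b from hc, ← hf]; exact ha.trans hc.symm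
  simp only [fr g b this, one_smul]

theorem orth_of {V E F : Type} [MulAction D V] [MulAction D E] [MulAction D F]
    [Finite (orbitRel.Quotient D E)] (fV : ∀ (g : D) (v : V), g • v = v → g = 1)
    (fF : ∀ (g : D) (c : F), g • c = c → g = 1) (en : E → Bool → V) (sd : E → Bool → F)
    (ee : ∀ (g : D) e i, en (g • e) i = g • en e i) (es : ∀ (g : D) e i, sd (g • e) i = g • sd e i)
    (ev : ∀ c v, Even (Nat.card {p : E × Bool × Bool // sd p.1 p.2.1 = c ∧ en p.1 p.2.2 = v}))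
    (u : V → ZMod 2) (w : F → ZMod 2) (h : (support u).Finite ∨ (support w).Finite) :
    ∑ᶠ e, (u (en e false) + u (en e true)) * (w (sd e false) + w (sd e true)) = 0 := by
  classical
  obtain ⟨T, hT⟩ : ∃ T : Finset E, ∀ e, e ∉ T → ∀ i j, w (sd e i) * u (en e j) = 0 := by
    rcases h with h | h
    · have := Set.finite_iUnion fun j => h.biUnion fun v _ =>
        fibre_fin fV (fun e => en e j) (fun g e => ee g e j) v
      refine ⟨this.toFinset, fun e he i j => mul_eq_zero_of_right _ ?_⟩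
      by_contra n
      exact he (this.mem_toFinset.2 (Set.mem_iUnion.2 ⟨j, Set.mem_biUnion n rfl⟩))
    · have := Set.finite_iUnion fun j => h.biUnion fun v _ =>
        fibre_fin fF (fun e => sd e j) (fun g e => es g e j) v
      refine ⟨this.toFinset, fun e he i j => mul_eq_zero_of_left ?_ _⟩
      by_contra n
      exact he (this.mem_toFinset.2 (Set.mem_iUnion.2 ⟨i, Set.mem_biUnion n rfl⟩))
  have ex : ∀ e, (u (en e false) + u (en e true)) * (w (sd e false) + w (sd e true)) =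
      ∑ p : Bool × Bool, w (sd e p.1) * u (en e p.2) := fun e => by
    simp only [Fintype.sum_prod_type, Fintype.sum_bool]
    ring
  simp only [ex]
  rw [finsum_eq_sum_of_support_subset (s := T) _ fun e he => by
    by_contra n
    exact he (Finset.sum_eq_zero fun p _ => hT e n _ _), ← Finset.sum_product']
  refine sum_even (fun p : E × Bool × Bool => (sd p.1 p.2.1, en p.1 p.2.2))
    (fun b => w b.1 * u b.2) _ (fun a ha => hT a.1 (fun n => ha ?_) _ _) fun b => ?_
  · exact Finset.mem_product.2 ⟨n, Finset.mem_univ _⟩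
  · simpa only [Prod.ext_iff] using ev b.1 b.2

/-- A fibre of an equivariant map. -/
def fib (κ : X → K) (hκ : ∀ (g : D) x, κ (g • x) = g • κ x) (k : K) :
    SubMulAction (stabilizer D k) X where
  carrier := {x | κ x = k}
  smul_mem' := fun g _ hx => (hκ g.1 _).trans ((congrArg _ hx).trans g.2)

/-- The induced map on orbits. -/
def qm (κ : X → K) (hκ : ∀ (g : D) x, κ (g • x) = g • κ x) :
    orbitRel.Quotient D X → orbitRel.Quotient D K :=
  Quotient.map' κ fun _ b ⟨g, h⟩ => ⟨g, (hκ g b).symm.trans (congrArg κ h)⟩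

theorem fib_card [Fintype (orbitRel.Quotient D X)] [DecidableEq (orbitRel.Quotient D K)]
    (κ : X → K) (hκ : ∀ (g : D) x, κ (g • x) = g • κ x) (k : K) :
    Finite (orbitRel.Quotient (stabilizer D k) (fib κ hκ k)) ∧
      Nat.card (orbitRel.Quotient (stabilizer D k) (fib κ hκ k)) =
        (Finset.univ.filter fun q => qm κ hκ q = Quotient.mk'' k).card := by
  let j : orbitRel.Quotient (stabilizer D k) (fib κ hκ k) →
      {q : orbitRel.Quotient D X // qm κ hκ q = Quotient.mk'' k} :=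
    Quotient.lift (fun x => ⟨Quotient.mk'' x.1, congrArg Quotient.mk'' x.2⟩)
      fun a b ⟨g, h⟩ => Subtype.ext (Quotient.sound ⟨g.1, congrArg Subtype.val h⟩)
  have hj : Bijective j := by
    constructor
    · rintro ⟨a⟩ ⟨b⟩ h
      obtain ⟨g, hg⟩ := Quotient.exact (congrArg Subtype.val h)
      have : g • k = k := by
        have e := hκ g b.1
        rw [show κ b.1 = k from b.2, show g • b.1 = a.1 from hg, show κ a.1 = k from a.2] at e
        exact e.symm
      exact Quotient.sound ⟨⟨g, this⟩, Subtype.ext hg⟩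
    · rintro ⟨⟨x⟩, hx⟩
      obtain ⟨g, hg⟩ := Quotient.exact hx
      refine ⟨Quotient.mk'' ⟨g⁻¹ • x, ?_⟩, Subtype.ext (Quotient.sound ⟨g⁻¹, rfl⟩)⟩
      show κ (g⁻¹ • x) = k
      rw [hκ, ← show g • k = κ x from hg, inv_smul_smul]
  refine ⟨Finite.of_injective j hj.1, ?_⟩
  rw [Nat.card_eq_of_bijective j hj, Nat.subtype_card _ fun q => ?_]
  simp

theorem conn_fib {X E K : Type} (en : E → Bool → X) (κ : X → K) (κE : E → K)
    (h : ∀ e i, κ (en e i) = κE e) (sur : ∀ v, ∃ e i, en e i = v)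
    (hc : ∀ e e', κE e = κE e' → EqvGen (fun x y => ∃ k l, en x k = en y l) e e') (U : K)
    (ρ : {x // κ x = U} → {x // κ x = U} → Prop)
    (hρ : ∀ e (he : κE e = U), ρ ⟨en e false, (h e _).trans he⟩ ⟨en e true, (h e _).trans he⟩)
    (x y : {x // κ x = U}) : EqvGen ρ x y := by
  have one : ∀ e i j hi hj, EqvGen ρ ⟨en e i, hi⟩ ⟨en e j, hj⟩ := fun e i j hi hj => by
    have st := EqvGen.rel _ _ (hρ e ((h e i).symm.trans hi))
    cases i <;> cases j
    exacts [EqvGen.refl _, st, st.symm _ _, EqvGen.refl _]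
  have key : ∀ e e', EqvGen (fun x y => ∃ k l, en x k = en y l) e e' → κE e = κE e' ∧
      ∀ i j hi hj, EqvGen ρ ⟨en e i, hi⟩ ⟨en e' j, hj⟩ := fun e e' c => by
    induction c with
    | rel a b c =>
      obtain ⟨k, l, c⟩ := c
      refine ⟨by rw [← h a k, c, h], fun i j hi hj => ?_⟩
      have hk : κ (en a k) = U := by rw [h, ← h a i, hi]
      exact (one a i k hi hk).trans _ _ _ (by
        rw [show (⟨en a k, hk⟩ : {x // κ x = U}) = ⟨en b l, c ▸ hk⟩ from Subtype.ext c]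
        exact one b l j _ hj)
    | refl a => exact ⟨rfl, one a⟩
    | symm _ _ _ ih => exact ⟨ih.1.symm, fun i j hi hj => (ih.2 j i hj hi).symm _ _⟩
    | trans a b c _ _ p q =>
      refine ⟨p.1.trans q.1, fun i j hi hj => ?_⟩
      have hb : κ (en b i) = U := by rw [h, ← p.1, ← h a i, hi]
      exact (p.2 i i hi hb).trans _ _ _ (q.2 i j hb hj)
  obtain ⟨x, hx⟩ := x
  obtain ⟨y, hy⟩ := y
  obtain ⟨e, i, rfl⟩ := sur x
  obtain ⟨e', j, rfl⟩ := sur y
  exact (key e e' (hc e e' (by rw [← h e i, hx, ← hy, h]))).2 i j hx hy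

theorem fin_of_sur {E : Type} [MulAction D E] [Finite (orbitRel.Quotient D E)] (en : E → Bool → X)
    (ee : ∀ (g : D) e i, en (g • e) i = g • en e i) (sur : ∀ v, ∃ e i, en e i = v) :
    Finite (orbitRel.Quotient D X) :=
  Finite.of_surjective (fun p : orbitRel.Quotient D E × Bool =>
    qm (fun e => en e p.2) (fun g e => ee g e p.2) p.1) fun q => by
      obtain ⟨v⟩ := q
      obtain ⟨e, i, rfl⟩ := sur v
      exact ⟨(Quotient.mk'' e, i), rfl⟩

theorem ext_zero {P : X → Prop} (u : Subtype P → ZMod 2) : ∃ u' : X → ZMod 2,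
    (∀ x h, u' x = u ⟨x, h⟩) ∧ (∀ x, ¬ P x → u' x = 0) ∧
      ((support u).Finite → (support u').Finite) := by
  classical
  refine ⟨fun x => if h : P x then u ⟨x, h⟩ else 0, fun x h => dif_pos h, fun x h => dif_neg h,
    fun h => (h.image Subtype.val).subset fun x hx => ?_⟩
  by_cases c : P x
  · exact ⟨⟨x, c⟩, fun e => hx ((dif_pos c).trans e), rfl⟩
  · exact (hx (dif_neg c)).elim

theorem eqv_le {E : Type} {r s : E → E → Prop} (h : ∀ x y, r x y → EqvGen s x y) {x y : E}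
    (c : EqvGen r x y) : EqvGen s x y := by
  induction c with
  | rel x y c => exact h x y c
  | refl => exact EqvGen.refl _
  | symm _ _ _ ih => exact ih.symm _ _
  | trans _ _ _ _ _ i j => exact i.trans _ _ _ j

theorem surf : S_surf := by
  intro D V E F _ _ _ _ hD fV fF finE ⟨e₀⟩ en sd ee es sV sF ev lV lF chi
  classical
  have finE' : Finite (orbitRel.Quotient D E) := finE
  have := fin_of_sur en ee sV
  have := fin_of_sur sd es sF
  have := Fintype.ofFinite (orbitRel.Quotient D E)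
  have := Fintype.ofFinite (orbitRel.Quotient D V)
  have := Fintype.ofFinite (orbitRel.Quotient D F)
  obtain ⟨r, hr⟩ : ∃ r, r = EqvGen (fun x y : E => ∃ k l, en x k = en y l) := ⟨_, rfl⟩
  have eq : Equivalence r := hr ▸ EqvGen.is_equivalence _
  have rV : ∀ e e' i j, en e i = en e' j → r e e' := fun e e' i j h =>
    hr ▸ EqvGen.rel _ _ ⟨i, j, h⟩
  have rF : ∀ e e' i j, sd e i = sd e' j → r e e' := fun e e' i j h => hr ▸ lF e e' i j h
  have rs : ∀ (g : D) e e', r e e' → r (g • e) (g • e') := fun g e e' h => by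
    rw [hr] at h
    induction h with
    | rel x y c => obtain ⟨k, l, c⟩ := c; exact rV _ _ k l (by rw [ee, ee, c])
    | refl => exact eq.refl _
    | symm _ _ _ ih => exact eq.symm ih
    | trans _ _ _ _ _ i j => exact eq.trans i j
  obtain ⟨κE, kE⟩ : ∃ κE : E → Set E, ∀ e x, x ∈ κE e ↔ r e x :=
    ⟨fun e => {x | r e x}, fun _ _ => Iff.rfl⟩
  have kr : ∀ e e', κE e = κE e' ↔ r e e' := fun e e' =>
    ⟨fun h => (kE e e').1 (h ▸ (kE e' e').2 (eq.refl _)), fun h => Set.ext fun x => by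
      rw [kE, kE]; exact ⟨eq.trans (eq.symm h), eq.trans h⟩⟩
  have hE : ∀ (g : D) e, κE (g • e) = g • κE e := fun g e => Set.ext fun x => by
    rw [Set.mem_smul_set_iff_inv_smul_mem, kE, kE]
    exact ⟨fun h => by simpa using rs g⁻¹ _ _ h, fun h => by simpa using rs g _ _ h⟩
  choose cV iV qV using sV
  choose cF iF qF using sF
  have kV : ∀ e i, κE (cV (en e i)) = κE e := fun e i => (kr _ _).2 (rV _ _ _ _ (qV _))
  have kF : ∀ e i, κE (cF (sd e i)) = κE e := fun e i => (kr _ _).2 (rF _ _ _ _ (qF _))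
  have hV : ∀ (g : D) v, κE (cV (g • v)) = g • κE (cV v) := fun g v => by
    rw [← hE, ← kV (g • cV v) (iV v), ee, qV]
  have hF : ∀ (g : D) v, κE (cF (g • v)) = g • κE (cF v) := fun g v => by
    rw [← hE, ← kF (g • cF v) (iF v), es, qF]
  let t := Finset.univ.image (qm κE hE)
  have mt : ∀ e, Quotient.mk'' (κE e) ∈ t := fun e =>
    Finset.mem_image.2 ⟨Quotient.mk'' e, Finset.mem_univ _, rfl⟩
  have c1 := Finset.card_eq_sum_card_fiberwise (s := Finset.univ) (t := t) (f := qm κE hE)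
    (by rintro ⟨e⟩ _; exact mt e)
  have c2 := Finset.card_eq_sum_card_fiberwise (s := Finset.univ) (t := t)
    (f := qm (fun v => κE (cV v)) hV) (by rintro ⟨e⟩ _; exact mt _)
  have c3 := Finset.card_eq_sum_card_fiberwise (s := Finset.univ) (t := t)
    (f := qm (fun v => κE (cF v)) hF) (by rintro ⟨e⟩ _; exact mt _)
  have chi' : Nat.card (orbitRel.Quotient D E) ≤
    Nat.card (orbitRel.Quotient D V) + Nat.card (orbitRel.Quotient D F) := chi
  simp only [Nat.card_eq_fintype_card, ← Finset.card_univ] at chi'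
  rw [c1, c2, c3, ← Finset.sum_add_distrib] at chi'
  obtain ⟨q, hq, le⟩ := Finset.exists_le_of_sum_le ⟨_, mt e₀⟩ chi'
  obtain ⟨⟨e⟩, -, rfl⟩ := Finset.mem_image.1 hq
  obtain ⟨f1, d1⟩ := fib_card κE hE (κE e)
  obtain ⟨f2, d2⟩ := fib_card (fun v => κE (cV v)) hV (κE e)
  obtain ⟨f3, d3⟩ := fib_card (fun v => κE (cF v)) hF (κE e)
  have S : Srf (stabilizer D (κE e)) (fib (fun v => κE (cV v)) hV (κE e)) (fib κE hE (κE e))
      (fib (fun v => κE (cF v)) hF (κE e)) :=
    { a0 := fun x => ⟨en x.1 false, (kV _ _).trans x.2⟩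
      a1 := fun x => ⟨en x.1 true, (kV _ _).trans x.2⟩
      p0 := fun x => ⟨sd x.1 false, (kF _ _).trans x.2⟩
      p1 := fun x => ⟨sd x.1 true, (kF _ _).trans x.2⟩
      ea0 := fun g x => Subtype.ext (ee g.1 x.1 _)
      ea1 := fun g x => Subtype.ext (ee g.1 x.1 _)
      ep0 := fun g x => Subtype.ext (es g.1 x.1 _)
      ep1 := fun g x => Subtype.ext (es g.1 x.1 _)
      fV := fun g v h => Subtype.ext (fV g.1 v.1 (congrArg Subtype.val h))
      fF := fun g v h => Subtype.ext (fF g.1 v.1 (congrArg Subtype.val h))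
      neV := ⟨⟨en e false, kV _ _⟩⟩
      neF := ⟨⟨sd e false, kF _ _⟩⟩
      cV := conn_fib en (fun v => κE (cV v)) κE kV (fun v => ⟨_, _, qV v⟩)
        (fun a b h => hr ▸ (kr a b).1 h) _ _ fun a ha => ⟨⟨a, ha⟩, rfl, rfl⟩
      cF := conn_fib sd (fun v => κE (cF v)) κE kF (fun v => ⟨_, _, qF v⟩)
        (fun a b h => eqv_le (fun x y ⟨k, l, c⟩ => lV x y k l c) (hr ▸ (kr a b).1 h)) _ _
        fun a ha => ⟨⟨a, ha⟩, rfl, rfl⟩
      finV := f2
      finE := f1
      finF := f3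
      orth := fun u w h => by
        obtain ⟨u', u1, u2, u3⟩ := ext_zero u
        obtain ⟨w', w1, -, w3⟩ := ext_zero w
        rw [← orth_of fV fF en sd ee es ev u' w' (h.imp u3 w3)]
        simp only [← u1, ← w1]
        refine (finsum_subtype_eq_finsum_cond (f := fun x => (u' (en x false) + u' (en x true)) *
          (w' (sd x false) + w' (sd x true))) (p := fun x => κE x = κE e)).trans
          (finsum_congr fun x => ?_)
        rw [finsum_eq_if]
        split_ifs with hx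
        · rfl
        · rw [u2 _ fun c => hx ((kV x false).symm.trans c),
            u2 _ fun c => hx ((kV x true).symm.trans c), add_zero, zero_mul] }
  have hH := hyp_le hD (stabilizer D (κE e))
  obtain ⟨a, ha⟩ := (S.cyc hH.tf hH.cent (by rw [d1, d2, d3]; exact le)).exists_generator
  refine ⟨a.1, κE e, ⟨e, (kE _ _).2 (eq.refl _)⟩, fun x hx y i j h => ?_, fun x => ?_, ?_⟩
  · exact (kE _ _).2 (eq.trans ((kE _ _).1 hx) (rV _ _ _ _ h))
  · have h : a.1 • x ∈ a.1 • κE e ↔ x ∈ κE e := Set.smul_mem_smul_set_iff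
    rwa [show a.1 • κE e = κE e from a.2] at h
  · refine ⟨Set.range fun q : orbitRel.Quotient (stabilizer D (κE e)) (fib κE hE (κE e)) =>
      (Quotient.out q).1, Set.finite_range _, fun x hx => ?_⟩
    let y : fib κE hE (κE e) := ⟨x, ((kr _ _).2 ((kE _ _).1 hx)).symm⟩
    obtain ⟨g, hg⟩ := Quotient.exact (Quotient.out_eq (Quotient.mk'' y :
      orbitRel.Quotient (stabilizer D (κE e)) (fib κE hE (κE e)))).symm
    obtain ⟨n, rfl⟩ := Subgroup.mem_zpowers_iff.1 (ha g)
    exact ⟨_, ⟨Quotient.mk'' y, rfl⟩, n, (congrArg Subtype.val hg).symm⟩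

end Pool.Agent.Work.MP_3d425c_gt.Bg.Sf
end

-- merged part: Pool.Agent.Work.MP_3d425c_gt.Bg.Surf3
section
/-! The surface lemma for groups whose centralisers are abelian and malnormal. -/

namespace Pool.Agent.Work.MP_3d425c_gt.Bg.Sf
open Relation MulAction Function Pointwise

/-- Torsion free with abelian malnormal centralisers. -/
structure Csa (D : Type) [Group D] : Prop where
  tf : ∀ a : D, a ≠ 1 → ¬ IsOfFinOrder a
  ct : ∀ a x y : D, a ≠ 1 → x * a = a * x → y * a = a * y → x * y = y * x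
  mn : ∀ a g : D, a ≠ 1 → a * (g * a * g⁻¹) = g * a * g⁻¹ * a → g * a = a * g

variable {D V E F : Type} [Group D] [MulAction D V] [MulAction D E] [MulAction D F]

theorem Csa.sub (h : Csa D) (H : Subgroup D) : Csa H :=
  ⟨fun a ha k => h.tf a.1 (fun e => ha (Subtype.ext e)) (H.subtype.isOfFinOrder k),
    fun a x y ha p q => Subtype.ext (h.ct a.1 x.1 y.1 (fun e => ha (Subtype.ext e))
      (congrArg Subtype.val p) (congrArg Subtype.val q)),
    fun a g ha p => Subtype.ext (h.mn a.1 g.1 (fun e => ha (Subtype.ext e))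
      (congrArg Subtype.val p))⟩

theorem comm_of_cycle (hD : Csa D) {s t x y : D} (hxy : x ≠ y)
    (h : ∀ u : D → ZMod 2, (∀ g, u (g * s) = u g) → u x + u (x * t) + (u y + u (y * t)) = 0) :
    s * t = t * s := by
  classical
  by_cases hts : t ∈ Subgroup.zpowers s
  · obtain ⟨n, rfl⟩ := Subgroup.mem_zpowers_iff.1 hts
    exact (Commute.self_zpow s n).eq
  have key : ∀ z : D, (if z⁻¹ * x ∈ Subgroup.zpowers s then (1 : ZMod 2) else 0) +
      (if z⁻¹ * (x * t) ∈ Subgroup.zpowers s then 1 else 0) +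
      ((if z⁻¹ * y ∈ Subgroup.zpowers s then 1 else 0) +
      (if z⁻¹ * (y * t) ∈ Subgroup.zpowers s then 1 else 0)) = 0 := fun z =>
    h (fun g => if z⁻¹ * g ∈ Subgroup.zpowers s then 1 else 0) fun g => by
      simp only [← mul_assoc, Subgroup.mul_mem_cancel_right _ (Subgroup.mem_zpowers s)]
  have k1 := key x
  have k2 := key (x * t)
  have a1 : x⁻¹ * (x * t) ∉ Subgroup.zpowers s := by simpa using hts
  have a2 : (x * t)⁻¹ * x ∉ Subgroup.zpowers s := by simpa using hts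
  rw [if_pos (by simp), if_neg a1] at k1
  rw [if_neg a2, if_pos (by simp)] at k2
  by_cases b1 : x⁻¹ * y ∈ Subgroup.zpowers s
  · have b2 : (x * t)⁻¹ * y ∉ Subgroup.zpowers s := fun b => a2 (by
      have := mul_mem b (inv_mem b1)
      simpa [mul_assoc] using this)
    have b3 : (x * t)⁻¹ * (y * t) ∈ Subgroup.zpowers s := by
      by_contra b3
      rw [if_neg b2, if_neg b3] at k2
      exact absurd k2 (by decide)
    obtain ⟨m, hm⟩ := Subgroup.mem_zpowers_iff.1 b1
    obtain ⟨n, hn⟩ := Subgroup.mem_zpowers_iff.1 b3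
    have h1 : s ^ m ≠ 1 := by rw [hm]; exact fun e => hxy (inv_mul_eq_one.1 e)
    have e : t⁻¹ * s ^ m * t⁻¹⁻¹ = s ^ n := by rw [hm, hn]; group
    have c := hD.mn (s ^ m) t⁻¹ h1 (by rw [e]; exact (Commute.zpow_zpow_self s m n).eq)
    exact hD.ct _ s t h1 (Commute.self_zpow s m).eq (Commute.inv_left_iff.1 c).eq
  · have b2 : x⁻¹ * (y * t) ∈ Subgroup.zpowers s := by
      by_contra b2
      rw [if_neg b1, if_neg b2] at k1
      exact absurd k1 (by decide)
    have b3 : (x * t)⁻¹ * (y * t) ∉ Subgroup.zpowers s := fun b => a2 (by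
      have := mul_mem b (inv_mem b2)
      simpa [mul_assoc] using this)
    have b4 : (x * t)⁻¹ * y ∈ Subgroup.zpowers s := by
      by_contra b4
      rw [if_neg b4, if_neg b3] at k2
      exact absurd k2 (by decide)
    obtain ⟨n, hn⟩ := Subgroup.mem_zpowers_iff.1 b2
    obtain ⟨m, hm⟩ := Subgroup.mem_zpowers_iff.1 b4
    have h1 : t * s ^ m ≠ 1 := fun e => hts (by
      rw [mul_eq_one_iff_eq_inv.1 e]
      exact inv_mem (Subgroup.zpow_mem_zpowers s m))
    have h2 : t * s ^ m * t = s ^ n := by rw [hm, hn]; group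
    have e : (t * s ^ m) * (t * s ^ m) = s ^ (n + m) := by rw [zpow_add, ← h2]; group
    refine hD.ct ((t * s ^ m) * (t * s ^ m)) s t ?_ ?_ ?_
    · have := zpow_ne_one hD.tf h1 (m := 2) (by norm_num)
      rwa [zpow_two] at this
    · rw [e]; exact (Commute.self_zpow s _).eq
    · calc _ = (t * s ^ (n + m) * s ^ m) * s ^ (-m) := by rw [e]; group
        _ = (t * s ^ m * s ^ (n + m)) * s ^ (-m) := by group
        _ = (t * s ^ m * ((t * s ^ m) * (t * s ^ m))) * s ^ (-m) := by rw [e]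
        _ = _ := by group

theorem Srf.two' (S : Srf D V E F)
    {v : V} (tr : ∀ x, ∃ g : D, g • v = x) {e e' : E} {s t x y : D} {f : F}
    (h0 : S.a0 e = v) (h1 : S.a1 e = s • v) (k0 : S.a0 e' = v)
    (k1 : S.a1 e' = t • v) (all : ∀ c, c ∈ orbit D e ∨ c ∈ orbit D e') (hx : x • S.p0 e' = f)
    (hy : y • S.p1 e' = f) (hxy : x ≠ y) (u : D → ZMod 2) (hu : ∀ g, u (g * s) = u g) :
    u x + u (x * t) + (u y + u (y * t)) = 0 := by
  classical
  choose c hc using tr
  have cc : ∀ g : D, c (g • v) = g := fun g => free_inj S.fV (hc _)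
  have o := S.orth (fun z => u (c z)) (fun z => if z = f then 1 else 0) (Or.inr (ind_fin _))
  have i0 : ∀ g : D, S.p0 (g • e') = f ↔ g = x := fun g => by
    rw [S.ep0, ← hx]; exact ⟨free_inj S.fF, fun h => by rw [h]⟩
  have i1 : ∀ g : D, S.p1 (g • e') = f ↔ g = y := fun g => by
    rw [S.ep1, ← hy]; exact ⟨free_inj S.fF, fun h => by rw [h]⟩
  have ne : x • e' ≠ y • e' := fun h => hxy (free_inj S.fV (by rw [← S.ea0, ← S.ea0, h]))
  rw [finsum_eq_sum_of_support_subset (s := {x • e', y • e'}), Finset.sum_pair ne] at o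
  · simp only [i0, i1, S.ea0, S.ea1, k0, k1, ← mul_smul, cc, hxy, hxy.symm] at o
    simpa using o
  · intro z hz
    rcases all z with ⟨g, rfl⟩ | ⟨g, rfl⟩
    · refine absurd ?_ hz
      simp only [S.ea0, S.ea1, h0, h1, ← mul_smul, cc, hu, CharTwo.add_self_eq_zero, zero_mul]
    · by_contra hn
      refine hz ?_
      have n0 : g ≠ x := by rintro rfl; exact hn (by simp)
      have n1 : g ≠ y := by rintro rfl; exact hn (by simp)
      simp [i0, i1, n0, n1]

theorem comm_of_gen {s t : D} (hg : Subgroup.closure {s, t} = ⊤) (h : s * t = t * s) (a b : D) :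
    a * b = b * a := by
  have k : ∀ x : D, x * s = s * x → x * t = t * x → ∀ y, y * x = x * y := fun x p q y => by
    have : Subgroup.closure {s, t} ≤ Subgroup.centralizer {x} := by
      rw [Subgroup.closure_le]
      rintro z (rfl | rfl)
      exacts [Subgroup.mem_centralizer_singleton_iff.2 p.symm,
        Subgroup.mem_centralizer_singleton_iff.2 q.symm]
    exact Subgroup.mem_centralizer_singleton_iff.1 (this (hg ▸ Subgroup.mem_top y))
  exact k b (k s rfl h b) (k t h.symm rfl b) a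

theorem Srf.last' (S : Srf D V E F) (hD : Csa D)
    (tV : ∀ v x : V, ∃ g : D, g • v = x) (tF : ∀ v x : F, ∃ g : D, g • v = x)
    (h2 : Nat.card (orbitRel.Quotient D E) ≤ 2) : IsCyclic D ∨
      (Nat.card (orbitRel.Quotient D E) = 2 ∧ ∀ a b : D, a * b = b * a) := by
  obtain ⟨v⟩ := S.neV
  obtain ⟨f⟩ := S.neF
  have := S.finE
  have one : ∀ s : D, Subgroup.zpowers s = ⊤ → IsCyclic D := fun s h =>
    ⟨s, fun x => (h ▸ Subgroup.mem_top x : x ∈ Subgroup.zpowers s)⟩
  have uniq : ∀ c e, S.a0 c = v → S.a0 e = v → c ∈ orbit D e → c = e := by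
    rintro _ e hc he ⟨g, rfl⟩
    rw [S.ea0, he] at hc
    simp only [S.fV g v hc, one_smul]
  by_cases hN : ∃ e, S.a0 e = v
  swap
  · exact Or.inl (one 1 (S.gen (tV v) _ fun e s h _ => (hN ⟨e, h⟩).elim))
  obtain ⟨e, h0⟩ := hN
  obtain ⟨s, h1⟩ := tV v (S.a1 e)
  by_cases hN : ∃ e', S.a0 e' = v ∧ e' ≠ e
  swap
  · refine Or.inl (one s (S.gen (tV v) _ fun c t h k => ?_))
    obtain rfl : c = e := by by_contra n; exact hN ⟨c, h, n⟩
    rw [free_inj S.fV (k.symm.trans h1.symm)]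
    exact Subgroup.mem_zpowers s
  obtain ⟨e', k0, ne⟩ := hN
  obtain ⟨t, k1⟩ := tV v (S.a1 e')
  have ne' : (Quotient.mk'' e' : orbitRel.Quotient D E) ≠ Quotient.mk'' e :=
    fun q => ne (uniq _ _ k0 h0 (Quotient.exact q))
  have := Fintype.ofFinite (orbitRel.Quotient D E)
  rw [Nat.card_eq_fintype_card] at h2 ⊢
  have all : ∀ c, c ∈ orbit D e ∨ c ∈ orbit D e' := fun c => by
    by_contra n
    rw [not_or] at n
    exact absurd (Fintype.two_lt_card_iff.2 ⟨Quotient.mk'' c, Quotient.mk'' e', Quotient.mk'' e,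
      fun q => n.2 (Quotient.exact q), fun q => n.1 (Quotient.exact q), ne'⟩) (not_lt.2 h2)
  refine Or.inr ⟨le_antisymm h2 (Fintype.one_lt_card_iff.2 ⟨_, _, ne'⟩), ?_⟩
  have hg : Subgroup.closure {s, t} = ⊤ := S.gen (tV v) _ fun c q h k => by
    rcases all c with n | n
    · obtain rfl := uniq _ _ h h0 n
      rw [free_inj S.fV (k.symm.trans h1.symm)]
      exact Subgroup.subset_closure (by simp)
    · obtain rfl := uniq _ _ h k0 n
      rw [free_inj S.fV (k.symm.trans k1.symm)]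
      exact Subgroup.subset_closure (by simp)
  obtain ⟨x, hx⟩ := tF (S.p0 e') f
  obtain ⟨y, hy⟩ := tF (S.p1 e') f
  obtain ⟨x', hx'⟩ := tF (S.p0 e) f
  obtain ⟨y', hy'⟩ := tF (S.p1 e) f
  by_cases hxy : x = y
  swap
  · exact comm_of_gen hg (comm_of_cycle hD hxy
      (S.two' (tV v) h0 h1.symm k0 k1.symm all hx hy hxy))
  by_cases hxy' : x' = y'
  swap
  · exact comm_of_gen hg (comm_of_cycle hD hxy'
      (S.two' (tV v) k0 k1.symm h0 h1.symm (fun c => (all c).symm) hx' hy' hxy')).symm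
  subst hxy hxy'
  have q' : S.p0 e' = S.p1 e' := smul_left_cancel x (hx.trans hy.symm)
  have q : S.p0 e = S.p1 e := smul_left_cancel x' (hx'.trans hy'.symm)
  have triv : ∀ g : D, g = 1 := fun g => by
    refine S.fF g f ((const_of_eqv (P := fun z => z = f) ?_ (S.cF f (g • f))).1 rfl)
    rintro _ _ ⟨c, rfl, rfl⟩
    rcases all c with ⟨k, rfl⟩ | ⟨k, rfl⟩
    · rw [S.ep0, S.ep1, q]
    · rw [S.ep0, S.ep1, q']
  exact fun a b => (triv _).trans (triv _).symm

theorem Srf.reduce (P : Prop) (k : ℕ)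
    (hP : ∀ (V E F : Type) [MulAction D V] [MulAction D E] [MulAction D F] (_ : Srf D V E F),
      (∀ v x : V, ∃ g : D, g • v = x) → (∀ v x : F, ∃ g : D, g • v = x) →
      Nat.card (orbitRel.Quotient D E) ≤ k → P) (n : ℕ) :
    ∀ (V E F : Type) [MulAction D V] [MulAction D E] [MulAction D F] (_ : Srf D V E F),
      Nat.card (orbitRel.Quotient D E) = n →
      n + 2 ≤ Nat.card (orbitRel.Quotient D V) + Nat.card (orbitRel.Quotient D F) + k → P := by
  induction n using Nat.strong_induction_on with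
  | _ n ih =>
    intro V E F _ _ _ S hn hc
    have := S.finV
    have := S.finE
    have := S.finF
    by_cases h1 : ∀ e, S.p0 e ∈ orbit D (S.p1 e)
    · by_cases h2 : ∀ e, S.a0 e ∈ orbit D (S.a1 e)
      · have a := card_le_one (S.trans_F h1)
        have b := card_le_one (S.swap.trans_F h2)
        exact hP V E F S (S.swap.trans_F h2) (S.trans_F h1) (by omega)
      · obtain ⟨e, he⟩ := not_forall.1 h2
        obtain ⟨S'⟩ := S.swap.merge e he
        have a := (off_card D e).2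
        have b := (off_card D (S.swap.p1 e)).2
        exact ih _ (by omega) _ _ _ S' rfl (by omega)
    · obtain ⟨e, he⟩ := not_forall.1 h1
      obtain ⟨S'⟩ := S.merge e he
      have a := (off_card D e).2
      have b := (off_card D (S.p1 e)).2
      exact ih _ (by omega) _ _ _ S' rfl (by omega)

/-- positive Euler characteristic gives a cyclic group -/
theorem Srf.cyc1 (S : Srf D V E F) (hD : Csa D) (chi : Nat.card (orbitRel.Quotient D E) <
      Nat.card (orbitRel.Quotient D V) + Nat.card (orbitRel.Quotient D F)) : IsCyclic D :=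
  Srf.reduce (IsCyclic D) 1 (fun _ _ _ _ _ _ S a b c =>
    (S.last' hD a b (by omega)).resolve_right fun h => by omega) _ V E F S rfl (by omega)

/-- non-negative Euler characteristic gives an abelian group -/
theorem Srf.comm (S : Srf D V E F) (hD : Csa D) (chi : Nat.card (orbitRel.Quotient D E) ≤
      Nat.card (orbitRel.Quotient D V) + Nat.card (orbitRel.Quotient D F)) (a b : D) :
    a * b = b * a :=
  Srf.reduce (D := D) (a * b = b * a) 2 (fun _ _ _ _ _ _ S p q c =>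
    (S.last' hD p q c).elim (fun h => (h.commGroup).mul_comm a b) fun h => h.2 a b)
    _ V E F S rfl (by omega)

theorem surf2 [Finite (Md.Ob D E)] (hD : Csa D) (fV : ∀ (g : D) (v : V), g • v = v → g = 1)
    (fF : ∀ (g : D) (c : F), g • c = c → g = 1) (en : E → Bool → V) (sd : E → Bool → F)
    (ee : ∀ (g : D) e i, en (g • e) i = g • en e i) (es : ∀ (g : D) e i, sd (g • e) i = g • sd e i)
    (sV : ∀ v, ∃ e i, en e i = v) (sF : ∀ c, ∃ e i, sd e i = c)
    (ev : ∀ c v, Even (Nat.card {p : E × Bool × Bool // sd p.1 p.2.1 = c ∧ en p.1 p.2.2 = v}))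
    (lV : ∀ e e' i j, en e i = en e' j → EqvGen (fun x y => ∃ k l, sd x k = sd y l) e e')
    (lF : ∀ e e' i j, sd e i = sd e' j → EqvGen (fun x y => ∃ k l, en x k = en y l) e e') :
    (∃ (a : D) (U : Set E), U.Nonempty ∧ (∀ e ∈ U, ∀ e' i j, en e i = en e' j → e' ∈ U) ∧
      (∀ e, a • e ∈ U ↔ e ∈ U) ∧ Sm a U) ∨
    (oc D V + oc D F ≤ oc D E ∧
      (∀ (e : E) (a : D), ∃ g : D, EqvGen (fun x y => ∃ k l, en x k = en y l) e (g • e) ∧
        g ∉ Subgroup.zpowers a) ∧
      (oc D E ≤ oc D V + oc D F → ∀ (e : E) (g h : D),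
        EqvGen (fun x y => ∃ k l, en x k = en y l) e (g • e) →
        EqvGen (fun x y => ∃ k l, en x k = en y l) e (h • e) → g * h = h * g)) := by
  classical
  have := fin_of_sur en ee sV
  have := fin_of_sur sd es sF
  have := Fintype.ofFinite (orbitRel.Quotient D E)
  have := Fintype.ofFinite (orbitRel.Quotient D V)
  have := Fintype.ofFinite (orbitRel.Quotient D F)
  obtain ⟨r, hr⟩ : ∃ r, r = EqvGen (fun x y : E => ∃ k l, en x k = en y l) := ⟨_, rfl⟩
  rw [← hr]
  have eq : Equivalence r := hr ▸ EqvGen.is_equivalence _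
  have rV : ∀ e e' i j, en e i = en e' j → r e e' := fun e e' i j h =>
    hr ▸ EqvGen.rel _ _ ⟨i, j, h⟩
  have rF : ∀ e e' i j, sd e i = sd e' j → r e e' := fun e e' i j h => hr ▸ lF e e' i j h
  have rs : ∀ (g : D) e e', r e e' → r (g • e) (g • e') := fun g e e' h => by
    rw [hr] at h
    induction h with
    | rel x y c => obtain ⟨k, l, c⟩ := c; exact rV _ _ k l (by rw [ee, ee, c])
    | refl => exact eq.refl _
    | symm _ _ _ ih => exact eq.symm ih
    | trans _ _ _ _ _ i j => exact eq.trans i j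
  obtain ⟨κE, kE⟩ : ∃ κE : E → Set E, ∀ e x, x ∈ κE e ↔ r e x :=
    ⟨fun e => {x | r e x}, fun _ _ => Iff.rfl⟩
  have kr : ∀ e e', κE e = κE e' ↔ r e e' := fun e e' =>
    ⟨fun h => (kE e e').1 (h ▸ (kE e' e').2 (eq.refl _)), fun h => Set.ext fun x => by
      rw [kE, kE]; exact ⟨eq.trans (eq.symm h), eq.trans h⟩⟩
  have hE : ∀ (g : D) e, κE (g • e) = g • κE e := fun g e => Set.ext fun x => by
    rw [Set.mem_smul_set_iff_inv_smul_mem, kE, kE]
    exact ⟨fun h => by simpa using rs g⁻¹ _ _ h, fun h => by simpa using rs g _ _ h⟩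
  have st : ∀ (g : D) e, g ∈ stabilizer D (κE e) ↔ r e (g • e) := fun g e => by
    rw [mem_stabilizer_iff, ← hE, eq_comm, kr]
  choose cV iV qV using sV
  choose cF iF qF using sF
  have kV : ∀ e i, κE (cV (en e i)) = κE e := fun e i => (kr _ _).2 (rV _ _ _ _ (qV _))
  have kF : ∀ e i, κE (cF (sd e i)) = κE e := fun e i => (kr _ _).2 (rF _ _ _ _ (qF _))
  have hV : ∀ (g : D) v, κE (cV (g • v)) = g • κE (cV v) := fun g v => by
    rw [← hE, ← kV (g • cV v) (iV v), ee, qV]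
  have hF : ∀ (g : D) v, κE (cF (g • v)) = g • κE (cF v) := fun g v => by
    rw [← hE, ← kF (g • cF v) (iF v), es, qF]
  have S : ∀ e, Srf (stabilizer D (κE e)) (fib (fun v => κE (cV v)) hV (κE e)) (fib κE hE (κE e))
      (fib (fun v => κE (cF v)) hF (κE e)) := fun e =>
    { a0 := fun x => ⟨en x.1 false, (kV _ _).trans x.2⟩
      a1 := fun x => ⟨en x.1 true, (kV _ _).trans x.2⟩
      p0 := fun x => ⟨sd x.1 false, (kF _ _).trans x.2⟩
      p1 := fun x => ⟨sd x.1 true, (kF _ _).trans x.2⟩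
      ea0 := fun g x => Subtype.ext (ee g.1 x.1 _)
      ea1 := fun g x => Subtype.ext (ee g.1 x.1 _)
      ep0 := fun g x => Subtype.ext (es g.1 x.1 _)
      ep1 := fun g x => Subtype.ext (es g.1 x.1 _)
      fV := fun g v h => Subtype.ext (fV g.1 v.1 (congrArg Subtype.val h))
      fF := fun g v h => Subtype.ext (fF g.1 v.1 (congrArg Subtype.val h))
      neV := ⟨⟨en e false, kV _ _⟩⟩
      neF := ⟨⟨sd e false, kF _ _⟩⟩
      cV := conn_fib en (fun v => κE (cV v)) κE kV (fun v => ⟨_, _, qV v⟩)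
        (fun a b h => hr ▸ (kr a b).1 h) _ _ fun a ha => ⟨⟨a, ha⟩, rfl, rfl⟩
      cF := conn_fib sd (fun v => κE (cF v)) κE kF (fun v => ⟨_, _, qF v⟩)
        (fun a b h => eqv_le (fun x y ⟨k, l, c⟩ => lV x y k l c) (hr ▸ (kr a b).1 h)) _ _
        fun a ha => ⟨⟨a, ha⟩, rfl, rfl⟩
      finV := (fib_card _ hV _).1
      finE := (fib_card _ hE _).1
      finF := (fib_card _ hF _).1
      orth := fun u w h => by
        obtain ⟨u', u1, u2, u3⟩ := ext_zero u
        obtain ⟨w', w1, -, w3⟩ := ext_zero w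
        rw [← orth_of fV fF en sd ee es ev u' w' (h.imp u3 w3)]
        simp only [← u1, ← w1]
        refine (finsum_subtype_eq_finsum_cond (f := fun x => (u' (en x false) + u' (en x true)) *
          (w' (sd x false) + w' (sd x true))) (p := fun x => κE x = κE e)).trans
          (finsum_congr fun x => ?_)
        rw [finsum_eq_if]
        split_ifs with hx
        · rfl
        · rw [u2 _ fun c => hx ((kV x false).symm.trans c),
            u2 _ fun c => hx ((kV x true).symm.trans c), add_zero, zero_mul] }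
  by_cases hc : ∃ (e : E) (a : D), ∀ g : D, r e (g • e) → g ∈ Subgroup.zpowers a
  · obtain ⟨e, a', ha'⟩ := hc
    have : IsCyclic (stabilizer D (κE e)) :=
      Subgroup.isCyclic_of_le (H' := Subgroup.zpowers a') fun g hg => ha' g ((st g e).1 hg)
    obtain ⟨a, ha⟩ := this.exists_generator
    have f1 := (fib_card κE hE (κE e)).1
    refine Or.inl ⟨a.1, κE e, ⟨e, (kE _ _).2 (eq.refl _)⟩, fun x hx y i j h => ?_, fun x => ?_, ?_⟩
    · exact (kE _ _).2 (eq.trans ((kE _ _).1 hx) (rV _ _ _ _ h))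
    · have h : a.1 • x ∈ a.1 • κE e ↔ x ∈ κE e := Set.smul_mem_smul_set_iff
      rwa [show a.1 • κE e = κE e from a.2] at h
    · refine ⟨Set.range fun q : orbitRel.Quotient (stabilizer D (κE e)) (fib κE hE (κE e)) =>
        (Quotient.out q).1, Set.finite_range _, fun x hx => ?_⟩
      let y : fib κE hE (κE e) := ⟨x, ((kr _ _).2 ((kE _ _).1 hx)).symm⟩
      obtain ⟨g, hg⟩ := Quotient.exact (Quotient.out_eq (Quotient.mk'' y :
        orbitRel.Quotient (stabilizer D (κE e)) (fib κE hE (κE e)))).symm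
      obtain ⟨n, rfl⟩ := Subgroup.mem_zpowers_iff.1 (ha g)
      exact ⟨_, ⟨Quotient.mk'' y, rfl⟩, n, (congrArg Subtype.val hg).symm⟩
  push Not at hc
  let t := Finset.univ.image (qm κE hE)
  have mt : ∀ e, Quotient.mk'' (κE e) ∈ t := fun e =>
    Finset.mem_image.2 ⟨Quotient.mk'' e, Finset.mem_univ _, rfl⟩
  have c1 := Finset.card_eq_sum_card_fiberwise (s := Finset.univ) (t := t) (f := qm κE hE)
    (by rintro ⟨e⟩ _; exact mt e)
  have c2 := Finset.card_eq_sum_card_fiberwise (s := Finset.univ) (t := t)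
    (f := qm (fun v => κE (cV v)) hV) (by rintro ⟨e⟩ _; exact mt _)
  have c3 := Finset.card_eq_sum_card_fiberwise (s := Finset.univ) (t := t)
    (f := qm (fun v => κE (cF v)) hF) (by rintro ⟨e⟩ _; exact mt _)
  have le : ∀ q ∈ t, (Finset.univ.filter fun x => qm (fun v => κE (cV v)) hV x = q).card +
      (Finset.univ.filter fun x => qm (fun v => κE (cF v)) hF x = q).card ≤
      (Finset.univ.filter fun x => qm κE hE x = q).card := fun q hq => by
    obtain ⟨⟨e⟩, -, rfl⟩ := Finset.mem_image.1 hq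
    by_contra n
    obtain ⟨a, ha⟩ := ((S e).cyc1 (hD.sub _) (by
      rw [(fib_card κE hE _).2, (fib_card _ hV _).2, (fib_card _ hF _).2]
      exact not_le.1 n)).exists_generator
    obtain ⟨g, hg, ng⟩ := hc e a.1
    obtain ⟨n, hn⟩ := Subgroup.mem_zpowers_iff.1 (ha ⟨g, (st g e).2 hg⟩)
    exact ng (Subgroup.mem_zpowers_iff.2 ⟨n, congrArg Subtype.val hn⟩)
  simp only [oc, Nat.card_eq_fintype_card, ← Finset.card_univ]
  rw [c1, c2, c3, ← Finset.sum_add_distrib]
  refine Or.inr ⟨Finset.sum_le_sum le, hc, fun chi e g h hg hh => ?_⟩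
  have := (Finset.sum_eq_sum_iff_of_le le).1 (le_antisymm (Finset.sum_le_sum le) chi) _ (mt e)
  exact congrArg Subtype.val ((S e).comm (hD.sub _) (by
    rw [(fib_card κE hE _).2, (fib_card _ hV _).2, (fib_card _ hF _).2]
    exact this.ge) ⟨g, (st g e).2 hg⟩ ⟨h, (st h e).2 hh⟩)

end Pool.Agent.Work.MP_3d425c_gt.Bg.Sf
end

-- merged part: Pool.Agent.Work.MP_3d425c_gt.Bq.Ufam
section
/-! The boundary components of a stage, sorted by their stabilisers. -/

namespace Pool.Agent.Work.MP_3d425c_gt.Bg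
open Set Relation Pool.Agent.Work.MP_3d425c_gt.Md Pool.Agent.Work.MP_3d425c_gt.Cy

variable {G X0 X1 X2 X3 : Type} [Group G] [MulAction G X0] [MulAction G X1] [MulAction G X2]
  [MulAction G X3] {T : Tri G X0 X1 X2 X3} {E : Subgroup G} {Ω : Type} [MulAction E Ω]

/-- the boundary surface as a two-complex -/
theorem bq_data (hM : Mfd T) (W : Et T E Ω) :
    ∃ (en : W.C2 1 2 → Bool → W.C1 1 1) (sd : W.C2 1 2 → Bool → W.C3 1 3),
    (∀ (c : W.C2 1 2) k (v : W.C1 1 1), f2 T c.1 k = v.1 → ∃ i, en c i = v) ∧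
    (∀ (g : E) c i, en (g • c) i = g • en c i) ∧ (∀ (g : E) c i, sd (g • c) i = g • sd c i) ∧
    (∀ v, ∃ c i, en c i = v) ∧ (∀ x, ∃ c i, sd c i = x) ∧
    (∀ x v, Even (Nat.card {p : W.C2 1 2 × Bool × Bool // sd p.1 p.2.1 = x ∧ en p.1 p.2.2 = v})) ∧
    (∀ e e' i j, en e i = en e' j → EqvGen (fun x y => ∃ k l, sd x k = sd y l) e e') ∧
    (∀ e e' i j, sd e i = sd e' j → EqvGen (fun x y => ∃ k l, en x k = en y l) e e') := by
  obtain ⟨kk, k1, k2, k3⟩ := bd_en W
  obtain ⟨sd, m, s1, s2, s3, s4⟩ := bd_sd W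
  let en : W.C2 1 2 → Bool → W.C1 1 1 := fun c i =>
    ⟨f2 T c.1 (kk c i), c.2.1 _, ((k3 c _).2 ⟨i, rfl⟩).ge, ((k3 c _).2 ⟨i, rfl⟩).le⟩
  have e1 : ∀ (g : E) c i, en (g • c) i = g • en c i := fun g c i => Subtype.ext (by
    show f2 T (g • c.1) (kk (g • c) i) = g • f2 T c.1 (kk c i)
    rw [k1, Et.f2_smul])
  have e2 : ∀ (c : W.C2 1 2) k (v : W.C1 1 1), f2 T c.1 k = v.1 → ∃ i, kk c i = k ∧ en c i = v := by
    intro c k v e
    obtain ⟨i, rfl⟩ := (k3 c k).1 (by rw [e]; exact le_antisymm v.2.2.2 v.2.2.1)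
    exact ⟨i, rfl, Subtype.ext e⟩
  have e3 : ∀ v, ∃ c i, en c i = v := by
    intro v
    obtain ⟨f, k, e⟩ := hM.pure v.1.1
    obtain ⟨c, -, e'⟩ := bd_up W v e
    obtain ⟨i, -, e''⟩ := e2 c k v e'
    exact ⟨c, i, e''⟩
  have e5 : ∀ (c c' : W.C2 1 2) x k k', f3 T x k = c.1 → f3 T x k' = c'.1 →
      bd_sh (bd_pat x.2) k k' → ∃ i j, en c i = en c' j := by
    rintro c c' x k k' a1 a2 ⟨i, j, hij, a3, ⟨rfl, rfl⟩ | ⟨rfl, rfl⟩⟩
    · obtain ⟨t, a4⟩ := (k3 c i).1 (by rw [← a1]; exact a3)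
      obtain ⟨t', -, a5⟩ := e2 c' j (en c t) (by
        show _ = f2 T c.1 (kk c t)
        rw [a4, ← a1, ← a2, f2_f3 T x i j hij])
      exact ⟨t, t', a5.symm⟩
    · obtain ⟨t, a4⟩ := (k3 c' i).1 (by rw [← a2]; exact a3)
      obtain ⟨t', -, a5⟩ := e2 c j (en c' t) (by
        show _ = f2 T c'.1 (kk c' t)
        rw [a4, ← a1, ← a2, f2_f3 T x i j hij])
      exact ⟨t', t, a5⟩
  refine ⟨en, sd, fun c k v e => (e2 c k v e).imp fun _ h => h.2, e1, s1, e3, ?_, ?_, ?_, ?_⟩
  · intro x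
    obtain ⟨k, hk⟩ := bd_d4 (bd_pat x.1.2) x.2.2
    obtain ⟨i, e, -⟩ := s4 ⟨f3 T x.1 k, x.2.1 k, hk⟩ x.1 k x.2.1 rfl
    exact ⟨_, i, Subtype.ext e⟩
  · intro x v
    let Φ : {p : W.C2 1 2 × Bool × Bool // sd p.1 p.2.1 = x ∧ en p.1 p.2.2 = v} →
        {q : Fin 4 × Fin 3 // f2 T (f3 T x.1 q.1) q.2 = v.1} := fun p =>
      ⟨(m p.1.1 p.1.2.1, kk p.1.1 p.1.2.2), by
        obtain ⟨⟨c, i, j⟩, rfl, rfl⟩ := p
        exact congrArg (f2 T · (kk c j)) (s3 c i)⟩
    have hΦ : Function.Bijective Φ := by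
      constructor
      · rintro ⟨⟨c, i, j⟩, a1, a2⟩ ⟨⟨c', i', j'⟩, a3, a4⟩ e
        have a5 : m c i = m c' i' := congrArg (fun z => z.1.1) e
        have a6 : kk c j = kk c' j' := congrArg (fun z => z.1.2) e
        have a7 : sd c i = sd c' i' := a1.trans a3.symm
        obtain rfl : c = c' := Subtype.ext (by rw [← s3 c i, ← s3 c' i', a5, a7])
        obtain rfl := s2 c i i' a7 a5
        obtain rfl := k2 c a6
        rfl
      · rintro ⟨⟨k, l⟩, e⟩
        have a1 : np (f3 T x.1 k).2 ∈ Icc 1 2 := bd_d2 (bd_pat (f3 T x.1 k).2) l (by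
          have a2 := le_antisymm v.2.2.2 v.2.2.1
          rw [← e] at a2
          exact a2)
        obtain ⟨i, a2, a3⟩ := s4 ⟨f3 T x.1 k, x.2.1 k, a1⟩ x.1 k x.2.1 rfl
        obtain ⟨j, a4, a5⟩ := e2 ⟨f3 T x.1 k, x.2.1 k, a1⟩ l v e
        exact ⟨⟨(_, i, j), Subtype.ext a2, a5⟩, Subtype.ext (Prod.ext a3 a4)⟩
    rw [Nat.card_eq_of_bijective Φ hΦ]
    exact bd_even x.1 v.1
  · intro c c' i j e
    have a1 : f2 T c.1 (kk c i) = f2 T c'.1 (kk c' j) := congrArg Subtype.val e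
    refine (bd_link W (en c i) ?_ (T.link (c.1.1, kk c i) (c'.1.1, kk c' j)
      (congrArg Prod.fst a1))).2 c c' rfl rfl rfl a1.symm
    intro d d' x k k' hx a2 a3
    obtain ⟨t, a4, -⟩ := s4 d x k hx a2
    obtain ⟨t', a5, -⟩ := s4 d' x k' hx a3
    exact ⟨t, t', Subtype.ext (a4.trans a5.symm)⟩
  · intro c c' i j e
    have a1 := s3 c i
    have a2 := s3 c' j
    rw [← e] at a2
    have a3 := c.2.2
    have a4 := c'.2.2
    rw [← a1] at a3
    rw [← a2] at a4
    rcases bd_d5 (bd_pat (sd c i).1.2) _ _ a3 a4 with a5 | a5 | ⟨k, a5, a6, a7⟩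
    · rw [a5] at a1
      rw [Subtype.ext (a1.symm.trans a2)]
      exact EqvGen.refl _
    · exact EqvGen.rel _ _ (e5 c c' _ _ _ a1 a2 a5)
    · exact (EqvGen.rel _ _ (e5 c ⟨_, (sd c i).2.1 k, a7⟩ _ _ _ a1 rfl a5)).trans _ _ _
        (EqvGen.rel _ _ (e5 _ c' _ _ _ rfl a2 a6))

theorem bq_p (g : E) (x : Option Ω) : fi_p (g • x) = fi_p x := by cases x <;> rfl

theorem bq_cell (g : E) (x : Option Ω) (e : X1) (y : Option Ω) :
    ((g • e, ![g • x, g • y]) : X1 × (Fin 2 → Option Ω)) = g • (e, ![x, y]) :=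
  Prod.ext rfl (funext fun i => by fin_cases i <;> rfl)

theorem bq_sm {P : Subgroup E} {U : Set (X1 × (Fin 2 → Option Ω))} (h : SmP P U) :
    SmP P {x : Ω | ∃ c ∈ U, ∃ i, c.2 i = some x} := by
  obtain ⟨K, hK, h⟩ := h
  refine ⟨⋃ c ∈ K, ⋃ i, {x | c.2 i = some x}, hK.biUnion fun c _ => finite_iUnion fun i =>
    Set.Subsingleton.finite fun x hx y hy => Option.some.inj (hx.symm.trans hy), ?_⟩
  rintro x ⟨c, hc, i, hi⟩
  obtain ⟨k, hk, p, hp, rfl⟩ := h c hc
  have e : p • k.2 i = some x := hi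
  cases hy : k.2 i with
  | none => rw [hy] at e; cases e
  | some y =>
    rw [hy] at e
    exact ⟨y, mem_biUnion hk (mem_iUnion.2 ⟨i, hy⟩), p, hp, (Option.some.inj e).symm⟩

/-- the coboundary of the indicator on a union of boundary components -/
theorem bq_rq {W : Et T E Ω} {P : Subgroup E} {U : Set (X1 × (Fin 2 → Option Ω))}
    (h1 : ∀ c ∈ U, c ∈ W.C1 1 1) (h2 : ∀ p ∈ P, ∀ c ∈ U, p • c ∈ U) (h3 : SmP P U)
    (h4 : ∀ c ∈ W.C2 1 2, ∀ k l, f2 T c k ∈ U → f2 T c l ∈ W.C1 1 1 → f2 T c l ∈ U) :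
    W.Rq P fun x e y => fi_z U (e, ![x, y]) := by
  refine ⟨fun e => ?_, fun f x y u k2 k0 k1 => ?_, fun a ha x e y _ => ?_,
    _, bq_sm h3, fun x e y _ k => ?_⟩
  · unfold fi_z
    split_ifs
    · exact sub_self _
    · rfl
  · obtain ⟨e0, e1, e2⟩ := fi_f2 T f x y u
    have k := fi_coc h1 h4 (c := (f, ![x, y, u])) fun k => by
      fin_cases k
      exacts [k0, k1, k2]
    rwa [e0, e1, e2] at k
  · have e1 := bq_cell a x e y
    unfold fi_z
    by_cases q : (e, ![x, y]) ∈ U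
    · rw [if_pos q, if_pos (e1 ▸ h2 a ha _ q)]
      exact congrArg₂ (· - ·) (bq_p a y) (bq_p a x)
    · rw [if_neg q, if_neg fun q' => q (by
        have := h2 _ (P.inv_mem ha) _ (e1 ▸ q')
        rwa [inv_smul_smul] at this)]
  · unfold fi_z at k
    split_ifs at k with q
    · cases x with
      | some x => exact ⟨x, ⟨_, q, 0, rfl⟩, Or.inl rfl⟩
      | none =>
        cases y with
        | some y => exact ⟨y, ⟨_, q, 1, rfl⟩, Or.inr rfl⟩
        | none => exact absurd (sub_self _) k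
    · exact absurd rfl k

/-- if it bounds, the potential vanishes nowhere -/
theorem bq_fill {W : Et T E Ω} {ω : Ω} (fc : W.Fc ω) {U : Set (X1 × (Fin 2 → Option Ω))}
    (h0 : U.Nonempty) (h1 : ∀ c ∈ U, c ∈ W.C1 1 1) {s : Option Ω → ℝ} (s0 : s none = 0)
    (s2 : ∀ a e b, W.Rp a e b → fi_z U (e, ![a, b]) = s b - s a) (x : Ω) : s (some x) ≠ 0 := by
  have s3 : ∀ x e y, W.R x e y → s (some y) = s (some x) := fun x e y k => by
    have k1 : fi_z U (e, ![some x, some y]) = s (some y) - s (some x) := s2 (some x) e (some y) k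
    rw [← sub_eq_zero, ← k1]
    unfold fi_z
    split_ifs
    · exact sub_self _
    · rfl
  have s4 : ∀ x, s (some x) = s (some ω) := fun x => by
    induction fc.conn x with
    | refl => rfl
    | tail _ k ih =>
      obtain ⟨e, k | k⟩ := k
      · rw [s3 _ _ _ k, ih]
      · rw [← s3 _ _ _ k, ih]
  intro k
  obtain ⟨c, hc⟩ := h0
  have s5 : ∀ y, s y = 0 := fun y => by
    cases y with
    | none => exact s0
    | some y => rw [s4 y, ← s4 x, k]
  have k1 : fi_z U (c.1, ![c.2 0, c.2 1]) = s (c.2 1) - s (c.2 0) := s2 _ _ _ (h1 c hc).1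
  have e : (c.1, ![c.2 0, c.2 1]) = c := Prod.ext rfl (funext fun i => by fin_cases i <;> rfl)
  rw [e, s5, s5, sub_self, fi_z, if_pos hc] at k1
  exact (fi_np2 _).1 (h1 c hc).2 k1

theorem bq_sort {D A I : Type} [Group D] [MulAction D A] [Finite (Ob D A)] (S : A → Subgroup D)
    (hS : ∀ (g : D) a x, x ∈ S (g • a) ↔ g⁻¹ * x * g ∈ S a) (ne : ∀ a, ∃ x ∈ S a, x ≠ 1)
    (P : I → Subgroup D) (cov : ∀ a, ∃ i g, ∀ x ∈ S a, g * x * g⁻¹ ∈ P i)
    (mal : ∀ i j x g, x ≠ 1 → x ∈ P i → g * x * g⁻¹ ∈ P j → i = j ∧ g ∈ P i) :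
    (∀ i, ∀ p ∈ P i, ∀ a, S a ≤ P i → S (p • a) ≤ P i) ∧ (∀ i, SmP (P i) {a | S a ≤ P i}) ∧
    ∀ a, ∃ i, ∃ q : D ⧸ P i, S (q.out⁻¹ • a) ≤ P i ∧
      (∀ q' : D ⧸ P i, S (q'.out⁻¹ • a) ≤ P i → q' = q) ∧
      ∀ j, j ≠ i → ∀ g : D, ¬ S (g • a) ≤ P j := by
  have h1 : ∀ i, ∀ p ∈ P i, ∀ a, S a ≤ P i → S (p • a) ≤ P i := fun i p hp a h x hx => by
    have := (P i).mul_mem ((P i).mul_mem hp (h ((hS p a x).1 hx))) ((P i).inv_mem hp)
    rwa [show p * (p⁻¹ * x * p) * p⁻¹ = x by group] at this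
  have h2 : ∀ i j a (g g' : D), S (g • a) ≤ P i → S (g' • a) ≤ P j → i = j ∧ g' * g⁻¹ ∈ P i := by
    intro i j a g g' h h'
    obtain ⟨x, hx, n⟩ := ne (g • a)
    refine mal i j x _ n (h hx) (h' ((hS g' a _).2 ?_))
    rw [show g'⁻¹ * (g' * g⁻¹ * x * (g' * g⁻¹)⁻¹) * g' = g⁻¹ * x * g by group]
    exact (hS g a x).1 hx
  refine ⟨h1, fun i => ?_, fun a => ?_⟩
  · have ex : ∀ q : Ob D A, ∃ g : D, ∀ g' : D, S (g' • q.out) ≤ P i → S (g • q.out) ≤ P i :=
      fun q => by
        by_cases h : ∃ g : D, S (g • q.out) ≤ P i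
        · exact h.imp fun _ h _ _ => h
        · exact ⟨1, fun g k => absurd ⟨g, k⟩ h⟩
    choose γ hγ using ex
    refine ⟨_, finite_range fun q : Ob D A => γ q • q.out, fun a ha => ?_⟩
    obtain ⟨g, hg⟩ := ob_eq_iff.1 (ob_out (ob D a)).symm
    have k : S (g • (ob D a).out) ≤ P i := hg.symm ▸ ha
    exact ⟨_, ⟨ob D a, rfl⟩, _, (h2 i i _ _ _ (hγ _ g k) k).2, by
      rw [mul_smul, inv_smul_smul, hg]⟩
  · obtain ⟨i, g, h⟩ := cov a
    have k : S (g • a) ≤ P i := fun x hx => by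
      have := h _ ((hS g a x).1 hx)
      rwa [show g * (g⁻¹ * x * g) * g⁻¹ = x by group] at this
    obtain ⟨p, hp⟩ := QuotientGroup.mk_out_eq_mul (P i) g⁻¹
    refine ⟨i, QuotientGroup.mk g⁻¹, ?_, fun q hq => ?_, fun j n g' k' => n (h2 _ _ _ _ _ k' k).1⟩
    · rw [hp, mul_inv_rev, inv_inv, mul_smul]
      exact h1 i _ ((P i).inv_mem p.2) _ k
    · rw [← QuotientGroup.out_eq' q]
      exact QuotientGroup.eq.2 (h2 _ _ _ _ _ k hq).2

/-- Either the stage is finite modulo a cyclic group, or the boundary has no positive Euler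
characteristic, and when it vanishes the boundary splits along the peripheral subgroups. -/
theorem ufam (hM : Mfd T) (hG : Sf.Csa E) {W : Et T E Ω} {ω : Ω} (fc : W.Fc ω) (bd : ∃ x, W.Bd x)
    (hz : W.Zp) : (∃ a : E, Sm a (univ : Set Ω)) ∨
    (oc E (W.C1 1 1) + oc E (W.C3 1 3) ≤ oc E (W.C2 1 2) ∧
      (oc E (W.C2 1 2) ≤ oc E (W.C1 1 1) + oc E (W.C3 1 3) →
        ∀ (I : Type) [Fintype I] (P : I → Subgroup E),
        (∀ A : Subgroup E, (∀ x ∈ A, ∀ y ∈ A, x * y = y * x) →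
          (∀ a : E, ∃ x ∈ A, x ∉ Subgroup.zpowers a) → ∃ i g, ∀ x ∈ A, g * x * g⁻¹ ∈ P i) →
        (∀ i j x g, x ≠ 1 → x ∈ P i → g * x * g⁻¹ ∈ P j → i = j ∧ g ∈ P i) →
        ∃ u : I → Option Ω → X1 → Option Ω → ℝ, (∀ i, W.Rq (P i) (u i)) ∧
          (∀ a e b, W.Rp a e b → ∑ i, sm1 (P i) (u i) a e b = fi_p b - fi_p a) ∧
          ((∀ i, ∃ s : Option Ω → ℝ, s none = 0 ∧ SmP (P i) {x | s (some x) ≠ 0} ∧
            ∀ a e b, W.Rp a e b → u i a e b = s b - s a) → ∃ i, SmP (P i) (univ : Set Ω)))) := by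
  classical
  have := fc.fin
  have := W.finC2 one_pos 2
  have := hM.finC1 W one_pos 1
  obtain ⟨en, sd, e2, e1, s1, e3, s2, ev, lV, lF⟩ := bq_data hM W
  rcases Sf.surf2 hG
    (fun g c h => W.free_cell g c.2.2.1 (congrArg (fun z : W.C1 1 1 => z.1.2) h))
    (fun g c h => W.free_cell g c.2.2.1 (congrArg (fun z : W.C3 1 3 => z.1.2) h))
    en sd e1 s1 e3 s2 ev lV lF with ⟨a, U, u1, u2, u3, K, hK, u4⟩ | ⟨h1, h2, h3⟩
  · refine Or.inl ⟨a, fill fc hz (U := {v | ∃ c ∈ U, ∃ i, (en c i).1 = v}) ?_ ?_ (fun v => ⟨?_, ?_⟩)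
      ⟨(fun p : W.C2 1 2 × Bool => (en p.1 p.2).1) '' (K ×ˢ univ),
        (hK.prod finite_univ).image _, ?_⟩ ?_⟩
    · obtain ⟨c, hc⟩ := u1
      exact ⟨_, c, hc, true, rfl⟩
    · rintro _ ⟨c, -, i, rfl⟩
      exact (en c i).2
    · rintro ⟨c, hc, i, e⟩
      refine ⟨a⁻¹ • c, (u3 _).1 (by rwa [smul_inv_smul]), i, ?_⟩
      rw [e1]
      show a⁻¹ • (en c i).1 = v
      rw [e, inv_smul_smul]
    · rintro ⟨c, hc, i, rfl⟩
      exact ⟨a • c, (u3 c).2 hc, i, congrArg Subtype.val (e1 a c i)⟩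
    · rintro _ ⟨c, hc, i, rfl⟩
      obtain ⟨k, hk, n, rfl⟩ := u4 c hc
      exact ⟨_, ⟨(k, i), ⟨hk, trivial⟩, rfl⟩, n, congrArg Subtype.val (e1 _ k i)⟩
    · rintro c hc k l ⟨c', hc', i, e⟩ hl
      obtain ⟨j, a1⟩ := e2 ⟨c, hc⟩ k (en c' i) e.symm
      obtain ⟨j', a2⟩ := e2 ⟨c, hc⟩ l ⟨_, hl⟩ rfl
      exact ⟨⟨c, hc⟩, u2 c' hc' _ i j a1.symm, j', congrArg Subtype.val a2⟩
  refine Or.inr ⟨h1, fun h4 I _ P cov mal => ?_⟩
  replace h3 := h3 h4
  obtain ⟨r, hr⟩ : ∃ r, r = EqvGen (fun x y : W.C2 1 2 => ∃ k l, en x k = en y l) := ⟨_, rfl⟩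
  rw [← hr] at h2 h3
  have eq : Equivalence r := hr ▸ EqvGen.is_equivalence _
  have rV : ∀ e e' i j, en e i = en e' j → r e e' := fun e e' i j h =>
    hr ▸ EqvGen.rel _ _ ⟨i, j, h⟩
  have rs : ∀ (g : E) e e', r e e' → r (g • e) (g • e') := fun g e e' h => by
    rw [hr] at h
    induction h with
    | rel x y c => obtain ⟨k, l, c⟩ := c; exact rV _ _ k l (by rw [e1, e1, c])
    | refl => exact eq.refl _
    | symm _ _ _ ih => exact eq.symm ih
    | trans _ _ _ _ _ i j => exact eq.trans i j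
  let S : W.C1 1 1 → Subgroup E := fun v =>
    { carrier := {g | ∀ c i, en c i = v → r c (g • c)}
      one_mem' := fun c _ _ => (one_smul E c).symm ▸ eq.refl c
      mul_mem' := fun {g h} a b c i e => eq.trans (a c i e) (mul_smul g h c ▸ rs g _ _ (b c i e))
      inv_mem' := fun {g} a c i e => eq.symm (by
        have := rs g⁻¹ _ _ (a c i e)
        rwa [inv_smul_smul] at this) }
  have mS : ∀ c i (g : E), g ∈ S (en c i) ↔ r c (g • c) := fun c i g =>
    ⟨fun h => h c i rfl, fun h c' i' e => eq.trans (rV _ _ _ _ e)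
      (eq.trans h (rs g _ _ (rV _ _ _ _ e.symm)))⟩
  obtain ⟨p1, p2, p3⟩ := bq_sort S (fun g v x => by
      obtain ⟨c, i, rfl⟩ := e3 v
      rw [← e1, mS, mS, mul_smul, mul_smul]
      refine ⟨fun h => ?_, fun h => ?_⟩
      · have := rs g⁻¹ _ _ h
        rwa [inv_smul_smul] at this
      · have := rs g _ _ h
        rwa [smul_inv_smul] at this)
    (fun v => by
      obtain ⟨c, i, rfl⟩ := e3 v
      obtain ⟨g, a, b⟩ := h2 c 1
      exact ⟨g, (mS c i g).2 a, fun e => b (by rw [e]; exact Subgroup.one_mem _)⟩) P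
    (fun v => by
      obtain ⟨c, i, rfl⟩ := e3 v
      refine cov _ (fun x hx y hy => h3 c x y ((mS c i x).1 hx) ((mS c i y).1 hy)) fun a => ?_
      obtain ⟨g, a, b⟩ := h2 c a
      exact ⟨g, (mS c i g).2 a, b⟩) mal
  let U : I → Set (X1 × (Fin 2 → Option Ω)) := fun i => Subtype.val '' {v | S v ≤ P i}
  have mU : ∀ i (v : W.C1 1 1), v.1 ∈ U i ↔ S v ≤ P i := fun i v =>
    Subtype.val_injective.mem_set_image
  have U1 : ∀ i, ∀ c ∈ U i, c ∈ W.C1 1 1 := by
    rintro i _ ⟨v, -, rfl⟩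
    exact v.2
  refine ⟨fun i x e y => fi_z (U i) (e, ![x, y]), fun i => bq_rq (U1 i) ?_
    ((p2 i).image _ fun _ _ _ => rfl) ?_, fun a e b k => ?_, fun h => ?_⟩
  · rintro p hp _ ⟨v, hv, rfl⟩
    exact ⟨p • v, p1 i p hp v hv, rfl⟩
  · rintro c hc k l ⟨v, hv, e⟩ hl
    obtain ⟨j, rfl⟩ := e2 ⟨c, hc⟩ k v e.symm
    obtain ⟨j', a2⟩ := e2 ⟨c, hc⟩ l ⟨_, hl⟩ rfl
    refine (mU i ⟨_, hl⟩).2 (a2 ▸ fun x hx => hv ((mS _ _ _).2 ((mS _ _ _).1 hx)))
  · have val : ∀ i (g : E), fi_z (U i) (g • e, ![g • a, g • b]) =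
        if g • (e, ![a, b]) ∈ U i then fi_p b - fi_p a else 0 := fun i g => by
      unfold fi_z
      rw [← bq_cell]
      exact if_congr Iff.rfl (congrArg₂ (· - ·) (bq_p g b) (bq_p g a)) rfl
    simp only [sm1, val]
    by_cases n : fi_p b - fi_p a = 0
    · simp [n]
    let v : W.C1 1 1 := ⟨(e, ![a, b]), k, (fi_np2 _).2 n⟩
    obtain ⟨i, q, q1, q2, q3⟩ := p3 v
    rw [Finset.sum_eq_single i (fun j _ hj => finsum_eq_zero_of_forall_eq_zero fun q' =>
        if_neg fun c => q3 j hj _ ((mU j (q'.out⁻¹ • v)).1 c)) (by simp)]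
    refine (finsum_eq_single _ q fun q' hq => ?_).trans (if_pos ((mU i (q.out⁻¹ • v)).2 q1))
    exact if_neg fun c => hq (q2 q' ((mU i (q'.out⁻¹ • v)).1 c))
  · have : Nonempty (W.C1 1 1) := by
      obtain ⟨x, e, hx | hx⟩ := bd
      · exact ⟨⟨(e, ![some x, none]), hx, show (1 : ℕ) ∈ Icc 1 1 from ⟨le_rfl, le_rfl⟩⟩⟩
      · exact ⟨⟨(e, ![none, some x]), hx, show (1 : ℕ) ∈ Icc 1 1 from ⟨le_rfl, le_rfl⟩⟩⟩
    obtain ⟨v⟩ := this
    obtain ⟨i, q, q1, -⟩ := p3 v
    obtain ⟨s, s0, s1, s2⟩ := h i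
    exact ⟨i, s1.mono fun x _ => bq_fill fc (U := U i) ⟨_, (mU i _).2 q1⟩ (U1 i) s0 s2 x⟩

end Pool.Agent.Work.MP_3d425c_gt.Bg
end

-- merged part: Pool.Agent.Work.MP_3d425c_gt.Nz.Grp
section
/-! Torsion-free groups without a free abelian subgroup of rank two. -/

namespace Pool.Agent.Work.MP_3d425c_gt.Nz
open Subgroup Pool.Agent.Work.MP_3d425c_gt.To Pool.Agent.Work.MP_3d425c_gt.Cy

section
variable {G : Type*} [Group G] (tf : ∀ a : G, a ≠ 1 → ¬ IsOfFinOrder a)
include tf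

theorem zinj {a : G} (h : a ≠ 1) {i j : ℤ} (e : a ^ i = a ^ j) : i = j :=
  injective_zpow_iff_not_isOfFinOrder.2 (tf a h) e

theorem zne {a : G} (h : a ≠ 1) {i : ℤ} (n : i ≠ 0) : a ^ i ≠ 1 := fun e =>
  n (zinj tf h (e.trans (zpow_zero a).symm))

theorem pne {a : G} (h : a ≠ 1) {i : ℕ} (n : i ≠ 0) : a ^ i ≠ 1 := by
  rw [← zpow_natCast]
  exact zne tf h (by exact_mod_cast n)

theorem dep_ne {a b : G} (ha : a ≠ 1) (hb : b ≠ 1) (d : Dep a b) :
    ∃ m n : ℤ, m ≠ 0 ∧ n ≠ 0 ∧ a ^ m = b ^ n := by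
  obtain ⟨m, n, k, e⟩ := d
  refine ⟨m, n, fun z => ?_, fun z => ?_, e⟩
  · rw [z, zpow_zero] at e
    exact zne tf hb (fun y => k ⟨z, y⟩) e.symm
  · rw [z, zpow_zero] at e
    exact zne tf ha (fun y => k ⟨y, z⟩) e

/-- an element that inverts `b` has no power among the powers of `b` -/
theorem no_inv {b g : G} (hb : b ≠ 1) (e : g * b * g⁻¹ = b⁻¹) {n k : ℤ} (hn : n ≠ 0)
    (h : g ^ n = b ^ k) : False := by
  have e1 : b ^ k = b ^ (-k) := by
    calc b ^ k = g * g ^ n * g⁻¹ := by rw [← h]; group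
      _ = (g * b * g⁻¹) ^ k := by rw [h, conj_zpow]
      _ = _ := by rw [e, inv_zpow, zpow_neg]
  have k0 : k = 0 := by have := zinj tf hb e1; omega
  have g1 : g = 1 := by_contra fun c => zne tf c hn (by rw [h, k0, zpow_zero])
  have : b ^ (1 : ℤ) = b ^ (-1 : ℤ) := by simpa [g1] using e
  have := zinj tf hb this
  omega

theorem normal_pm {h : G} (n : h ≠ 1) (N : (zpowers h).Normal) (g : G) :
    g * h * g⁻¹ = h ∨ g * h * g⁻¹ = h⁻¹ := by
  obtain ⟨k, hk⟩ := N.conj_mem h (mem_zpowers h) g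
  obtain ⟨l, hl⟩ := N.conj_mem h (mem_zpowers h) g⁻¹
  have hk' : h ^ k = g * h * g⁻¹ := hk
  have hl' : h ^ l = g⁻¹ * h * g⁻¹⁻¹ := hl
  have e : h ^ (k * l) = h ^ (1 : ℤ) := by
    rw [zpow_mul, hk', conj_zpow, hl']
    group
  rcases Int.eq_one_or_neg_one_of_mul_eq_one (zinj tf n e) with rfl | rfl
  · exact .inl (by rw [← hk', zpow_one])
  · exact .inr (by rw [← hk', zpow_neg_one])

/-- virtually cyclic and torsion free is cyclic -/
theorem cyc_of_fi (a : G) [(zpowers a).FiniteIndex] : IsCyclic G := by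
  have c : IsCyclic (zpowers a).normalCore := Subgroup.isCyclic_of_le (normalCore_le _)
  obtain ⟨b, hb⟩ := (Subgroup.isCyclic_iff_exists_zpowers_eq_top _).1 c
  have N : (zpowers b).Normal := hb ▸ inferInstance
  have F : (zpowers b).FiniteIndex := hb ▸ inferInstance
  have n0 : (zpowers b).index ≠ 0 := F.index_ne_zero
  have pw : ∀ g : G, g ^ (zpowers b).index ∈ zpowers b := fun g => pow_index_mem _ g
  by_cases b1 : b = 1
  · have : Subsingleton G := ⟨fun g h => by
      have k : ∀ g : G, g = 1 := fun g => by_contra fun c => pne tf c n0 (by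
        have := pw g
        rw [b1, zpowers_one_eq_bot] at this ⊢
        exact this)
      rw [k g, k h]⟩
    infer_instance
  have ce : zpowers b ≤ center G := by
    rw [zpowers_le, mem_center_iff]
    intro g
    rcases normal_pm tf b1 N g with e | e
    · exact mul_inv_eq_iff_eq_mul.1 e
    · obtain ⟨k, hk⟩ := pw g
      exact (no_inv tf b1 e (n := (zpowers b).index) (k := k) (by exact_mod_cast n0)
        (by rw [zpow_natCast]; exact hk.symm)).elim
  have Fc : (center G).FiniteIndex := finiteIndex_of_le ce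
  have inj : Function.Injective (MonoidHom.transferCenterPow G) := by
    rw [injective_iff_map_eq_one]
    intro g hg
    by_contra c
    exact pne tf c Fc.index_ne_zero (congrArg Subtype.val hg)
  have cm : ∀ g h : G, Commute g h := fun g h => inj (by
    rw [map_mul, map_mul]
    exact Subtype.ext (mem_center_iff.1 (MonoidHom.transferCenterPow G h).2 _))
  refine isCyclic_of_injective (G' := zpowers b)
    (MonoidHom.mk' (fun g => ⟨_, pw g⟩) fun g h => Subtype.ext ((cm g h).mul_pow _)) ?_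
  rw [injective_iff_map_eq_one]
  intro g hg
  by_contra c
  exact pne tf c n0 (congrArg Subtype.val hg)

omit tf in
theorem conj_iter {g b : G} {p q : ℤ} (e : g * b ^ p * g⁻¹ = b ^ q) (k : ℕ) :
    g ^ k * b ^ (p ^ k) * (g ^ k)⁻¹ = b ^ (q ^ k) := by
  induction k with
  | zero => simp
  | succ k ih =>
    calc _ = g ^ k * (g * b ^ p * g⁻¹) ^ (p ^ k) * (g ^ k)⁻¹ := by
          rw [conj_zpow, ← zpow_mul, pow_succ g, pow_succ' p]; group
      _ = (g ^ k * b ^ (p ^ k) * (g ^ k)⁻¹) ^ q := by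
          rw [e, conj_zpow, ← zpow_mul, ← zpow_mul, mul_comm q]
      _ = _ := by rw [ih, ← zpow_mul, pow_succ]

variable (nz : ∀ a b : G, a * b = b * a → Dep a b)
include nz

theorem conj_dep {a g : G} (ha : a ≠ 1) (c : a * (g * a * g⁻¹) = g * a * g⁻¹ * a) :
    ∃ p q : ℤ, p ≠ 0 ∧ q ≠ 0 ∧ g * a ^ p * g⁻¹ = a ^ q := by
  obtain ⟨m, n, m0, n0, e⟩ := dep_ne tf ha (fun e => ha (by simpa using e)) (nz _ _ c)
  exact ⟨n, m, n0, m0, by rw [e, conj_zpow]⟩

/-- a centraliser of finite index gives a normal cyclic subgroup -/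
theorem normal_of_fi {a : G} (ha : a ≠ 1) [(centralizer {a}).FiniteIndex] :
    ∃ c : G, c ≠ 1 ∧ (zpowers c).Normal := by
  classical
  obtain ⟨N, hN⟩ : ∃ N, N = (centralizer {a}).normalCore := ⟨_, rfl⟩
  have nN : N.Normal := hN ▸ inferInstance
  have F : N.FiniteIndex := hN ▸ inferInstance
  obtain ⟨b, hb⟩ : ∃ b, b = a ^ N.index := ⟨_, rfl⟩
  have b1 : b ≠ 1 := hb ▸ pne tf ha F.index_ne_zero
  have bN : b ∈ N := hb ▸ pow_index_mem _ a
  have cb : ∀ z ∈ N, z * b = b * z := fun z hz => by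
    have : Commute z a := mem_centralizer_singleton_iff.1 (normalCore_le _ (hN ▸ hz))
    exact hb ▸ (this.pow_right _).eq
  have key : ∀ g : G, ∃ p : ℤ, p ≠ 0 ∧ (g * b ^ p * g⁻¹ = b ^ p ∨ g * b ^ p * g⁻¹ = b ^ (-p)) := by
    intro g
    obtain ⟨p, q, p0, -, e⟩ := conj_dep tf nz b1 (cb _ (nN.conj_mem b bN g)).symm
    have h1 := conj_iter e N.index
    have h2 : Commute (g ^ N.index) b := cb _ (pow_index_mem _ g)
    rw [(h2.zpow_right _).eq, mul_inv_cancel_right] at h1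
    have h3 := (pow_eq_pow_iff_of_ne_zero F.index_ne_zero).1 (zinj tf b1 h1)
    refine ⟨p, p0, ?_⟩
    rcases h3 with h | ⟨h, -⟩
    · exact .inl (by rw [e, h])
    · exact .inr (by rw [e, h, neg_neg])
  choose p p0 hp using key
  have := Fintype.ofFinite (G ⧸ N)
  refine ⟨b ^ ∏ q : G ⧸ N, p q.out, zne tf b1 (Finset.prod_ne_zero_iff.2 fun q _ => p0 _), ?_⟩
  have st : ∀ g : G, g * b ^ (∏ q : G ⧸ N, p q.out) * g⁻¹ ∈ zpowers (b ^ ∏ q : G ⧸ N, p q.out) := by
    intro g
    obtain ⟨z, hz⟩ := QuotientGroup.mk_out_eq_mul N g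
    obtain ⟨m, hm⟩ := Finset.dvd_prod_of_mem (fun q : G ⧸ N => p q.out) (Finset.mem_univ (g : G ⧸ N))
    have h2 : Commute z.1 b := cb _ z.2
    have e : g * b ^ (∏ q : G ⧸ N, p q.out) * g⁻¹ =
        ((g : G ⧸ N).out * b ^ p (g : G ⧸ N).out * (g : G ⧸ N).out⁻¹) ^ m := by
      rw [conj_zpow, ← zpow_mul, ← hm, hz, mul_assoc g z.1, (h2.zpow_right _).eq]
      group
    rw [e]
    rcases hp (g : G ⧸ N).out with h | h <;> rw [h, ← zpow_mul]
    · exact hm ▸ mem_zpowers _
    · rw [neg_mul, zpow_neg]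
      exact inv_mem (hm ▸ mem_zpowers _)
  refine ⟨?_⟩
  rintro _ ⟨k, rfl⟩ g
  rw [← conj_zpow]
  exact zpow_mem (st g) k

end

variable {G : Type} [Group G]

theorem not_onto {E : Type*} [Group E] (f : E →* Multiplicative (ℤ × ℤ)) (v : ℤ × ℤ)
    (h : ∀ g, ∃ m n : ℤ, m ≠ 0 ∧ m • (f g).toAdd = n • v) : ¬ Function.Surjective f := fun s => by
  obtain ⟨x, hx⟩ := s (Multiplicative.ofAdd (1, 0))
  obtain ⟨y, hy⟩ := s (Multiplicative.ofAdd (0, 1))
  obtain ⟨m, n, m0, e⟩ := h x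
  obtain ⟨m', n', m0', e'⟩ := h y
  rw [hx] at e
  rw [hy] at e'
  simp only [toAdd_ofAdd, Prod.ext_iff, Prod.smul_fst, Prod.smul_snd, smul_eq_mul, mul_one,
    mul_zero] at e e'
  rcases mul_eq_zero.1 e.2.symm with h | h
  · exact m0 (by rw [e.1, h, zero_mul])
  · exact m0' (by rw [e'.2, h, mul_zero])

theorem comm_of_cyc {E : Subgroup G} (c : IsCyclic E) {x y : G} (hx : x ∈ E) (hy : y ∈ E) :
    x * y = y * x :=
  congrArg Subtype.val (c.commGroup.mul_comm ⟨x, hx⟩ ⟨y, hy⟩)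

/-- the elements that commensurate the powers of `a` -/
def Cms (a : G) : Subgroup G where
  carrier := {h | ∃ p q : ℤ, p ≠ 0 ∧ q ≠ 0 ∧ h * a ^ p * h⁻¹ = a ^ q}
  one_mem' := ⟨1, 1, one_ne_zero, one_ne_zero, by simp⟩
  mul_mem' := by
    rintro g h ⟨p, q, p0, q0, e⟩ ⟨r, s, r0, s0, f⟩
    refine ⟨r * p, q * s, mul_ne_zero r0 p0, mul_ne_zero q0 s0, ?_⟩
    calc _ = g * (h * a ^ r * h⁻¹) ^ p * g⁻¹ := by rw [conj_zpow, ← zpow_mul]; group
      _ = (g * a ^ p * g⁻¹) ^ s := by rw [f, conj_zpow, ← zpow_mul, ← zpow_mul, mul_comm s]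
      _ = _ := by rw [e, ← zpow_mul]
  inv_mem' := by
    rintro g ⟨p, q, p0, q0, e⟩
    exact ⟨q, p, q0, p0, by rw [← e]; group⟩

variable (tf : ∀ a : G, a ≠ 1 → ¬ IsOfFinOrder a) (nz : ∀ a b : G, a * b = b * a → Dep a b)
include tf

theorem abs_eq_of_top (h0 : Md.NoHom G) {a g : G} (ha : a ≠ 1) (t : ∀ h, h ∈ Cms a) {p q : ℤ}
    (p0 : p ≠ 0) (q0 : q ≠ 0) (e : g * a ^ p * g⁻¹ = a ^ q) : |p| = |q| := by
  choose r s r0 s0 f using t
  have wd : ∀ h (p q : ℤ), p ≠ 0 → q ≠ 0 → h * a ^ p * h⁻¹ = a ^ q →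
      Real.log (s h) - Real.log (r h) = Real.log q - Real.log p := fun h p q p0 q0 e => by
    have : s h * p = q * r h := zinj tf ha (by
      rw [zpow_mul, zpow_mul, ← f h, ← e, conj_zpow, conj_zpow, ← zpow_mul, ← zpow_mul, mul_comm p])
    have k := congrArg (fun z : ℤ => Real.log z) this
    simp only [Int.cast_mul] at k
    rw [Real.log_mul (by exact_mod_cast s0 h) (by exact_mod_cast p0),
      Real.log_mul (by exact_mod_cast q0) (by exact_mod_cast r0 h)] at k
    linarith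
  let χ : G →* Multiplicative ℝ := MonoidHom.mk'
    (fun h => Multiplicative.ofAdd (Real.log (s h) - Real.log (r h))) fun g h => by
      rw [← ofAdd_add, wd (g * h) (r h * r g) (s g * s h) (mul_ne_zero (r0 _) (r0 _))
        (mul_ne_zero (s0 _) (s0 _)) (by
          calc _ = g * (h * a ^ r h * h⁻¹) ^ r g * g⁻¹ := by rw [conj_zpow, ← zpow_mul]; group
            _ = (g * a ^ r g * g⁻¹) ^ s h := by
              rw [f h, conj_zpow, ← zpow_mul, ← zpow_mul, mul_comm (s h)]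
            _ = _ := by rw [f g, ← zpow_mul])]
      simp only [Int.cast_mul]
      rw [Real.log_mul (by exact_mod_cast s0 g) (by exact_mod_cast s0 h),
        Real.log_mul (by exact_mod_cast r0 h) (by exact_mod_cast r0 g)]
      congr 1
      ring
  have k : Real.log (s g) - Real.log (r g) = 0 :=
    congrArg Multiplicative.toAdd (DFunLike.congr_fun (h0 χ) g)
  rw [wd g p q p0 q0 e, sub_eq_zero, ← Real.log_abs, ← Real.log_abs (p : ℝ)] at k
  have := Real.log_injOn_pos (Set.mem_Ioi.2 (abs_pos.2 (show (q : ℝ) ≠ 0 by exact_mod_cast q0)))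
    (Set.mem_Ioi.2 (abs_pos.2 (show (p : ℝ) ≠ 0 by exact_mod_cast p0))) k
  exact_mod_cast this.symm

include nz

/-- finitely generated subgroups of a centraliser -/
theorem cyc_cent (hB : Big G) (nn : ∀ c : G, (zpowers c).Normal → c = 1) {a : G} (ha : a ≠ 1)
    {E : Subgroup G} (fg : E.FG) (aE : a ∈ E) (le : ∀ x ∈ E, x * a = a * x) : IsCyclic E := by
  rcases hB E fg with c | c | ⟨f, s⟩
  · exact c
  · have : (centralizer {a}).FiniteIndex :=
      finiteIndex_of_le (H := E) fun x hx => mem_centralizer_singleton_iff.2 (le x hx)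
    obtain ⟨c, c1, c2⟩ := normal_of_fi tf nz ha
    exact (c1 (nn c c2)).elim
  · refine (not_onto f (f ⟨a, aE⟩).toAdd (fun g => ?_) s).elim
    by_cases g1 : g.1 = 1
    · exact ⟨1, 0, one_ne_zero, by rw [show g = 1 from Subtype.ext g1]; simp⟩
    obtain ⟨m, n, m0, -, e⟩ := dep_ne tf g1 ha (nz _ _ (le g.1 g.2))
    refine ⟨m, n, m0, ?_⟩
    rw [← toAdd_zpow, ← toAdd_zpow, ← map_zpow, ← map_zpow]
    exact congrArg (fun z => (f z).toAdd) (Subtype.ext e)

/-- a normal cyclic subgroup, or abelian malnormal centralisers -/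
theorem csa_or (hB : Big G) (h0 : Md.NoHom G) :
    (∃ a : G, a ≠ 1 ∧ (zpowers a).Normal) ∨ Bg.Sf.Csa G := by
  classical
  refine or_iff_not_imp_left.2 fun n => ?_
  have nn : ∀ c : G, (zpowers c).Normal → c = 1 := fun c k => by_contra fun e => n ⟨c, e, k⟩
  have ct : ∀ a x y : G, a ≠ 1 → x * a = a * x → y * a = a * y → x * y = y * x := by
    intro a x y ha hx hy
    refine comm_of_cyc (cyc_cent tf nz hB nn ha (E := closure {a, x, y})
      ((Subgroup.fg_iff _).2 ⟨_, rfl, Set.toFinite _⟩) (subset_closure (by simp)) fun z hz => ?_)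
      (subset_closure (by simp)) (subset_closure (by simp))
    refine mem_centralizer_singleton_iff.1 ((closure_le _).2 ?_ hz)
    rintro w (rfl | rfl | rfl)
    exacts [mem_centralizer_singleton_iff.2 rfl, mem_centralizer_singleton_iff.2 hx,
      mem_centralizer_singleton_iff.2 hy]
  refine ⟨tf, ct, fun a g ha c => ?_⟩
  obtain ⟨p, q, p0, q0, e⟩ := conj_dep tf nz ha c
  have ap := zne tf ha p0
  by_cases h1 : p = q
  · exact ct _ g a ap (mul_inv_eq_iff_eq_mul.1 (e.trans (by rw [h1]))) (Commute.self_zpow a p).eq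
  by_cases h2 : p = -q
  · have e' : g * a ^ p * g⁻¹ = (a ^ p)⁻¹ := by rw [e, h2, zpow_neg, inv_inv]
    by_cases g1 : g = 1
    · simp [g1]
    obtain ⟨m, k, m0, -, d⟩ := dep_ne tf (pne tf g1 two_ne_zero) ap (nz _ _ (by
      refine mul_inv_eq_iff_eq_mul.1 ?_
      calc g ^ 2 * a ^ p * (g ^ 2)⁻¹ = g * (g * a ^ p * g⁻¹) * g⁻¹ := by rw [sq]; group
        _ = g * (a ^ p)⁻¹ * g⁻¹ := by rw [e']
        _ = (g * a ^ p * g⁻¹)⁻¹ := by simp only [mul_inv_rev, inv_inv, mul_assoc]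
        _ = _ := by rw [e', inv_inv]))
    exact (no_inv tf ap e' (n := 2 * m) (k := k) (mul_ne_zero two_ne_zero m0)
      (by rw [zpow_mul, ← d]; norm_cast)).elim
  have ga : g ∈ closure {a, g} := subset_closure (by simp)
  have aa : a ∈ closure {a, g} := subset_closure (by simp)
  rcases hB (closure {a, g}) ((Subgroup.fg_iff _).2 ⟨_, rfl, Set.toFinite _⟩) with k | k | ⟨f, s⟩
  · exact comm_of_cyc k ga aa
  · have : (Cms a).FiniteIndex := finiteIndex_of_le (H := closure {a, g}) ((closure_le _).2 (by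
      rintro w (rfl | rfl)
      exacts [⟨1, 1, one_ne_zero, one_ne_zero, by simp⟩, ⟨p, q, p0, q0, e⟩]))
    have cm : ∀ h ∈ Cms a, Commute (h * a * h⁻¹) a := by
      rintro h ⟨r, s, -, s0, f⟩
      refine ct _ _ _ (zne tf ha s0) ?_ (Commute.self_zpow a s).eq
      rw [← f, ← conj_zpow]
      exact (Commute.self_zpow _ r).eq
    obtain ⟨N, hN⟩ : ∃ N, N = (Cms a).normalCore := ⟨_, rfl⟩
    have nN : N.Normal := hN ▸ inferInstance
    have F : N.FiniteIndex := hN ▸ inferInstance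
    have le : N ≤ Cms a := hN ▸ normalCore_le _
    have bN : a ^ N.index ∈ N := pow_index_mem _ a
    have b1 := pne tf ha F.index_ne_zero
    have all : ∀ h, h ∈ Cms a := fun h => by
      refine conj_dep tf nz ha ?_
      obtain ⟨b, hb⟩ : ∃ b, b = a ^ N.index := ⟨_, rfl⟩
      obtain ⟨a', ha'⟩ : ∃ a', a' = h * a * h⁻¹ := ⟨_, rfl⟩
      obtain ⟨b', hb'⟩ : ∃ b', b' = a' ^ N.index := ⟨_, rfl⟩
      rw [← hb] at bN b1
      have e1 : b' = h * b * h⁻¹ := by rw [hb', ha', hb, conj_pow]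
      have b1' : b' ≠ 1 := fun z => b1 (by simpa [e1] using z)
      have c1 : Commute b a := hb ▸ Commute.pow_self a _
      have c2 : Commute b' a' := hb' ▸ Commute.pow_self a' _
      have c3 : Commute (b' * b * b'⁻¹) a := by
        rw [hb, ← conj_pow]
        exact (cm _ (le (e1 ▸ nN.conj_mem b bN h))).pow_left _
      have c4 : Commute (b * b' * b⁻¹) a' := by
        rw [hb', ← conj_pow]
        refine Commute.pow_left ?_ _
        have k := (cm _ (le (nN.conj_mem' b bN h))).eq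
        rw [ha']
        calc _ = h * (h⁻¹ * b * h * a * (h⁻¹ * b * h)⁻¹ * a) * h⁻¹ := by group
          _ = _ := by rw [k]; group
      rw [← ha']
      by_cases w : b' * b * b'⁻¹ * b⁻¹ = 1
      · have c5 : b' * b = b * b' := by
          rw [mul_inv_eq_one, mul_inv_eq_iff_eq_mul] at w
          exact w
        exact ct b' a a' b1' (ct b a b' b1 c1.symm.eq c5) c2.symm.eq
      · refine ct _ a a' w (c3.mul_left c1.inv_left).symm.eq (Commute.symm ?_).eq
        have : b' * b * b'⁻¹ * b⁻¹ = b' * (b * b' * b⁻¹)⁻¹ := by group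
        rw [this]
        exact c2.mul_left c4.inv_left
    rcases abs_eq_abs.1 (abs_eq_of_top tf h0 ha all p0 q0 e) with z | z
    exacts [(h1 z).elim, (h2 z).elim]
  · refine (not_onto f (f ⟨g, ga⟩).toAdd (fun x => ?_) s).elim
    have fa : (f ⟨a, aa⟩).toAdd = 0 := by
      have e2 : (⟨g, ga⟩ * ⟨a, aa⟩ ^ p * ⟨g, ga⟩⁻¹ : closure {a, g}) = ⟨a, aa⟩ ^ q :=
        Subtype.ext e
      have e3 := congrArg (fun z => (f z).toAdd) e2
      simp only [map_mul, map_inv, map_zpow, mul_inv_cancel_comm, toAdd_zpow] at e3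
      have e4 : (p - q) • (f ⟨a, aa⟩).toAdd = 0 := by rw [sub_smul, e3, sub_self]
      exact (smul_eq_zero.1 e4).resolve_left (sub_ne_zero.2 h1)
    obtain ⟨x, hx⟩ := x
    suffices ∃ n : ℤ, (f ⟨x, hx⟩).toAdd = n • (f ⟨g, ga⟩).toAdd from
      this.elim fun n k => ⟨1, n, one_ne_zero, by rw [one_smul, k]⟩
    induction hx using closure_induction with
    | mem x hx =>
      rcases hx with rfl | rfl
      exacts [⟨0, by rw [zero_smul]; exact fa⟩, ⟨1, (one_smul _ _).symm⟩]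
    | one => exact ⟨0, by rw [zero_smul]; exact congrArg Multiplicative.toAdd f.map_one⟩
    | mul x y hx hy a b =>
      obtain ⟨m, a⟩ := a
      obtain ⟨n, b⟩ := b
      exact ⟨m + n, by
        rw [add_smul, ← a, ← b, ← toAdd_mul, ← map_mul]; rfl⟩
    | inv x hx a =>
      obtain ⟨m, a⟩ := a
      exact ⟨-m, by rw [neg_smul, ← a, ← toAdd_inv, ← map_inv]; rfl⟩

end Pool.Agent.Work.MP_3d425c_gt.Nz
end

-- merged part: Pool.Agent.Work.MP_3d425c_gt.Nz.Surf4
section
/-! The surface lemma for torsion free groups without a Klein bottle relation. -/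

namespace Pool.Agent.Work.MP_3d425c_gt.Bg.Sf
open Relation MulAction Function Pointwise

/-- Torsion free, and no element other than the unit is conjugate to its inverse. -/
structure Kf (D : Type) [Group D] : Prop where
  tf : ∀ a : D, a ≠ 1 → ¬ IsOfFinOrder a
  kl : ∀ s r : D, s * r * s⁻¹ = r⁻¹ → r = 1

variable {D V E F : Type} [Group D] [MulAction D V] [MulAction D E] [MulAction D F]

theorem one_of_zpow (tf : ∀ a : D, a ≠ 1 → ¬ IsOfFinOrder a) {r : D} {m : ℤ} (hm : m ≠ 0)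
    (h : r ^ m = 1) : r = 1 := by
  by_contra n
  exact zpow_ne_one tf n hm h

theorem one_of_sq (tf : ∀ a : D, a ≠ 1 → ¬ IsOfFinOrder a) {r : D} (h : r * r = 1) : r = 1 :=
  one_of_zpow tf (m := 2) (by norm_num) (by rw [zpow_two, h])

theorem kf_of_nz (tf : ∀ a : D, a ≠ 1 → ¬ IsOfFinOrder a)
    (nz : ∀ a b : D, a * b = b * a → ∃ m n : ℤ, ¬ (m = 0 ∧ n = 0) ∧ a ^ m = b ^ n) :
    Kf D := by
  refine ⟨tf, fun s r e => ?_⟩
  have c : r * (s * s) = s * s * r := by
    have : s * s * r * (s * s)⁻¹ = r := by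
      calc _ = s * (s * r * s⁻¹) * s⁻¹ := by group
        _ = s * r⁻¹ * s⁻¹ := by rw [e]
        _ = (s * r * s⁻¹)⁻¹ := by group
        _ = r := by rw [e, inv_inv]
    exact (mul_inv_eq_iff_eq_mul.1 this).symm
  obtain ⟨m, n, k, p⟩ := nz r (s * s) c
  by_cases hm : m = 0
  · subst hm
    have s1 : s = 1 := one_of_sq tf (one_of_zpow tf (fun e => k ⟨rfl, e⟩)
      (by rw [← p, zpow_zero]))
    subst s1
    exact one_of_sq tf (mul_eq_one_iff_eq_inv.2 (by simpa using e))
  · refine one_of_zpow tf (m := m + m) (by omega) ?_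
    have q : s * r ^ m * s⁻¹ = r ^ m := by
      rw [p, (((Commute.refl s).mul_right (Commute.refl s)).zpow_right n).eq, mul_inv_cancel_right]
    rw [← conj_zpow, e, inv_zpow] at q
    rw [zpow_add]
    exact mul_eq_one_iff_eq_inv.2 q.symm

/-- Two dependent commuting generators of a torsion free group are powers of one element. -/
theorem root_of_nz (tf : ∀ a : D, a ≠ 1 → ¬ IsOfFinOrder a)
    (nz : ∀ a b : D, a * b = b * a → ∃ m n : ℤ, ¬ (m = 0 ∧ n = 0) ∧ a ^ m = b ^ n)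
    {s t : D} (c : s * t = t * s) :
    ∃ r ∈ Subgroup.closure {s, t}, s ∈ Subgroup.zpowers r ∧ t ∈ Subgroup.zpowers r := by
  have c : Commute s t := c
  obtain ⟨m, n, k, p⟩ := nz s t c
  have g0 : 0 < Int.gcd m n := Int.gcd_pos_iff.2 (not_and_or.1 k)
  obtain ⟨m', n', co, hm, hn⟩ := Int.exists_gcd_one g0
  have p' : s ^ m' = t ^ n' := by
    rw [← mul_inv_eq_one]
    refine one_of_zpow tf (m := Int.gcd m n) (by exact_mod_cast g0.ne') ?_
    rw [((c.zpow_zpow m' n').inv_right).mul_zpow, inv_zpow, ← zpow_mul, ← zpow_mul, ← hm, ← hn, p,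
      mul_inv_cancel]
  have bz := Int.gcd_eq_gcd_ab m' n'
  rw [co, Nat.cast_one] at bz
  generalize Int.gcdA m' n' = a, Int.gcdB m' n' = b at bz
  refine ⟨s ^ b * t ^ a, mul_mem (zpow_mem (Subgroup.subset_closure (by simp)) _)
    (zpow_mem (Subgroup.subset_closure (by simp)) _),
    Subgroup.mem_zpowers_iff.2 ⟨n', ?_⟩, Subgroup.mem_zpowers_iff.2 ⟨m', ?_⟩⟩
  · rw [(c.zpow_zpow b a).mul_zpow, ← zpow_mul, ← zpow_mul, mul_comm a, zpow_mul t, ← p',
      ← zpow_mul, ← zpow_add, show b * n' + m' * a = 1 by linarith, zpow_one]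
  · rw [(c.zpow_zpow b a).mul_zpow, ← zpow_mul, ← zpow_mul, mul_comm b, zpow_mul s, p',
      ← zpow_mul, ← zpow_add, show n' * b + a * m' = 1 by linarith, zpow_one]

theorem mem_of_par {X : Type} {a : X} {l : List X}
    (h : ∀ u : X → ZMod 2, u a + (l.map u).sum = 0) : a ∈ l := by
  classical
  by_contra n
  have := h fun z => if z = a then 1 else 0
  rw [if_pos rfl, List.sum_eq_zero, add_zero] at this
  · exact one_ne_zero this
  · intro z hz
    obtain ⟨w, hw, rfl⟩ := List.mem_map.1 hz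
    exact if_neg fun e : w = a => n (e ▸ hw)

theorem pm_of {w z z' s : D} (h : z = w ∨ z = w * s) (h' : z' = w ∨ z' = w * s) (n : z ≠ z') :
    ∃ a, (a = s ∨ a = s⁻¹) ∧ z' = z * a := by
  rcases h with rfl | rfl <;> rcases h' with rfl | rfl
  · exact absurd rfl n
  · exact ⟨s, Or.inl rfl, rfl⟩
  · exact ⟨s⁻¹, Or.inr rfl, by simp⟩
  · exact absurd rfl n

/-- A mod 2 cycle with two `t`-edges and two `s`-edges, not both pairs equal. -/
theorem Kf.full (hD : Kf D) {s t x y p q : D} (hne : x ≠ y ∨ p ≠ q)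
    (h : ∀ u : D → ZMod 2, u x + u (x * t) + (u y + u (y * t)) +
      (u p + u (p * s) + (u q + u (q * s))) = 0) : s * t = t * s := by
  by_contra nc
  have two : (2 : ZMod 2) = 0 := rfl
  have s1 : s ≠ 1 := by rintro rfl; simp at nc
  have t1 : t ≠ 1 := by rintro rfl; simp at nc
  have deg : ∀ r x y : D, x ≠ y → (∀ u : D → ZMod 2, u x + u (x * r) + (u y + u (y * r)) = 0) →
      r = 1 := fun r x y n k => by
    by_contra r1
    have a : x ∈ [x * r, y, y * r] := mem_of_par fun u => by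
      simp only [List.map, List.sum_cons, List.sum_nil]; linear_combination k u
    have b : y ∈ [x, x * r, y * r] := mem_of_par fun u => by
      simp only [List.map, List.sum_cons, List.sum_nil]; linear_combination k u
    simp only [List.mem_cons, List.not_mem_nil, left_eq_mul, r1, n, n.symm, or_false,
      false_or] at a b
    rw [b, mul_assoc, left_eq_mul] at a
    exact r1 (one_of_sq hD.tf a)
  have hxy : x ≠ y := by
    rintro rfl
    exact s1 (deg s p q (hne.resolve_left (by simp)) fun u => by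
      linear_combination h u - (u x + u (x * t)) * two)
  have ca : ∀ a, (a = s ∨ a = s⁻¹) → a * t ≠ t * a := by
    rintro a (rfl | rfl) e
    exacts [nc e, nc (Commute.inv_left_iff.1 e).eq]
  have pp : ∀ a b, (a = s ∨ a = s⁻¹) → (b = s ∨ b = s⁻¹) → b = a ∨ b = a⁻¹ := by
    rintro a b (rfl | rfl) (rfl | rfl) <;> simp
  have na : ∀ w z, (z = w ∨ z = w * s) → ¬ (z * t = w ∨ z * t = w * s) := fun w z i j => by
    obtain ⟨a, ha, e⟩ := pm_of i j (by simpa using t1)
    exact ca a ha (by rw [mul_left_cancel e])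
  have tt : t * t ≠ 1 := fun e => t1 (one_of_sq hD.tf e)
  have sq : ∀ a b, (a = s ∨ a = s⁻¹) → (b = s ∨ b = s⁻¹) → t * t ≠ a * b := fun a b ha hb e => by
    rcases pp a b ha hb with rfl | rfl
    · have := hD.kl b (b⁻¹ * t) (by
        calc _ = t⁻¹ * (t * t) * b⁻¹ := by group
          _ = _ := by rw [e]; group)
      exact ca b hb (by rw [inv_mul_eq_one.1 this])
    · exact tt (by simpa using e)
  have I0 : ∀ x p q : D, (∀ u : D → ZMod 2, u x + u (x * t * t) +
      (u p + u (p * s) + (u q + u (q * s))) = 0) → ¬ (x = p ∨ x = p * s) := fun x p q k i => by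
    have n : x ≠ x * t * t := fun e => tt (by rwa [mul_assoc, left_eq_mul] at e)
    have np : ¬ (x * t * t = p ∨ x * t * t = p * s) := fun j => by
      obtain ⟨a, ha, e⟩ := pm_of i j n
      rw [mul_assoc] at e
      exact ca a ha (by rw [← mul_left_cancel e, mul_assoc])
    have a : x * t * t ∈ [x, p, p * s, q, q * s] := mem_of_par fun u => by
      simp only [List.map, List.sum_cons, List.sum_nil]; linear_combination k u
    rw [not_or] at np
    simp only [List.mem_cons, List.not_mem_nil, n.symm, np.1, np.2, or_false, false_or] at a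
    rcases i with rfl | rfl
    · have b : x * s ∈ [x * t * t, q, q * s] := mem_of_par fun u => by
        simp only [List.map, List.sum_cons, List.sum_nil]; linear_combination k u - u x * two
      simp only [List.mem_cons, List.not_mem_nil, Ne.symm np.2, or_false, false_or] at b
      obtain ⟨c, hc, e⟩ := pm_of b a (Ne.symm np.2)
      rw [mul_assoc, mul_assoc] at e
      exact sq s c (Or.inl rfl) hc (mul_left_cancel e)
    · have b : p ∈ [p * s * t * t, q, q * s] := mem_of_par fun u => by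
        simp only [List.map, List.sum_cons, List.sum_nil]; linear_combination k u - u (p * s) * two
      simp only [List.mem_cons, List.not_mem_nil, Ne.symm np.1, or_false, false_or] at b
      obtain ⟨c, hc, e⟩ := pm_of b a (Ne.symm np.1)
      rw [mul_assoc, mul_assoc] at e
      exact sq s⁻¹ c (Or.inr rfl) hc (by rw [← mul_left_cancel e, inv_mul_cancel_left])
  have I : ∀ x : D, ¬ ∀ u : D → ZMod 2, u x + u (x * t * t) +
      (u p + u (p * s) + (u q + u (q * s))) = 0 := fun x k => by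
    have a : x ∈ [x * t * t, p, p * s, q, q * s] := mem_of_par fun u => by
      simp only [List.map, List.sum_cons, List.sum_nil]; linear_combination k u
    have n1 := I0 x p q k
    have n2 := I0 x q p fun u => by linear_combination k u
    rw [not_or] at n1 n2
    simp only [List.mem_cons, List.not_mem_nil, n1.1, n1.2, n2.1, n2.2, or_false] at a
    exact tt (by rwa [mul_assoc, left_eq_mul] at a)
  have n1 : x * t ≠ y := by
    rintro rfl
    exact I x fun u => by linear_combination h u - u (x * t) * two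
  have n2 : x ≠ y * t := by
    rintro rfl
    exact I y fun u => by linear_combination h u - u (y * t) * two
  have n3 : x * t ≠ y * t := fun e => hxy (mul_right_cancel e)
  have II : ∀ p q : D, (x = p ∨ x = p * s) →
      ((x * t = p ∨ x * t = p * s) ∨ (x * t = q ∨ x * t = q * s)) →
      ((y = p ∨ y = p * s) ∨ (y = q ∨ y = q * s)) →
      ((y * t = p ∨ y * t = p * s) ∨ (y * t = q ∨ y * t = q * s)) → False := fun p q a b c d => by
    replace b := b.resolve_left (na p x a)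
    rcases c with c | c
    · obtain ⟨i, hi, e⟩ := pm_of a c hxy
      obtain ⟨j, hj, f⟩ := pm_of b (d.resolve_left (na p y c)) n3
      rw [e, mul_assoc, mul_assoc] at f
      replace f := mul_left_cancel f
      rcases pp i j hi hj with rfl | rfl
      · exact ca j hj f
      · have := hD.kl t⁻¹ i (by rw [mul_assoc, inv_inv, f, inv_mul_cancel_left])
        exact ca i hi (by simp [this])
    · obtain ⟨i, hi, e⟩ := pm_of b c n1
      obtain ⟨j, hj, f⟩ := pm_of a (d.resolve_right (na q y c)) n2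
      rw [e, mul_assoc, mul_assoc] at f
      replace f := mul_left_cancel f
      rcases pp i j hi hj with rfl | rfl
      · refine t1 (hD.kl j t ?_)
        calc _ = t⁻¹ * (t * (j * t)) * j⁻¹ := by group
          _ = _ := by rw [f]; group
      · have := one_of_sq hD.tf (r := t * i) (by
          calc _ = t * (i * t) * i := by group
            _ = _ := by rw [f]; group)
        exact ca i hi (by rw [mul_eq_one_iff_eq_inv.1 this]; group)
  have a : x ∈ [x * t, y, y * t, p, p * s, q, q * s] := mem_of_par fun u => by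
    simp only [List.map, List.sum_cons, List.sum_nil]; linear_combination h u
  have b : x * t ∈ [x, y, y * t, p, p * s, q, q * s] := mem_of_par fun u => by
    simp only [List.map, List.sum_cons, List.sum_nil]; linear_combination h u
  have c : y ∈ [y * t, x, x * t, p, p * s, q, q * s] := mem_of_par fun u => by
    simp only [List.map, List.sum_cons, List.sum_nil]; linear_combination h u
  have d : y * t ∈ [y, x, x * t, p, p * s, q, q * s] := mem_of_par fun u => by
    simp only [List.map, List.sum_cons, List.sum_nil]; linear_combination h u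
  simp only [List.mem_cons, List.not_mem_nil, left_eq_mul, mul_eq_left, t1, hxy, hxy.symm, n1,
    n1.symm, n2, n2.symm, n3, n3.symm, or_false, false_or] at a b c d
  rw [← or_assoc] at a b c d
  exact a.elim (fun a => II p q a b c d) fun a => II q p a b.symm c.symm d.symm

theorem Srf.four (S : Srf D V E F)
    {v : V} (tr : ∀ x, ∃ g : D, g • v = x) {e e' : E} {s t x y p q : D} {f : F}
    (h0 : S.a0 e = v) (h1 : S.a1 e = s • v) (k0 : S.a0 e' = v)
    (k1 : S.a1 e' = t • v) (ne : e' ∉ orbit D e) (all : ∀ c, c ∈ orbit D e ∨ c ∈ orbit D e')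
    (hx : x • S.p0 e' = f) (hy : y • S.p1 e' = f) (hp : p • S.p0 e = f) (hq : q • S.p1 e = f)
    (u : D → ZMod 2) :
    u x + u (x * t) + (u y + u (y * t)) + (u p + u (p * s) + (u q + u (q * s))) = 0 := by
  classical
  choose c hc using tr
  have cc : ∀ g : D, c (g • v) = g := fun g => free_inj S.fV (hc _)
  have o := S.orth (fun z => u (c z)) (fun z => if z = f then 1 else 0) (Or.inr (ind_fin _))
  have i : ∀ {z : F} {k : D}, k • z = f → ∀ g : D, g • z = f ↔ g = k := fun hk g => by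
    rw [← hk]; exact ⟨free_inj S.fF, fun h => by rw [h]⟩
  have j : ∀ {d : E}, S.a0 d = v → Injective fun g : D => g • d := fun hd a b h =>
    free_inj S.fV (x := v) (by rw [← hd, ← S.ea0, ← S.ea0]; exact congrArg _ h)
  have key : ∀ (d : E) (r a b : D), S.a0 d = v → S.a1 d = r • v → a • S.p0 d = f →
      b • S.p1 d = f → ∑ z ∈ ({a, b} : Finset D).image (fun g : D => g • d),
        (u (c (S.a0 z)) + u (c (S.a1 z))) * ((if S.p0 z = f then 1 else 0) +
          if S.p1 z = f then 1 else 0) = u a + u (a * r) + (u b + u (b * r)) :=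
    fun d r a b d0 d1 ha hb => by
      rw [Finset.sum_image fun _ _ _ _ h => j d0 h]
      simp only [S.ea0, S.ea1, S.ep0, S.ep1, d0, d1, ← mul_smul, cc, i ha, i hb]
      by_cases hab : a = b
      · subst hab
        simp [CharTwo.add_self_eq_zero]
      · rw [Finset.sum_pair hab]
        simp [hab, Ne.symm hab]
  rw [finsum_eq_sum_of_support_subset (s := ({x, y} : Finset D).image (fun g : D => g • e') ∪
    ({p, q} : Finset D).image (fun g : D => g • e)), Finset.sum_union, key e' t x y k0 k1 hx hy,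
    key e s p q h0 h1 hp hq] at o
  · exact o
  · rw [Finset.disjoint_left]
    intro z z1 z2
    obtain ⟨a, -, rfl⟩ := Finset.mem_image.1 z1
    obtain ⟨b, -, hb⟩ := Finset.mem_image.1 z2
    exact ne ⟨a⁻¹ * b, by simp only [mul_smul, hb, inv_smul_smul]⟩
  · intro z hz
    by_contra hn
    refine hz ?_
    rw [Finset.coe_union, Set.mem_union, not_or] at hn
    rcases all z with ⟨g, rfl⟩ | ⟨g, rfl⟩
    · have n0 : g ≠ p := by rintro rfl; exact hn.2 (by simp)
      have n1 : g ≠ q := by rintro rfl; exact hn.2 (by simp)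
      simp [S.ep0, S.ep1, i hp, i hq, n0, n1]
    · have n0 : g ≠ x := by rintro rfl; exact hn.1 (by simp)
      have n1 : g ≠ y := by rintro rfl; exact hn.1 (by simp)
      simp [S.ep0, S.ep1, i hx, i hy, n0, n1]

theorem Srf.lastK (S : Srf D V E F) (hD : Kf D)
    (tV : ∀ v x : V, ∃ g : D, g • v = x) (tF : ∀ v x : F, ∃ g : D, g • v = x)
    (h2 : Nat.card (orbitRel.Quotient D E) ≤ 2) : IsCyclic D ∨
      ∃ s t : D, Subgroup.closure {s, t} = ⊤ ∧ s * t = t * s := by
  obtain ⟨v⟩ := S.neV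
  obtain ⟨f⟩ := S.neF
  have := S.finE
  have one : ∀ s : D, Subgroup.zpowers s = ⊤ → IsCyclic D := fun s h =>
    ⟨s, fun x => (h ▸ Subgroup.mem_top x : x ∈ Subgroup.zpowers s)⟩
  have uniq : ∀ c e, S.a0 c = v → S.a0 e = v → c ∈ orbit D e → c = e := by
    rintro _ e hc he ⟨g, rfl⟩
    rw [S.ea0, he] at hc
    simp only [S.fV g v hc, one_smul]
  by_cases hN : ∃ e, S.a0 e = v
  swap
  · exact Or.inl (one 1 (S.gen (tV v) _ fun e s h _ => (hN ⟨e, h⟩).elim))
  obtain ⟨e, h0⟩ := hN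
  obtain ⟨s, h1⟩ := tV v (S.a1 e)
  by_cases hN : ∃ e', S.a0 e' = v ∧ e' ≠ e
  swap
  · refine Or.inl (one s (S.gen (tV v) _ fun c t h k => ?_))
    obtain rfl : c = e := by by_contra n; exact hN ⟨c, h, n⟩
    rw [free_inj S.fV (k.symm.trans h1.symm)]
    exact Subgroup.mem_zpowers s
  obtain ⟨e', k0, ne⟩ := hN
  obtain ⟨t, k1⟩ := tV v (S.a1 e')
  have ne' : (Quotient.mk'' e' : orbitRel.Quotient D E) ≠ Quotient.mk'' e :=
    fun q => ne (uniq _ _ k0 h0 (Quotient.exact q))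
  have := Fintype.ofFinite (orbitRel.Quotient D E)
  rw [Nat.card_eq_fintype_card] at h2
  have all : ∀ c, c ∈ orbit D e ∨ c ∈ orbit D e' := fun c => by
    by_contra n
    rw [not_or] at n
    exact absurd (Fintype.two_lt_card_iff.2 ⟨Quotient.mk'' c, Quotient.mk'' e', Quotient.mk'' e,
      fun q => n.2 (Quotient.exact q), fun q => n.1 (Quotient.exact q), ne'⟩) (not_lt.2 h2)
  have hg : Subgroup.closure {s, t} = ⊤ := S.gen (tV v) _ fun c q h k => by
    rcases all c with n | n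
    · obtain rfl := uniq _ _ h h0 n
      rw [free_inj S.fV (k.symm.trans h1.symm)]
      exact Subgroup.subset_closure (by simp)
    · obtain rfl := uniq _ _ h k0 n
      rw [free_inj S.fV (k.symm.trans k1.symm)]
      exact Subgroup.subset_closure (by simp)
  refine Or.inr ⟨s, t, hg, ?_⟩
  obtain ⟨x, hx⟩ := tF (S.p0 e') f
  obtain ⟨y, hy⟩ := tF (S.p1 e') f
  obtain ⟨x', hx'⟩ := tF (S.p0 e) f
  obtain ⟨y', hy'⟩ := tF (S.p1 e) f
  by_cases hh : x ≠ y ∨ x' ≠ y'
  · exact hD.full hh (S.four (tV v) h0 h1.symm k0 k1.symm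
      (fun q => ne (uniq _ _ k0 h0 q)) all hx hy hx' hy')
  rw [not_or, not_not, not_not] at hh
  obtain ⟨hxy, hxy'⟩ := hh
  subst hxy hxy'
  have q' : S.p0 e' = S.p1 e' := smul_left_cancel x (hx.trans hy.symm)
  have q : S.p0 e = S.p1 e := smul_left_cancel x' (hx'.trans hy'.symm)
  have triv : ∀ g : D, g = 1 := fun g => by
    refine S.fF g f ((const_of_eqv (P := fun z => z = f) ?_ (S.cF f (g • f))).1 rfl)
    rintro _ _ ⟨c, rfl, rfl⟩
    rcases all c with ⟨k, rfl⟩ | ⟨k, rfl⟩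
    · rw [S.ep0, S.ep1, q]
    · rw [S.ep0, S.ep1, q']
  exact (triv _).trans (triv _).symm

/-- non-negative Euler characteristic gives a cyclic group -/
theorem Srf.cycZ (S : Srf D V E F) (tf : ∀ a : D, a ≠ 1 → ¬ IsOfFinOrder a)
    (nz : ∀ a b : D, a * b = b * a → ∃ m n : ℤ, ¬ (m = 0 ∧ n = 0) ∧ a ^ m = b ^ n)
    (chi : Nat.card (orbitRel.Quotient D E) ≤
      Nat.card (orbitRel.Quotient D V) + Nat.card (orbitRel.Quotient D F)) : IsCyclic D :=
  Srf.reduce (IsCyclic D) 2 (fun _ _ _ _ _ _ S p q c =>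
    (S.lastK (kf_of_nz tf nz) p q c).elim id fun ⟨s, t, hg, e⟩ => by
      obtain ⟨r, -, h1, h2⟩ := root_of_nz tf nz e
      refine ⟨r, fun x => (?_ : Subgroup.closure {s, t} ≤ Subgroup.zpowers r)
        (hg ▸ Subgroup.mem_top x)⟩
      rw [Subgroup.closure_le]
      rintro z (rfl | rfl)
      exacts [h1, h2]) _ V E F S rfl (by omega)

theorem nz_sub (nz : ∀ a b : D, a * b = b * a → ∃ m n : ℤ, ¬ (m = 0 ∧ n = 0) ∧ a ^ m = b ^ n)
    (H : Subgroup D) (a b : H) (p : a * b = b * a) :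
    ∃ m n : ℤ, ¬ (m = 0 ∧ n = 0) ∧ a ^ m = b ^ n := by
  obtain ⟨m, n, k, e⟩ := nz a.1 b.1 (congrArg Subtype.val p)
  exact ⟨m, n, k, Subtype.ext e⟩

theorem tf_sub (tf : ∀ a : D, a ≠ 1 → ¬ IsOfFinOrder a) (H : Subgroup D) (a : H) (ha : a ≠ 1) :
    ¬ IsOfFinOrder a := fun k => tf a.1 (fun e => ha (Subtype.ext e)) (H.subtype.isOfFinOrder k)

/-- The surface lemma of `S_surf` for a torsion free group with dependent commuting elements. -/
theorem surfZ (tf : ∀ a : D, a ≠ 1 → ¬ IsOfFinOrder a)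
    (nz : ∀ a b : D, a * b = b * a → ∃ m n : ℤ, ¬ (m = 0 ∧ n = 0) ∧ a ^ m = b ^ n) :
    (∀ (g : D) (v : V), g • v = v → g = 1) →
    (∀ (g : D) (c : F), g • c = c → g = 1) → Finite (Md.Ob D E) → Nonempty E →
    ∀ (en : E → Bool → V) (sd : E → Bool → F), (∀ (g : D) e i, en (g • e) i = g • en e i) →
    (∀ (g : D) e i, sd (g • e) i = g • sd e i) → (∀ v, ∃ e i, en e i = v) →
    (∀ c, ∃ e i, sd e i = c) →
    (∀ c v, Even (Nat.card {p : E × Bool × Bool // sd p.1 p.2.1 = c ∧ en p.1 p.2.2 = v})) →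
    (∀ e e' i j, en e i = en e' j → EqvGen (fun x y => ∃ k l, sd x k = sd y l) e e') →
    (∀ e e' i j, sd e i = sd e' j → EqvGen (fun x y => ∃ k l, en x k = en y l) e e') →
    oc D E ≤ oc D V + oc D F → ∃ (a : D) (U : Set E), U.Nonempty ∧
      (∀ e ∈ U, ∀ e' i j, en e i = en e' j → e' ∈ U) ∧ (∀ e, a • e ∈ U ↔ e ∈ U) ∧ Sm a U := by
  intro fV fF finE ⟨e₀⟩ en sd ee es sV sF ev lV lF chi
  classical
  have finE' : Finite (orbitRel.Quotient D E) := finE
  have := fin_of_sur en ee sV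
  have := fin_of_sur sd es sF
  have := Fintype.ofFinite (orbitRel.Quotient D E)
  have := Fintype.ofFinite (orbitRel.Quotient D V)
  have := Fintype.ofFinite (orbitRel.Quotient D F)
  obtain ⟨r, hr⟩ : ∃ r, r = EqvGen (fun x y : E => ∃ k l, en x k = en y l) := ⟨_, rfl⟩
  have eq : Equivalence r := hr ▸ EqvGen.is_equivalence _
  have rV : ∀ e e' i j, en e i = en e' j → r e e' := fun e e' i j h =>
    hr ▸ EqvGen.rel _ _ ⟨i, j, h⟩
  have rF : ∀ e e' i j, sd e i = sd e' j → r e e' := fun e e' i j h => hr ▸ lF e e' i j h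
  have rs : ∀ (g : D) e e', r e e' → r (g • e) (g • e') := fun g e e' h => by
    rw [hr] at h
    induction h with
    | rel x y c => obtain ⟨k, l, c⟩ := c; exact rV _ _ k l (by rw [ee, ee, c])
    | refl => exact eq.refl _
    | symm _ _ _ ih => exact eq.symm ih
    | trans _ _ _ _ _ i j => exact eq.trans i j
  obtain ⟨κE, kE⟩ : ∃ κE : E → Set E, ∀ e x, x ∈ κE e ↔ r e x :=
    ⟨fun e => {x | r e x}, fun _ _ => Iff.rfl⟩
  have kr : ∀ e e', κE e = κE e' ↔ r e e' := fun e e' =>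
    ⟨fun h => (kE e e').1 (h ▸ (kE e' e').2 (eq.refl _)), fun h => Set.ext fun x => by
      rw [kE, kE]; exact ⟨eq.trans (eq.symm h), eq.trans h⟩⟩
  have hE : ∀ (g : D) e, κE (g • e) = g • κE e := fun g e => Set.ext fun x => by
    rw [Set.mem_smul_set_iff_inv_smul_mem, kE, kE]
    exact ⟨fun h => by simpa using rs g⁻¹ _ _ h, fun h => by simpa using rs g _ _ h⟩
  choose cV iV qV using sV
  choose cF iF qF using sF
  have kV : ∀ e i, κE (cV (en e i)) = κE e := fun e i => (kr _ _).2 (rV _ _ _ _ (qV _))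
  have kF : ∀ e i, κE (cF (sd e i)) = κE e := fun e i => (kr _ _).2 (rF _ _ _ _ (qF _))
  have hV : ∀ (g : D) v, κE (cV (g • v)) = g • κE (cV v) := fun g v => by
    rw [← hE, ← kV (g • cV v) (iV v), ee, qV]
  have hF : ∀ (g : D) v, κE (cF (g • v)) = g • κE (cF v) := fun g v => by
    rw [← hE, ← kF (g • cF v) (iF v), es, qF]
  let t := Finset.univ.image (qm κE hE)
  have mt : ∀ e, Quotient.mk'' (κE e) ∈ t := fun e =>
    Finset.mem_image.2 ⟨Quotient.mk'' e, Finset.mem_univ _, rfl⟩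
  have c1 := Finset.card_eq_sum_card_fiberwise (s := Finset.univ) (t := t) (f := qm κE hE)
    (by rintro ⟨e⟩ _; exact mt e)
  have c2 := Finset.card_eq_sum_card_fiberwise (s := Finset.univ) (t := t)
    (f := qm (fun v => κE (cV v)) hV) (by rintro ⟨e⟩ _; exact mt _)
  have c3 := Finset.card_eq_sum_card_fiberwise (s := Finset.univ) (t := t)
    (f := qm (fun v => κE (cF v)) hF) (by rintro ⟨e⟩ _; exact mt _)
  have chi' : Nat.card (orbitRel.Quotient D E) ≤
    Nat.card (orbitRel.Quotient D V) + Nat.card (orbitRel.Quotient D F) := chi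
  simp only [Nat.card_eq_fintype_card, ← Finset.card_univ] at chi'
  rw [c1, c2, c3, ← Finset.sum_add_distrib] at chi'
  obtain ⟨q, hq, le⟩ := Finset.exists_le_of_sum_le ⟨_, mt e₀⟩ chi'
  obtain ⟨⟨e⟩, -, rfl⟩ := Finset.mem_image.1 hq
  obtain ⟨f1, d1⟩ := fib_card κE hE (κE e)
  obtain ⟨f2, d2⟩ := fib_card (fun v => κE (cV v)) hV (κE e)
  obtain ⟨f3, d3⟩ := fib_card (fun v => κE (cF v)) hF (κE e)
  have S : Srf (stabilizer D (κE e)) (fib (fun v => κE (cV v)) hV (κE e)) (fib κE hE (κE e))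
      (fib (fun v => κE (cF v)) hF (κE e)) :=
    { a0 := fun x => ⟨en x.1 false, (kV _ _).trans x.2⟩
      a1 := fun x => ⟨en x.1 true, (kV _ _).trans x.2⟩
      p0 := fun x => ⟨sd x.1 false, (kF _ _).trans x.2⟩
      p1 := fun x => ⟨sd x.1 true, (kF _ _).trans x.2⟩
      ea0 := fun g x => Subtype.ext (ee g.1 x.1 _)
      ea1 := fun g x => Subtype.ext (ee g.1 x.1 _)
      ep0 := fun g x => Subtype.ext (es g.1 x.1 _)
      ep1 := fun g x => Subtype.ext (es g.1 x.1 _)
      fV := fun g v h => Subtype.ext (fV g.1 v.1 (congrArg Subtype.val h))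
      fF := fun g v h => Subtype.ext (fF g.1 v.1 (congrArg Subtype.val h))
      neV := ⟨⟨en e false, kV _ _⟩⟩
      neF := ⟨⟨sd e false, kF _ _⟩⟩
      cV := conn_fib en (fun v => κE (cV v)) κE kV (fun v => ⟨_, _, qV v⟩)
        (fun a b h => hr ▸ (kr a b).1 h) _ _ fun a ha => ⟨⟨a, ha⟩, rfl, rfl⟩
      cF := conn_fib sd (fun v => κE (cF v)) κE kF (fun v => ⟨_, _, qF v⟩)
        (fun a b h => eqv_le (fun x y ⟨k, l, c⟩ => lV x y k l c) (hr ▸ (kr a b).1 h)) _ _
        fun a ha => ⟨⟨a, ha⟩, rfl, rfl⟩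
      finV := f2
      finE := f1
      finF := f3
      orth := fun u w h => by
        obtain ⟨u', u1, u2, u3⟩ := ext_zero u
        obtain ⟨w', w1, -, w3⟩ := ext_zero w
        rw [← orth_of fV fF en sd ee es ev u' w' (h.imp u3 w3)]
        simp only [← u1, ← w1]
        refine (finsum_subtype_eq_finsum_cond (f := fun x => (u' (en x false) + u' (en x true)) *
          (w' (sd x false) + w' (sd x true))) (p := fun x => κE x = κE e)).trans
          (finsum_congr fun x => ?_)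
        rw [finsum_eq_if]
        split_ifs with hx
        · rfl
        · rw [u2 _ fun c => hx ((kV x false).symm.trans c),
            u2 _ fun c => hx ((kV x true).symm.trans c), add_zero, zero_mul] }
  obtain ⟨a, ha⟩ := (S.cycZ (tf_sub tf _) (nz_sub nz _)
    (by rw [d1, d2, d3]; exact le)).exists_generator
  refine ⟨a.1, κE e, ⟨e, (kE _ _).2 (eq.refl _)⟩, fun x hx y i j h => ?_, fun x => ?_, ?_⟩
  · exact (kE _ _).2 (eq.trans ((kE _ _).1 hx) (rV _ _ _ _ h))
  · have h : a.1 • x ∈ a.1 • κE e ↔ x ∈ κE e := Set.smul_mem_smul_set_iff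
    rwa [show a.1 • κE e = κE e from a.2] at h
  · refine ⟨Set.range fun q : orbitRel.Quotient (stabilizer D (κE e)) (fib κE hE (κE e)) =>
      (Quotient.out q).1, Set.finite_range _, fun x hx => ?_⟩
    let y : fib κE hE (κE e) := ⟨x, ((kr _ _).2 ((kE _ _).1 hx)).symm⟩
    obtain ⟨g, hg⟩ := Quotient.exact (Quotient.out_eq (Quotient.mk'' y :
      orbitRel.Quotient (stabilizer D (κE e)) (fib κE hE (κE e)))).symm
    obtain ⟨n, rfl⟩ := Subgroup.mem_zpowers_iff.1 (ha g)
    exact ⟨_, ⟨Quotient.mk'' y, rfl⟩, n, (congrArg Subtype.val hg).symm⟩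

end Pool.Agent.Work.MP_3d425c_gt.Bg.Sf

namespace Pool.Agent.Work.MP_3d425c_gt.Bg
open Set Relation Pool.Agent.Work.MP_3d425c_gt.Md Pool.Agent.Work.MP_3d425c_gt.Cy

variable {G X0 X1 X2 X3 : Type} [Group G] [MulAction G X0] [MulAction G X1] [MulAction G X2]
  [MulAction G X3] {T : Tri G X0 X1 X2 X3} {E : Subgroup G} {Ω : Type} [MulAction E Ω]

/-- a boundary component that is finite modulo a cyclic group -/
theorem bdyZ (hM : Mfd T) (tf : ∀ a : E, a ≠ 1 → ¬ IsOfFinOrder a)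
    (nz : ∀ a b : E, a * b = b * a → ∃ m n : ℤ, ¬ (m = 0 ∧ n = 0) ∧ a ^ m = b ^ n)
    (W : Et T E Ω) [Finite (Ob E Ω)]
    (bd : ∃ x, W.Bd x) (h : oc E (W.C2 1 2) ≤ oc E (W.C1 1 1) + oc E (W.C3 1 3)) :
    ∃ (a : E) (U : Set (X1 × (Fin 2 → Option Ω))), U.Nonempty ∧ (∀ c ∈ U, c ∈ W.C1 1 1) ∧
      (∀ c, a • c ∈ U ↔ c ∈ U) ∧ Sm a U ∧
      ∀ c ∈ W.C2 1 2, ∀ k l, f2 T c k ∈ U → f2 T c l ∈ W.C1 1 1 → f2 T c l ∈ U := by
  obtain ⟨kk, k1, k2, k3⟩ := bd_en W
  obtain ⟨sd, m, s1, s2, s3, s4⟩ := bd_sd W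
  let en : W.C2 1 2 → Bool → W.C1 1 1 := fun c i =>
    ⟨f2 T c.1 (kk c i), c.2.1 _, ((k3 c _).2 ⟨i, rfl⟩).ge, ((k3 c _).2 ⟨i, rfl⟩).le⟩
  have e1 : ∀ (g : E) c i, en (g • c) i = g • en c i := fun g c i => Subtype.ext (by
    show f2 T (g • c.1) (kk (g • c) i) = g • f2 T c.1 (kk c i)
    rw [k1, Et.f2_smul])
  have e2 : ∀ (c : W.C2 1 2) k (v : W.C1 1 1), f2 T c.1 k = v.1 → ∃ i, kk c i = k ∧ en c i = v := by
    intro c k v e
    obtain ⟨i, rfl⟩ := (k3 c k).1 (by rw [e]; exact le_antisymm v.2.2.2 v.2.2.1)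
    exact ⟨i, rfl, Subtype.ext e⟩
  have e3 : ∀ v, ∃ c i, en c i = v := by
    intro v
    obtain ⟨f, k, e⟩ := hM.pure v.1.1
    obtain ⟨c, -, e'⟩ := bd_up W v e
    obtain ⟨i, -, e''⟩ := e2 c k v e'
    exact ⟨c, i, e''⟩
  have e4 : Nonempty (W.C2 1 2) := by
    obtain ⟨x, e, hx | hx⟩ := bd
    · exact ⟨(e3 ⟨(e, ![some x, none]), hx, show (1 : ℕ) ∈ Icc 1 1 from ⟨le_rfl, le_rfl⟩⟩).choose⟩
    · exact ⟨(e3 ⟨(e, ![none, some x]), hx, show (1 : ℕ) ∈ Icc 1 1 from ⟨le_rfl, le_rfl⟩⟩).choose⟩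
  have e5 : ∀ (c c' : W.C2 1 2) x k k', f3 T x k = c.1 → f3 T x k' = c'.1 →
      bd_sh (bd_pat x.2) k k' → ∃ i j, en c i = en c' j := by
    rintro c c' x k k' a1 a2 ⟨i, j, hij, a3, ⟨rfl, rfl⟩ | ⟨rfl, rfl⟩⟩
    · obtain ⟨t, a4⟩ := (k3 c i).1 (by rw [← a1]; exact a3)
      obtain ⟨t', -, a5⟩ := e2 c' j (en c t) (by
        show _ = f2 T c.1 (kk c t)
        rw [a4, ← a1, ← a2, f2_f3 T x i j hij])
      exact ⟨t, t', a5.symm⟩
    · obtain ⟨t, a4⟩ := (k3 c' i).1 (by rw [← a2]; exact a3)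
      obtain ⟨t', -, a5⟩ := e2 c j (en c' t) (by
        show _ = f2 T c'.1 (kk c' t)
        rw [a4, ← a1, ← a2, f2_f3 T x i j hij])
      exact ⟨t', t, a5⟩
  have key := Sf.surfZ (D := E) (V := W.C1 1 1) (E := W.C2 1 2) (F := W.C3 1 3) tf nz
    (fun g c h => W.free_cell g c.2.2.1 (congrArg (fun z : W.C1 1 1 => z.1.2) h))
    (fun g c h => W.free_cell g c.2.2.1 (congrArg (fun z : W.C3 1 3 => z.1.2) h))
    (W.finC2 one_pos 2) e4 en sd e1 s1 e3 ?_ ?_ ?_ ?_ h
  · obtain ⟨a, U, u1, u2, u3, K, hK, u4⟩ := key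
    refine ⟨a, {v | ∃ c ∈ U, ∃ i, (en c i).1 = v}, ?_, ?_, fun v => ⟨?_, ?_⟩,
      ⟨(fun p : W.C2 1 2 × Bool => (en p.1 p.2).1) '' (K ×ˢ univ),
        (hK.prod finite_univ).image _, ?_⟩, ?_⟩
    · obtain ⟨c, hc⟩ := u1
      exact ⟨_, c, hc, true, rfl⟩
    · rintro _ ⟨c, -, i, rfl⟩
      exact (en c i).2
    · rintro ⟨c, hc, i, e⟩
      refine ⟨a⁻¹ • c, (u3 _).1 (by rwa [smul_inv_smul]), i, ?_⟩
      rw [e1]
      show a⁻¹ • (en c i).1 = v
      rw [e, inv_smul_smul]
    · rintro ⟨c, hc, i, rfl⟩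
      exact ⟨a • c, (u3 c).2 hc, i, congrArg Subtype.val (e1 a c i)⟩
    · rintro _ ⟨c, hc, i, rfl⟩
      obtain ⟨k, hk, n, rfl⟩ := u4 c hc
      exact ⟨_, ⟨(k, i), ⟨hk, trivial⟩, rfl⟩, n, congrArg Subtype.val (e1 _ k i)⟩
    · rintro c hc k l ⟨c', hc', i, e⟩ hl
      obtain ⟨j, -, a1⟩ := e2 ⟨c, hc⟩ k (en c' i) e.symm
      obtain ⟨j', -, a2⟩ := e2 ⟨c, hc⟩ l ⟨_, hl⟩ rfl
      exact ⟨⟨c, hc⟩, u2 c' hc' _ i j a1.symm, j', congrArg Subtype.val a2⟩
  · intro x
    obtain ⟨k, hk⟩ := bd_d4 (bd_pat x.1.2) x.2.2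
    obtain ⟨i, e, -⟩ := s4 ⟨f3 T x.1 k, x.2.1 k, hk⟩ x.1 k x.2.1 rfl
    exact ⟨_, i, Subtype.ext e⟩
  · intro x v
    let Φ : {p : W.C2 1 2 × Bool × Bool // sd p.1 p.2.1 = x ∧ en p.1 p.2.2 = v} →
        {q : Fin 4 × Fin 3 // f2 T (f3 T x.1 q.1) q.2 = v.1} := fun p =>
      ⟨(m p.1.1 p.1.2.1, kk p.1.1 p.1.2.2), by
        obtain ⟨⟨c, i, j⟩, rfl, rfl⟩ := p
        exact congrArg (f2 T · (kk c j)) (s3 c i)⟩
    have hΦ : Function.Bijective Φ := by
      constructor
      · rintro ⟨⟨c, i, j⟩, a1, a2⟩ ⟨⟨c', i', j'⟩, a3, a4⟩ e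
        have a5 : m c i = m c' i' := congrArg (fun z => z.1.1) e
        have a6 : kk c j = kk c' j' := congrArg (fun z => z.1.2) e
        have a7 : sd c i = sd c' i' := a1.trans a3.symm
        obtain rfl : c = c' := Subtype.ext (by rw [← s3 c i, ← s3 c' i', a5, a7])
        obtain rfl := s2 c i i' a7 a5
        obtain rfl := k2 c a6
        rfl
      · rintro ⟨⟨k, l⟩, e⟩
        have a1 : np (f3 T x.1 k).2 ∈ Icc 1 2 := bd_d2 (bd_pat (f3 T x.1 k).2) l (by
          have a2 := le_antisymm v.2.2.2 v.2.2.1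
          rw [← e] at a2
          exact a2)
        obtain ⟨i, a2, a3⟩ := s4 ⟨f3 T x.1 k, x.2.1 k, a1⟩ x.1 k x.2.1 rfl
        obtain ⟨j, a4, a5⟩ := e2 ⟨f3 T x.1 k, x.2.1 k, a1⟩ l v e
        exact ⟨⟨(_, i, j), Subtype.ext a2, a5⟩, Subtype.ext (Prod.ext a3 a4)⟩
    rw [Nat.card_eq_of_bijective Φ hΦ]
    exact bd_even x.1 v.1
  · intro c c' i j e
    have a1 : f2 T c.1 (kk c i) = f2 T c'.1 (kk c' j) := congrArg Subtype.val e
    refine (bd_link W (en c i) ?_ (T.link (c.1.1, kk c i) (c'.1.1, kk c' j)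
      (congrArg Prod.fst a1))).2 c c' rfl rfl rfl a1.symm
    intro d d' x k k' hx a2 a3
    obtain ⟨t, a4, -⟩ := s4 d x k hx a2
    obtain ⟨t', a5, -⟩ := s4 d' x k' hx a3
    exact ⟨t, t', Subtype.ext (a4.trans a5.symm)⟩
  · intro c c' i j e
    have a1 := s3 c i
    have a2 := s3 c' j
    rw [← e] at a2
    have a3 := c.2.2
    have a4 := c'.2.2
    rw [← a1] at a3
    rw [← a2] at a4
    rcases bd_d5 (bd_pat (sd c i).1.2) _ _ a3 a4 with a5 | a5 | ⟨k, a5, a6, a7⟩
    · rw [a5] at a1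
      rw [Subtype.ext (a1.symm.trans a2)]
      exact EqvGen.refl _
    · exact EqvGen.rel _ _ (e5 c c' _ _ _ a1 a2 a5)
    · exact (EqvGen.rel _ _ (e5 c ⟨_, (sd c i).2.1 k, a7⟩ _ _ _ a1 rfl a5)).trans _ _ _
        (EqvGen.rel _ _ (e5 _ c' _ _ _ rfl a2 a6))

end Pool.Agent.Work.MP_3d425c_gt.Bg
end
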