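import Pool.Agent.Work.MP_3d425c_gt.To.Gen1
import Pool.Agent.Work.MP_3d425c_gt.Cy.U2
import Pool.Agent.Work.MP_3d425c_gt.To.CvA
import Pool.Agent.Work.MP_3d425c_gt.To.AxB
import Pool.Agent.Work.MP_3d425c_gt.To.Quot

-- merged part: Pool.Agent.Work.MP_3d425c_gt.To.Gen2
section
/-! The generic conjugate of an action of moves. -/

namespace Pool.Agent.Work.MP_3d425c_gt.To.Tg
open Set Filter Topology Pool.Agent.Work.MP_3d425c_gt.Cy

variable {G : Type*} [Group G] {A : Type*} [Group A]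
variable {O : G → II → II → Prop} {lab : A →* G} {τ : A}

/-- The conjugate of an action. -/
def cja (φ : II ≃o II) (ρ : A →* (II ≃o II)) : A →* (II ≃o II) :=
  (MulAut.conj φ).toMonoidHom.comp ρ

theorem cja_apply (φ : II ≃o II) (ρ : A →* (II ≃o II)) (p : A) :
    cja φ ρ p = φ * ρ p * φ⁻¹ := rfl

theorem cja_mul (ψ φ : II ≃o II) (ρ : A →* (II ≃o II)) :
    cja (ψ * φ) ρ = cja ψ (cja φ ρ) := by
  ext1 p
  simp only [cja_apply]
  group

theorem Mv.cja {T : II ≃o II} {ρ : A →* (II ≃o II)} (M : Mv O lab τ T ρ) {φ : II ≃o II}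
    (h : φ * T = T * φ) : Mv O lab τ T (cja φ ρ) := by
  have e : ∀ t, T (φ⁻¹ t) = φ⁻¹ (T t) := fun t =>
    congrArg (fun f : II ≃o II => f t) (Commute.inv_left h).eq.symm
  refine ⟨M.ne, M.arr, by rw [cja_apply, M.eq, h, mul_inv_cancel_right], fun p t ht => ?_,
    fun p t ht => ?_⟩
  · rw [cja_apply, RelIso.mul_apply, RelIso.mul_apply, M.fix p _ (by rw [e, ht]),
      RelIso.apply_inv_self]
  · rw [cja_apply, RelIso.mul_apply, RelIso.mul_apply] at ht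
    have k : ρ p (φ⁻¹ t) = φ⁻¹ t := φ.injective (by rw [ht, RelIso.apply_inv_self])
    refine (M.free _ _ k).imp_right fun k2 => ?_
    rw [e] at k2
    exact (φ⁻¹).injective k2

/-- Chains that follow a fixed pattern of compact pieces and moves. -/
def tW (K : G → ℕ → Set (II × II)) (ρ : A →* (II ≃o II)) (P : Set II) (e : G × ℕ) :
    List (G × ℕ × A) → II → II → Prop
  | [], s, u => (s, u) ∈ K e.1 e.2
  | x :: l, s, u => ∃ t, (s, t) ∈ K x.1 x.2.1 ∧ t ∉ P ∧ ρ x.2.2 t ∉ P ∧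
      tW K ρ P e l (ρ x.2.2 t) u

/-- The label of a pattern. -/
def tL (lab : A →* G) (e : G × ℕ) : List (G × ℕ × A) → G
  | [] => e.1
  | x :: l => tL lab e l * lab x.2.2 * x.1

/-- A space of maps commuting with `T`. -/
structure TSp (T : II ≃o II) {R : Type} [MetricSpace R] (ι : R → II ≃o II) : Prop where
  com : ∀ f, ι f * T = T * ι f
  cont : Continuous fun p : R × II => ι p.1 p.2
  cinv : Continuous fun p : R × II => (ι p.1)⁻¹ p.2
  near : ∀ f, ∀ ε > 0, ∃ δ > 0, ∀ ψ : II ≃o II, ψ * T = T * ψ → (∀ x, dist (ψ x) x ≤ δ) →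
    ∃ f', ι f' = ψ * ι f ∧ dist f' f < ε

theorem tg_space (T : II ≃o II) :
    ∃ (R : Type) (_ : MetricSpace R) (_ : CompleteSpace R) (_ : Nonempty R) (ι : R → II ≃o II),
      TSp T ι := by
  let Z : Set (C(II, II) × C(II, II)) := {f | Monotone f.1 ∧ (∀ x, f.1 (f.2 x) = x) ∧
    (∀ x, f.2 (f.1 x) = x) ∧ ∀ x, f.1 (T x) = T (f.1 x)}
  have c1 : ∀ x : II, Continuous fun f : C(II, II) × C(II, II) => f.1 x := fun x =>
    (continuous_eval_const x).comp continuous_fst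
  have c2 : ∀ x : II, Continuous fun f : C(II, II) × C(II, II) => f.2 x := fun x =>
    (continuous_eval_const x).comp continuous_snd
  have hcl : IsClosed Z := by
    simp only [Z, Monotone, ofPred_and, ofPred_forall]
    refine IsClosed.inter (isClosed_iInter fun a => isClosed_iInter fun b =>
      isClosed_iInter fun _ => isClosed_le (c1 a) (c1 b)) (IsClosed.inter
      (isClosed_iInter fun x => isClosed_eq ?_ continuous_const) (IsClosed.inter
      (isClosed_iInter fun x => isClosed_eq ?_ continuous_const)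
      (isClosed_iInter fun x => isClosed_eq (c1 _) (T.continuous.comp (c1 x)))))
    · exact continuous_eval.comp (continuous_fst.prodMk (c2 x))
    · exact continuous_eval.comp (continuous_snd.prodMk (c1 x))
  have hiso : ∀ f : Z, ∃ ρ : II ≃o II, (∀ x, ρ x = f.1.1 x) ∧ ∀ x, ρ⁻¹ x = f.1.2 x := by
    rintro ⟨f, h1, h2, h3, -⟩
    have i1 : Function.Injective f.1 := Function.LeftInverse.injective h3
    refine ⟨(h1.strictMono_of_injective i1).orderIsoOfRightInverse _ f.2 h2, fun _ => rfl,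
      fun x => rfl⟩
  choose ι hι hι2 using hiso
  have hmk : ∀ ρ : II ≃o II, ρ * T = T * ρ → ∃ f, ι f = ρ := fun ρ h =>
    ⟨⟨(⟨ρ, ρ.continuous⟩, ⟨(ρ⁻¹ : II ≃o II), (ρ⁻¹).continuous⟩), ρ.monotone, RelIso.apply_inv_self ρ,
      RelIso.inv_apply_self ρ, fun x => congrArg (fun f : II ≃o II => f x) h⟩,
      RelIso.ext fun x => hι _ x⟩
  have hcom : ∀ f, ι f * T = T * ι f := fun f => RelIso.ext fun x => by
    rw [RelIso.mul_apply, RelIso.mul_apply, hι, hι, f.2.2.2.2]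
  obtain ⟨f0, -⟩ := hmk 1 (by rw [one_mul, mul_one])
  refine ⟨Z, inferInstance, hcl.completeSpace_coe, ⟨f0⟩, ι, hcom, ?_, ?_, fun f ε hε => ?_⟩
  · simp only [hι]
    exact continuous_eval.comp ((continuous_fst.comp (continuous_subtype_val.comp
      continuous_fst)).prodMk continuous_snd)
  · simp only [hι2]
    exact continuous_eval.comp ((continuous_snd.comp (continuous_subtype_val.comp
      continuous_fst)).prodMk continuous_snd)
  · obtain ⟨δ, hδ, hu⟩ := Metric.uniformContinuous_iff.1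
      (CompactSpace.uniformContinuous_of_continuous ((ι f)⁻¹).continuous) (ε / 2) (by positivity)
    refine ⟨min (δ / 2) (ε / 2), by positivity, fun ψ hψ hc => ?_⟩
    obtain ⟨f', hf'⟩ := hmk (ψ * ι f) (by rw [mul_assoc, hcom, ← mul_assoc, hψ, mul_assoc])
    refine ⟨f', hf', ?_⟩
    refine lt_of_le_of_lt (b := ε / 2) ?_ (half_lt_self hε)
    rw [Subtype.dist_eq, Prod.dist_eq]
    refine max_le ((ContinuousMap.dist_le (by positivity)).2 fun x => ?_)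
      ((ContinuousMap.dist_le (by positivity)).2 fun x => ?_)
    · rw [← hι, ← hι, hf', RelIso.mul_apply]
      exact (hc _).trans (min_le_right _ _)
    · rw [← hι2, ← hι2, hf', mul_inv_rev, RelIso.mul_apply]
      have a2 := (hc (ψ⁻¹ x)).trans (min_le_left _ _)
      rw [RelIso.apply_inv_self, dist_comm] at a2
      exact (hu (a2.trans_lt (half_lt_self hδ))).le

theorem tg_conj {ρ : A →* (II ≃o II)} {ψ : II ≃o II} {P : Set II} (hψ : ∀ z, z ∉ P → ψ z = z)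
    (i : A) {t : II} (ht : t ∉ P) : cja ψ ρ i t = ψ (ρ i t) := by
  have e : ψ⁻¹ t = t := by
    conv_lhs => rw [← hψ t ht]
    exact RelIso.inv_apply_self ψ t
  rw [cja_apply, RelIso.mul_apply, RelIso.mul_apply, e]

section Pat

variable {K : G → ℕ → Set (II × II)} {ρ : A →* (II ≃o II)} {P Q : Set II} {e : G × ℕ}
  {l : List (G × ℕ × A)} {s u : II}

theorem tW_ch (hK : ∀ b s t, O b s t ↔ ∃ m, (s, t) ∈ K b m) (h : tW K ρ P e l s u) :
    Cn O lab ρ P l.length (tL lab e l) s u := by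
  induction l generalizing s with
  | nil => exact (hK _ _ _).2 ⟨_, h⟩
  | cons x l ih =>
    obtain ⟨t, h1, h2, h3, h4⟩ := h
    exact ⟨x.1, t, x.2.2, _, (hK _ _ _).2 ⟨_, h1⟩, h2, h3, ih h4, rfl⟩

theorem ch_tW (hK : ∀ b s t, O b s t ↔ ∃ m, (s, t) ∈ K b m) {n : ℕ} {γ : G}
    (h : Cn O lab ρ P n γ s u) : ∃ e l, l.length = n ∧ tL lab e l = γ ∧ tW K ρ P e l s u := by
  induction n generalizing γ s with
  | zero =>
    obtain ⟨m, hm⟩ := (hK _ _ _).1 h
    exact ⟨(γ, m), [], rfl, rfl, hm⟩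
  | succ n ih =>
    obtain ⟨b, t, i, γ', h1, h2, h3, h4, rfl⟩ := h
    obtain ⟨m, hm⟩ := (hK _ _ _).1 h1
    obtain ⟨e, l, rfl, rfl, h5⟩ := ih h4
    exact ⟨e, (b, m, i) :: l, rfl, rfl, t, hm, h2, h3, h5⟩

theorem tW_anti (hs : P ⊆ Q) (h : tW K ρ Q e l s u) : tW K ρ P e l s u := by
  induction l generalizing s with
  | nil => exact h
  | cons x l ih =>
    obtain ⟨t, h1, h2, h3, h4⟩ := h
    exact ⟨t, h1, fun h => h2 (hs h), fun h => h3 (hs h), ih h4⟩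

theorem tW_lt (hO : Grpd O) (hK : ∀ b s t, O b s t ↔ ∃ m, (s, t) ∈ K b m) {s' u' : II}
    (h : tW K ρ P e l s u) (h' : tW K ρ P e l s' u') : s < s' ↔ u < u' := by
  induction l generalizing s s' with
  | nil => exact gen_olt hO ((hK _ _ _).2 ⟨_, h⟩) ((hK _ _ _).2 ⟨_, h'⟩)
  | cons x l ih =>
    obtain ⟨t, h1, -, -, h4⟩ := h
    obtain ⟨t', h1', -, -, h4'⟩ := h'
    rw [gen_olt hO ((hK _ _ _).2 ⟨_, h1⟩) ((hK _ _ _).2 ⟨_, h1'⟩), ← ih h4 h4',
      OrderIso.lt_iff_lt]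

theorem tW_conj {ψ : II ≃o II} (hψ : ∀ z, z ∉ P → ψ z = z) :
    tW K (cja ψ ρ) P e l s u ↔ tW K ρ P e l s u := by
  induction l generalizing s with
  | nil => rfl
  | cons x l ih =>
    refine exists_congr fun t => and_congr_right fun _ => and_congr_right fun ht => ?_
    rw [tg_conj hψ _ ht]
    constructor
    · rintro ⟨h1, h2⟩
      have e := ψ.injective (hψ _ h1)
      rw [e] at h1 h2
      exact ⟨h1, ih.1 h2⟩
    · rintro ⟨h1, h2⟩
      rw [hψ _ h1]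
      exact ⟨h1, ih.2 h2⟩

theorem tW_dich (hK : ∀ b s t, O b s t ↔ ∃ m, (s, t) ∈ K b m) (Q : Set II)
    (h : tW K ρ ∅ e l s u) : tW K ρ Q e l s u ∨
      ∃ (n₁ n₂ : ℕ) (γ₁ γ₂ : G) (j : A) (y : II), n₁ + n₂ + 1 = l.length ∧
        Cn O lab ρ ∅ n₁ γ₁ s y ∧ Cn O lab ρ ∅ n₂ γ₂ (ρ j y) u ∧
        tL lab e l = γ₂ * lab j * γ₁ ∧ (y ∈ Q ∨ ρ j y ∈ Q) := by
  induction l generalizing s with
  | nil => exact Or.inl h
  | cons x l ih =>
    obtain ⟨t, h1, h2, h3, h4⟩ := h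
    have o := (hK _ _ _).2 ⟨_, h1⟩
    by_cases hc : t ∈ Q ∨ ρ x.2.2 t ∈ Q
    · exact Or.inr ⟨0, l.length, x.1, _, x.2.2, t, by simp, o, tW_ch hK h4, rfl, hc⟩
    · rcases ih h4 with h | ⟨n₁, n₂, γ₁, γ₂, j, y, a1, a2, a3, a4, a5⟩
      · exact Or.inl ⟨t, h1, fun h => hc (Or.inl h), fun h => hc (Or.inr h), h⟩
      · refine Or.inr ⟨n₁ + 1, n₂, γ₁ * lab x.2.2 * x.1, γ₂, j, y, by simp; omega,
          ⟨x.1, t, x.2.2, γ₁, o, h2, h3, a2, rfl⟩, a3, ?_, a5⟩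
        rw [tL, a4]
        simp only [mul_assoc]

theorem tW_shrink {T : II ≃o II} {c : II} (hc : T c ≠ c) (h : tW K ρ (orb T c) e l s u) :
    ∀ᶠ p in 𝓝 ((c, c) : II × II), tW K ρ (satB T p.1 p.2) e l s u := by
  induction l generalizing s with
  | nil => exact Eventually.of_forall fun _ => h
  | cons x l ih =>
    obtain ⟨t, h1, h2, h3, h4⟩ := h
    filter_upwards [orbit_away T hc h2, orbit_away T hc h3, ih h4] with p a1 a2 a3
    exact ⟨t, h1, a1, a2, a3⟩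

variable {T : II ≃o II} {R : Type} [MetricSpace R] {ι : R → II ≃o II}

theorem TSp.act (S : TSp T ι) (ρ : A →* (II ≃o II)) (i : A) {X : Type} [TopologicalSpace X]
    {f : X → R} {a : X → II} (hf : Continuous f) (ha : Continuous a) :
    Continuous fun x => cja (ι (f x)) ρ i (a x) := by
  have h1 : Continuous fun x => (ι (f x))⁻¹ (a x) :=
    S.cinv.comp (f := fun x => (f x, a x)) (hf.prodMk ha)
  exact S.cont.comp (f := fun x => (f x, ρ i ((ι (f x))⁻¹ (a x))))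
    (hf.prodMk ((ρ i).continuous.comp h1))

theorem tW_closed (S : TSp T ι) (hC : ∀ b m, IsClosed (K b m)) (hP : IsOpen P) (e : G × ℕ)
    (l : List (G × ℕ × A)) {X : Type} [TopologicalSpace X] {f : X → R} {a b : X → II}
    (hf : Continuous f) (ha : Continuous a) (hb : Continuous b) :
    IsClosed {x | tW K (cja (ι (f x)) ρ) P e l (a x) (b x)} := by
  induction l generalizing X with
  | nil => exact (hC _ _).preimage (ha.prodMk hb)
  | cons y l ih =>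
    have c1 : Continuous fun p : X × II => cja (ι (f p.1)) ρ y.2.2 p.2 :=
      S.act ρ y.2.2 (hf.comp continuous_fst) continuous_snd
    exact gen_ex (((hC _ _).preimage ((ha.comp continuous_fst).prodMk continuous_snd)).inter
      ((hP.isClosed_compl.preimage continuous_snd).inter ((hP.isClosed_compl.preimage c1).inter
        (ih (hf.comp continuous_fst) c1 (hb.comp continuous_fst)))))

theorem tg_resid [CompleteSpace R] (S : TSp T ι) {Bad : Set R} (hB : IsClosed Bad)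
    {Gd : R → Prop} (hG : ∀ᶠ f in residual R, Gd f)
    (h : ∀ f, Gd f → f ∈ Bad → ∀ δ > 0, ∃ ψ : II ≃o II, ψ * T = T * ψ ∧
      (∀ x, dist (ψ x) x ≤ δ) ∧ ∀ f', ι f' = ψ * ι f → f' ∉ Bad) :
    ∀ᶠ f in residual R, f ∉ Bad := by
  refine residual_of_dense_open hB.isOpen_compl (Metric.dense_iff.2 fun x r hr => ?_)
  obtain ⟨f, f1, f2⟩ := Metric.dense_iff.1 (dense_of_mem_residual hG) x (r / 2) (half_pos hr)
  by_cases hf : f ∈ Bad
  · obtain ⟨δ, hδ, h1⟩ := S.near f (r / 2) (half_pos hr)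
    obtain ⟨ψ, a1, a2, a3⟩ := h f f2 hf δ hδ
    obtain ⟨f', b1, b2⟩ := h1 ψ a1 a2
    refine ⟨f', ?_, a3 f' b1⟩
    have := dist_triangle f' f x
    rw [Metric.mem_ball] at f1 ⊢
    linarith
  · exact ⟨f, Metric.ball_subset_ball (half_le_self hr.le) f1, hf⟩

theorem tg_N [Countable G] [Countable A] [CompleteSpace R] (M : Mv O lab τ T ρ) (hO : Grpd O)
    (S : TSp T ι) (hC : ∀ b m, IsClosed (K b m))
    (hK : ∀ b s t, O b s t ↔ ∃ m, (s, t) ∈ K b m) (n : ℕ) :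
    ∀ᶠ f in residual R, ∀ e l, l.length = n → tL lab e l ≠ 1 →
      NI {s | tW K (cja (ι f) ρ) ∅ e l s s} := by
  induction n using Nat.strong_induction_on with
  | _ n ih =>
  obtain ⟨D, hDc, hD⟩ := TopologicalSpace.exists_countable_dense II
  have := hDc.to_subtype
  refine eventually_countable_forall.2 fun e => eventually_countable_forall.2 fun l => ?_
  rcases l with _ | ⟨x, l⟩
  · exact Eventually.of_forall fun f _ hne =>
      gen_ni_mono (hO.nf _ hne) fun s hs => (hK _ _ _).2 ⟨_, hs⟩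
  by_cases hn : (x :: l).length = n ∧ tL lab e (x :: l) ≠ 1
  swap
  · exact Eventually.of_forall fun f h1 h2 => absurd ⟨h1, h2⟩ hn
  obtain ⟨rfl, hne⟩ := hn
  have ih' : ∀ᶠ f in residual R, ∀ m ≤ l.length, ∀ e l', l'.length = m → tL lab e l' ≠ 1 →
      NI {s | tW K (cja (ι f) ρ) ∅ e l' s s} := eventually_countable_forall.2 fun m => by
    by_cases hm : m ≤ l.length
    · exact (ih m (Nat.lt_succ_of_le hm)).mono fun f h _ => h
    · exact Eventually.of_forall fun f h => absurd h hm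
  have key : ∀ u v : II, u < v → ∀ᶠ f in residual R,
      f ∉ {f | ∀ s ∈ Icc u v, tW K (cja (ι f) ρ) ∅ e (x :: l) s s} := fun u v huv => by
    refine tg_resid S ?_ ih' fun f hf hb δ hδ => ?_
    · simp only [ofPred_forall]
      exact isClosed_iInter fun s => isClosed_iInter fun _ =>
        tW_closed S hC isOpen_empty _ _ continuous_id continuous_const continuous_const
    have gd : ∀ᶠ s in residual II, ∀ e1 l1 e2 l2, l2.length ≤ l.length → tL lab e2 l2 ≠ 1 →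
        s ∉ {s | ∃ y, tW K (cja (ι f) ρ) ∅ e1 l1 s y ∧
          y ∈ {y | tW K (cja (ι f) ρ) ∅ e2 l2 y y}} := by
      refine eventually_countable_forall.2 fun e1 => eventually_countable_forall.2 fun l1 =>
        eventually_countable_forall.2 fun e2 => eventually_countable_forall.2 fun l2 => ?_
      by_cases h : l2.length ≤ l.length ∧ tL lab e2 l2 ≠ 1
      · exact (gen_pull (tW_closed S hC isOpen_empty e1 l1 continuous_const continuous_fst
          continuous_snd) (fun _ _ _ _ => tW_lt hO hK) (tW_closed S hC isOpen_empty e2 l2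
          continuous_const continuous_id continuous_id) (hf _ h.1 e2 l2 rfl h.2)).mono
          fun s hs _ _ => hs
      · exact Eventually.of_forall fun s h1 h2 => absurd ⟨h1, h2⟩ h
    obtain ⟨s, hs, hs'⟩ := (dense_of_mem_residual gd).exists_between huv
    have hI : s ∈ Icc u v := ⟨hs'.1.le, hs'.2.le⟩
    obtain ⟨t, h1, -, -, h4⟩ := hb s hI
    have o := (hK _ _ _).2 ⟨_, h1⟩
    obtain ⟨a1, a2, a3⟩ := tg_short (M.cja (S.com f)) hO
      (fun s' δ n' c1 m hm a c2 => by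
        obtain ⟨e1, l1, -, -, w1⟩ := ch_tW hK c1
        obtain ⟨e2, l2, rfl, rfl, w2⟩ := ch_tW hK c2
        by_contra hc
        exact hs e1 l1 e2 l2 hm hc ⟨s', w1, w2⟩) o (tW_ch hK h4) hne
    obtain ⟨t0, t1, hbox⟩ := small_box T a1
    obtain ⟨α, -, β, -, b1, b2, b3, b4, b5⟩ := gen_box hD t0 t1 (hbox.and
      ((orbit_away T a1 a2).and (tW_shrink a1 ((tW_dich hK _ h4).resolve_right a3))))
    obtain ⟨Ψ, p1, p2, p3, p4⟩ := pert T (b3 (b1.trans b2)) isClosed_singleton (gen_ni_one t)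
      isClosed_singleton (gen_ni_one t) (singleton_subset_iff.2 ⟨b1, b2⟩) hδ
    refine ⟨Ψ, p1, p4, fun f' hf' hb' => p3 t rfl ?_⟩
    obtain ⟨t', c1, -, -, c4⟩ := hb' s hI
    have o' := (hK _ _ _).2 ⟨_, c1⟩
    have e1 : t' = t := le_antisymm (not_lt.1 fun h => lt_irrefl _ ((gen_olt hO o o').2 h))
      (not_lt.1 fun h => lt_irrefl _ ((gen_olt hO o' o).2 h))
    rw [e1, hf', cja_mul] at c4
    have c5 := tW_anti (empty_subset _) ((tW_conj p2).2 b5)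
    have e2 := le_antisymm (not_lt.1 fun h => lt_irrefl _ ((tW_lt hO hK c5 c4).1 h))
      (not_lt.1 fun h => lt_irrefl _ ((tW_lt hO hK c4 c5).1 h))
    rw [cja_apply Ψ, RelIso.mul_apply, RelIso.mul_apply] at e2
    have e3 := (cja (ι f) ρ x.2.2).injective (Ψ.injective (e2.trans (p2 _ b4).symm))
    exact (congrArg Ψ e3).symm.trans (RelIso.apply_inv_self Ψ t)
  have all : ∀ᶠ f in residual R, ∀ u v : D, u.1 < v.1 →
      f ∉ {f | ∀ s ∈ Icc u.1 v.1, tW K (cja (ι f) ρ) ∅ e (x :: l) s s} :=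
    eventually_countable_forall.2 fun u => eventually_countable_forall.2 fun v => by
      by_cases h : u.1 < v.1
      · exact (key _ _ h).mono fun f h _ => h
      · exact Eventually.of_forall fun f h' => absurd h' h
  refine all.mono fun f hf _ _ u v huv => ?_
  obtain ⟨u', hu, u1⟩ := hD.exists_between huv
  obtain ⟨v', hv, v1⟩ := hD.exists_between u1.2
  by_contra hc
  refine hf ⟨u', hu⟩ ⟨v', hv⟩ v1.1 fun s hs => ?_
  by_contra h'
  exact hc ⟨s, ⟨u1.1.le.trans hs.1, hs.2.trans v1.2.le⟩, h'⟩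

theorem tg_st [CompleteSpace R] (S : TSp T ι) (hC : ∀ b m, IsClosed (K b m))
    (hN : ∀ᶠ f in residual R, ∀ e l, tL lab e l ≠ 1 → NI {s | tW K (cja (ι f) ρ) ∅ e l s s})
    {α α' β' β : II} (hb : Box T α β) (h1 : α < α') (h2 : β' < β) (i : A) {e1 e2 : G × ℕ}
    {l1 l2 : List (G × ℕ × A)} (n1 : tL lab e1 l1 ≠ 1) (n2 : tL lab e2 l2 ≠ 1) :
    ∀ᶠ f in residual R, f ∉ {f | ∃ c, c ∈ Icc α' β' ∧
      tW K (cja (ι f) ρ) (satB T α β) e1 l1 c c ∧ cja (ι f) ρ i c ∉ satB T α β ∧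
      tW K (cja (ι f) ρ) (satB T α β) e2 l2 (cja (ι f) ρ i c) (cja (ι f) ρ i c)} := by
  have hP := gen_open T α β
  have hc : Continuous fun p : R × II => cja (ι p.1) ρ i p.2 :=
    S.act ρ i continuous_fst continuous_snd
  refine tg_resid S (gen_ex ((isClosed_Icc.preimage continuous_snd).inter
    ((tW_closed S hC hP e1 l1 continuous_fst continuous_snd continuous_snd).inter
      ((hP.isClosed_compl.preimage hc).inter
        (tW_closed S hC hP e2 l2 continuous_fst hc hc))))) hN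
    fun f hf _ δ hδ => ?_
  obtain ⟨Ψ, p1, p2, p3, p4⟩ := pert T hb
    (A := {c | tW K (cja (ι f) ρ) (satB T α β) e2 l2 (cja (ι f) ρ i c) (cja (ι f) ρ i c)})
    (B := {c | c ∈ Icc α' β' ∧ tW K (cja (ι f) ρ) (satB T α β) e1 l1 c c})
    (tW_closed S hC hP e2 l2 continuous_const (cja (ι f) ρ i).continuous
      (cja (ι f) ρ i).continuous)
    (gen_ni_mono (gen_ni_pre (hf e2 l2 n2) (cja (ι f) ρ i))
      fun c hc => tW_anti (empty_subset _) hc)
    (isClosed_Icc.inter (tW_closed S hC hP e1 l1 continuous_const continuous_id continuous_id))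
    (gen_ni_mono (hf e1 l1 n1) fun c hc => tW_anti (empty_subset _) hc.2)
    (fun c hc => ⟨h1.trans_le hc.1.1, hc.1.2.trans_lt h2⟩) hδ
  have q2 : ∀ z, z ∉ satB T α β → Ψ⁻¹ z = z := fun z hz => by
    conv_lhs => rw [← p2 z hz]
    exact RelIso.inv_apply_self Ψ z
  refine ⟨Ψ⁻¹, (Commute.inv_left p1).eq, fun x => ?_, ?_⟩
  · have := p4 (Ψ⁻¹ x)
    rwa [RelIso.apply_inv_self, dist_comm] at this
  · rintro f' hf' ⟨c, c1, c2, c3, c4⟩
    rw [hf', cja_mul] at c2 c3 c4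
    refine p3 c ⟨c1, (tW_conj q2).1 c2⟩ ?_
    have c5 := (tW_conj q2).1 c4
    rw [cja_apply Ψ⁻¹, RelIso.mul_apply, RelIso.mul_apply, inv_inv] at c3 c5
    rwa [(Ψ⁻¹).injective (q2 _ c3)] at c5

end Pat

/-- A generic conjugate of the action of the moves: two loops lie in a cyclic group, or are
carried to old loops, or to old loops times moves at a fixed point of `T`; no nontrivial
label fixes an interval. -/
theorem generic_cj [Countable G] [Countable A] {T : II ≃o II} {ρ : A →* (II ≃o II)}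
    (M : Mv O lab τ T ρ) (C : Cs lab τ) (hO : Grpd O) :
    ∃ φ : II ≃o II, φ * T = T * φ ∧
      (∀ s a b, Rl O lab (cja φ ρ) a s s → Rl O lab (cja φ ρ) b s s →
        Sm (Rl O lab (cja φ ρ)) (Bs O lab T) a b s) ∧
      ∀ a, a ≠ 1 → NI {s | Rl O lab (cja φ ρ) a s s} := by
  choose K hC hK using hO.sig
  obtain ⟨R, _, _, _, ι, S⟩ := tg_space T
  obtain ⟨D, hDc, hD⟩ := TopologicalSpace.exists_countable_dense II
  have := hDc.to_subtype
  have hN : ∀ᶠ f in residual R, ∀ e l, tL lab e l ≠ 1 →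
      NI {s | tW K (cja (ι f) ρ) ∅ e l s s} :=
    (eventually_countable_forall.2 (tg_N M hO S hC hK)).mono fun f h e l => h _ e l rfl
  have hS : ∀ᶠ f in residual R, ∀ (q : D × D × D × D × A)
      (π : (G × ℕ) × (G × ℕ) × List (G × ℕ × A) × List (G × ℕ × A)),
      (Box T q.1 q.2.2.2.1 ∧ q.1.1 < q.2.1 ∧ q.2.2.1.1 < q.2.2.2.1 ∧ tL lab π.1 π.2.2.1 ≠ 1 ∧
        tL lab π.2.1 π.2.2.2 ≠ 1) → f ∉ {f | ∃ c, c ∈ Icc q.2.1.1 q.2.2.1.1 ∧
          tW K (cja (ι f) ρ) (satB T q.1 q.2.2.2.1) π.1 π.2.2.1 c c ∧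
          cja (ι f) ρ q.2.2.2.2 c ∉ satB T q.1 q.2.2.2.1 ∧
          tW K (cja (ι f) ρ) (satB T q.1 q.2.2.2.1) π.2.1 π.2.2.2 (cja (ι f) ρ q.2.2.2.2 c)
            (cja (ι f) ρ q.2.2.2.2 c)} :=
    eventually_countable_forall.2 fun q => eventually_countable_forall.2 fun π => by
      by_cases h : Box T q.1 q.2.2.2.1 ∧ q.1.1 < q.2.1 ∧ q.2.2.1.1 < q.2.2.2.1 ∧
          tL lab π.1 π.2.2.1 ≠ 1 ∧ tL lab π.2.1 π.2.2.2 ≠ 1
      · exact (tg_st S hC hN h.1 h.2.1 h.2.2.1 _ h.2.2.2.1 h.2.2.2.2).mono fun f h _ => h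
      · exact Eventually.of_forall fun f h' => absurd h' h
  obtain ⟨f, f1, f2⟩ := (dense_of_mem_residual (hN.and hS)).nonempty
  refine ⟨ι f, S.com f, fun s a b => tg_star (M.cja (S.com f)) C hO ?_, fun a ha u v huv => ?_⟩
  · intro c i h1 h2 n a n' a' c1 c2
    obtain ⟨e1, l1, -, rfl, w1⟩ := ch_tW hK c1
    obtain ⟨e2, l2, -, rfl, w2⟩ := ch_tW hK c2
    by_contra hc
    obtain ⟨t0, t1, hbox⟩ := small_box T h1
    obtain ⟨α, hα, β, hβ, b1, b2, b3, b4, b5, b6⟩ := gen_box hD t0 t1 (hbox.and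
      ((orbit_away T h1 h2).and ((tW_shrink h1 w1).and (tW_shrink h1 w2))))
    obtain ⟨α', hα', d1⟩ := hD.exists_between b1
    obtain ⟨β', hβ', d2⟩ := hD.exists_between b2
    exact f2 (⟨α, hα⟩, ⟨α', hα'⟩, ⟨β', hβ'⟩, ⟨β, hβ⟩, i) (e1, e2, l1, l2)
      ⟨b3 (b1.trans b2), d1.1, d2.2, fun h => hc (Or.inl h), fun h => hc (Or.inr h)⟩
      ⟨c, ⟨d1.2.le, d2.1.le⟩, b5, b4, b6⟩
  · have gd : ∀ᶠ s in residual II, ∀ e l, tL lab e l = a →
        s ∉ {s | tW K (cja (ι f) ρ) ∅ e l s s} :=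
      eventually_countable_forall.2 fun e => eventually_countable_forall.2 fun l => by
        by_cases h : tL lab e l = a
        · exact (gen_ni_res (tW_closed S hC isOpen_empty e l continuous_const continuous_id
            continuous_id) (f1 e l (h ▸ ha))).mono fun s hs _ => hs
        · exact Eventually.of_forall fun s h' => absurd h' h
    obtain ⟨s, hs, hs'⟩ := (dense_of_mem_residual gd).exists_between huv
    refine ⟨s, ⟨hs'.1.le, hs'.2.le⟩, fun h => ?_⟩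
    obtain ⟨n, hn⟩ := (rl_iff hO).1 h
    obtain ⟨e, l, -, h1, h2⟩ := ch_tW hK hn
    exact hs e l h1 h2

end Pool.Agent.Work.MP_3d425c_gt.To.Tg
end

-- merged part: Pool.Agent.Work.MP_3d425c_gt.To.Gen3
section
/-! Flows through an order automorphism of the unit interval. -/

namespace Pool.Agent.Work.MP_3d425c_gt.To.Tg
open Set Filter Topology Pool.Agent.Work.MP_3d425c_gt.Cy

/-- The convex hull of an orbit. -/
def fl_E (T : II ≃o II) (x y : II) : Prop :=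
  ∃ m n : ℤ, (T ^ m) x ≤ y ∧ y ≤ (T ^ n) x

theorem fl_add (T : II ≃o II) (m n : ℤ) (x : II) :
    (T ^ m) ((T ^ n) x) = (T ^ (m + n)) x := by
  rw [zpow_add]
  rfl

theorem fl_neg (T : II ≃o II) (m : ℤ) (x : II) : (T ^ (-m)) ((T ^ m) x) = x := by
  rw [fl_add, neg_add_cancel, zpow_zero]
  rfl

theorem fl_eqv (T : II ≃o II) : Equivalence (fl_E T) := by
  refine ⟨fun x => ⟨0, 0, le_rfl, le_rfl⟩, ?_, ?_⟩
  · rintro x y ⟨m, n, a, b⟩
    refine ⟨-n, -m, ?_, ?_⟩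
    · rw [← fl_neg T n x]
      exact (T ^ (-n)).monotone b
    · rw [← fl_neg T m x]
      exact (T ^ (-m)).monotone a
  · rintro x y z ⟨m, n, a, b⟩ ⟨m', n', a', b'⟩
    refine ⟨m' + m, n' + n, ?_, ?_⟩
    · rw [← fl_add]
      exact ((T ^ m').monotone a).trans a'
    · rw [← fl_add]
      exact b'.trans ((T ^ n').monotone b)

theorem fl_inv (T : II ≃o II) (x y : II) : fl_E T⁻¹ x y ↔ fl_E T x y := by
  constructor
  · rintro ⟨m, n, a, b⟩
    exact ⟨-m, -n, by rwa [← inv_zpow'], by rwa [← inv_zpow']⟩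
  · rintro ⟨m, n, a, b⟩
    exact ⟨-m, -n, by rwa [inv_zpow', neg_neg], by rwa [inv_zpow', neg_neg]⟩

theorem fl_up (T : II ≃o II) {y : II} (h : y < T y) : ∃ φ : ℝ → II, StrictMono φ ∧
    (∀ r, φ (r + 1) = T (φ r)) ∧ ∀ x, fl_E T y x ↔ ∃ r, φ r = x := by
  have h' : (y : ℝ) < T y := h
  have mem : ∀ r : ℝ, (y : ℝ) + Int.fract r * (T y - y) ∈ Icc (0 : ℝ) 1 := fun r => by
    have a := Int.fract_nonneg r
    have b := Int.fract_lt_one r
    constructor <;> nlinarith [y.2.1, (T y).2.2]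
  obtain ⟨p, hp⟩ : ∃ p : ℝ → II, ∀ r, (p r : ℝ) = y + Int.fract r * (T y - y) :=
    ⟨fun r => ⟨_, mem r⟩, fun _ => rfl⟩
  have p0 : ∀ r, y ≤ p r := fun r => by
    have a := Int.fract_nonneg r
    rw [← Subtype.coe_le_coe, hp]
    nlinarith
  have p1 : ∀ r, p r < T y := fun r => by
    have b := Int.fract_lt_one r
    rw [← Subtype.coe_lt_coe, hp]
    nlinarith
  have sc : ∀ m : ℤ, (T ^ (m + 1)) y = (T ^ m) (T y) := fun m => by
    rw [← fl_add, zpow_one]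
  have sm : StrictMono fun m : ℤ => (T ^ m) y := strictMono_int_of_lt_succ fun m => by
    rw [sc]
    exact (T ^ m).strictMono h
  have lo : ∀ r : ℝ, (T ^ ⌊r⌋) y ≤ (T ^ ⌊r⌋) (p r) := fun r => (T ^ ⌊r⌋).monotone (p0 r)
  have hi : ∀ r : ℝ, (T ^ ⌊r⌋) (p r) < (T ^ (⌊r⌋ + 1)) y := fun r => by
    rw [sc]
    exact (T ^ ⌊r⌋).strictMono (p1 r)
  refine ⟨fun r => (T ^ ⌊r⌋) (p r), fun r r' hr => ?_, fun r => ?_, fun x => ⟨?_, ?_⟩⟩
  · rcases (Int.floor_le_floor hr.le).eq_or_lt with e | e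
    · dsimp only
      rw [← e]
      refine (T ^ ⌊r⌋).strictMono ?_
      rw [← Subtype.coe_lt_coe, hp, hp]
      have a : Int.fract r < Int.fract r' := by
        unfold Int.fract
        rw [← e]
        linarith
      nlinarith
    · exact (hi r).trans_le ((sm.monotone (by omega : ⌊r⌋ + 1 ≤ ⌊r'⌋)).trans (lo r'))
  · have e : p (r + 1) = p r := Subtype.ext (by rw [hp, hp, Int.fract_add_one])
    dsimp only
    rw [e, Int.floor_add_one, add_comm, ← fl_add, zpow_one]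
  · rintro ⟨m, n, a, b⟩
    obtain ⟨j, j0, j1⟩ := Int.exists_greatest_of_bdd (P := fun j => (T ^ j) y ≤ x)
      ⟨n, fun j hj => sm.le_iff_le.1 (hj.trans b)⟩ ⟨m, a⟩
    have j2 : x < (T ^ j) (T y) := by
      rw [← sc]
      exact lt_of_not_ge fun k => by have := j1 _ k; omega
    obtain ⟨z, rfl⟩ := (T ^ j).surjective x
    have z0 : (y : ℝ) ≤ z := (T ^ j).le_iff_le.1 j0
    have z1 : (z : ℝ) < T y := (T ^ j).lt_iff_lt.1 j2
    have d : (0 : ℝ) < T y - y := sub_pos.2 h'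
    have t0 : (0 : ℝ) ≤ (z - y) / (T y - y) := div_nonneg (sub_nonneg.2 z0) d.le
    have t1 : ((z : ℝ) - y) / (T y - y) < 1 := (div_lt_one d).2 (by linarith)
    refine ⟨j + (z - y) / (T y - y), ?_⟩
    have e : p (j + (z - y) / (T y - y)) = z := Subtype.ext (by
      rw [hp, Int.fract_intCast_add, Int.fract_eq_self.2 ⟨t0, t1⟩, div_mul_cancel₀ _ d.ne']
      ring)
    dsimp only
    rw [e, Int.floor_intCast_add, Int.floor_eq_zero_iff.2 ⟨t0, t1⟩, add_zero]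
  · rintro ⟨r, rfl⟩
    exact ⟨_, _, lo r, (hi r).le⟩

theorem fl_cell (T : II ≃o II) (y : II) : ∃ φ : ℝ → II,
    (StrictMono φ ∨ (∀ r r', φ r = φ r') ∨ StrictAnti φ) ∧
    (∀ r, φ (r + 1) = T (φ r)) ∧ ∀ x, fl_E T y x ↔ ∃ r, φ r = x := by
  rcases lt_trichotomy y (T y) with h | h | h
  · obtain ⟨φ, a, b, c⟩ := fl_up T h
    exact ⟨φ, Or.inl a, b, c⟩
  · have f : ∀ m : ℤ, (T ^ m) y = y := fun m =>
      (MulAction.stabilizer (II ≃o II) y).zpow_mem (x := T) h.symm m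
    refine ⟨fun _ => y, Or.inr (Or.inl fun _ _ => rfl), fun _ => h, fun x => ⟨?_, ?_⟩⟩
    · rintro ⟨m, n, a, b⟩
      rw [f] at a b
      exact ⟨0, le_antisymm a b⟩
    · rintro ⟨-, rfl⟩
      exact (fl_eqv T).refl _
  · have h' : y < T⁻¹ y := T.lt_iff_lt.1 (by
      rw [show T (T⁻¹ y) = y from T.apply_symm_apply y]
      exact h)
    obtain ⟨φ, a, b, c⟩ := fl_up T⁻¹ h'
    refine ⟨fun r => φ (-r), Or.inr (Or.inr fun r r' e => a (neg_lt_neg e)), fun r => ?_,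
      fun x => ?_⟩
    · have e := b (-(r + 1))
      rw [show -(r + 1) + 1 = -r by ring] at e
      dsimp only
      rw [e]
      exact (T.apply_symm_apply _).symm
    · rw [← fl_inv, c]
      exact ⟨fun ⟨r, e⟩ => ⟨-r, by simpa using e⟩, fun ⟨r, e⟩ => ⟨-r, e⟩⟩

/-- An order automorphism of the unit interval is the time one map of a flow whose orbits are
points or strictly monotone. -/
theorem fl_flow (T : II ≃o II) : ∃ F : ℝ → II → II, (∀ s, StrictMono (F s)) ∧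
    (∀ s t x, F s (F t x) = F (t + s) x) ∧ (∀ x, F 0 x = x) ∧ (∀ x, F 1 x = T x) ∧
    ∀ x, (StrictMono fun s => F s x) ∨ (∀ s s', F s x = F s' x) ∨ StrictAnti fun s => F s x := by
  choose φ g1 f2 f3 using fl_cell T
  have f1 : ∀ y r r' s, φ y r < φ y r' → φ y (r + s) < φ y (r' + s) := by
    intro y r r' s e
    rcases g1 y with a | a | a
    · exact a (by linarith [a.lt_iff_lt.1 e])
    · exact (e.ne (a _ _)).elim
    · exact a (by linarith [a.lt_iff_gt.1 e])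
  obtain ⟨b, b1, b2⟩ : ∃ b : II → II, (∀ x, fl_E T (b x) x) ∧
      ∀ x y, fl_E T x y → b x = b y := by
    let S : Setoid II := ⟨fl_E T, fl_eqv T⟩
    exact ⟨fun x => (Quotient.mk S x).out, fun x => Quotient.mk_out (s := S) x,
      fun x y e => congrArg Quotient.out (Quotient.sound (s := S) e)⟩
  choose c hc using fun x => (f3 (b x) x).1 (b1 x)
  have f0 : ∀ y r r' s, φ y r = φ y r' → φ y (r + s) = φ y (r' + s) := by
    intro y r r' s e
    rcases lt_trichotomy (φ y (r + s)) (φ y (r' + s)) with k | k | k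
    · have := f1 y _ _ (-s) k
      rw [add_neg_cancel_right, add_neg_cancel_right] at this
      exact (this.ne e).elim
    · exact k
    · have := f1 y _ _ (-s) k
      rw [add_neg_cancel_right, add_neg_cancel_right] at this
      exact (this.ne' e).elim
  have cl : ∀ x r, fl_E T x (φ (b x) r) := fun x r =>
    (fl_eqv T).trans ((fl_eqv T).symm (b1 x)) ((f3 _ _).2 ⟨r, rfl⟩)
  refine ⟨fun s x => φ (b x) (c x + s), fun s => ?_, fun s t x => ?_, fun x => ?_, fun x => ?_,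
    fun x => ?_⟩
  · refine glue_mono (fl_E T) (fl_eqv T) ?_ _ (fun x => cl x _) fun x y e l => ?_
    · rintro x y z ⟨-, n, -, a⟩ h1 h2
      exact ⟨0, n, h1, h2.trans a⟩
    · have k := hc y
      dsimp only
      rw [← b2 x y e] at k ⊢
      exact f1 _ _ _ s (by rwa [hc, k])
  · have k := hc (φ (b x) (c x + t))
    dsimp only
    rw [← b2 _ _ (cl x _)] at k ⊢
    rw [f0 _ _ _ s k, add_assoc]
  · dsimp only
    rw [add_zero, hc]
  · dsimp only
    rw [f2, hc]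
  · rcases g1 (b x) with a | a | a
    · exact Or.inl fun s s' e => a (by linarith)
    · exact Or.inr (Or.inl fun s s' => a _ _)
    · exact Or.inr (Or.inr fun s s' e => a (by linarith))

/-- The action of a group of real numbers through a flow. -/
theorem fl_action {A : Type*} [Group A] (T : II ≃o II) {θ : A → ℝ}
    (hadd : ∀ a b, θ (a * b) = θ a + θ b) {τ : A} (hpos : 0 < θ τ) :
    ∃ ρ : A →* (II ≃o II), ρ τ = T ∧ (∀ p t, T t = t → ρ p t = t) ∧
      (∀ p t, ρ p t = t → θ p = 0 ∨ T t = t) ∧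
      ∀ p, 0 < θ p → ∀ t, (t < T t → t < ρ p t) ∧ (T t < t → ρ p t < t) := by
  obtain ⟨F, f1, f2, f3, f4, f5⟩ := fl_flow T
  obtain ⟨E, hE⟩ : ∃ E : ℝ → II ≃o II, ∀ s x, E s x = F s x :=
    ⟨fun s => (f1 s).orderIsoOfRightInverse _ (F (-s)) fun x => by
      rw [f2, neg_add_cancel, f3], fun _ _ => rfl⟩
  have up : ∀ x, x < T x → StrictMono fun s => F s x := fun x h => by
    rw [← f4, ← f3 x, f2, zero_add] at h
    rcases f5 x with a | a | a
    · exact a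
    · exact (h.ne (a _ _)).elim
    · exact (lt_asymm h (a zero_lt_one)).elim
  have dn : ∀ x, T x < x → StrictAnti fun s => F s x := fun x h => by
    rw [← f4, ← f3 x, f2, zero_add] at h
    rcases f5 x with a | a | a
    · exact (lt_asymm h (a zero_lt_one)).elim
    · exact (h.ne (a _ _)).elim
    · exact a
  have fx : ∀ x s, T x = x → F s x = x := fun x s h => by
    have h' : F 1 x = F 0 x := by rw [f4, f3, h]
    rcases f5 x with a | a | a
    · exact absurd (a.injective h') one_ne_zero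
    · exact (a s 0).trans (f3 x)
    · exact absurd (a.injective h') one_ne_zero
  refine ⟨MonoidHom.mk' (fun p => E (θ p / θ τ)) fun p q => OrderIso.ext (funext fun x => ?_),
    OrderIso.ext (funext fun x => ?_), fun p t h => ?_, fun p t h => ?_, fun p hp t => ?_⟩
  · rw [RelIso.mul_apply, hE, hE, hE, f2, hadd, add_div, add_comm]
  · rw [MonoidHom.mk'_apply, hE, div_self hpos.ne', f4]
  · rw [MonoidHom.mk'_apply, hE, fx _ _ h]
  · rw [MonoidHom.mk'_apply, hE] at h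
    have h' : F (θ p / θ τ) t = F 0 t := by rw [h, f3]
    rcases lt_trichotomy t (T t) with k | k | k
    · exact Or.inl ((div_eq_zero_iff.1 ((up t k).injective h')).resolve_right hpos.ne')
    · exact Or.inr k.symm
    · exact Or.inl ((div_eq_zero_iff.1 ((dn t k).injective h')).resolve_right hpos.ne')
  · rw [MonoidHom.mk'_apply, hE]
    exact ⟨fun k => (f3 t).symm.trans_lt (up t k (div_pos hp hpos)),
      fun k => (dn t k (div_pos hp hpos)).trans_eq (f3 t)⟩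

end Pool.Agent.Work.MP_3d425c_gt.To.Tg
end

-- merged part: Pool.Agent.Work.MP_3d425c_gt.To.RGen
section
/-! The generic action of an abelian group on an arm. -/

namespace Pool.Agent.Work.MP_3d425c_gt.To
open Set Filter Topology Pool.Agent.Work.MP_3d425c_gt.Cy

variable {G : Type*} [Group G] {O : G → II → II → Prop}

theorem tg_dep_cyc {a b : G} (h : Tg.Cyc2 a b) : Dep a b := by
  obtain ⟨z, m, n, rfl, rfl⟩ := h
  by_cases k : n = 0 ∧ m = 0
  · rw [k.1, zpow_zero]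
    exact dep_one _
  · exact ⟨n, m, k, by rw [← zpow_mul, ← zpow_mul, mul_comm]⟩

theorem tg_dep_mul (h : Hy G) {τ p x : G} (h1 : τ ≠ 1) (k : Dep τ p) (l : Dep τ x) :
    Dep τ (p * x) := by
  have c : Commute p x := h.ct h1 (h.dep_comm k).symm (h.dep_comm l).symm
  obtain ⟨m, n, a1, a2⟩ := k
  obtain ⟨m', n', b1, b2⟩ := l
  have n0 : n ≠ 0 := fun e => by
    rw [e, zpow_zero] at a2
    exact h.zne h1 (fun k => a1 ⟨k, e⟩) a2
  have n1 : n' ≠ 0 := fun e => by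
    rw [e, zpow_zero] at b2
    exact h.zne h1 (fun k => b1 ⟨k, e⟩) b2
  refine ⟨m * n' + m' * n, n * n', fun e => mul_ne_zero n0 n1 e.2, ?_⟩
  rw [c.mul_zpow, zpow_add, zpow_mul, zpow_mul, a2, b2, ← zpow_mul, ← zpow_mul, mul_comm n' n]

theorem tg_rl_sub {Γ : Subgroup G} {ρ : G → II ≃o II} {ρ' : Γ →* (II ≃o II)}
    (e : ∀ p : Γ, ρ p = ρ' p) {a s t} : Rl O Γ ρ a s t ↔ Tg.Rl O Γ.subtype ρ' a s t := by
  constructor
  · intro h
    induction h with
    | arr h => exact Tg.Rl.arr h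
    | @mv γ s hγ hs =>
      rw [e ⟨γ, hγ⟩]
      exact Tg.Rl.mv (lab := Γ.subtype) ⟨γ, hγ⟩ hs
    | comp _ _ h1 h2 => exact h1.comp h2
  · intro h
    induction h with
    | arr h => exact Rl.arr h
    | mv p hs =>
      rw [← e]
      exact Rl.mv p.2 hs
    | comp _ _ h1 h2 => exact h1.comp h2

theorem generic2 [Countable G] (hG : Hy G) (hO : Grpd O)
    (hZ : ∀ a b p s, O a s s → O b s s → ¬ Dep a b → p * a = a * p → O p s s)
    {Γ : Subgroup G} {τ : G} (hτ : τ ∈ Γ) (h1 : τ ≠ 1) (hc : ∀ γ ∈ Γ, γ * τ = τ * γ)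
    {θ : G → ℝ} (hadd : ∀ a ∈ Γ, ∀ b ∈ Γ, θ (a * b) = θ a + θ b)
    (hinj : ∀ a ∈ Γ, θ a = 0 → a = 1) (hpos : 0 < θ τ) (T : II ≃o II)
    (hT : ∀ s, s < 1 → O τ s (T s))
    (hfull : (∀ a ∈ Γ, ∀ b ∈ Γ, Dep a b) ∨ ∀ p, p * τ = τ * p → p ∈ Γ) :
    ∃ ρ, Mv Γ τ T θ ρ ∧ (∀ s a b, Rl O Γ ρ a s s → Rl O Γ ρ b s s → a * b = b * a) ∧
      (∀ a : G, a ≠ 1 → NI {s | Rl O Γ ρ a s s}) ∧
      ∀ s a b, Rl O Γ ρ a s s → Rl O Γ ρ b s s → ¬ Dep a b → ∃ c s', Rl O Γ ρ c s s' ∧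
        ((∀ p, p * (c * a * c⁻¹) = c * a * c⁻¹ * p → O p s' s') ∨
          (T s' = s' ∧ c * a * c⁻¹ * τ = τ * (c * a * c⁻¹) ∧ ∀ p, p * τ = τ * p → p ∈ Γ)) := by
  classical
  obtain ⟨ρ0, r1, r2, r3, r4⟩ := Tg.fl_action (A := Γ) T (θ := fun p => θ p)
    (fun a b => hadd a a.2 b b.2) (τ := ⟨τ, hτ⟩) hpos
  have M : Tg.Mv O Γ.subtype ⟨τ, hτ⟩ T ρ0 := ⟨h1, hT, r1, r2, fun p t h =>
    (r3 p t h).imp_left fun k => Subtype.ext (hinj p p.2 k)⟩
  have C : Tg.Cs Γ.subtype ⟨τ, hτ⟩ :=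
    ⟨fun p => hc p p.2, fun a c ha hc => hG.ct h1 ha hc, fun γ h => hG.mn τ γ h1 h⟩
  obtain ⟨φ, hφ, st, nf⟩ := Tg.generic_cj M C hO
  have M' := M.cja hφ
  obtain ⟨ρ, e⟩ : ∃ ρ : G → II ≃o II, ∀ p : Γ, ρ p = Tg.cja φ ρ0 p :=
    ⟨fun g => if h : g ∈ Γ then Tg.cja φ ρ0 ⟨g, h⟩ else 1, fun p => dif_pos p.2⟩
  have eT : ∀ t, T (φ⁻¹ t) = φ⁻¹ (T t) := fun t =>
    congrArg (fun f : II ≃o II => f t) (Commute.inv_left hφ).eq.symm
  have cm : ∀ (p : Γ) x u, O x u u → T u = u → p * x * τ = τ * (p * x) := fun p x u hx hu => by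
    have k := hT u (hO.lt1 _ _ _ hx)
    rw [hu] at k
    exact Commute.mul_left (hc p p.2) (hO.ab _ _ _ hx k)
  refine ⟨ρ, ⟨fun a ha b hb => ?_, (e ⟨τ, hτ⟩).trans M'.eq, fun a ha h0 t => ?_⟩,
    fun s a b ha hb => ?_, fun a ha => ?_, fun s a b ha hb hd => ?_⟩
  · rw [e ⟨a, ha⟩, e ⟨b, hb⟩, ← map_mul]
    exact e (⟨a, ha⟩ * ⟨b, hb⟩)
  · rw [e ⟨a, ha⟩]
    refine ⟨M'.fix _ t, fun k => ?_, fun k => ?_⟩
    · have := φ.strictMono ((r4 ⟨a, ha⟩ h0 (φ⁻¹ t)).1 (by rw [eT]; exact (φ⁻¹).strictMono k))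
      rwa [RelIso.apply_inv_self] at this
    · have := φ.strictMono ((r4 ⟨a, ha⟩ h0 (φ⁻¹ t)).2 (by rw [eT]; exact (φ⁻¹).strictMono k))
      rwa [RelIso.apply_inv_self] at this
  · rcases st s a b ((tg_rl_sub e).1 ha) ((tg_rl_sub e).1 hb) with k | ⟨c, u, -, p, q, x, y, hx, hy,
      k1, k2, k⟩
    · exact k.comm
    · have : c * a * c⁻¹ * (c * b * c⁻¹) = c * b * c⁻¹ * (c * a * c⁻¹) := by
        rw [k1, k2]
        rcases k with k | ⟨rfl, rfl⟩
        · exact hG.ct h1 (cm p x u hx k) (cm q y u hy k)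
        · simpa using hO.ab _ _ _ hx hy
      calc a * b = c⁻¹ * (c * a * c⁻¹ * (c * b * c⁻¹)) * c := by group
        _ = b * a := by rw [this]; group
  · simpa only [tg_rl_sub e] using nf a ha
  · rcases st s a b ((tg_rl_sub e).1 ha) ((tg_rl_sub e).1 hb) with k | ⟨c, u, hcu, p, q, x, y, hx, hy,
      k1, k2, k⟩
    · exact absurd (tg_dep_cyc k) hd
    refine ⟨c, u, (tg_rl_sub e).2 hcu, ?_⟩
    rw [← dep_conj c, k2] at hd
    rw [k1] at hd ⊢
    rcases k with k | ⟨rfl, rfl⟩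
    · have c1 := cm p x u hx k
      rcases hfull with f | f
      · have kτ := hT u (hO.lt1 _ _ _ hx)
        rw [k] at kτ
        have key : ∀ z, O z u u → ¬ Dep τ z → ∀ p', p' * (Γ.subtype p * x) =
            Γ.subtype p * x * p' → O p' u u := fun z hz hn p' hp =>
          hZ τ z p' u kτ hz hn (hG.ct (ne_one_of_not_dep hd).1 hp c1.symm)
        by_cases dx : Dep τ x
        · by_cases dy : Dep τ y
          · exact absurd (hG.dep_trans h1 (tg_dep_mul hG h1 (f τ hτ p p.2) dx).symm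
              (tg_dep_mul hG h1 (f τ hτ q q.2) dy)) hd
          · exact Or.inl (key y hy dy)
        · exact Or.inl (key x hx dx)
      · exact Or.inr ⟨k, c1, f⟩
    · rw [map_one, one_mul, one_mul] at hd
      rw [map_one, one_mul]
      exact Or.inl fun p hp => hZ x y p u hx hy hd hp

end Pool.Agent.Work.MP_3d425c_gt.To
end

-- merged part: Pool.Agent.Work.MP_3d425c_gt.To.Arm
section
/-! Invariant rays above a fixed point and their groupoid, for objects without tautness. -/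

namespace Pool.Agent.Work.MP_3d425c_gt.To
open Set Filter Topology Pool.Agent.Work.MP_3d425c_gt.Cy

variable {G X : Type*} [Group G] [MulAction G X] {C : Set (ℝ → X)} {up : X → X → Prop}

/-- A fixed point above zero: stretch the segment below it. -/
theorem Om.armB_fix (h : Om G C up) {c : ℝ → X} (hc : c ∈ C) {u : ℝ} (hu : 0 < u) :
    ∃ A ∈ C, A 0 = c 0 ∧ ∀ σ : G, σ • c 0 = c 0 → σ • c u = c u →
      ∀ t ≥ 0, ∃ t' ≥ 0, σ • A t = A t' := by
  have hpi := Real.pi_pos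
  have hk : 0 < u / (Real.pi / 2) := by positivity
  have hf : StrictMono fun t => u / (Real.pi / 2) * Real.arctan t :=
    Real.arctan_strictMono.const_mul hk
  have hlt : ∀ t, u / (Real.pi / 2) * Real.arctan t < u := fun t => by
    calc u / (Real.pi / 2) * Real.arctan t < u / (Real.pi / 2) * (Real.pi / 2) :=
          mul_lt_mul_of_pos_left (Real.arctan_lt_pi_div_two t) hk
      _ = u := by field_simp
  refine ⟨fun t => c (u / (Real.pi / 2) * Real.arctan t),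
    h.reparam hc hf (continuous_const.mul Real.continuous_arctan), by simp, ?_⟩
  intro σ h0 h1 t ht
  have ht0 : 0 ≤ u / (Real.pi / 2) * Real.arctan t := by
    have := hf.monotone ht
    simpa using this
  have hd := h.smul σ c hc
  obtain ⟨z, hz0, hzu, hz⟩ := h.conv hd hc h0 h1 ht0 (hlt t).le
  have hzu' : z < u := by
    refine lt_of_le_of_ne hzu fun e => ?_
    rw [e, ← h1] at hz
    exact (hlt t).ne (h.inj hd hz)
  have hx0 : 0 ≤ z / u * (Real.pi / 2) := by positivity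
  have hx1 : z / u * (Real.pi / 2) < Real.pi / 2 :=
    mul_lt_of_lt_one_left (by positivity) ((div_lt_one hu).2 hzu')
  refine ⟨Real.tan (z / u * (Real.pi / 2)),
    Real.tan_nonneg_of_nonneg_of_le_pi_div_two hx0 hx1.le, ?_⟩
  show σ • c _ = c _
  rw [Real.arctan_tan (by linarith) hx1]
  have : u / (Real.pi / 2) * (z / u * (Real.pi / 2)) = z := by field_simp
  rw [this]
  exact hz

/-- A contracting element: the union of the translates of a segment. -/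
theorem Om.armB_con (h : Om G C up) {c : ℝ → X} (hc : c ∈ C) {σ : G} (h0 : σ • c 0 = c 0)
    {u v : ℝ} (hv : 0 < v) (hvu : v < u) (h1 : σ • c u = c v) :
    ∃ A ∈ C, A 0 = c 0 ∧ (∀ t ≥ 0, ∃ t' ≥ 0, σ • A t = A t') ∧
      ∀ t ≥ 0, ∃ t' ≥ 0, σ⁻¹ • A t = A t' := by
  obtain ⟨δ, hδ⟩ : ∃ δ, δ = u - v := ⟨_, rfl⟩
  have hδ0 : 0 < δ := by linarith
  have h1' : σ⁻¹ • c v = c u := by rw [← h1, inv_smul_smul]
  have h0' : σ⁻¹ • c 0 = c 0 := by rw [inv_smul_eq_iff, h0]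
  have hd := h.smul σ⁻¹ c hc
  obtain ⟨a, ha, ha1, ha2⟩ := h.lg_splice (s := u) (t := v) hc hd
    (by
      show LG C (c u) (σ⁻¹ • c v)
      rw [h1']
      exact h.lg_refl _)
  obtain ⟨A, hA⟩ : ∃ A : ℝ → X,
      ∀ t, A t = σ⁻¹ ^ ⌈(t - u) / δ⌉₊ • c (t - ⌈(t - u) / δ⌉₊ * δ) := ⟨_, fun _ => rfl⟩
  have K1 : ∀ (n : ℕ) (t : ℝ), t - n * δ ≤ u → (n = 0 ∨ v ≤ t - n * δ) →
      A t = σ⁻¹ ^ n • c (t - n * δ) := by
    intro n t h2 h3
    have hm : ⌈(t - u) / δ⌉₊ ≤ n := by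
      rw [Nat.ceil_le, div_le_iff₀ hδ0]
      linarith
    rcases hm.eq_or_lt with e | hlt
    · rw [hA, e]
    · have h4 : v ≤ t - n * δ := h3.resolve_left (by omega)
      have h5 : (t - u) / δ ≤ ⌈(t - u) / δ⌉₊ := Nat.le_ceil _
      rw [div_le_iff₀ hδ0] at h5
      rw [hA]
      generalize ⌈(t - u) / δ⌉₊ = m at *
      have h6 : (m : ℝ) + 1 ≤ n := by exact_mod_cast hlt
      have h7 : ((m : ℝ) + 1) * δ ≤ n * δ := mul_le_mul_of_nonneg_right h6 hδ0.le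
      have h8 : (n : ℝ) * δ = (m + 1) * δ := by linarith
      have h9 : n = m + 1 := by exact_mod_cast mul_right_cancel₀ hδ0.ne' h8
      have e1 : t - m * δ = u := by linarith
      have e2 : t - n * δ = v := by linarith
      rw [e1, e2, h9, pow_succ, mul_smul, h1']
  have K2 : ∀ (n : ℕ) (t : ℝ), t - n * δ ≤ u + δ → (n = 0 ∨ v ≤ t - n * δ) →
      A t = σ⁻¹ ^ n • a (t - n * δ - u) := by
    intro n t h2 h3
    rcases lt_or_ge (t - n * δ) u with h4 | h4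
    · rw [K1 n t h4.le h3, ha1 _ (by linarith)]
      congr 2
      ring
    · rw [K1 (n + 1) t (by push_cast; linarith) (Or.inr (by push_cast; linarith)),
        ha2 _ (by linarith), pow_succ, mul_smul]
      congr 3
      push_cast
      linarith
  have K3 : ∀ t : ℝ, ∃ n : ℕ, t - n * δ ≤ u ∧ (n = 0 ∨ v < t - n * δ) := by
    intro t
    refine ⟨⌈(t - u) / δ⌉₊, ?_, ?_⟩
    · have h5 : (t - u) / δ ≤ ⌈(t - u) / δ⌉₊ := Nat.le_ceil _
      rw [div_le_iff₀ hδ0] at h5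
      linarith
    · rcases le_or_gt ((t - u) / δ) 0 with h5 | h5
      · exact Or.inl (Nat.ceil_eq_zero.2 h5)
      · have h6 := Nat.ceil_lt_add_one h5.le
        have h7 : (⌈(t - u) / δ⌉₊ : ℝ) - 1 < (t - u) / δ := by linarith
        rw [lt_div_iff₀ hδ0] at h7
        exact Or.inr (by linarith)
  have K0 : ∀ z, z ≤ u → A z = c z := fun z hz => by
    simpa using K1 0 z (by simpa using hz) (Or.inl rfl)
  refine ⟨A, h.sat A fun t => ?_, K0 0 (by linarith), fun t ht => ?_, fun t ht => ?_⟩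
  · obtain ⟨n, h2, h3⟩ := K3 t
    obtain ⟨ε, hε, hε1, hε2⟩ : ∃ ε > 0, ε ≤ δ ∧ (n = 0 ∨ ε ≤ t - n * δ - v) := by
      rcases h3 with h3 | h3
      · exact ⟨δ, hδ0, le_rfl, Or.inl h3⟩
      · exact ⟨min δ (t - n * δ - v), lt_min hδ0 (by linarith), min_le_left _ _,
          Or.inr (min_le_right _ _)⟩
    refine ⟨_, h.smul (σ⁻¹ ^ n) a ha, fun w => w - n * δ - u, ε, hε, ?_, ?_, ?_⟩
    · intro x _ y _ hxy
      show x - n * δ - u < y - n * δ - u
      linarith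
    · fun_prop
    · intro w hw
      exact K2 n w (by linarith [hw.2]) (hε2.imp id fun h4 => by linarith [hw.1])
  · obtain ⟨n, h2, h3⟩ := K3 t
    rw [K1 n t h2 (h3.imp id le_of_lt)]
    rcases n with _ | n
    · obtain ⟨z, hz0, hzv, hz⟩ := h.conv (h.smul σ c hc) hc h0 h1 ht (by simpa using h2)
      refine ⟨z, hz0, ?_⟩
      rw [K0 z (by linarith)]
      simpa using hz
    · have h4 : v < t - (n + 1 : ℕ) * δ := h3.resolve_left (by omega)
      have h5 : (0 : ℝ) ≤ n * δ := by positivity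
      push_cast at h2 h4
      refine ⟨t - δ, by linarith, ?_⟩
      rw [K1 n (t - δ) (by linarith) (Or.inr (by linarith)), pow_succ', mul_smul, smul_inv_smul]
      congr 2
      push_cast
      ring
  · obtain ⟨n, h2, h3⟩ := K3 t
    rw [K1 n t h2 (h3.imp id le_of_lt)]
    rcases le_or_gt v (t - n * δ) with h4 | h4
    · refine ⟨t + δ, by linarith, ?_⟩
      rw [K1 (n + 1) (t + δ) (by push_cast; linarith) (Or.inr (by push_cast; linarith)),
        pow_succ', mul_smul]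
      congr 3
      push_cast
      ring
    · have hn : n = 0 := h3.resolve_right (by linarith)
      subst hn
      obtain ⟨z, hz0, hzv, hz⟩ := h.conv hd hc h0' h1' ht (by simpa using h4.le)
      refine ⟨z, hz0, ?_⟩
      rw [K0 z hzv]
      simpa using hz

/-- Hint: if the germ of `τ` above `μ` has a fixed point at parameter `u > 0`, stretch `[0, u)`;
otherwise `τ` or `τ⁻¹` contracts and the ray is the union of the translates of a segment. -/
theorem Om.arm (h : Om G C up) {τ : G} {μ : X} (hτ : τ • μ = μ) :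
    ∃ A ∈ C, A 0 = μ ∧ (∀ t ≥ 0, ∃ t' ≥ 0, τ • A t = A t') ∧
      ∀ t ≥ 0, ∃ t' ≥ 0, τ⁻¹ • A t = A t' := by
  obtain ⟨c0, hc0, t0, e0⟩ := h.cover μ
  have hc : (fun t => c0 (t + t0)) ∈ C :=
    h.reparam hc0 (fun _ _ hxy => by linarith) (by fun_prop)
  obtain ⟨c, hc, e⟩ : ∃ c ∈ C, c 0 = μ := ⟨_, hc, by simpa using e0⟩
  subst e
  have hd := h.smul τ c hc
  have hn := (h.near hd hc hτ univ_mem).filter_mono (nhdsWithin_le_nhds (s := Ioi 0))
  obtain ⟨u, ⟨v, -, huv⟩, hu⟩ := (hn.and self_mem_nhdsWithin).exists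
  have hu : 0 < u := hu
  have huv : τ • c u = c v := huv
  have hv : 0 < v := by
    rw [← h.upc hc, ← huv, ← hτ, h.ups_iff, h.upc hc]
    exact hu
  rcases lt_trichotomy v u with hlt | heq | hlt
  · exact h.armB_con hc hτ hv hlt huv
  · subst heq
    obtain ⟨A, hA, hA0, hA1⟩ := h.armB_fix hc hu
    exact ⟨A, hA, hA0, hA1 τ hτ huv,
      hA1 τ⁻¹ (by rw [inv_smul_eq_iff, hτ]) (by rw [inv_smul_eq_iff, huv])⟩
  · obtain ⟨A, hA, hA0, hA1, hA2⟩ := h.armB_con hc (σ := τ⁻¹) (by rw [inv_smul_eq_iff, hτ]) hu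
      hlt (by rw [inv_smul_eq_iff, huv])
    rw [inv_inv] at hA2
    exact ⟨A, hA, hA0, hA2, hA1⟩
theorem armT_le {s t : II} (hs : s < 1) (ht : t < 1) : io s ≤ io t ↔ s ≤ t := by
  rw [← not_lt, ← not_lt, io_lt ht hs]

theorem armT_lt (h : Om G C up) {A : ℝ → X} (hA : A ∈ C) {b : G} {u u' v v' : ℝ}
    (e1 : b • A u = A u') (e2 : b • A v = A v') : u < v ↔ u' < v' := by
  rw [← h.upc hA u v, ← h.upc hA u' v', ← e1, ← e2, h.ups_iff]

theorem armT_fun {A : ℝ → X} {γ : G} (h1 : ∀ t ≥ 0, ∃ t' ≥ 0, γ • A t = A t') :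
    ∃ F : II → II, (∀ s, s < 1 → F s < 1 ∧ γ • A (io s) = A (io (F s))) ∧ F 1 = 1 := by
  have : ∀ s : II, ∃ s' : II, (s < 1 → s' < 1 ∧ γ • A (io s) = A (io s')) ∧ (s = 1 → s' = 1) := by
    intro s
    by_cases hs : s < 1
    · obtain ⟨t', ht', e⟩ := h1 (io s) (io_nonneg s)
      obtain ⟨s', hs', rfl⟩ := io_surj ht'
      exact ⟨s', fun _ => ⟨hs', e⟩, fun e1 => absurd e1 hs.ne⟩
    · exact ⟨1, fun h' => absurd h' hs, fun _ => rfl⟩
  choose F hF using this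
  exact ⟨F, fun s hs => (hF s).1 hs, (hF 1).2 rfl⟩

theorem armT_top {s : II} (hs : ¬ s < 1) : s = 1 :=
  le_antisymm unitInterval.le_one' (not_lt.1 hs)

theorem armT_bd (q : ℝ) : ∃ a : II, a < 1 ∧ ∀ s : II, s < 1 → io s ≤ q → s ≤ a := by
  obtain ⟨a, ha, e⟩ := io_surj (le_max_right q 0)
  refine ⟨a, ha, fun s hs hq => (armT_le hs ha).1 ?_⟩
  rw [e]
  exact hq.trans (le_max_left _ _)

theorem armT_closed (h : Om G C up) {A : ℝ → X} (hA : A ∈ C) (b : G) (p q : ℝ) :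
    IsClosed {x : II × II | (∃ p', b • A p = A p') ∧ (∃ q', b • A q = A q') ∧
      p ≤ io x.1 ∧ io x.1 ≤ q ∧ x.1 < 1 ∧ x.2 < 1 ∧ b • A (io x.1) = A (io x.2)} := by
  apply IsSeqClosed.isClosed
  intro x y hx hy
  obtain ⟨⟨p', ep⟩, ⟨q', eq'⟩, -⟩ := hx 0
  have hy1 : Tendsto (fun n => (x n).1) atTop (𝓝 y.1) := (continuous_fst.tendsto y).comp hy
  have hy2 : Tendsto (fun n => (x n).2) atTop (𝓝 y.2) := (continuous_snd.tendsto y).comp hy
  obtain ⟨a, ha, hab⟩ := armT_bd q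
  obtain ⟨a', ha', hab'⟩ := armT_bd q'
  have l1 : y.1 < 1 := by
    refine lt_of_le_of_lt (le_of_tendsto' hy1 fun n => ?_) ha
    obtain ⟨-, -, -, h2, h3, -, -⟩ := hx n
    exact hab _ h3 h2
  have l2 : y.2 < 1 := by
    refine lt_of_le_of_lt (le_of_tendsto' hy2 fun n => ?_) ha'
    obtain ⟨-, -, -, h2, -, h4, h5⟩ := hx n
    refine hab' _ h4 (not_lt.1 fun hlt => ?_)
    exact absurd ((armT_lt h hA eq' h5).2 hlt) (not_lt.2 h2)
  have t1 : Tendsto (fun n => io (x n).1) atTop (𝓝 (io y.1)) := (io_cont l1).tendsto.comp hy1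
  have t2 : Tendsto (fun n => io (x n).2) atTop (𝓝 (io y.2)) := (io_cont l2).tendsto.comp hy2
  have b1 : p ≤ io y.1 := ge_of_tendsto' t1 fun n => (hx n).2.2.1
  have b2 : io y.1 ≤ q := le_of_tendsto' t1 fun n => (hx n).2.2.2.1
  have hb := h.smul b A hA
  obtain ⟨z, -, -, ez⟩ := h.conv hb hA ep eq' b1 b2
  have t3 : Tendsto (fun n => io (x n).2) atTop (𝓝 z) := by
    intro N hN
    have hev := t1.eventually (h.near hb hA ez hN)
    refine mem_map.2 (mem_of_superset hev fun n hn => ?_)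
    obtain ⟨v', hv', e'⟩ := hn
    have e2 : A (io (x n).2) = A v' := ((hx n).2.2.2.2.2.2).symm.trans e'
    have := h.inj hA e2
    show io (x n).2 ∈ N
    rw [this]
    exact hv'
  have ez' : io y.2 = z := tendsto_nhds_unique t2 t3
  refine ⟨⟨p', ep⟩, ⟨q', eq'⟩, b1, b2, l1, l2, ?_⟩
  rw [ez']
  exact ez

theorem Om.armI (h : Om G C up) {τ : G} {μ : X} (hτ : τ • μ = μ) :
    ∃ A ∈ C, A 0 = μ ∧ ∃ T : II ≃o II, ∀ s, s < 1 → τ • A (io s) = A (io (T s)) := by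
  obtain ⟨A, hA, h0, h1, h2⟩ := h.arm hτ
  obtain ⟨F, hF, hF1⟩ := armT_fun h1
  obtain ⟨F', hF', hF1'⟩ := armT_fun h2
  have hm : StrictMono F := by
    intro s t hst
    have hs : s < 1 := lt_of_lt_of_le hst unitInterval.le_one'
    by_cases ht : t < 1
    · exact (io_lt (hF s hs).1 (hF t ht).1).1
        ((armT_lt h hA (hF s hs).2 (hF t ht).2).1 ((io_lt hs ht).2 hst))
    · rw [armT_top ht, hF1]
      exact (hF s hs).1
  have hr : Function.RightInverse F' F := by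
    intro s
    by_cases hs : s < 1
    · obtain ⟨l1, e1⟩ := hF' s hs
      obtain ⟨l2, e2⟩ := hF _ l1
      rw [← e1, smul_inv_smul] at e2
      have e3 := h.inj hA e2
      exact le_antisymm ((armT_le l2 hs).1 e3.ge) ((armT_le hs l2).1 e3.le)
    · rw [armT_top hs, hF1', hF1]
  exact ⟨A, hA, h0, hm.orderIsoOfRightInverse F F' hr, fun s hs => (hF s hs).2⟩

theorem Om.grpd (h : Om G C up) (hg : Good G C Eq up) {A : ℝ → X} (hA : A ∈ C) :
    Grpd (fun (b : G) (s t : II) => s < 1 ∧ t < 1 ∧ b • A (io s) = A (io t)) := by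
  refine ⟨fun b s t hb => hb.1, fun s hs => ⟨hs, hs, one_smul _ _⟩, ?_, ?_, ?_, ?_, ?_, ?_, ?_⟩
  · rintro b b' s t u ⟨h1, -, e1⟩ ⟨-, h2, e2⟩
    exact ⟨h1, h2, by rw [mul_smul, e1, e2]⟩
  · rintro b s t ⟨h1, h2, e⟩
    exact ⟨h2, h1, by rw [← e, inv_smul_smul]⟩
  · rintro b s s' t t' ⟨h1, h2, e1⟩ ⟨h3, h4, e2⟩ hst
    exact (io_lt h2 h4).1 ((armT_lt h hA e1 e2).1 ((io_lt h1 h3).2 hst))
  · rintro b u u' v v' w ⟨h1, h2, e1⟩ ⟨h3, h4, e2⟩ hu hv
    have hw : w < 1 := lt_of_le_of_lt hv h4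
    have hb := h.smul b A hA
    obtain ⟨z, hz, -, ez⟩ := h.conv hA hb e1.symm e2.symm ((armT_le h2 hw).2 hu)
      ((armT_le hw h4).2 hv)
    obtain ⟨s, hs, rfl⟩ := io_surj ((io_nonneg u).trans hz)
    exact ⟨s, hs, hw, ez.symm⟩
  · intro b
    obtain ⟨f, hf⟩ := exists_surjective_nat (ℚ × ℚ)
    refine ⟨fun m => {x : II × II | (∃ p', b • A ((f m).1 : ℝ) = A p') ∧
      (∃ q', b • A ((f m).2 : ℝ) = A q') ∧ ((f m).1 : ℝ) ≤ io x.1 ∧ io x.1 ≤ ((f m).2 : ℝ) ∧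
      x.1 < 1 ∧ x.2 < 1 ∧ b • A (io x.1) = A (io x.2)},
      fun m => armT_closed h hA b _ _, fun s t => ⟨?_, ?_⟩⟩
    · rintro ⟨h1, h2, e⟩
      have hb := h.smul b A hA
      have ho := (h.opn hb hA).mem_nhds (x := io s) ⟨io t, e⟩
      obtain ⟨l, r, ⟨hl, hr⟩, hsub⟩ := mem_nhds_iff_exists_Ioo_subset.1 ho
      obtain ⟨p, hp1, hp2⟩ := exists_rat_btwn hl
      obtain ⟨q, hq1, hq2⟩ := exists_rat_btwn hr
      obtain ⟨m, hm⟩ := hf (p, q)
      refine ⟨m, ?_⟩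
      simp only [hm, mem_ofPred_eq]
      exact ⟨hsub ⟨hp1, hp2.trans hr⟩, hsub ⟨hl.trans hq1, hq2⟩, hp2.le, hq1.le, h1, h2, e⟩
    · rintro ⟨m, -, -, -, -, h1⟩
      exact h1
  · rintro a b s ⟨-, -, e1⟩ ⟨-, -, e2⟩
    exact hg.ab _ a b e1 e2
  · intro a ha u v huv
    by_cases hv : v < 1
    · have hu : u < 1 := huv.trans hv
      obtain ⟨t, ⟨ht1, ht2⟩, hn⟩ := hg.nf a ha A hA _ _ ((io_lt hu hv).2 huv)
      obtain ⟨s, hs, rfl⟩ := io_surj ((io_nonneg u).trans ht1)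
      exact ⟨s, ⟨(armT_le hu hs).1 ht1, (armT_le hs hv).1 ht2⟩, fun hh => hn hh.2.2⟩
    · exact ⟨v, ⟨huv.le, le_rfl⟩, fun hh => hv hh.1⟩

end Pool.Agent.Work.MP_3d425c_gt.To
end

-- merged part: Pool.Agent.Work.MP_3d425c_gt.To.RFold
section
/-! The fold theorem with the extra invariants. -/

namespace Pool.Agent.Work.MP_3d425c_gt.To
open Set Filter Topology Pool.Agent.Work.MP_3d425c_gt.Cy

variable {G X : Type*} [Group G] [MulAction G X] {C : Set (ℝ → X)}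
  {up : X → X → Prop} {s S : G → ℝ} {β : G → X}

section Move
variable {Γ : Subgroup G} {τ : G} {T : II ≃o II} {θ : G → ℝ} {ρ : G → II ≃o II}

theorem rf_one (M : Mv Γ τ T θ ρ) : ρ 1 = 1 := by
  have := M.mul 1 Γ.one_mem 1 Γ.one_mem
  rw [mul_one] at this
  exact left_eq_mul.1 this

theorem rf_inv (M : Mv Γ τ T θ ρ) {a : G} (ha : a ∈ Γ) (t : II) : ρ a (ρ a⁻¹ t) = t := by
  have := M.mul a ha a⁻¹ (Γ.inv_mem ha)
  rw [mul_inv_cancel, rf_one M] at this
  exact (congrArg (fun f : II ≃o II => f t) this).symm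

theorem rf_neg (M : Mv Γ τ T θ ρ) {a : G} (ha : a ∈ Γ) (k : 0 < θ a⁻¹) (t : II) :
    (T t = t → ρ a t = t) ∧ (t < T t → ρ a t < t) ∧ (T t < t → t < ρ a t) := by
  obtain ⟨h1, h2, h3⟩ := M.sgn a⁻¹ (Γ.inv_mem ha) k t
  refine ⟨fun e => ?_, fun e => ?_, fun e => ?_⟩
  · have := rf_inv M ha t
    rwa [h1 e] at this
  · have := (ρ a).strictMono (h2 e)
    rwa [rf_inv M ha] at this
  · have := (ρ a).strictMono (h3 e)
    rwa [rf_inv M ha] at this

/-- The groupoid of the arm. -/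
def rfO (A : ℝ → X) (b : G) (s t : II) : Prop := s < 1 ∧ t < 1 ∧ b • A (io s) = A (io t)

/-- The relation of the fold. -/
def rfR (A : ℝ → X) (Γ : Subgroup G) (ρ : G → II ≃o II) : X → X → Prop :=
  FR (fun (b : G) t => b • A t) (fun p q => q⁻¹ * p ∈ Γ) fun p q => ρ (q⁻¹ * p)

variable {A : ℝ → X}

theorem rf_pf (h : Om G C up) (hA : A ∈ C) (M : Mv Γ τ T θ ρ) (hτ : τ ∈ Γ)
    (hL : ∀ γ ∈ Γ, LG C (γ • A 0) (A 0)) (hT : ∀ s, s < 1 → τ • A (io s) = A (io (T s)))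
    (hst : ∀ γ : G, γ • A 0 = A 0 → ∃ n : ℤ, γ = τ ^ n) :
    PF G C up (fun (b : G) t => b • A t) (fun p q => q⁻¹ * p ∈ Γ) fun p q => ρ (q⁻¹ * p) where
  om := h
  mem p := h.smul p A hA
  eqv := ⟨fun p => by simp, fun {p q} k => by simpa using Γ.inv_mem k,
    fun {p q r} k l => by simpa [mul_assoc] using Γ.mul_mem l k⟩
  lg p q k := by simpa [smul_smul] using h.lg_smul q (hL _ k)
  coc p q r k l s _ := by
    have := M.mul _ l _ k
    rw [show r⁻¹ * q * (q⁻¹ * p) = r⁻¹ * p by group] at this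
    rw [this]
    rfl
  same p q e := by
    let K : Subgroup G :=
      { carrier := {γ | γ ∈ Γ ∧ ∀ s, s < 1 → γ • A (io s) = A (io (ρ γ s))}
        one_mem' := ⟨Γ.one_mem, fun s _ => by rw [one_smul, rf_one M]; rfl⟩
        mul_mem' := fun {a b} ha hb => ⟨Γ.mul_mem ha.1 hb.1, fun s hs => by
          rw [mul_smul, hb.2 s hs, ha.2 _ (iso_lt_one _ hs), M.mul a ha.1 b hb.1]
          rfl⟩
        inv_mem' := fun {a} ha => ⟨Γ.inv_mem ha.1, fun s hs => by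
          rw [inv_smul_eq_iff, ha.2 _ (iso_lt_one _ hs), rf_inv M ha.1]⟩ }
    have k : τ ∈ K := ⟨hτ, fun s hs => by rw [M.tau, hT s hs]⟩
    obtain ⟨n, hn⟩ := hst (q⁻¹ * p) (by rw [mul_smul, inv_smul_eq_iff]; exact e)
    have k2 : q⁻¹ * p ∈ K := hn ▸ K.zpow_mem k n
    refine ⟨k2.1, fun s hs => ?_⟩
    show p • A (io s) = q • A (io (ρ (q⁻¹ * p) s))
    rw [← k2.2 s hs, mul_smul, smul_inv_smul]
  smul g p q k := ⟨g * p, g * q, by simpa [mul_assoc] using k, fun s _ => by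
    simp [mul_smul, mul_assoc]⟩

theorem rf_rel {x y : X} (h : rfR A Γ ρ x y) :
    x = y ∨ ∃ (b b' : G) (s s' : II), s < 1 ∧ s' < 1 ∧ x = b • A (io s) ∧ y = b' • A (io s') ∧
      Rl (rfO A) Γ ρ (b'⁻¹ * b) s s' := by
  induction h with
  | refl => exact Or.inl rfl
  | tail _ hst ih =>
    obtain ⟨p, q, hE, σ, hσ, hy, hz⟩ := hst
    right
    rcases ih with e | ⟨b, b', s, s', hs, hs', hx, hy', hrel⟩
    · exact ⟨p, q, σ, _, hσ, iso_lt_one _ hσ, e.trans hy, hz, Rl.mv hE hσ⟩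
    · refine ⟨b, q, s, _, hs, iso_lt_one _ hσ, hx, hz, ?_⟩
      have h1 : rfO A (p⁻¹ * b') s' σ :=
        ⟨hs', hσ, by rw [mul_smul, ← hy', hy, inv_smul_smul]⟩
      have h2 := Rl.comp (Rl.comp hrel (Rl.arr h1)) (Rl.mv (O := rfO A) (ρ := ρ) hE hσ)
      rwa [show q⁻¹ * p * (p⁻¹ * b' * (b'⁻¹ * b)) = q⁻¹ * b by group] at h2

theorem rf_loop {γ b : G} {s : II} (hs : s < 1)
    (h : rfR A Γ ρ (γ • b • A (io s)) (b • A (io s))) : Rl (rfO A) Γ ρ (b⁻¹ * γ * b) s s := by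
  rcases rf_rel h with e | ⟨b₁, b', s₁, s', hs₁, hs', hx, hy, hrel⟩
  · exact Rl.arr ⟨hs, hs, by rw [mul_smul, mul_smul, e, inv_smul_smul]⟩
  · have h1 : rfO A (b₁⁻¹ * γ * b) s s₁ :=
      ⟨hs, hs₁, by rw [mul_smul, mul_smul, hx, inv_smul_smul]⟩
    have h2 : rfO A (b⁻¹ * b') s' s := ⟨hs', hs, by rw [mul_smul, ← hy, inv_smul_smul]⟩
    have h3 := Rl.comp (Rl.comp (Rl.arr h1) hrel) (Rl.arr h2)
    rwa [show b⁻¹ * b' * (b'⁻¹ * b₁ * (b₁⁻¹ * γ * b)) = b⁻¹ * γ * b by group] at h3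

theorem rf_mv {γ : G} (hγ : γ ∈ Γ) (g : G) {s : II} (hs : s < 1) :
    rfR A Γ ρ (g • γ • A (io s)) (g • A (io (ρ γ s))) := by
  have := fr_arm (arm := fun (b : G) t => b • A t) (E := fun p q => q⁻¹ * p ∈ Γ)
    (θ := fun p q => ρ (q⁻¹ * p)) (p := g * γ) (q := g) (by simpa using hγ) hs
  rw [mul_smul, inv_mul_cancel_left] at this
  exact this

theorem rf_back {c : G} {s s' : II} (h : Rl (rfO A) Γ ρ c s s') :
    s' < 1 ∧ ∀ g : G, rfR A Γ ρ (g • c • A (io s)) (g • A (io s')) := by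
  induction h with
  | arr k => exact ⟨k.2.1, fun g => by rw [k.2.2]; exact .refl⟩
  | mv k l => exact ⟨iso_lt_one _ l, fun g => rf_mv k g l⟩
  | @comp a b _ _ _ _ _ i j =>
    refine ⟨j.1, fun g => Relation.ReflTransGen.trans ?_ (j.2 g)⟩
    have := i.2 (g * b)
    rw [mul_smul, mul_smul] at this
    rw [mul_smul]
    exact this

end Move

theorem Ob.fold [Countable G] (hG : Hy G) (hs : Sp s) (hS : Sj S) (h : Ob C up s S β) {μ : X}
    {τ : G} (h1 : τ ≠ 1) (hfix : τ • μ = μ) (hst : ∀ γ : G, γ • μ = μ → ∃ n : ℤ, γ = τ ^ n) :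
    ∃ r U, Good G C r U ∧ Ex s S β r U ∧
      ∀ g : G, g * τ = τ * g → LG C (g • μ) μ → r (g • μ) μ := by
  obtain ⟨A, hA, rfl, T, hT⟩ := h.om.armI hfix
  let Γ : Subgroup G := Subgroup.centralizer {τ} ⊓ h.om.cls (A 0)
  have mem : ∀ γ, γ ∈ Γ ↔ γ * τ = τ * γ ∧ LG C (γ • A 0) (A 0) := fun γ =>
    and_congr Subgroup.mem_centralizer_singleton_iff Iff.rfl
  have hτ : τ ∈ Γ := (mem τ).2 ⟨rfl, hfix.symm ▸ h.om.lg_refl _⟩
  have cm : ∀ a ∈ Γ, ∀ b ∈ Γ, a * b = b * a := fun a ha b hb =>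
    hG.ct h1 ((mem a).1 ha).1 ((mem b).1 hb).1
  have St0 : S τ ≠ 0 := fun e => h1 (hS.inj τ e)
  have hfull : (∀ a ∈ Γ, ∀ b ∈ Γ, Dep a b) ∨ ∀ p, p * τ = τ * p → p ∈ Γ := by
    by_cases k : ∀ a ∈ Γ, ∀ b ∈ Γ, Dep a b
    · exact Or.inl k
    push Not at k
    obtain ⟨a, ha, b, hb, k⟩ := k
    exact Or.inr fun p hp => (mem p).2 ⟨hp, full hG h.om h.ex.z (cm a ha b hb) k
      ((mem a).1 ha).2 ((mem b).1 hb).2 (hG.ct h1 hp ((mem a).1 ha).1)⟩
  obtain ⟨ρ, M, hab, hnf, hz⟩ := generic2 (O := rfO A) hG (h.om.grpd h.good hA)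
    (fun a b p t ha hb k hp => ⟨ha.1, ha.1, h.ex.z _ a b p ha.2.2 hb.2.2 k hp⟩) hτ h1
    (fun γ k => ((mem γ).1 k).1) (θ := fun a => S a * S τ)
    (fun a ha b hb => by rw [hS.cf.add a b (cm a ha b hb), add_mul])
    (fun a _ e => hS.inj a ((mul_eq_zero.1 e).resolve_right St0)) (mul_self_pos.2 St0) T
    (fun t ht => ⟨ht, iso_lt_one _ ht, hT t ht⟩) hfull
  have F := rf_pf h.om hA M hτ (fun γ k => ((mem γ).1 k).2) hT hst
  have Q : Gq G C (rfR A Γ ρ) fun x y => ∃ x', rfR A Γ ρ x x' ∧ up x' y := F.gq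
  have off : ∀ {x y : X}, rfR A Γ ρ x y → (¬ ∃ (g : G) (t : II), t < 1 ∧ y = g • A (io t)) →
      x = y := fun k l => fr_off k l
  have fixT : ∀ γ ∈ Γ, ∀ t, T t = t → ρ γ t = t := fun γ hγ t e => by
    rcases lt_trichotomy (S γ * S τ) 0 with k | k | k
    · exact (rf_neg M hγ (by rw [hS.cf.inv]; linarith) t).1 e
    · rw [hS.inj γ ((mul_eq_zero.1 k).resolve_right St0), rf_one M]
      rfl
    · exact (M.sgn γ hγ k t).1 e
  have good : Good G C (rfR A Γ ρ) fun x y => ∃ x', rfR A Γ ρ x x' ∧ up x' y := by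
    refine ⟨Q.eqv, Q.rsm, Q.opn, Q.upl, Q.upr, Q.upc, Q.upk, Q.ups, fun x γ δ k1 k2 => ?_,
      F.nf h.good.nf fun γ hγ p u v huv => ?_⟩
    · by_cases hx : ∃ (g : G) (t : II), t < 1 ∧ x = g • A (io t)
      · obtain ⟨b, t, ht, rfl⟩ := hx
        have := hab t _ _ (rf_loop ht k1) (rf_loop ht k2)
        calc γ * δ = b * (b⁻¹ * γ * b * (b⁻¹ * δ * b)) * b⁻¹ := by group
          _ = δ * γ := by rw [this]; group
      · exact h.good.ab x γ δ (off k1 hx) (off k2 hx)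
    · obtain ⟨w, w1, w2⟩ := exists_between huv
      obtain ⟨t, ht, hn⟩ := hnf (p⁻¹ * γ * p) (fun e => hγ (by
        calc γ = p * (p⁻¹ * γ * p) * p⁻¹ := by group
          _ = 1 := by rw [e]; group)) u w w1
      exact ⟨t, ⟨ht.1, ht.2.trans w2.le⟩, fun k =>
        hn (rf_loop ((ht.2.trans_lt w2).trans_le unitInterval.le_one') k)⟩
  have rep : ∀ x (a b : G), rfR A Γ ρ (a • x) x → rfR A Γ ρ (b • x) x → ¬ Dep a b →
      ∃ x₀, rfR A Γ ρ x x₀ ∧ ((∀ p : G, p * a = a * p → p • x₀ = x₀) ∨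
        ∃ (g : G) (t : II), t < 1 ∧ x₀ = g • A (io t) ∧ T t = t ∧
          ∀ p : G, p * a = a * p → g⁻¹ * p * g ∈ Γ) := by
    intro x a b ka kb n
    by_cases hx : ∃ (g : G) (t : II), t < 1 ∧ x = g • A (io t)
    swap
    · exact ⟨x, .refl, Or.inl fun p hp => h.ex.z x a b p (off ka hx) (off kb hx) n hp⟩
    obtain ⟨g, t, ht, rfl⟩ := hx
    have n' : ¬ Dep (g⁻¹ * a * g) (g⁻¹ * b * g) := fun k => n (by simpa [mul_assoc] using k.conj g)
    obtain ⟨c, t', hc, k⟩ := hz t _ _ (rf_loop ht ka) (rf_loop ht kb) n'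
    obtain ⟨ht', bk⟩ := rf_back hc
    have cj : ∀ p : G, p * a = a * p → (g * c⁻¹)⁻¹ * p * (g * c⁻¹) * (c * (g⁻¹ * a * g) * c⁻¹) =
        c * (g⁻¹ * a * g) * c⁻¹ * ((g * c⁻¹)⁻¹ * p * (g * c⁻¹)) := fun p hp => by
      calc _ = c * g⁻¹ * (p * a) * g * c⁻¹ := by group
        _ = _ := by rw [hp]; group
    refine ⟨(g * c⁻¹) • A (io t'), by simpa only [mul_smul, inv_smul_smul] using bk (g * c⁻¹), ?_⟩
    rcases k with k | ⟨k1, k2, k3⟩
    · refine Or.inl fun p hp => ?_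
      have := (k _ (cj p hp)).2.2
      rwa [mul_smul, mul_smul, inv_smul_eq_iff] at this
    · refine Or.inr ⟨_, t', ht', rfl, k1, fun p hp => k3 _ (hG.ct (fun e => ?_) (cj p hp) k2.symm)⟩
      refine (ne_one_of_not_dep n').1 ?_
      calc g⁻¹ * a * g = c⁻¹ * (c * (g⁻¹ * a * g) * c⁻¹) * c := by group
        _ = 1 := by rw [e]; group
  have exz : ∀ x (a b p : G), rfR A Γ ρ (a • x) x → rfR A Γ ρ (b • x) x → ¬ Dep a b →
      p * a = a * p → rfR A Γ ρ (p • x) x := by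
    intro x a b p ka kb n hp
    obtain ⟨x₀, k0, k⟩ := rep x a b ka kb n
    refine Q.eqv.trans (Q.rsm p _ _ k0) (Q.eqv.trans ?_ (Q.eqv.symm k0))
    rcases k with k | ⟨g, t, ht, rfl, k1, k2⟩
    · rw [k p hp]
      exact .refl
    · have := rf_mv (A := A) (ρ := ρ) (k2 p hp) g ht
      rwa [fixT _ (k2 p hp) t k1, mul_smul, mul_smul, smul_inv_smul] at this
  have exd : ∀ a p : G, 0 < s a → p * a = a * p → 0 < s p →
      Lt (fun x y => ∃ x', rfR A Γ ρ x x' ∧ up x' y) (β a) (p • β a) := by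
    intro a p ha hp hp'
    have l := h.ex.d a p ha hp hp'
    refine ⟨⟨_, .refl, l.1⟩, ?_⟩
    rintro ⟨x, k1, k2⟩
    rcases F.sep_of_fr (F.fr_symm k1) with e | ⟨m, n, hE, ne, b1, b2, e, he, s₁, s₂, hs', e1, e2⟩
    · exact l.2 (e ▸ k2)
    have hm : up (m • A 0) (β a) := b1.elim (fun b => h.om.sub b b2 k2) fun b => b ▸ k2
    have hn := (F.seg_up he hs').1
    rw [e1, e2] at hn
    have hl := F.lg m n hE
    obtain ⟨⟨q, q1, q2, q3⟩, k⟩ := jump hG h.om hs ha (fun p => h.ex.d a p ha) hp hp' hl ne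
      (Or.inl hm) hn
    have t1 : n * τ * n⁻¹ ≠ 1 := fun e => h1 (by
      calc τ = n⁻¹ * (n * τ * n⁻¹) * n := by group
        _ = 1 := by rw [e]; group)
    have t2 := h.good.ab (n • A 0) (n * τ * n⁻¹) q
      (by rw [mul_smul, mul_smul, inv_smul_smul, hfix]) q3
    have t3 : m * n⁻¹ * (n * τ * n⁻¹) = n * τ * n⁻¹ * (m * n⁻¹) := by
      calc _ = n * (n⁻¹ * m * τ) * n⁻¹ := by group
        _ = _ := by rw [((mem _).1 hE).1]; group
    have e3 : (m * n⁻¹) • n • A 0 = m • A 0 := by rw [mul_smul, inv_smul_smul]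
    exact ne (e3 ▸ k (m * n⁻¹) (hG.ct t1 t3 (hG.ct q1 q2.symm t2)) (e3.symm ▸ hl))
  refine ⟨_, _, good, ⟨exz, exd, fun a b x ha hb hab => ?_⟩, fun g hg hl => ?_⟩
  · obtain ⟨Y, _, π, C', U, h', -, hsj, hr, πs, πc, hu⟩ := exists_quot2 h.om good
    have nb : ∀ y, ¬ Bad up a b y := fun y k =>
      k.elim (fun k => (h.ex.sg a b y ha hb hab).1 (k.1.imp_left Eq.symm) k.2)
        fun k => (h.ex.sg a b y ha hb hab).2 k.1 k.2
    have lt : ∀ x y, Lt U (π x) (π y) ↔ Lt (fun x y => ∃ x', rfR A Γ ρ x x' ∧ up x' y) x y :=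
      fun x y => and_congr (hu x y) (not_congr (hu y x))
    suffices k : ¬ Bad U a b (π x) by
      simp only [Bad, Le, ← πs, lt, hr] at k
      exact ⟨fun k1 k2 => k (Or.inl ⟨k1.imp_left Q.eqv.symm, k2⟩), fun k1 k2 => k (Or.inr ⟨k1, k2⟩)⟩
    intro k
    obtain ⟨n, c, hc, f, fr⟩ := bad_germ hG h' (fun y a b p ka kb n hp => by
      obtain ⟨x, rfl⟩ := hsj y
      rw [← πs, hr] at ka kb ⊢
      exact exz x a b p ka kb n hp) hs.cf ha.1 hb.1 hab (y₀ := π (β a)) (fun p hp hp' => by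
      rw [← πs, lt]
      exact exd a p ha.1 hp hp') k
    have fr' : ∃ᶠ u in 𝓝[≠] (0 : ℝ), Bad U a b (c u) :=
      fr.elim (fun k => k.filter_mono (nhdsWithin_mono _ fun _ l => ne_of_lt l))
        fun k => k.filter_mono (nhdsWithin_mono _ fun _ l => ne_of_gt l)
    obtain ⟨ν, hν⟩ := hsj (c 0)
    have fa := f a rfl
    have fb := f b hab.symm
    rw [← hν, ← πs, hr] at fa fb
    obtain ⟨x₀, k0, k⟩ := rep ν a b fa fb n
    obtain ⟨e, he, t, e0, ev⟩ : ∃ e ∈ C, ∃ t, e t = x₀ ∧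
        ∀ᶠ u in 𝓝[≠] t, ¬ Bad U a b (π (e u)) := by
      rcases k with k | ⟨g, t, ht, rfl, -, k⟩
      · obtain ⟨e, he, t, rfl⟩ := h.om.cover x₀
        exact ⟨e, he, t, rfl, germ_fix h.om h' πs πc he nb (k a rfl) (k b hab.symm)⟩
      have ka := k a rfl
      have kb := k b hab.symm
      have lg : ∀ p : G, g⁻¹ * p * g ∈ Γ → LG C (p • g • A 0) (g • A 0) := fun p k => by
        simpa only [mul_smul, smul_inv_smul] using h.om.lg_smul g ((mem _).1 k).2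
      have mv : ∀ p : G, g⁻¹ * p * g ∈ Γ → ∀ t < 1, ρ (g⁻¹ * p * g) t < 1 ∧
          π (p • g • A (io t)) = π (g • A (io (ρ (g⁻¹ * p * g) t))) := fun p k t ht =>
        ⟨iso_lt_one _ ht, (hr _ _).2 (by
          simpa only [mul_smul, smul_inv_smul] using rf_mv (A := A) (ρ := ρ) k g ht)⟩
      have sc : ∀ p : G, S (g⁻¹ * p * g) = S p := fun p => by simpa using hS.cf.conj g⁻¹ p
      refine ⟨_, h.om.smul g A hA, io t, rfl, germ_arm h.om h' πs πc (h.om.smul g A hA) nb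
        (lg a ka) (lg b kb) (mv a ka) (mv b kb) (fun t _ => ?_) (io_nonneg t)⟩
      rcases lt_or_gt_of_ne St0 with k | k
      · obtain ⟨a1, a2, a3⟩ := rf_neg M ka (by
          rw [hS.cf.inv, sc]; nlinarith [ha.2]) t
        obtain ⟨b1, b2, b3⟩ := rf_neg M kb (by
          rw [hS.cf.inv, sc]; nlinarith [hb.2]) t
        rcases lt_trichotomy (T t) t with l | l | l
        · exact fun q => q.elim (fun q => lt_asymm q.2 (b3 l)) fun q => (a3 l).not_ge q.1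
        · exact fun q => q.elim (fun q => q.2.ne (b1 l)) fun q => q.2.ne' (b1 l)
        · exact fun q => q.elim (fun q => (a2 l).not_ge q.1) fun q => lt_asymm q.2 (b2 l)
      · obtain ⟨a1, a2, a3⟩ := M.sgn _ ka (by rw [sc]; exact mul_pos ha.2 k) t
        obtain ⟨b1, b2, b3⟩ := M.sgn _ kb (by rw [sc]; exact mul_pos hb.2 k) t
        rcases lt_trichotomy (T t) t with l | l | l
        · exact fun q => q.elim (fun q => (a3 l).not_ge q.1) fun q => lt_asymm q.2 (b3 l)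
        · exact fun q => q.elim (fun q => q.2.ne (b1 l)) fun q => q.2.ne' (b1 l)
        · exact fun q => q.elim (fun q => lt_asymm q.2 (b2 l)) fun q => (a2 l).not_ge q.1
    have e1 : c 0 = π (e t) := by rw [← hν, e0, hr]; exact k0
    refine fr' ?_
    filter_upwards [mem_nhdsWithin_of_mem_nhds
      (h'.near hc (πc e he) e1 (eventually_nhdsWithin_iff.1 ev)), self_mem_nhdsWithin]
      with u ⟨v, v1, v2⟩ hu0
    rw [v2]
    refine v1 fun l => hu0 (h'.inj hc ?_)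
    rw [v2, e1, show v = t from l]
  · have := rf_mv (A := A) (ρ := ρ) ((mem g).2 ⟨hg, hl⟩) 1 (zero_lt_one' II)
    rwa [show ρ g 0 = 0 from (ρ g).map_bot, io_zero, one_smul, one_smul] at this

end Pool.Agent.Work.MP_3d425c_gt.To
end

-- merged part: Pool.Agent.Work.MP_3d425c_gt.Nz.Star
section
/-! The generic conjugate of an action of moves: the vertex groups as a whole. -/

namespace Pool.Agent.Work.MP_3d425c_gt.Nz.St
open Set Filter Topology Pool.Agent.Work.MP_3d425c_gt.Cy Pool.Agent.Work.MP_3d425c_gt.To.Tg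

variable {G : Type*} [Group G] {A : Type*} [Group A]

/-- What happens to the vertex groups when `R` is enlarged to `J`. -/
structure Ext {α : Type*} (R Q J : G → α → α → Prop) : Prop where
  keep : ∀ s κ a, κ ≠ 1 → R κ s s → J a s s → R a s s
  new : ∀ s, (∀ a, J a s s → R a s s) ∨ (∃ z, Q z s s ∧ ∀ a, J a s s → ∃ i : ℤ, a = z ^ i) ∨
    ∃ l q, Q l s q ∧ ∀ a, J a s s → R (l * a * l⁻¹) q q

/-- The case of a trivial vertex group at the source. -/
theorem arrow {α : Type*} (R Q : G → α → α → Prop)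
    (hmul : ∀ a b s t u, R a s t → R b t u → R (b * a) s u)
    (hinv : ∀ a s t, R a s t → R a⁻¹ t s)
    (hQ : ∀ a b s t u, Q a s t → Q b t u → Q (b * a) s u) (hQi : ∀ a s t, Q a s t → Q a⁻¹ t s)
    (hRQ : ∀ a s t, R a s t → Q a s t) {p q : α} (w : G) (hw : Q w p q)
    (hp1 : R 1 p p) (hq1 : R 1 q q) (hp : ∀ a, R a p p → a = 1) :
    ∃ J : G → α → α → Prop, (∀ a s t, R a s t → J a s t) ∧ J w p q ∧ J w⁻¹ q p ∧
      (∀ a b s t u, J a s t → J b t u → J (b * a) s u) ∧ Ext R Q J := by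
  have tr : ∀ κ c s, R c s p → R κ s s → κ = 1 := fun κ c s hc hκ => by
    have h3 := hp _ (hmul _ _ _ _ _ (hmul _ _ _ _ _ (hinv _ _ _ hc) hκ) hc)
    calc κ = c⁻¹ * (c * (κ * c⁻¹)) * c := by group
      _ = 1 := by rw [h3]; group
  obtain ⟨H, hc, h1, h2⟩ : ∃ H : Subgroup G,
      ((∃ d, R d q p ∧ ∀ x ∈ H, ∃ i : ℤ, x = (w * d) ^ i) ∨ ∀ x ∈ H, R x q q) ∧
      (∀ a, R a q q → a ∈ H) ∧ ∀ d, R d q p → w * d ∈ H := by
    by_cases h : ∃ d, R d q p
    · obtain ⟨d, hd⟩ := h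
      refine ⟨Subgroup.zpowers (w * d), .inl ⟨d, hd, ?_⟩, fun a ha => ?_, fun d' hd' => ?_⟩
      · rintro _ ⟨i, rfl⟩
        exact ⟨i, rfl⟩
      · rw [tr a d q hd ha]
        exact one_mem _
      · rw [mul_inv_eq_one.1 (hp _ (hmul _ _ _ _ _ (hinv _ _ _ hd) hd'))]
        exact Subgroup.mem_zpowers _
    · exact ⟨{ carrier := {a | R a q q}
               mul_mem' := fun ha hb => hmul _ _ _ _ _ hb ha
               one_mem' := hq1
               inv_mem' := fun ha => hinv _ _ _ ha },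
        .inr fun x hx => hx, fun a ha => ha, fun d hd => absurd ⟨d, hd⟩ h⟩
  let C : α → G → Prop := fun s l => R l s q ∨ ∃ a, R a s p ∧ l = w * a
  have K0 : ∀ s l, C s l → Q l s q := by
    rintro s l (hl | ⟨a, ha, rfl⟩)
    · exact hRQ _ _ _ hl
    · exact hQ _ _ _ _ _ (hRQ _ _ _ ha) hw
  have K1 : ∀ s l l', C s l → C s l' → l' * l⁻¹ ∈ H := by
    have m : ∀ s l a, R l s q → R a s p → w * a * l⁻¹ ∈ H := fun s l a hl ha => by
      rw [mul_assoc]
      exact h2 _ (hmul _ _ _ _ _ (hinv _ _ _ hl) ha)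
    rintro s l l' (hl | ⟨a, ha, rfl⟩) (hl' | ⟨a', ha', rfl⟩)
    · exact h1 _ (hmul _ _ _ _ _ (hinv _ _ _ hl) hl')
    · exact m _ _ _ hl ha'
    · have := inv_mem (m _ _ _ hl' ha)
      rwa [mul_inv_rev, inv_inv] at this
    · rw [mul_inv_eq_one.1 (hp _ (hmul _ _ _ _ _ (hinv _ _ _ ha) ha')), mul_inv_cancel]
      exact one_mem _
  have K2 : ∀ g s t l, R g s t → C t l → C s (l * g) := by
    rintro g s t l hg (hl | ⟨a, ha, rfl⟩)
    · exact Or.inl (hmul _ _ _ _ _ hg hl)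
    · exact Or.inr ⟨a * g, hmul _ _ _ _ _ hg ha, mul_assoc _ _ _⟩
  have Cp : C p w := Or.inr ⟨1, hp1, (mul_one w).symm⟩
  have Cq : C q 1 := Or.inl hq1
  have K3 : ∀ s l₀ g, C s l₀ → (R g s s ∨ ∃ l l₂, C s l ∧ C s l₂ ∧ l₂ * g * l⁻¹ ∈ H) →
      l₀ * g * l₀⁻¹ ∈ H := by
    rintro s l₀ g h0 (hg | ⟨l, l₂, hl, hl₂, hm⟩)
    · exact K1 _ _ _ h0 (K2 _ _ _ _ hg h0)
    · have := mul_mem (mul_mem (K1 _ _ _ hl₂ h0) hm) (K1 _ _ _ h0 hl)
      rwa [show l₀ * l₂⁻¹ * (l₂ * g * l⁻¹) * (l * l₀⁻¹) = l₀ * g * l₀⁻¹ by group] at this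
  refine ⟨fun g s t => R g s t ∨ ∃ l l₂, C s l ∧ C t l₂ ∧ l₂ * g * l⁻¹ ∈ H,
    fun a s t h => Or.inl h, Or.inr ⟨w, 1, Cp, Cq, ?_⟩, Or.inr ⟨1, w, Cq, Cp, ?_⟩, ?_, ?_, ?_⟩
  · rw [one_mul, mul_inv_cancel]
    exact one_mem _
  · rw [mul_inv_cancel, inv_one, mul_one]
    exact one_mem _
  · rintro a b s t u (ha | ⟨l, l₂, hl, hl₂, hm⟩) (hb | ⟨m, m₂, hk, hk₂, hn⟩)
    · exact Or.inl (hmul _ _ _ _ _ ha hb)
    · refine Or.inr ⟨m * a, m₂, K2 _ _ _ _ ha hk, hk₂, ?_⟩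
      rwa [show m₂ * (b * a) * (m * a)⁻¹ = m₂ * b * m⁻¹ by group]
    · refine Or.inr ⟨l, l₂ * b⁻¹, hl, K2 _ _ _ _ (hinv _ _ _ hb) hl₂, ?_⟩
      rwa [show l₂ * b⁻¹ * (b * a) * l⁻¹ = l₂ * a * l⁻¹ by group]
    · refine Or.inr ⟨l, m₂, hl, hk₂, ?_⟩
      have := mul_mem (mul_mem hn (K1 _ _ _ hl₂ hk)) hm
      rwa [show m₂ * b * m⁻¹ * (m * l₂⁻¹) * (l₂ * a * l⁻¹) = m₂ * (b * a) * l⁻¹ by group] at this
  · rintro s κ a n hκ (ha | ⟨l, l₂, hl, h⟩)
    · exact ha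
    have k := K3 s l a hl (Or.inr ⟨l, l₂, hl, h⟩)
    rcases hl with hl | ⟨c, hc', -⟩
    · rcases hc with ⟨d, hd, -⟩ | hc
      · exact absurd (tr κ _ s (hmul _ _ _ _ _ hl hd) hκ) n
      · have := hmul _ _ _ _ _ (hmul _ _ _ _ _ hl (hc _ k)) (hinv _ _ _ hl)
        rwa [show l⁻¹ * (l * a * l⁻¹ * l) = a by group] at this
    · exact absurd (tr κ c s hc' hκ) n
  · intro s
    by_cases h : ∃ l, C s l
    swap
    · exact .inl fun a ha => ha.resolve_right fun ⟨l, _, hl, _⟩ => h ⟨l, hl⟩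
    obtain ⟨l, hl⟩ := h
    rcases hc with ⟨d, hd, hc⟩ | hc
    · refine .inr (.inl ⟨l⁻¹ * (w * d) * l⁻¹⁻¹, ?_, fun a ha => ?_⟩)
      · rw [inv_inv, mul_assoc]
        exact hQ _ _ _ _ _ (hQ _ _ _ _ _ (K0 _ _ hl) (hQ _ _ _ _ _ (hRQ _ _ _ hd) hw))
          (hQi _ _ _ (K0 _ _ hl))
      · obtain ⟨i, hi⟩ := hc _ (K3 s l a hl ha)
        exact ⟨i, by rw [conj_zpow, ← hi]; group⟩
    · exact .inr (.inr ⟨l, q, K0 _ _ hl, fun a ha => hc _ (K3 s l a hl ha)⟩)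

theorem one_arrow {α : Type*} (R Q : G → α → α → Prop)
    (hmul : ∀ a b s t u, R a s t → R b t u → R (b * a) s u)
    (hinv : ∀ a s t, R a s t → R a⁻¹ t s)
    (hQ : ∀ a b s t u, Q a s t → Q b t u → Q (b * a) s u) (hQi : ∀ a s t, Q a s t → Q a⁻¹ t s)
    (hRQ : ∀ a s t, R a s t → Q a s t) {p q : α} (w : G) (hw : Q w p q)
    (hp1 : R 1 p p) (hq1 : R 1 q q)
    (hp : (∀ a, R a p p → a = 1) ∨ ∀ a, R a q q → a = 1) :
    ∃ J : G → α → α → Prop, (∀ a s t, R a s t → J a s t) ∧ J w p q ∧ J w⁻¹ q p ∧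
      (∀ a b s t u, J a s t → J b t u → J (b * a) s u) ∧ Ext R Q J := by
  rcases hp with hp | hq
  · exact arrow R Q hmul hinv hQ hQi hRQ w hw hp1 hq1 hp
  · obtain ⟨J, h1, h2, h3, h4⟩ := arrow R Q hmul hinv hQ hQi hRQ w⁻¹ (hQi _ _ _ hw) hq1 hp1 hq
    exact ⟨J, h1, inv_inv w ▸ h3, h2, h4⟩

variable {O : G → II → II → Prop} {lab : A →* G} {ρ : A →* (II ≃o II)} {τ : A} {T : II ≃o II}

/-- Chains whose moves stay in the orbits of the points of `E` and the fixed points of `T`. -/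
def Gp (O : G → II → II → Prop) (lab : A →* G) (ρ : A →* (II ≃o II)) (T : II ≃o II)
    (E : List II) (a : G) (s t : II) : Prop := ∃ n, Cn O lab ρ (ccP T E) n a s t

theorem Gp.mono {E F : List II} (h : E ⊆ F) {a s t} (k : Gp O lab ρ T E a s t) :
    Gp O lab ρ T F a s t :=
  have sub : ccP T F ⊆ ccP T E := fun _ hx l =>
    hx (l.imp_right fun ⟨e, h1, h2⟩ => ⟨e, h h1, h2⟩)
  k.imp fun _ k => k.anti sub

/-- The star condition. -/
def Star (O : G → II → II → Prop) (lab : A →* G) (ρ : A →* (II ≃o II)) (T : II ≃o II) : Prop :=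
  ∀ (e : II) (i : A), T e ≠ e → ρ i e ∉ orb T e →
    ∀ n a n' a', Cn O lab ρ (orb T e) n a e e →
      Cn O lab ρ (orb T e) n' a' (ρ i e) (ρ i e) → a = 1 ∨ a' = 1

/-- One more orbit. -/
theorem step (M : Mv O lab τ T ρ) (hO : Grpd O) (hstar : Star O lab ρ T) (e : II) (E : List II) :
    Ext (Gp O lab ρ T E) (Rl O lab ρ) (Gp O lab ρ T (e :: E)) := by
  by_cases he : e ∈ ccP T E
  swap
  · have sub : ccP T E ⊆ ccP T (e :: E) := fun x hx => by
      by_contra h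
      rcases ccP_cons.1 h with h | ⟨m, rfl⟩
      exacts [h hx, ccP_zpow he m hx]
    exact ⟨fun s _ a _ _ ⟨n, ha⟩ => ⟨n, ha.anti sub⟩, fun s => .inl fun a ⟨n, ha⟩ =>
      ⟨n, ha.anti sub⟩⟩
  have sub : orb T e ⊆ ccP T E := by
    rintro _ ⟨m, rfl⟩
    by_contra h
    have := ccP_zpow h (-m)
    rw [cc_add, neg_add_cancel] at this
    exact this he
  have hne : T e ≠ e := fun h => he (Or.inl h)
  have he1 : e < 1 := lt_top_iff_ne_top.2 fun h => hne (by rw [h]; exact map_top _)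
  have Rm : ∀ a b s t u, Gp O lab ρ T E a s t → Gp O lab ρ T E b t u →
      Gp O lab ρ T E (b * a) s u := fun a b s t u ⟨n, h⟩ ⟨m, h'⟩ => ⟨n + m, h.comp hO h'⟩
  obtain ⟨J, J1, J2, J3, J4⟩ : ∃ J : G → II → II → Prop,
      (∀ a s t, Gp O lab ρ T E a s t → J a s t) ∧
      (∀ a b s t u, J a s t → J b t u → J (b * a) s u) ∧
      Ext (Gp O lab ρ T E) (Rl O lab ρ) J ∧
      ∀ j : A, ρ j e ∉ ccP T E → J (lab j) e (ρ j e) ∧ J (lab j⁻¹) (ρ j e) e := by
    by_cases h : ∃ i : A, ρ i e ∉ ccP T E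
    swap
    · exact ⟨_, fun _ _ _ h => h, Rm, ⟨fun _ _ _ _ _ k => k, fun _ => .inl fun _ k => k⟩,
        fun j hj => absurd ⟨j, hj⟩ h⟩
    obtain ⟨i, hi⟩ := h
    obtain ⟨J, J1, J2, J3, J4, J5⟩ := one_arrow (Gp O lab ρ T E) (Rl O lab ρ) Rm
      (fun a s t ⟨n, h⟩ => ⟨n, h.symm hO⟩) (fun _ _ _ _ _ => Rl.comp)
      (fun _ _ _ k => k.symm hO) (fun a s t ⟨n, h⟩ => h.rl hO) (p := e) (q := ρ i e) (lab i)
      (.mv i he1) ⟨0, hO.one _ he1⟩ ⟨0, hO.one _ (tg_lt1 _ he1)⟩ (by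
        by_contra hc
        rw [not_or, not_forall, not_forall] at hc
        obtain ⟨⟨a, ha⟩, a', ha'⟩ := hc
        rw [Classical.not_imp] at ha ha'
        obtain ⟨⟨n, h1⟩, h2⟩ := ha
        obtain ⟨⟨n', h3⟩, h4⟩ := ha'
        exact (hstar e i hne (fun h => hi (sub h)) n a n' a' (h1.anti sub)
          (h3.anti sub)).elim h2 h4)
    refine ⟨J, J1, J4, J5, fun j hj => ⟨?_, ?_⟩⟩
    · have h1 : ρ (j * i⁻¹) (ρ i e) = ρ j e := by rw [tg_mul, inv_mul_cancel_right]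
      have h2 := tg_mv (lab := lab) hO (j * i⁻¹) (tg_lt1 _ he1) hi (h1 ▸ hj)
      rw [h1] at h2
      have := J4 _ _ _ _ _ J2 (J1 _ _ _ ⟨1, h2⟩)
      rwa [← map_mul, inv_mul_cancel_right] at this
    · have h1 : ρ (i * j⁻¹) (ρ j e) = ρ i e := by rw [tg_mul, inv_mul_cancel_right]
      have h2 := tg_mv (lab := lab) hO (i * j⁻¹) (tg_lt1 _ he1) hj (h1 ▸ hi)
      rw [h1] at h2
      have := J4 _ _ _ _ _ (J1 _ _ _ ⟨1, h2⟩) J3
      rwa [← map_inv, ← map_mul, inv_mul_cancel_left] at this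
  have J0 : ∀ b s t, O b s t → J b s t := fun b s t h => J1 _ _ _ ⟨0, h⟩
  have key := tg_sub (lab := lab) (ρ := ρ) (P := ccP T (e :: E)) hO J J2 J0 (by
    intro t i ht h1 h2
    rcases ccP_cons.1 h1 with h1 | hx <;> rcases ccP_cons.1 h2 with h2 | hy
    · exact J1 _ _ _ ⟨1, tg_mv hO i ht h1 h2⟩
    · obtain ⟨y, hy⟩ := M.ob hy
      have h3 : t = ρ (i⁻¹ * τ ^ y) e := by
        rw [← tg_mul, ← hy, tg_mul, inv_mul_cancel, tg_one]
      have := J2 _ _ _ _ _ (J4 _ (h3 ▸ h1)).2 (J0 _ _ _ (M.arrs hO y e he1))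
      rwa [← h3, ← hy, ← map_mul, mul_inv_rev, inv_inv, mul_inv_cancel_left] at this
    · obtain ⟨x, hx⟩ := M.ob hx
      have h3 : ρ i t = ρ (i * τ ^ x) e := by rw [hx, tg_mul]
      have h4 := hO.inv _ _ _ (M.arrs hO x e he1)
      have := J2 _ _ _ _ _ (J0 _ _ _ h4) (J4 _ (h3 ▸ h2)).1
      rwa [← h3, ← hx, ← map_inv, ← map_mul, mul_inv_cancel_right] at this
    · obtain ⟨x, hx⟩ := M.ob hx
      obtain ⟨y, hy⟩ := M.ob hy
      have h4 : ρ ((τ ^ y)⁻¹ * (i * τ ^ x)) e = e := by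
        rw [← tg_mul, ← tg_mul, ← hx, hy, tg_mul, inv_mul_cancel, tg_one]
      have h5 := inv_mul_eq_one.1 ((M.free _ _ h4).resolve_right hne)
      have h3 : i = τ ^ (y - x) := by rw [zpow_sub, h5, mul_inv_cancel_right]
      rw [h3]
      exact J0 _ _ _ (M.arrs hO _ t ht))
  have sb : ∀ a s, Gp O lab ρ T (e :: E) a s s → J a s s := fun a s ⟨n, h⟩ => key _ _ _ _ h
  exact ⟨fun s κ a n k l => J3.keep s κ a n k (sb a s l), fun s => (J3.new s).imp
    (fun k a l => k a (sb a s l)) (Or.imp (fun ⟨z, k1, k2⟩ => ⟨z, k1, fun a l => k2 a (sb a s l)⟩)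
      fun ⟨l, q, k1, k2⟩ => ⟨l, q, k1, fun a m => k2 a (sb a s m)⟩)⟩

/-- A nontrivial vertex group does not grow. -/
theorem keep (M : Mv O lab τ T ρ) (hO : Grpd O) (hstar : Star O lab ρ T) {E : List II} {s : II}
    {κ a : G} (n : κ ≠ 1) (hκ : Gp O lab ρ T E κ s s) (ha : Rl O lab ρ a s s) :
    Gp O lab ρ T E a s s := by
  obtain ⟨m, ha⟩ := (rl_iff hO).1 ha
  obtain ⟨F, hF⟩ := tg_fin T m _ _ _ ha
  have k : Gp O lab ρ T (F ++ E) a s s := Gp.mono (List.subset_append_left _ _) ⟨m, hF⟩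
  clear hF
  induction F with
  | nil => exact k
  | cons e F ih =>
    exact ih ((step M hO hstar e (F ++ E)).keep s κ a n
      (hκ.mono (List.subset_append_right _ _)) k)

theorem born (M : Mv O lab τ T ρ) (hO : Grpd O) (hstar : Star O lab ρ T) (E : List II) :
    ∀ s, s < 1 → (∃ z, Rl O lab ρ z s s ∧ ∀ a, Gp O lab ρ T E a s s → ∃ i : ℤ, a = z ^ i) ∨
      ∃ c u, Rl O lab ρ c s u ∧ ∀ a, Gp O lab ρ T E a s s →
        Gp O lab ρ T [] (c * a * c⁻¹) u u := by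
  induction E with
  | nil => exact fun s hs => .inr ⟨1, s, .arr (hO.one s hs), fun a k => by simpa using k⟩
  | cons e E ih =>
    intro s hs
    rcases (step M hO hstar e E).new s with k | k | ⟨l, q, k1, k2⟩
    · exact (ih s hs).imp (fun ⟨z, a1, a2⟩ => ⟨z, a1, fun a m => a2 a (k a m)⟩)
        fun ⟨c, u, a1, a2⟩ => ⟨c, u, a1, fun a m => a2 a (k a m)⟩
    · exact .inl k
    rcases ih q ((k1.symm hO).lt1 hO) with ⟨z, a1, a2⟩ | ⟨c, u, a1, a2⟩
    · refine .inl ⟨l⁻¹ * z * l⁻¹⁻¹, ?_, fun a m => ?_⟩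
      · rw [inv_inv, mul_assoc]
        exact (k1.comp a1).comp (k1.symm hO)
      · obtain ⟨i, hi⟩ := a2 _ (k2 a m)
        exact ⟨i, by rw [conj_zpow, ← hi]; group⟩
    · refine .inr ⟨c * l, u, k1.comp a1, fun a m => ?_⟩
      rw [show c * l * a * (c * l)⁻¹ = c * (l * a * l⁻¹) * c⁻¹ by group]
      exact a2 _ (k2 a m)

/-- Moves only at fixed points. -/
theorem base (M : Mv O lab τ T ρ) (S : Cs lab τ) (hO : Grpd O) {s : II} :
    (∀ a, Gp O lab ρ T [] a s s → O a s s) ∨ ∃ c u, T u = u ∧ O c s u ∧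
      ∀ a, Gp O lab ρ T [] a s s → ∃ p x, O x u u ∧ c * a * c⁻¹ = lab p * x := by
  have cj : ∀ c x s t, O c s t → O x s s → O (c * x * c⁻¹) t t := fun c x s t hc hx => by
    rw [mul_assoc]
    exact hO.mul _ _ _ _ _ (hO.mul _ _ _ _ _ (hO.inv _ _ _ hc) hx) hc
  have lp : ∀ u, u < 1 → T u = u → O (lab τ) u u := fun u h1 h2 => by
    have := M.arr u h1
    rwa [h2] at this
  have cm : ∀ c u v p, O c u v → T u = u → T v = v → c * lab p = lab p * c := by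
    intro c u v p hc hu hv
    have k1 := lp u (hO.lt1 _ _ _ hc) hu
    have k2 := lp v (hO.lt1 _ _ _ (hO.inv _ _ _ hc)) hv
    exact S.ct _ _ (S.mn c (hO.ab _ _ _ (cj _ _ _ _ hc k1) k2)) (S.cm p)
  let J : G → II → II → Prop := fun γ s t => O γ s t ∨
    ∃ u c d p, T u = u ∧ O c s u ∧ O d u t ∧ γ = d * lab p * c
  have key := tg_sub (lab := lab) (ρ := ρ) (P := ccP T []) hO J (by
    rintro a b s t u (ha | ⟨v, c, d, p, h1, h2, h3, rfl⟩) (hb | ⟨v', c', d', p', h4, h5, h6, rfl⟩)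
    · exact Or.inl (hO.mul _ _ _ _ _ ha hb)
    · exact Or.inr ⟨v', c' * a, d', p', h4, hO.mul _ _ _ _ _ ha h5, h6, by group⟩
    · exact Or.inr ⟨v, c, b * d, p, h1, h2, hO.mul _ _ _ _ _ h3 hb, by group⟩
    · have k := hO.mul _ _ _ _ _ h3 h5
      refine Or.inr ⟨v, c, d' * (c' * d), p' * p, h1, h2, hO.mul _ _ _ _ _ k h6, ?_⟩
      calc d' * lab p' * c' * (d * lab p * c) = d' * (lab p' * (c' * d)) * lab p * c := by group
        _ = _ := by rw [← cm _ _ _ p' k h1 h4, map_mul]; group)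
    (fun b s t h => Or.inl h) (by
    intro t i ht h1 _
    have h2 : T t = t := (not_not.1 h1).resolve_right fun ⟨e, he, _⟩ => List.not_mem_nil he
    rw [M.fix i t h2]
    exact Or.inr ⟨t, 1, 1, i, h2, hO.one t ht, hO.one t ht, by group⟩)
  by_cases h : ∃ c u, T u = u ∧ O c s u
  swap
  · exact .inl fun a ⟨n, k⟩ => (key _ _ _ _ k).resolve_right fun ⟨u, c, _, _, h1, h2, _⟩ =>
      h ⟨c, u, h1, h2⟩
  obtain ⟨c, u, hu, hc⟩ := h
  refine .inr ⟨c, u, hu, hc, fun a ⟨n, k⟩ => ?_⟩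
  rcases key _ _ _ _ k with h | ⟨v, c', d, p, h1, h2, h3, rfl⟩
  · exact ⟨1, _, cj _ _ _ _ hc h, by rw [map_one, one_mul]⟩
  · have k1 := hO.mul _ _ _ _ _ h3 hc
    have k2 := hO.mul _ _ _ _ _ (hO.inv _ _ _ hc) h2
    refine ⟨p, _, hO.mul _ _ _ _ _ k2 k1, ?_⟩
    calc c * (d * lab p * c') * c⁻¹ = c * d * lab p * (c' * c⁻¹) := by group
      _ = _ := by rw [cm _ _ _ p k1 h1 hu]; group

/-- A generic conjugate satisfies the star condition and no label fixes an interval. -/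
theorem generic_star [Countable G] [Countable A] (M : Mv O lab τ T ρ) (hO : Grpd O) :
    ∃ φ : II ≃o II, φ * T = T * φ ∧ Star O lab (cja φ ρ) T ∧
      ∀ a, a ≠ 1 → NI {s | Rl O lab (cja φ ρ) a s s} := by
  choose K hC hK using hO.sig
  obtain ⟨R, _, _, _, ι, S⟩ := tg_space T
  obtain ⟨D, hDc, hD⟩ := TopologicalSpace.exists_countable_dense II
  have := hDc.to_subtype
  have hN : ∀ᶠ f in residual R, ∀ e l, tL lab e l ≠ 1 →
      NI {s | tW K (cja (ι f) ρ) ∅ e l s s} :=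
    (eventually_countable_forall.2 (tg_N M hO S hC hK)).mono fun f h e l => h _ e l rfl
  have hS : ∀ᶠ f in residual R, ∀ (q : D × D × D × D × A)
      (π : (G × ℕ) × (G × ℕ) × List (G × ℕ × A) × List (G × ℕ × A)),
      (Box T q.1 q.2.2.2.1 ∧ q.1.1 < q.2.1 ∧ q.2.2.1.1 < q.2.2.2.1 ∧ tL lab π.1 π.2.2.1 ≠ 1 ∧
        tL lab π.2.1 π.2.2.2 ≠ 1) → f ∉ {f | ∃ c, c ∈ Icc q.2.1.1 q.2.2.1.1 ∧
          tW K (cja (ι f) ρ) (satB T q.1 q.2.2.2.1) π.1 π.2.2.1 c c ∧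
          cja (ι f) ρ q.2.2.2.2 c ∉ satB T q.1 q.2.2.2.1 ∧
          tW K (cja (ι f) ρ) (satB T q.1 q.2.2.2.1) π.2.1 π.2.2.2 (cja (ι f) ρ q.2.2.2.2 c)
            (cja (ι f) ρ q.2.2.2.2 c)} :=
    eventually_countable_forall.2 fun q => eventually_countable_forall.2 fun π => by
      by_cases h : Box T q.1 q.2.2.2.1 ∧ q.1.1 < q.2.1 ∧ q.2.2.1.1 < q.2.2.2.1 ∧
          tL lab π.1 π.2.2.1 ≠ 1 ∧ tL lab π.2.1 π.2.2.2 ≠ 1
      · exact (tg_st S hC hN h.1 h.2.1 h.2.2.1 _ h.2.2.2.1 h.2.2.2.2).mono fun f h _ => h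
      · exact Eventually.of_forall fun f h' => absurd h' h
  obtain ⟨f, f1, f2⟩ := (dense_of_mem_residual (hN.and hS)).nonempty
  refine ⟨ι f, S.com f, ?_, fun a ha u v huv => ?_⟩
  · intro c i h1 h2 n a n' a' c1 c2
    obtain ⟨e1, l1, -, rfl, w1⟩ := ch_tW hK c1
    obtain ⟨e2, l2, -, rfl, w2⟩ := ch_tW hK c2
    by_contra hc
    obtain ⟨t0, t1, hbox⟩ := small_box T h1
    obtain ⟨α, hα, β, hβ, b1, b2, b3, b4, b5, b6⟩ := gen_box hD t0 t1 (hbox.and
      ((orbit_away T h1 h2).and ((tW_shrink h1 w1).and (tW_shrink h1 w2))))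
    obtain ⟨α', hα', d1⟩ := hD.exists_between b1
    obtain ⟨β', hβ', d2⟩ := hD.exists_between b2
    exact f2 (⟨α, hα⟩, ⟨α', hα'⟩, ⟨β', hβ'⟩, ⟨β, hβ⟩, i) (e1, e2, l1, l2)
      ⟨b3 (b1.trans b2), d1.1, d2.2, fun h => hc (Or.inl h), fun h => hc (Or.inr h)⟩
      ⟨c, ⟨d1.2.le, d2.1.le⟩, b5, b4, b6⟩
  · have gd : ∀ᶠ s in residual II, ∀ e l, tL lab e l = a →
        s ∉ {s | tW K (cja (ι f) ρ) ∅ e l s s} :=
      eventually_countable_forall.2 fun e => eventually_countable_forall.2 fun l => by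
        by_cases h : tL lab e l = a
        · exact (gen_ni_res (tW_closed S hC isOpen_empty e l continuous_const continuous_id
            continuous_id) (f1 e l (h ▸ ha))).mono fun s hs _ => hs
        · exact Eventually.of_forall fun s h' => absurd h' h
    obtain ⟨s, hs, hs'⟩ := (dense_of_mem_residual gd).exists_between huv
    refine ⟨s, ⟨hs'.1.le, hs'.2.le⟩, fun h => ?_⟩
    obtain ⟨n, hn⟩ := (rl_iff hO).1 h
    obtain ⟨e, l, -, h1, h2⟩ := ch_tW hK hn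
    exact hs e l h1 h2

/-- At a point with a nontrivial old loop all loops are old, or old loops times moves at a
fixed point of `T` that is joined to it by an old arrow. -/
theorem old (M : Mv O lab τ T ρ) (S : Cs lab τ) (hO : Grpd O) (hstar : Star O lab ρ T) {s : II}
    {κ : G} (n : κ ≠ 1) (hκ : O κ s s) :
    (∀ a, Rl O lab ρ a s s → O a s s) ∨ ∃ c u, T u = u ∧ O c s u ∧
      ∀ a, Rl O lab ρ a s s → ∃ p x, O x u u ∧ c * a * c⁻¹ = lab p * x :=
  have k : ∀ a, Rl O lab ρ a s s → Gp O lab ρ T [] a s s := fun _ => keep M hO hstar n ⟨0, hκ⟩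
  (base M S hO (s := s)).imp (fun l a m => l a (k a m))
    fun ⟨c, u, a1, a2, l⟩ => ⟨c, u, a1, a2, fun a m => l a (k a m)⟩

/-- Every vertex group is cyclic, or is carried to a group of old loops, or to old loops times
moves at a fixed point of `T`. -/
theorem all (M : Mv O lab τ T ρ) (S : Cs lab τ) (hO : Grpd O) (hstar : Star O lab ρ T) {s : II}
    (hs : s < 1) : (∃ z, Rl O lab ρ z s s ∧ ∀ a, Rl O lab ρ a s s → ∃ i : ℤ, a = z ^ i) ∨
      ∃ c u, Rl O lab ρ c s u ∧ ((∀ a, Rl O lab ρ a s s → O (c * a * c⁻¹) u u) ∨ (T u = u ∧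
        ∀ a, Rl O lab ρ a s s → ∃ p x, O x u u ∧ c * a * c⁻¹ = lab p * x)) := by
  by_cases h : ∃ κ, κ ≠ 1 ∧ Rl O lab ρ κ s s
  swap
  · exact .inl ⟨1, .arr (hO.one s hs), fun a k => ⟨0, by_contra fun n => h ⟨a, by simpa using n, k⟩⟩⟩
  obtain ⟨κ, n, hκ⟩ := h
  obtain ⟨m, hκ⟩ := (rl_iff hO).1 hκ
  obtain ⟨E, hE⟩ := tg_fin T m _ _ _ hκ
  have k : ∀ a, Rl O lab ρ a s s → Gp O lab ρ T E a s s := fun _ => keep M hO hstar n ⟨m, hE⟩
  rcases born M hO hstar E s hs with ⟨z, a1, a2⟩ | ⟨c, u, a1, a2⟩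
  · exact .inl ⟨z, a1, fun a l => a2 a (k a l)⟩
  rcases base M S hO (s := u) with l | ⟨d, v, b1, b2, l⟩
  · exact .inr ⟨c, u, a1, .inl fun a m => l _ (a2 a (k a m))⟩
  · refine .inr ⟨d * c, v, a1.comp (.arr b2), .inr ⟨b1, fun a m => ?_⟩⟩
    rw [show d * c * a * (d * c)⁻¹ = d * (c * a * c⁻¹) * d⁻¹ by group]
    exact l _ (a2 a (k a m))

/-- The refined generic lemma. -/
theorem generic3 [Countable G] [Countable A] (M : Mv O lab τ T ρ) (S : Cs lab τ) (hO : Grpd O) :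
    ∃ φ : II ≃o II, φ * T = T * φ ∧
      (∀ s a b, Rl O lab (cja φ ρ) a s s → Rl O lab (cja φ ρ) b s s →
        Sm (Rl O lab (cja φ ρ)) (Bs O lab T) a b s) ∧
      (∀ a, a ≠ 1 → NI {s | Rl O lab (cja φ ρ) a s s}) ∧
      (∀ s κ, κ ≠ 1 → O κ s s → (∀ a, Rl O lab (cja φ ρ) a s s → O a s s) ∨
        ∃ c u, T u = u ∧ O c s u ∧
          ∀ a, Rl O lab (cja φ ρ) a s s → ∃ p x, O x u u ∧ c * a * c⁻¹ = lab p * x) ∧
      ∀ s, s < 1 → (∃ z, Rl O lab (cja φ ρ) z s s ∧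
          ∀ a, Rl O lab (cja φ ρ) a s s → ∃ i : ℤ, a = z ^ i) ∨
        ∃ c u, Rl O lab (cja φ ρ) c s u ∧
          ((∀ a, Rl O lab (cja φ ρ) a s s → O (c * a * c⁻¹) u u) ∨ (T u = u ∧
            ∀ a, Rl O lab (cja φ ρ) a s s → ∃ p x, O x u u ∧ c * a * c⁻¹ = lab p * x)) := by
  obtain ⟨φ, h1, h2, h3⟩ := generic_star M hO
  exact ⟨φ, h1, fun s a b => tg_star (M.cja h1) S hO h2, h3,
    fun s κ n k => old (M.cja h1) S hO h2 n k, fun s hs => all (M.cja h1) S hO h2 hs⟩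

end Pool.Agent.Work.MP_3d425c_gt.Nz.St
end
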