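import Pool.Agent.Work.MP_3d425c_gt.To.CvA
import Pool.Agent.Work.MP_3d425c_gt.To.AxC
import Pool.Agent.Work.MP_3d425c_gt.To.Wind
import Pool.Agent.Work.MP_3d425c_gt.Nz.Star
import Pool.Agent.Work.MP_3d425c_gt.Cw.AB
import Pool.Agent.Work.MP_3d425c_gt.To.Axis
import Pool.Agent.Work.MP_3d425c_gt.Nz.Surf4

-- merged part: Pool.Agent.Work.MP_3d425c_gt.To.RCls
section
/-! Invariant orders on classes, with paired signs. -/

namespace Pool.Agent.Work.MP_3d425c_gt.To
open Set Filter Topology Pool.Agent.Work.MP_3d425c_gt.Cy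

variable {G X : Type*} [Group G] [MulAction G X]

/-- A character of the group generated by `K` and `F` that kills `K` and respects `S`. -/
def ClsChar (S : G → ℝ) (K : Subgroup G) (F : Finset G) (χ : G → ℝ) : Prop :=
  (∀ a ∈ Subgroup.closure ((K : Set G) ∪ F), ∀ b ∈ Subgroup.closure ((K : Set G) ∪ F),
    χ (a * b) = χ a + χ b) ∧ (∃ a ∈ Subgroup.closure ((K : Set G) ∪ F), χ a ≠ 0) ∧
    (∀ k ∈ K, χ k = 0) ∧ ∀ a ∈ F, ∀ b ∈ F, a * b = b * a → χ a * S b = χ b * S a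

theorem cls_fin (S : G → ℝ) (H K : Subgroup G)
    (h : ∀ F : Finset G, (∀ x ∈ F, x ∈ H) → (∃ x ∈ F, x ∉ K) → ∃ χ, ClsChar S K F χ)
    (n : ℕ) : ∀ F : Finset G, F.card ≤ n → (∀ x ∈ F, x ∈ H ∧ x ∉ K) →
      ∃ σ : G → Prop, (∀ y ∈ Subsemigroup.closure (gbGen K (F : Set G) σ), y ∉ K) ∧
        ∀ a ∈ F, ∀ b ∈ F, 0 < S a → 0 < S b → a * b = b * a → σ a → σ b := by
  classical
  induction n with
  | zero =>
    intro F hF _
    refine ⟨fun _ => True, fun y hy => ?_, fun _ _ _ _ _ _ _ _ => trivial⟩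
    have hF0 : F = ∅ := Finset.card_eq_zero.1 (Nat.le_zero.1 hF)
    subst hF0
    exfalso
    induction hy using Subsemigroup.closure_induction with
    | mem x hx => obtain ⟨k, _, x, hx, _⟩ := hx; simp at hx
    | mul a b _ _ ha _ => exact ha
  | succ n ih =>
    intro F hF hFH
    rcases F.eq_empty_or_nonempty with hF0 | ⟨x1, hx1⟩
    · exact ih F (by simp [hF0]) hFH
    obtain ⟨ψ, hmul, ⟨y0, hy0, hy1⟩, hK0, hp⟩ :=
      h F (fun x hx => (hFH x hx).1) ⟨x1, hx1, (hFH x1 hx1).2⟩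
    set E := Subgroup.closure ((K : Set G) ∪ F) with hE
    have hinv : ∀ a ∈ E, ψ a⁻¹ = - ψ a := by
      intro a ha
      have := hmul a ha _ (E.inv_mem ha)
      rw [mul_inv_cancel, hK0 1 K.one_mem] at this
      linarith
    have hKE : ∀ k ∈ K, k ∈ E := fun k hk => Subgroup.subset_closure (Or.inl hk)
    have hFE : ∀ x ∈ F, x ∈ E := fun x hx => Subgroup.subset_closure (Or.inr hx)
    have hex : ∃ x ∈ F, ψ x ≠ 0 := by
      by_contra hcon
      push Not at hcon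
      apply hy1
      clear hy1
      induction hy0 using Subgroup.closure_induction with
      | mem x hx => exact hx.elim (hK0 x) (hcon x)
      | one => exact hK0 1 K.one_mem
      | mul a b ha hb h1 h2 => rw [hmul a ha b hb, h1, h2, add_zero]
      | inv a ha h1 => rw [hinv a ha, h1, neg_zero]
    obtain ⟨x0, hx0, hx00⟩ := hex
    have hcard : (F.filter fun x => ψ x = 0).card ≤ n := by
      have : (F.filter fun x => ψ x = 0).card < F.card :=
        Finset.card_lt_card (Finset.filter_ssubset.2 ⟨x0, hx0, hx00⟩)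
      omega
    obtain ⟨σ0, hσ0, hσ1⟩ := ih _ hcard (fun x hx => hFH x (Finset.mem_filter.1 hx).1)
    refine ⟨fun x => if ψ x = 0 then σ0 x else 0 < ψ x, fun y hy hyK => ?_,
      fun a ha b hb sa sb hab k => ?_⟩
    · have key : y ∈ E ∧ (0 < ψ y ∨ (ψ y = 0 ∧ y ∈ Subsemigroup.closure
          (gbGen K ((F.filter fun x => ψ x = 0 : Finset G) : Set G) σ0))) := by
        clear hyK
        induction hy using Subsemigroup.closure_induction with
        | mem y hy =>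
          obtain ⟨k, hk, x, hx, k', hk', hy⟩ := hy
          have hxE := hFE x hx
          have e1 : ψ (k * x * k') = ψ x := by
            rw [hmul _ (E.mul_mem (hKE k hk) hxE) _ (hKE k' hk'), hmul _ (hKE k hk) _ hxE,
              hK0 k hk, hK0 k' hk']; ring
          have e2 : ψ (k * x⁻¹ * k') = - ψ x := by
            rw [hmul _ (E.mul_mem (hKE k hk) (E.inv_mem hxE)) _ (hKE k' hk'),
              hmul _ (hKE k hk) _ (E.inv_mem hxE), hK0 k hk, hK0 k' hk', hinv x hxE]; ring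
          by_cases h0 : ψ x = 0
          · have hxf : x ∈ ((F.filter fun x => ψ x = 0 : Finset G) : Set G) :=
              Finset.mem_coe.2 (Finset.mem_filter.2 ⟨hx, h0⟩)
            simp only [if_pos h0] at hy
            rcases hy with ⟨h1, rfl⟩ | ⟨h1, rfl⟩
            · exact ⟨E.mul_mem (E.mul_mem (hKE k hk) hxE) (hKE k' hk'), Or.inr ⟨by rw [e1, h0],
                Subsemigroup.subset_closure ⟨k, hk, x, hxf, k', hk', Or.inl ⟨h1, rfl⟩⟩⟩⟩
            · exact ⟨E.mul_mem (E.mul_mem (hKE k hk) (E.inv_mem hxE)) (hKE k' hk'),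
                Or.inr ⟨by rw [e2, h0, neg_zero],
                Subsemigroup.subset_closure ⟨k, hk, x, hxf, k', hk', Or.inr ⟨h1, rfl⟩⟩⟩⟩
          · simp only [if_neg h0] at hy
            rcases hy with ⟨h1, rfl⟩ | ⟨h1, rfl⟩
            · exact ⟨E.mul_mem (E.mul_mem (hKE k hk) hxE) (hKE k' hk'),
                Or.inl (by rw [e1]; exact h1)⟩
            · exact ⟨E.mul_mem (E.mul_mem (hKE k hk) (E.inv_mem hxE)) (hKE k' hk'),
                Or.inl (by rw [e2]; exact neg_pos.2 (lt_of_le_of_ne (not_lt.1 h1) h0))⟩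
        | mul a b _ _ ha hb =>
          refine ⟨E.mul_mem ha.1 hb.1, ?_⟩
          rw [hmul a ha.1 b hb.1]
          rcases ha.2 with h1 | ⟨h1, h1'⟩ <;> rcases hb.2 with h2 | ⟨h2, h2'⟩
          · left; linarith
          · left; linarith
          · left; linarith
          · right; exact ⟨by linarith, Subsemigroup.mul_mem _ h1' h2'⟩
      rcases key.2 with h1 | ⟨_, h1⟩
      · rw [hK0 y hyK] at h1; exact lt_irrefl _ h1
      · exact hσ0 y h1 hyK
    · have e := hp a ha b hb hab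
      by_cases h0 : ψ a = 0
      · have h1 : ψ b = 0 := by
          rw [h0, zero_mul] at e
          exact (mul_eq_zero.1 e.symm).resolve_right sa.ne'
        simp only [if_pos h0] at k
        simp only [if_pos h1]
        exact hσ1 a (Finset.mem_filter.2 ⟨ha, h0⟩) b (Finset.mem_filter.2 ⟨hb, h1⟩) sa sb hab k
      · simp only [if_neg h0] at k
        have h1 : 0 < ψ b := (mul_pos_iff_of_pos_right sa).1 (e ▸ mul_pos k sb)
        simp only [if_neg h1.ne']
        exact h1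

/-- Relative Burns-Hale with paired signs. -/
theorem cls_bh (S : G → ℝ) (H K : Subgroup G)
    (h : ∀ F : Finset G, (∀ x ∈ F, x ∈ H) → (∃ x ∈ F, x ∉ K) → ∃ χ, ClsChar S K F χ) :
    ∃ P, Cy.Cone H K P ∧ ∀ a ∈ H, ∀ b ∈ H, b ∉ K → 0 < S a → 0 < S b → a * b = b * a →
      a ∈ P → b ∈ P := by
  classical
  have h1 := fun F : Finset G => cls_fin S H K h _ (F.filter fun x => x ∈ H ∧ x ∉ K) le_rfl
    (fun x hx => (Finset.mem_filter.1 hx).2)
  choose τ hτ hτ' using h1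
  let U : Ultrafilter (Finset G) := Ultrafilter.of Filter.atTop
  have hU : ∀ x : G, ∀ᶠ F in (U : Filter (Finset G)), x ∈ F := by
    intro x
    apply Ultrafilter.of_le
    filter_upwards [Filter.eventually_ge_atTop ({x} : Finset G)] with F hF
    exact hF (Finset.mem_singleton_self x)
  let σ : G → Prop := fun x => ∀ᶠ F in (U : Filter (Finset G)), τ F x
  have hn : ∀ a ∈ Subsemigroup.closure (gbGen K {x | x ∈ H ∧ x ∉ K} σ), a ∉ K := by
    intro a ha
    have key : ∀ᶠ F in (U : Filter (Finset G)), a ∈ Subsemigroup.closure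
        (gbGen K ((F.filter fun x => x ∈ H ∧ x ∉ K : Finset G) : Set G) (τ F)) := by
      induction ha using Subsemigroup.closure_induction with
      | mem y hy =>
        obtain ⟨k, hk, x, hx, k', hk', hy⟩ := hy
        rcases hy with ⟨h1, rfl⟩ | ⟨h1, rfl⟩
        · filter_upwards [h1, hU x] with F h2 h3
          exact Subsemigroup.subset_closure ⟨k, hk, x,
            Finset.mem_coe.2 (Finset.mem_filter.2 ⟨h3, hx⟩), k', hk', Or.inl ⟨h2, rfl⟩⟩
        · have h1' : ∀ᶠ F in (U : Filter (Finset G)), ¬ τ F x := Ultrafilter.eventually_not.2 h1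
          filter_upwards [h1', hU x] with F h2 h3
          exact Subsemigroup.subset_closure ⟨k, hk, x,
            Finset.mem_coe.2 (Finset.mem_filter.2 ⟨h3, hx⟩), k', hk', Or.inr ⟨h2, rfl⟩⟩
      | mul a b _ _ ha hb =>
        filter_upwards [ha, hb] with F h2 h3
        exact Subsemigroup.mul_mem _ h2 h3
    obtain ⟨F, hF⟩ := key.exists
    exact hτ F a hF
  have hpos : ∀ x ∈ H, x ∉ K → σ x →
      x ∈ Subsemigroup.closure (gbGen K {x | x ∈ H ∧ x ∉ K} σ) := fun x hx hxK h1 =>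
    Subsemigroup.subset_closure ⟨1, K.one_mem, x, ⟨hx, hxK⟩, 1, K.one_mem, Or.inl ⟨h1, by simp⟩⟩
  have hneg : ∀ x ∈ H, x ∉ K → ¬ σ x →
      x⁻¹ ∈ Subsemigroup.closure (gbGen K {x | x ∈ H ∧ x ∉ K} σ) := fun x hx hxK h1 =>
    Subsemigroup.subset_closure ⟨1, K.one_mem, x, ⟨hx, hxK⟩, 1, K.one_mem, Or.inr ⟨h1, by simp⟩⟩
  refine ⟨(Subsemigroup.closure (gbGen K {x | x ∈ H ∧ x ∉ K} σ) : Set G),
    ⟨hn, ?_, ?_, ?_, ?_⟩, ?_⟩
  · intro a ha b hb
    exact Subsemigroup.mul_mem _ ha hb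
  · intro k hk a ha
    induction ha using Subsemigroup.closure_induction with
    | mem y hy =>
      obtain ⟨k1, hk1, x, hx, k', hk', hy⟩ := hy
      refine Subsemigroup.subset_closure ⟨k * k1, K.mul_mem hk hk1, x, hx, k', hk', ?_⟩
      rcases hy with ⟨h1, rfl⟩ | ⟨h1, rfl⟩
      · exact Or.inl ⟨h1, by simp only [mul_assoc]⟩
      · exact Or.inr ⟨h1, by simp only [mul_assoc]⟩
    | mul a b _ hb ha _ =>
      rw [← mul_assoc]; exact Subsemigroup.mul_mem _ ha hb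
  · intro k hk a ha
    induction ha using Subsemigroup.closure_induction with
    | mem y hy =>
      obtain ⟨k1, hk1, x, hx, k', hk', hy⟩ := hy
      refine Subsemigroup.subset_closure ⟨k1, hk1, x, hx, k' * k, K.mul_mem hk' hk, ?_⟩
      rcases hy with ⟨h1, rfl⟩ | ⟨h1, rfl⟩
      · exact Or.inl ⟨h1, by simp only [mul_assoc]⟩
      · exact Or.inr ⟨h1, by simp only [mul_assoc]⟩
    | mul a b ha _ _ hb =>
      rw [mul_assoc]; exact Subsemigroup.mul_mem _ ha hb
  · intro x hx hxK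
    by_cases h1 : σ x
    · exact Or.inl (hpos x hx hxK h1)
    · exact Or.inr (hneg x hx hxK h1)
  · intro a ha b hb hbK sa sb hab k
    have haK := hn a k
    have h1 : σ a := by
      by_contra h1
      have := hn _ (Subsemigroup.mul_mem _ k (hneg a ha haK h1))
      exact this (by rw [mul_inv_cancel]; exact K.one_mem)
    refine hpos b hb hbK ?_
    filter_upwards [h1, hU a, hU b] with F h2 h3 h4
    exact hτ' F a (Finset.mem_filter.2 ⟨h3, ha, haK⟩) b (Finset.mem_filter.2 ⟨h4, hb, hbK⟩)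
      sa sb hab h2

/-- Subgroups of centralisers are finitely generated. -/
theorem cls_fg (hG : Hy G) {κ : G} (h1 : κ ≠ 1) (K : Subgroup G)
    (hK : K ≤ Subgroup.centralizer ({κ} : Set G)) :
    ∃ T : Finset G, Subgroup.closure (T : Set G) = K := by
  classical
  rcases hG.cent κ h1 with k | ⟨⟨e⟩⟩
  · obtain ⟨z, hz⟩ := (Subgroup.isCyclic_iff_exists_zpowers_eq_top K).1
      (Subgroup.isCyclic_of_le hK)
    exact ⟨{z}, by rw [Finset.coe_singleton, ← Subgroup.zpowers_eq_closure, hz]⟩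
  · let f : ℤ × ℤ → G := fun v => (e.symm (Multiplicative.ofAdd v) : G)
    have f0 : f 0 = 1 := by simp [f]
    have fa : ∀ v w, f (v + w) = f v * f w := fun v w => by simp [f, ofAdd_add]
    have fs : ∀ (n : ℤ) v, f (n • v) = f v ^ n := fun n v => by
      simp only [f, ofAdd_zsmul, map_zpow, SubgroupClass.coe_zpow]
    let N : Submodule ℤ (ℤ × ℤ) :=
      { carrier := {v | f v ∈ K}
        zero_mem' := by
          show f 0 ∈ K
          rw [f0]
          exact K.one_mem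
        add_mem' := fun {v w} hv hw => by
          show f (v + w) ∈ K
          rw [fa]
          exact K.mul_mem hv hw
        smul_mem' := fun n v hv => by
          show f (n • v) ∈ K
          rw [fs]
          exact K.zpow_mem hv n }
    obtain ⟨t, ht⟩ : N.FG := IsNoetherian.noetherian N
    refine ⟨t.image f, le_antisymm ?_ fun k hk => ?_⟩
    · rw [Subgroup.closure_le]
      intro y hy
      obtain ⟨v, hv, rfl⟩ := Finset.mem_image.1 (Finset.mem_coe.1 hy)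
      have : v ∈ N := ht ▸ Submodule.subset_span (Finset.mem_coe.2 hv)
      exact this
    · have e1 : f (Multiplicative.toAdd (e ⟨k, hK hk⟩)) = k := by simp [f]
      have hv : Multiplicative.toAdd (e ⟨k, hK hk⟩) ∈ Submodule.span ℤ (t : Set (ℤ × ℤ)) := by
        rw [ht]
        show f _ ∈ K
        rwa [e1]
      rw [← e1]
      generalize Multiplicative.toAdd (e ⟨k, hK hk⟩) = v at hv
      induction hv using Submodule.span_induction with
      | mem x hx =>
        exact Subgroup.subset_closure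
          (Finset.mem_coe.2 (Finset.mem_image_of_mem f (Finset.mem_coe.1 hx)))
      | zero => rw [f0]; exact Subgroup.one_mem _
      | add x y _ _ hx hy => rw [fa]; exact Subgroup.mul_mem _ hx hy
      | smul n x _ hx => rw [fs]; exact Subgroup.zpow_mem _ hx n

theorem cls_cone (hG : Hy G) (hB : Bg2 G) {S : G → ℝ} (hS : Sj S) (H K : Subgroup G)
    (hKH : K ≤ H) (hab : ∀ a ∈ K, ∀ b ∈ K, a * b = b * a)
    (hinf : ∀ E : Subgroup G, E ≤ H → ¬ E.FiniteIndex)
    (hmax : ∀ κ ∈ K, κ ≠ 1 → ∀ x ∈ H, x * κ = κ * x → x ∈ K) :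
    ∃ P, Cy.Cone H K P ∧ ∀ a ∈ H, ∀ b ∈ H, 0 < S a → 0 < S b → a * b = b * a → a ∈ P → b ∈ P := by
  classical
  obtain ⟨κ, hκ, T, hT, hκ1⟩ : ∃ κ ∈ K, ∃ T : Finset G, Subgroup.closure (T : Set G) = K ∧
      (κ = 1 → ∀ k ∈ K, k = 1) := by
    by_cases hK : ∃ κ ∈ K, κ ≠ 1
    · obtain ⟨κ, hκ, h1⟩ := hK
      obtain ⟨T, hT⟩ := cls_fg hG h1 K fun a ha =>
        Subgroup.mem_centralizer_singleton_iff.2 (hab a ha κ hκ)
      exact ⟨κ, hκ, T, hT, fun e => absurd e h1⟩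
    · push Not at hK
      exact ⟨1, K.one_mem, ∅, by
        rw [Finset.coe_empty, Subgroup.closure_empty]
        exact ((Subgroup.eq_bot_iff_forall K).2 hK).symm, fun _ => hK⟩
  obtain ⟨P, hP, hp⟩ := cls_bh S H K fun F hF ⟨x, hxF, hxK⟩ => by
    have hKE : ∀ k ∈ K, k ∈ Subgroup.closure ((K : Set G) ∪ F) := fun k hk =>
      Subgroup.subset_closure (Or.inl hk)
    have hFE : ∀ x ∈ F, x ∈ Subgroup.closure ((K : Set G) ∪ F) := fun x hx =>
      Subgroup.subset_closure (Or.inr hx)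
    have hEH : Subgroup.closure ((K : Set G) ∪ F) ≤ H := by
      rw [Subgroup.closure_le]
      rintro y (hy | hy)
      · exact hKH hy
      · exact hF y hy
    have hFG : (Subgroup.closure ((K : Set G) ∪ F)).FG := by
      refine ⟨T ∪ F, ?_⟩
      rw [Finset.coe_union, Subgroup.closure_union, hT, Subgroup.closure_union,
        Subgroup.closure_eq]
    rcases hB S hS.cf _ hFG with hc | hfi | hc
    · refine ⟨S, fun a ha b hb => hS.cf.add a b (hc a ha b hb), ⟨x, hFE x hxF, fun e => ?_⟩,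
        fun k hk => ?_, fun a _ b _ _ => mul_comm _ _⟩
      · exact hxK (hS.inj x e ▸ K.one_mem)
      · by_cases h1 : k = 1
        · rw [h1, hS.cf.one]
        · exact absurd (hmax k hk h1 x (hF x hxF) (hc x (hFE x hxF) k (hKE k hk))) hxK
    · exact absurd hfi (hinf _ hEH)
    · obtain ⟨χ, c1, c2, c3, c4⟩ := hc κ (hKE κ hκ)
      refine ⟨χ, c1, c2, fun k hk => ?_, fun a ha b hb => c4 a (hFE a ha) b (hFE b hb)⟩
      by_cases h1 : κ = 1
      · rw [hκ1 h1 k hk, ← h1, c3]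
      · have e := c4 κ (hKE κ hκ) k (hKE k hk) (hab κ hκ k hk)
        rw [c3, zero_mul] at e
        exact (mul_eq_zero.1 e.symm).resolve_right fun e' => h1 (hS.inj κ e')
  refine ⟨P, hP, fun a ha b hb sa sb e k => hp a ha b hb (fun hbK => ?_) sa sb e k⟩
  refine hP.notK a k (hmax b hbK (fun e' => ?_) a ha e)
  rw [e', hS.cf.one] at sb
  exact lt_irrefl _ sb

/-- The elements that move a point inside its class. -/
def clsH {E : X → X → Prop} (hE : Equivalence E)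
    (hsm : ∀ (g : G) x y, E x y → E (g • x) (g • y)) (μ : X) : Subgroup G where
  carrier := {g | E (g • μ) μ}
  one_mem' := by
    show E ((1 : G) • μ) μ
    rw [one_smul]
    exact hE.refl μ
  mul_mem' := fun {a b} ha hb => by
    show E ((a * b) • μ) μ
    rw [mul_smul]
    exact hE.trans (hsm a _ _ hb) ha
  inv_mem' := fun {a} ha => by
    show E (a⁻¹ • μ) μ
    have k := hsm a⁻¹ _ _ ha
    rw [inv_smul_smul] at k
    exact hE.symm k

theorem classOrd2 (hG : Hy G) (hB : Bg2 G) {S : G → ℝ} (hS : Sj S) {E : X → X → Prop}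
    (hE : Equivalence E) (hsm : ∀ (g : G) x y, E x y → E (g • x) (g • y))
    (hab : ∀ (x : X) (a b : G), a • x = x → b • x = x → a * b = b * a) (hM : Mx G E)
    (hF : ¬ Fi G E) : ∃ lo, ClassOrd G E lo ∧ Pr S E lo := by
  classical
  have hc := fun μ : X => cls_cone hG hB hS (clsH hE hsm μ) (MulAction.stabilizer G μ)
    (fun a ha => by
      show E (a • μ) μ
      rw [MulAction.mem_stabilizer_iff.1 ha]
      exact hE.refl μ)
    (fun a ha b hb => hab μ a b ha hb) (fun H hH hf => hF ⟨μ, H, hf, fun g hg => hH hg⟩)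
    fun κ hκ h1 x hx e => hM μ κ x h1 hκ e hx
  choose P hP hQ using hc
  obtain ⟨ρ, h1, h2⟩ : ∃ ρ : X → X, (∀ x, ∃ a : G, a • ρ x = x) ∧
      ∀ (g : G) x, ρ (g • x) = ρ x := by
    refine ⟨fun x => (Quotient.mk (MulAction.orbitRel G X) x).out, fun x => ?_, fun g x => ?_⟩
    · have k : (MulAction.orbitRel G X) x (Quotient.mk (MulAction.orbitRel G X) x).out :=
        (MulAction.orbitRel G X).symm (Quotient.mk_out x)
      exact MulAction.mem_orbit_iff.1 (MulAction.orbitRel_apply.1 k)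
    · have k : Quotient.mk (MulAction.orbitRel G X) (g • x) =
          Quotient.mk (MulAction.orbitRel G X) x :=
        Quotient.sound (MulAction.orbitRel_apply.2 (MulAction.mem_orbit x g))
      simp only [k]
  refine ⟨fun x y => WellOrderingRel (ρ x) (ρ y) ∨ (ρ x = ρ y ∧
    ∃ a b : G, a • ρ x = x ∧ b • ρ x = y ∧ a⁻¹ * b ∈ P (ρ x)), ⟨?_, ?_, ?_, ?_⟩, ?_⟩
  · intro g x y k
    rw [h2, h2]
    refine k.imp_right fun ⟨e, a, b, ha, hb, hp⟩ => ⟨e, g * a, g * b, ?_, ?_, ?_⟩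
    · rw [mul_smul, ha]
    · rw [mul_smul, hb]
    · have : (g * a)⁻¹ * (g * b) = a⁻¹ * b := by group
      rwa [this]
  · intro x y hxy hne
    rcases trichotomous_of WellOrderingRel (ρ x) (ρ y) with k | k | k
    · exact Or.inl (Or.inl k)
    · obtain ⟨a, ha⟩ := h1 x
      obtain ⟨b, hb⟩ := h1 y
      have hb' : b • ρ x = y := by rw [k, hb]
      have hH : a⁻¹ * b ∈ clsH hE hsm (ρ x) := by
        show E ((a⁻¹ * b) • ρ x) (ρ x)
        have k2 := hsm a⁻¹ _ _ (hE.symm hxy)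
        rw [mul_smul, hb']
        rwa [show a⁻¹ • x = ρ x by rw [inv_smul_eq_iff, ha]] at k2
      have hK : a⁻¹ * b ∉ MulAction.stabilizer G (ρ x) := fun k2 => hne (by
        rw [MulAction.mem_stabilizer_iff, mul_smul, inv_smul_eq_iff, ha, hb'] at k2
        exact k2.symm)
      rcases (hP (ρ x)).tot _ hH hK with k2 | k2
      · exact Or.inl (Or.inr ⟨k, a, b, ha, hb', k2⟩)
      · refine Or.inr (Or.inr ⟨k.symm, b, a, hb, by rw [← k, ha], ?_⟩)
        rw [← k]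
        simpa using k2
    · exact Or.inr (Or.inl k)
  · rintro x (k | ⟨-, a, b, ha, hb, hp⟩)
    · exact irrefl_of WellOrderingRel _ k
    · exact (hP (ρ x)).notK _ hp (cat_stab (ha.trans hb.symm))
  · rintro x y z - - (k | ⟨e, a, b, ha, hb, hp⟩) (k' | ⟨e', a', b', ha', hb', hp'⟩)
    · exact Or.inl (trans_of WellOrderingRel k k')
    · exact Or.inl (e' ▸ k)
    · exact Or.inl (e ▸ k')
    · rw [← e] at ha' hb' hp'
      refine Or.inr ⟨e.trans e', a, b', ha, hb', ?_⟩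
      have : a⁻¹ * b' = a⁻¹ * b * (b⁻¹ * a' * (a'⁻¹ * b')) := by group
      rw [this]
      exact (hP (ρ x)).mul _ hp _ ((hP (ρ x)).left _ (cat_stab (hb.trans ha'.symm)) _ hp')
  · rintro ν a b sa sb e ea eb (k | ⟨-, c, d, hc, hd, hp⟩)
    · rw [h2] at k
      exact absurd k (irrefl_of WellOrderingRel _)
    · have hH : ∀ g : G, E (g • ν) ν → c⁻¹ * g * c⁻¹⁻¹ ∈ clsH hE hsm (ρ ν) := fun g hg => by
        show E ((c⁻¹ * g * c⁻¹⁻¹) • ρ ν) (ρ ν)
        have k2 := hsm c⁻¹ _ _ hg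
        rw [inv_inv, mul_smul, mul_smul, hc]
        rwa [show c⁻¹ • ν = ρ ν by rw [inv_smul_eq_iff, hc]] at k2
      have ha : c⁻¹ * a * c⁻¹⁻¹ ∈ P (ρ ν) := by
        have k2 : d⁻¹ * (a * c) ∈ MulAction.stabilizer G (ρ ν) :=
          cat_stab (by rw [hd, mul_smul, hc])
        have : c⁻¹ * a * c⁻¹⁻¹ = c⁻¹ * d * (d⁻¹ * (a * c)) := by group
        rw [this]
        exact (hP (ρ ν)).right _ k2 _ hp
      have hb := hQ (ρ ν) _ (hH a ea) _ (hH b eb) (by rwa [hS.cf.conj]) (by rwa [hS.cf.conj])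
        (cc_conj c⁻¹ e) ha
      refine Or.inr ⟨(h2 b ν).symm, c, b * c, hc, by rw [mul_smul, hc], ?_⟩
      rwa [inv_inv, mul_assoc] at hb

end Pool.Agent.Work.MP_3d425c_gt.To
end

-- merged part: Pool.Agent.Work.MP_3d425c_gt.To.RGerm
section
/-! The case of a class kept by a subgroup of finite index. -/

namespace Pool.Agent.Work.MP_3d425c_gt.To
open Set Filter Topology Pool.Agent.Work.MP_3d425c_gt.Cy

variable {G X : Type*} [Group G] [MulAction G X] {C : Set (ℝ → X)}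
  {up : X → X → Prop} {s S : G → ℝ} {β : G → X}

theorem Hy.nva (hG : Hy G) (hna : ¬ ∀ a b : G, a * b = b * a) (N : Subgroup G)
    (hN : N.FiniteIndex) : ∃ a ∈ N, ∃ b ∈ N, a * b ≠ b * a := by
  push Not at hna
  obtain ⟨x, y, ne⟩ := hna
  obtain ⟨i, i0, -, hi⟩ := N.exists_pow_mem_of_index_ne_zero hN.1 x
  obtain ⟨j, j0, -, hj⟩ := N.exists_pow_mem_of_index_ne_zero hN.1 y
  have k : ∀ (x : G) (i : ℕ), x ≠ 1 → 0 < i → x ^ i ≠ 1 := fun x i a b => by
    simpa using hG.zne a (i := i) (by omega)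
  refine ⟨_, hi, _, hj, fun e => ne (hG.ct (k y j (fun q => ne (by simp [q])) j0)
    (hG.ct (k x i (fun q => ne (by simp [q])) i0) (Commute.self_pow x i).eq e.symm)
    (Commute.self_pow y j).eq)⟩

theorem Ob.germ' (hG : Hy G) (hna : ¬ ∀ a b : G, a * b = b * a) (h : Ob C up s S β)
    (k : Fi G (LG C)) : LO (Pos s S) := by
  obtain ⟨μ, H, hH, k⟩ := k
  obtain ⟨r, r1, r2, r3⟩ := Ax.germ_ord h.om (Ax.fin_index h.om H k h.good.ab (hG.nva hna))
    h.good.nf
  refine ⟨r, r1, r2, fun x a b ha hb hab => r3 x a b (fun y k1 k2 =>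
    (h.ex.sg a b y ha hb hab).1 (.inr (Ax.asc_nest h.om k1)) (Ax.asc_nest h.om k2)) fun e => ?_⟩
  subst e
  have := (h.ex.d 1 1 hb.1 rfl hb.1).1
  rw [one_smul] at this
  exact h.om.irr _ this

end Pool.Agent.Work.MP_3d425c_gt.To
end

-- merged part: Pool.Agent.Work.MP_3d425c_gt.To.RSign
section
/-! The final sign, and the case of a class of finite index. -/

namespace Pool.Agent.Work.MP_3d425c_gt.To
open Set Filter Topology Pool.Agent.Work.MP_3d425c_gt.Cy

variable {G X : Type*} [Group G] [MulAction G X] {C : Set (ℝ → X)}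
  {up : X → X → Prop} {s S : G → ℝ} {β : G → X}

theorem Ob.sign (hG : Hy G) (hs : Cf s) (hS : Sj S) (h : Ob C up s S β) (m1 : Mx G (LG C))
    (m2 : Mx G (LG (dualC C))) {lo hi : X → X → Prop} (hlo : ClassOrd G (LG C) lo)
    (hhi : ClassOrd G (LG (dualC C)) hi) (p1 : Pr S (LG C) lo) (p2 : Pr S (LG (dualC C)) hi) :
    ∃ lt : X → X → Prop, IsStrictTotalOrder X lt ∧
      (∀ (g : G) x y, lt x y → lt (g • x) (g • y)) ∧
      ∀ y a b, Pos s S a → Pos s S b → a * b = b * a →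
        (lt y (a • y) → lt y (b • y)) ∧ (lt (a • y) y → lt (b • y) y) := by
  have o := h.om
  have T := Om.phi_order o hlo hhi
  refine ⟨_, T, fun g x y k => by rwa [Om.phi_smul o hlo hhi], fun y a b ha hb hab => ?_⟩
  have ne1 : ∀ c, Pos s S c → c ≠ 1 := fun c k e => by
    have := k.2
    rw [e, hS.cf.one] at this
    exact lt_irrefl _ this
  obtain ⟨F, hf, hF⟩ := hG.fg (ne1 a ha)
  set P := Subgroup.centralizer ({a} : Set G) with hPdef
  have mem : ∀ {p}, p ∈ P ↔ p * a = a * p := Subgroup.mem_centralizer_singleton_iff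
  have hP : ∀ p ∈ P, ∀ q ∈ P, p * q = q * p := fun p hp q hq =>
    hG.ct (ne1 a ha) (mem.1 hp) (mem.1 hq)
  have aP : a ∈ P := mem.2 rfl
  have bP : b ∈ P := mem.2 hab.symm
  have arch : ∀ c ∈ P, Pos s S c → ∀ p ∈ P, ∃ N : ℕ, Pos s S (c ^ N * p) := by
    intro c hc k p hp
    obtain ⟨N, hN⟩ := exists_nat_gt (max (-s p / s c) (-S p / S c))
    have e := hP _ (P.pow_mem hc N) p hp
    refine ⟨N, ?_, ?_⟩
    · rw [hs.add _ _ e, ← zpow_natCast, hs.zpow]
      have := (div_lt_iff₀ k.1).1 ((le_max_left _ _).trans_lt hN)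
      push_cast
      linarith
    · rw [hS.cf.add _ _ e, ← zpow_natCast, hS.cf.zpow]
      have := (div_lt_iff₀ k.2).1 ((le_max_right _ _).trans_lt hN)
      push_cast
      linarith
  have hax : ∀ z, Axial up P z → (∀ p ∈ P, p • z = z) ∨ (Cof up P a z ∧ Cof up P b z) ∨
      (Cof up P a⁻¹ z ∧ Cof up P b⁻¹ z) := by
    intro z az
    have sg := fun c (hc : c ∈ P) (k : Pos s S c) d (hd : d ∈ P) (l : Pos s S d) =>
      h.ex.sg c d z k l (hP c hc d hd)
    have fix : ∀ c ∈ P, Pos s S c → c • z = z → ∀ p ∈ P, p • z = z := by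
      intro c hc k e p hp
      obtain ⟨N, hN⟩ := arch c hc k p hp
      have m := P.mul_mem (P.pow_mem hc N) hp
      have t := sg c hc k _ m hN
      have e1 : (c ^ N * p) • z = z := by
        rcases az _ m with (l | l) | (l | l)
        · exact l.symm
        · exact absurd l (t.2 (.inl e))
        · exact l
        · exact absurd l (t.1 (.inl e))
      have e2 : c ^ N • z = z :=
        (MulAction.stabilizer G z).pow_mem (MulAction.mem_stabilizer_iff.2 e) N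
      rw [hP _ (P.pow_mem hc N) p hp, mul_smul, e2] at e1
      exact e1
    by_cases f : ∀ p ∈ P, p • z = z
    · exact .inl f
    have tri : ∀ c ∈ P, Pos s S c → Lt up z (c • z) ∨ Lt up (c • z) z := fun c hc k =>
      (az c hc).imp (fun l => l.resolve_left fun e => f (fix c hc k e.symm))
        fun l => l.resolve_left fun e => f (fix c hc k e)
    rcases tri a aP ha with l | l
    · have u : ∀ c ∈ P, Pos s S c → Lt up z (c • z) := fun c hc k =>
        (tri c hc k).resolve_right ((sg a aP ha c hc k).1 (.inr l))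
      have cof : ∀ c ∈ P, Pos s S c → Cof up P c z := fun c hc k => ⟨u c hc k, fun p hp => by
        obtain ⟨N, hN⟩ := arch c hc k _ (P.inv_mem hp)
        have m := P.mul_mem (P.pow_mem hc N) (P.inv_mem hp)
        have t := (o.lt_smul p).2 (u _ m hN)
        rw [← mul_smul, hP p hp _ m, inv_mul_cancel_right] at t
        exact ⟨N, .inr t⟩⟩
      exact .inr (.inl ⟨cof a aP ha, cof b bP hb⟩)
    · have u : ∀ c ∈ P, Pos s S c → Lt up (c • z) z := fun c hc k =>
        (tri c hc k).resolve_left ((sg a aP ha c hc k).2 (.inr l))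
      have cof : ∀ c ∈ P, Pos s S c → Cof up P c⁻¹ z := fun c hc k =>
        ⟨by simpa using (o.lt_smul c⁻¹).2 (u c hc k), fun p hp => by
          obtain ⟨N, hN⟩ := arch c hc k p hp
          have t := (o.lt_smul (c ^ N)⁻¹).2 (u _ (P.mul_mem (P.pow_mem hc N) hp) hN)
          rw [← mul_smul, inv_mul_cancel_left, ← inv_pow] at t
          exact ⟨N, .inr t⟩⟩
      exact .inr (.inr ⟨cof a aP ha, cof b bP hb⟩)
  have cls : ∀ (E l : X → X → Prop), (∀ x y, E x y → E y x) → Mx G E → ClassOrd G E l →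
      Pr S E l → ∀ ν, (∀ p ∈ P, E (p • ν) ν) → (∃ p ∈ P, p • ν ≠ ν) → Sd l a b ν := by
    rintro E l sy m o' pr ν k ⟨p, hp, n⟩
    have mv : ∀ c ∈ P, Pos s S c → ν ≠ c • ν := fun c hc k' e =>
      n (m ν c p (ne1 c k') e.symm (hP p hp c hc) (k p hp))
    rcases o'.tri ν _ (sy _ _ (k a aP)) (mv a aP ha) with u | u
    · exact .inl ⟨u, pr ν a b ha.2 hb.2 hab (k a aP) (k b bP) u⟩
    · refine .inr ⟨u, (o'.tri ν _ (sy _ _ (k b bP)) (mv b bP hb)).resolve_left fun v => ?_⟩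
      exact o'.irr ν (o'.tr ν _ ν (sy _ _ (k a aP)) (k a aP)
        (pr ν b a hb.2 ha.2 hab.symm (k b bP) (k a aP) v) u)
  rcases Om.sign o hlo hhi hP hF hf aP bP hax (cls _ _ (fun _ _ => Om.lg_symm) m1 hlo p1)
    (cls _ _ (fun _ _ => Om.lg_symm) m2 hhi p2) y with f | k | k
  · rw [f a aP, f b bP]
    exact ⟨id, id⟩
  · exact ⟨fun _ => k.2, fun l => absurd (T.trans _ _ _ k.1 l) (T.irrefl _)⟩
  · exact ⟨fun l => absurd (T.trans _ _ _ k.1 l) (T.irrefl _), fun _ => k.2⟩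

theorem Ob.germ [Countable G] (hG : Hy G) (hna : ¬ ∀ a b : G, a * b = b * a) (h : Ob C up s S β)
    (k : Fi G (LG C)) : LO (Pos s S) :=
  h.germ' hG hna k

end Pool.Agent.Work.MP_3d425c_gt.To
end

-- merged part: Pool.Agent.Work.MP_3d425c_gt.To.R
section
/-! The relative theorem. -/

namespace Pool.Agent.Work.MP_3d425c_gt.To
open Set Filter Topology Pool.Agent.Work.MP_3d425c_gt.Cy

variable {G X : Type*} [Group G] [MulAction G X] {C : Set (ℝ → X)}
  {up : X → X → Prop} {s S : G → ℝ} {β : G → X}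

theorem LO.mono {Q Q' : G → Prop} (h : LO Q) (k : ∀ a, Q' a → Q a) : LO Q' :=
  let ⟨r, h1, h2, h3⟩ := h
  ⟨r, h1, h2, fun x a b ha hb => h3 x a b (k a ha) (k b hb)⟩

/-- Inverting the elements of the cone. -/
theorem LO.inv {Q : G → Prop} (h : LO Q) (h0 : ¬ Q 1) : LO fun a => Q a⁻¹ := by
  obtain ⟨r, h1, h2, h3⟩ := h
  refine ⟨r, h1, h2, fun x a b ha hb hab k => ?_⟩
  have hab' : b⁻¹ * a⁻¹ = a⁻¹ * b⁻¹ := by rw [← mul_inv_rev, ← mul_inv_rev, hab]
  by_contra n
  have e : b * x ≠ x := fun e => by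
    have hb1 : b = 1 := by simpa using e
    exact h0 (by simpa [hb1] using hb)
  have n2 : r (b * x) x := by
    by_contra n2
    exact e (h1.trichotomous _ _ n2 n)
  have q := h3 (b * x) b⁻¹ a⁻¹ hb ha hab' (by simpa using n2)
  have q2 : r (a * (b * x)) (b * x) := by simpa using (h2 _ _ a).1 q
  have q3 : r (b * x) (b * (a * x)) := (h2 _ _ b).1 k
  rw [← mul_assoc, ← hab, mul_assoc] at q3
  exact h1.irrefl _ (h1.trans _ _ _ q2 q3)

/-- In an object without proper folds stabilisers are full. -/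
theorem Ob.mx [Countable G] (hG : Hy G) (hs : Sp s) (hS : Sj S) (h : Ob C up s S β)
    (hm : ∀ r U, Good G C r U → Ex s S β r U → ∀ x y, r x y → x = y) : Mx G (LG C) := by
  intro μ κ g h1 hκ hg hL
  by_cases k : ∀ a ∈ MulAction.stabilizer G μ, ∀ b ∈ MulAction.stabilizer G μ, Dep a b
  · obtain ⟨τ, hτ, hst⟩ := hG.cyc _ k
    obtain ⟨n, hn⟩ := hst κ hκ
    have t1 : τ ≠ 1 := fun e => h1 (by rw [hn, e, one_zpow])
    obtain ⟨r, U, a1, a2, a3⟩ := h.fold hG hs hS t1 hτ hst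
    exact hm r U a1 a2 _ _ (a3 g (hG.ct h1 hg (hn ▸ (Commute.self_zpow τ n).eq)) hL)
  · push Not at k
    obtain ⟨a, ha, b, hb, k⟩ := k
    exact h.ex.z μ a b g ha hb k (hG.ct h1 hg (h.good.ab μ a κ ha hκ))

theorem Ob.lo [Countable G] (hG : Hy G) (hB : Bg2 G) (hs : Sp s) (hS : Sj S)
    (h : Ob C up s S β) : LO (Pos s S) := by
  by_cases hna : ∀ a b : G, a * b = b * a
  · exact (lo_abelian hS hna).mono fun a k => k.2
  obtain ⟨Y, _, C', U, β', h', hm⟩ := h.exists_max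
  have m1 : Mx G (LG C') := h'.mx hG hs hS hm
  have m2 : Mx G (LG (dualC C')) := (h'.dual hs.cf hS.cf).mx hG hs.neg hS.neg fun r V a b =>
    hm r _ a.undual (Ex.undual hs.cf hS.cf h'.om a b)
  by_cases f1 : Fi G (LG C')
  · exact h'.germ hG hna f1
  by_cases f2 : Fi G (LG (dualC C'))
  · refine (((h'.dual hs.cf hS.cf).germ hG hna f2).inv fun k => ?_).mono fun a k => ?_
    · have := k.1
      simp [hs.cf.one] at this
    · exact ⟨by simpa [hs.cf.inv] using k.1, by simpa [hS.cf.inv] using k.2⟩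
  obtain ⟨lo, l1, l2⟩ := classOrd2 hG hB hS
    ⟨h'.om.lg_refl, Om.lg_symm, h'.om.lg_trans⟩ (fun g _ _ => h'.om.lg_smul g) h'.good.ab m1 f1
  obtain ⟨hi, k1, k2⟩ := classOrd2 hG hB hS
    ⟨h'.om.dual.lg_refl, Om.lg_symm, h'.om.dual.lg_trans⟩ (fun g _ _ => h'.om.dual.lg_smul g)
    h'.good.ab m2 f2
  obtain ⟨lt, t1, t2, t3⟩ := h'.sign hG hs.cf hS m1 m2 l1 k1 l2 k2
  exact lo_of_action2 hS (fun a k => k.2) lt t1 t2 (β' 1) (h'.good.ab _) t3

/-- The relative theorem. -/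
theorem thmR [Countable G] (hG : Hy G) (hB : Bg2 G) (hs : Sp s) (h : Om G C up) (x₀ : X)
    (nf : ∀ g : G, g ≠ 1 → ∀ c ∈ C, ∀ u v : ℝ, u < v → ∃ t ∈ Icc u v, ¬ g • c t = c t)
    (dep : ∀ (x : X) (a b : G), a • x = x → b • x = x → Dep a b)
    (ax : ∀ a, 0 < s a → ∃ y : X, ∀ p, p * a = a * p → 0 < s p → Lt up y (p • y)) :
    LO fun a => 0 < s a := by
  classical
  obtain ⟨β, hβ⟩ : ∃ β : G → X, ∀ a p : G, 0 < s a → p * a = a * p → 0 < s p →
      Lt up (β a) (p • β a) := by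
    refine ⟨fun a => if k : 0 < s a then (ax a k).choose else x₀, fun a p k => ?_⟩
    simp only [dif_pos k]
    exact (ax a k).choose_spec p
  have z : ∀ (x : X) (a b p : G), a • x = x → b • x = x → ¬ Dep a b → p * a = a * p →
      p • x = x := fun x a b p ha hb k => absurd (dep x a b ha hb) k
  have nb : ∀ (a b : G) x, 0 < s a → 0 < s b → a * b = b * a → ¬ Bad up a b x :=
    fun a b x ha hb hab k => by
      obtain ⟨n, c, -, f, -⟩ := bad_germ hG h z hs.cf ha hb hab (fun p => hβ a p ha) k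
      exact n (dep _ a b (f a rfl) (f b hab.symm))
  refine lo_compact hG hs.cf fun S hS => Ob.lo (C := C) (up := up) (β := β) hG hB hs hS
    ⟨h, ⟨eq_equivalence, fun g x y e => by rw [e], h.opn', fun x x' y e a => e ▸ a,
      fun x y y' e a => e ▸ a, h.upc', h.upk', h.ups,
      fun x a b ha hb => hG.dep_comm (dep x a b ha hb), nf⟩, z, hβ, fun a b x ha hb hab => ?_⟩
  exact ⟨fun k l => nb a b x ha.1 hb.1 hab (Or.inl ⟨k.imp_left Eq.symm, l⟩),
    fun k l => nb a b x ha.1 hb.1 hab (Or.inr ⟨k, l⟩)⟩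

end Pool.Agent.Work.MP_3d425c_gt.To
end

-- merged part: Pool.Agent.Work.MP_3d425c_gt.To.RBig
section
/-! Characters from surjections onto lattices, and the assembly along the tree. -/

namespace Pool.Agent.Work.MP_3d425c_gt.To
open Set MulAction

variable {G : Type*} [Group G]

theorem Hy.csa (h : Hy G) : Gr.Csa G := Gr.csa_of h.tf h.cent fun g a => h.mn a g

theorem dep_iff {a b : G} : Dep a b ↔ Gr.Dep a b :=
  exists₂_congr fun _ _ => and_congr_left' not_and_or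

theorem Cf.cf {s : G → ℝ} (h : Cf s) : Gr.CF s := ⟨h.conj, h.add⟩

theorem lo_iff {Q : G → Prop} : LO Q ↔ ∃ r, Gr.LOrd r ∧ Gr.Same Q r :=
  exists_congr fun _ => ⟨fun k => ⟨⟨k.1, k.2.1⟩, fun x p q c hp hq => k.2.2 x p q hp hq c⟩,
    fun k => ⟨k.1.1, k.1.2, fun x p q hp hq c => k.2 x p q c hp hq⟩⟩

/-- Finitely generated subgroups are abelian, of finite index, or map onto a lattice whose rank
exceeds by two the number of classes of subgroups of rank two. -/
def BigQ (G : Type*) [Group G] : Prop :=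
  ∀ E : Subgroup G, E.FG → (∀ a ∈ E, ∀ b ∈ E, a * b = b * a) ∨ E.FiniteIndex ∨
    ∃ (r : ℕ) (Q : Fin r → Subgroup G), (∀ i, Q i ≤ E ∧ ∀ a ∈ Q i, ∀ b ∈ Q i, a * b = b * a) ∧
      (∀ a ∈ E, ∀ b ∈ E, a * b = b * a → (∀ m n : ℤ, a ^ m = b ^ n → m = 0 ∧ n = 0) →
        ∃ i, ∃ g ∈ E, g * a * g⁻¹ ∈ Q i ∧ g * b * g⁻¹ ∈ Q i) ∧
      ∃ f : E →* Multiplicative (Fin (r + 2) → ℤ), Function.Surjective f

theorem bg2_of_room (h : Hy G) (k : ∀ S : G → ℝ, Cf S → Gr.Room S) : Bg2 G := by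
  intro S hS E hE
  refine (k S hS E hE).imp_right (Or.imp_right fun k κ hκ => (k κ hκ).imp fun χ m =>
    ⟨m.1, m.2.1, m.2.2.1, fun a ha b hb e => ?_⟩)
  by_cases d : Gr.Dep a b
  swap
  · exact m.2.2.2 a ha b hb e d
  by_cases na : a = 1
  · simp [na, m.1.one, hS.one]
  by_cases nb : b = 1
  · simp [nb, m.1.one, hS.one]
  obtain ⟨i, j, hi, -, e⟩ := d.ne h.csa na nb
  have e1 := congrArg χ e
  have e2 := congrArg S e
  rw [m.1.zpow ha, m.1.zpow hb, zsmul_eq_mul, zsmul_eq_mul] at e1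
  rw [hS.zpow, hS.zpow] at e2
  refine mul_left_cancel₀ (Int.cast_ne_zero.2 hi : (i : ℝ) ≠ 0) ?_
  linear_combination S b * e1 - χ b * e2

theorem BigQ.bg2 (hB : BigQ G) (h : Hy G) : Bg2 G :=
  bg2_of_room h fun _ hS => Gr.BigS.room h.csa (fun E hE => (hB E hE).imp_right
    (Or.imp_right fun ⟨r, Q, a, b, c⟩ => ⟨r, Q, a, fun x hx y hy e n => b x hx y hy e
      fun i j k => by_contra fun m => n (dep_iff.1 ⟨i, j, m, k⟩), c⟩)) hS.cf

/-- Characters chosen on representatives of the classes of centralisers. -/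
theorem Hy.exists_cf (h : Hy G) (Φ : G → (G → ℝ) → Prop)
    (ex : ∀ a, a ≠ 1 → ∃ σ : G → ℝ,
      (∀ x y, x * a = a * x → y * a = a * y → σ (x * y) = σ x + σ y) ∧ Φ a σ)
    (tr : ∀ a g b σ τ, a ≠ 1 → b ≠ 1 → g * b * g⁻¹ * a = a * (g * b * g⁻¹) →
      (∀ x, x * b = b * x → τ x = σ (g * x * g⁻¹)) → Φ a σ → Φ b τ) :
    ∃ s, Cf s ∧ ∀ a, a ≠ 1 → Φ a s := by
  obtain ⟨s, a, b⟩ := Gr.exists_cf h.csa Φ (fun a ha => (ex a ha).imp fun _ k =>
    ⟨fun x hx y hy => k.1 x y (Gr.mem_Zc.1 hx) (Gr.mem_Zc.1 hy), k.2⟩)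
    fun a g b σ τ ha hb m e => tr a g b σ τ ha hb (Gr.mem_Zc.1 m) fun x hx => e x (Gr.mem_Zc.2 hx)
  exact ⟨s, ⟨a.conj, a.add⟩, b⟩

/-- An order on a subgroup as a type gives a detecting order on the subgroup as a set. -/
theorem LO.ord {A : Subgroup G} {σ : A → ℝ} (h : LO fun a => 0 < σ a)
    {F : Set (Subgroup G × (G → ℝ))}
    (hF : ∀ f ∈ F, f.1 ≤ A ∧ (∀ p ∈ f.1, ∀ q ∈ f.1, p * q = q * p) ∧
      ∀ p : A, p.1 ∈ f.1 → 0 < f.2 p → 0 < σ p) : ∃ r, Gl.Ord A F r := by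
  obtain ⟨r, l, i, d⟩ := h
  refine ⟨fun x y => ∃ hx hy, r ⟨x, hx⟩ ⟨y, hy⟩, ⟨fun _ _ ⟨_, _, k⟩ => l.irrefl _ k,
    fun _ _ _ _ _ _ ⟨a, _, k⟩ ⟨_, b, k'⟩ => ⟨a, b, l.trans _ _ _ k k'⟩, fun x hx y hy n =>
    ((Gl.lin_of_lo l univ).tot ⟨x, hx⟩ trivial ⟨y, hy⟩ trivial fun e =>
      n (congrArg Subtype.val e)).imp (fun k => ⟨hx, hy, k⟩) fun k => ⟨hy, hx, k⟩⟩,
    fun g hg _ _ _ _ ⟨a, b, k⟩ => ⟨mul_mem hg a, mul_mem hg b, (i _ _ ⟨g, hg⟩).1 k⟩, ?_⟩
  rintro f hf x hx p hp q hq sp sq ⟨_, _, k⟩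
  obtain ⟨le, c, m⟩ := hF f hf
  exact ⟨hx, mul_mem (le hq) hx, d ⟨x, hx⟩ ⟨p, le hp⟩ ⟨q, le hq⟩ (m ⟨p, le hp⟩ hp sp)
    (m ⟨q, le hq⟩ hq sq) (Subtype.ext (c p hp q hq)) k⟩

/-- Assembly along the tree when the whole group has malnormal centralisers. -/
theorem lo_of_pieces (h : Hy G) {s : G → ℝ} (hs : Cf s)
    (s0 : ∀ a b, a * b = b * a → ¬ Dep a b → s a ≠ 0 ∨ s b ≠ 0) {V : Type*} [MulAction G V]
    {T : SimpleGraph V} (hT : T.IsTree) (act : ∀ (g : G) p q, T.Adj p q → T.Adj (g • p) (g • q))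
    (ninv : ∀ (g : G) p q, T.Adj p q → g • p = q → g • q ≠ p)
    (ab : ∀ v w, T.Adj v w → ∀ a b : G, a • v = v → a • w = w → b • v = v → b • w = w →
      a * b = b * a)
    (ord : ∀ v : V, LO fun a : stabilizer G v => 0 < s a) :
    ∃ r : G → G → Prop, IsStrictTotalOrder G r ∧ ∀ a b c, r a b ↔ r (c * a) (c * b) :=
  Gr.lo_of_pieces h.csa hs.cf (fun a b e n => s0 a b e fun d => n (dep_iff.1 d)) hT act ninv ab
    fun v => lo_iff.1 (ord v)

end Pool.Agent.Work.MP_3d425c_gt.To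
end

-- merged part: Pool.Agent.Work.MP_3d425c_gt.To.RTop
section
/-! The relative theorem for a subgroup, and groups all of whose pieces are hyperbolic. -/

namespace Pool.Agent.Work.MP_3d425c_gt.To
open Set Filter Topology Pool.Agent.Work.MP_3d425c_gt.Cy MulAction

universe u
variable {G : Type*} {X : Type u} [Group G] [MulAction G X] {C : Set (ℝ → X)} {up : X → X → Prop}

theorem dep_of_cyc (cy : Cv.Cyc G X) (x : X) (a b : G) (ha : a • x = x) (hb : b • x = x) :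
    Dep a b := by
  obtain ⟨k, hk⟩ := cy x
  obtain ⟨i, rfl⟩ := hk a ha
  obtain ⟨j, rfl⟩ := hk b hb
  by_cases e : i = 0
  · subst e
    simpa using (dep_one (k ^ j)).symm
  · exact ⟨j, i, fun q => e q.2, by simp only [← zpow_mul, mul_comm]⟩

/-- A blow-up in which no element fixes a segment. -/
theorem exists_nf [Countable G] (tf : ∀ a : G, a ≠ 1 → ¬ IsOfFinOrder a) (O : Cv.Ob G C up) :
    ∃ (Y : Type u) (_ : MulAction G Y) (C' : Set (ℝ → Y)) (up' : Y → Y → Prop) (j : X → Y),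
      Om G C' up' ∧ Nf G C' Eq ∧ Cv.Cyc G Y ∧ (∀ (g : G) x, j (g • x) = g • j x) ∧
        ∀ x y, Lt up x y → Lt up' (j x) (j y) := by
  obtain ⟨D₀, d1, d2⟩ := O.sp
  obtain ⟨D, hD, hinv, hden⟩ : ∃ D : Set X, D.Countable ∧ (∀ (g : G) x, x ∈ D → g • x ∈ D) ∧
      ∀ c ∈ C, ∀ u v : ℝ, u < v → ∃ t ∈ Ioo u v, c t ∈ D := by
    refine ⟨⋃ g : G, (g • ·) '' D₀, countable_iUnion fun g => d1.image _, fun g x hx => ?_,
      fun c hc u v e => (d2 c hc u v e).imp fun t k =>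
        ⟨k.1, mem_iUnion.2 ⟨1, _, k.2, one_smul G _⟩⟩⟩
    obtain ⟨δ, q, hq, rfl⟩ := mem_iUnion.1 hx
    exact mem_iUnion.2 ⟨g * δ, q, hq, mul_smul g δ q⟩
  obtain ⟨N, hN, hN'⟩ := mo_cocycle tf O.cy
  obtain ⟨f, hf⟩ := exists_free_iso
  have hκ : ∀ g h x, f ^ N (g * h) x = f ^ N g (h • x) * f ^ N h x := fun g h x => by
    rw [hN, zpow_add]
  let _ := blAct2 D hinv (fun g x => f ^ N g x) hκ
  have A : BlA D fun g x => f ^ N g x := blA_act D hinv _ hκ
  have cy : Cv.Cyc G (Bl D) := fun p =>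
    (O.cy p.1.1).imp fun k hk a ha => hk a (by rw [← A.sm1, ha])
  have B := O.om.blow0 hD A
  have nf : Nf G (blC0 C D) Eq := by
    rintro γ hγ a ⟨c, hc, τ, h⟩ u v huv
    have key : ∀ w, 0 < (a w).1.2 → (a w).1.2 < 1 → ¬ γ • a w = a w := fun w h0 h1 e => by
      have e1 : γ • (a w).1.1 = (a w).1.1 := by rw [← A.sm1, e]
      have e2 : (f ^ N γ (a w).1.1) (a w).1.2 = (a w).1.2 := by rw [← A.sm2, e]
      exact hf _ h0 h1 (zpow_fix (fun k => hγ (hN' γ _ e1 k)) e2)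
    rcases h.lex u v huv with k | k
    · obtain ⟨t, ht, htD⟩ := hden c hc _ _ k
      obtain ⟨s, hs0, hs1⟩ := exists_between (zero_lt_one' II)
      obtain ⟨w, e1, e2⟩ := h.onto t s fun k' => absurd htD k'
      exact ⟨w, ⟨((h.lex_iff u w).1 (Or.inl (e1 ▸ ht.1))).le,
        ((h.lex_iff w v).1 (Or.inl (e1 ▸ ht.2))).le⟩, key w (e2 ▸ hs0) (e2 ▸ hs1)⟩
    · obtain ⟨s, hs0, hs1⟩ := exists_between k.2
      have hD' : c (τ v) ∈ D := by
        by_contra k'
        have := (a v).2 (by rwa [h.base])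
        rw [this] at hs1
        exact not_lt_bot hs1
      obtain ⟨w, e1, e2⟩ := h.onto (τ v) s fun k' => absurd hD' k'
      exact ⟨w, ⟨((h.lex_iff u w).1 (Or.inr ⟨k.1.trans e1.symm, e2 ▸ hs0⟩)).le,
        ((h.lex_iff w v).1 (Or.inr ⟨e1, e2 ▸ hs1⟩)).le⟩,
        key w (e2 ▸ bot_le.trans_lt hs0) (e2 ▸ hs1.trans_le le_top)⟩
  have hG : Good G (blC0 C D) Eq (blU up D) :=
    ⟨eq_equivalence, fun g x y e => by rw [e], B.opn, fun x x' y e a => e ▸ a,
      fun x y y' e a => e ▸ a, B.upc, B.upk, B.ups, fun x a b ha hb => by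
        obtain ⟨k, hk⟩ := cy x
        obtain ⟨i, rfl⟩ := hk a ha
        obtain ⟨j, rfl⟩ := hk b hb
        exact zpow_mul_comm k i j, nf⟩
  refine ⟨Bl D, inferInstance, blC C D, blU up D, blB D, B.sat,
    fun g hg a ha => za_nf hG g hg ha, cy, fun g x => (A.bot g x).symm, fun x y k =>
      ⟨Or.inl k.1, fun q => q.elim k.2 fun q => lt_irrefl _ q.2⟩⟩

theorem Om.res (h : Om G C up) (A : Subgroup G) : Om A C up :=
  ⟨h.cover, fun g => h.smul g.1, h.conn, h.opn', h.upc', h.upk', fun g => h.ups g.1, h.sat⟩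

theorem dep_coe {A : Subgroup G} {a b : A} : Dep a b ↔ Dep a.1 b.1 :=
  exists₂_congr fun _ _ => and_congr_right' (by
    rw [← Subgroup.coe_zpow, ← Subgroup.coe_zpow, Subtype.ext_iff])

/-- the centraliser has rank two -/
def Two (a : G) : Prop := ∃ b, b * a = a * b ∧ ¬ Dep a b

theorem Two.of (hG : Hy G) {a c : G} (h : Two a) (hc : c ≠ 1) (e : a * c = c * a) : Two c := by
  obtain ⟨b, h1, h2⟩ := h
  by_cases k : Dep c a
  · exact ⟨b, hG.ct (ne_one_of_not_dep h2).1 h1 e.symm, fun l => h2 (hG.dep_trans hc k.symm l)⟩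
  · exact ⟨a, e, k⟩

theorem not_two_one : ¬ Two (1 : G) := fun ⟨b, _, k⟩ => k (dep_one b).symm

open Classical in
/-- A class function cut down to the centralisers of rank two. -/
theorem Cf.cut (hG : Hy G) {s : G → ℝ} (hs : Cf s) : Sp fun a => if Two a then s a else 0 := by
  have c : ∀ g a : G, Two a → Two (g * a * g⁻¹) := fun g a ⟨b, h1, h2⟩ =>
    ⟨g * b * g⁻¹, by simpa [mul_assoc] using congrArg (· * g⁻¹) h1 |>.trans (mul_assoc _ _ _),
      fun k => h2 ((dep_conj g).1 k)⟩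
  refine ⟨⟨fun g a => ?_, fun a b e => ?_⟩, fun a k => by_contra fun n => k (if_neg n)⟩
  · by_cases k : Two a
    · rw [if_pos k, if_pos (c g a k), hs.conj]
    · rw [if_neg k, if_neg fun l => k (by simpa [mul_assoc] using c g⁻¹ _ l)]
  by_cases a1 : a = 1
  · rw [a1, one_mul, if_neg not_two_one, zero_add]
  by_cases b1 : b = 1
  · rw [b1, mul_one, if_neg not_two_one, add_zero]
  have q : a * (a * b) = a * b * a := by rw [mul_assoc, ← e]
  by_cases k : Two a
  · rw [if_pos k, if_pos (k.of hG b1 e), ← hs.add a b e]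
    by_cases ab : a * b = 1
    · rw [ab, hs.one, ite_self]
    · exact if_pos (k.of hG ab q)
  · rw [if_neg k, if_neg fun l => k (Two.of hG l a1 e.symm),
      if_neg fun l => k (Two.of hG l a1 q.symm), add_zero]

theorem lo_pow {r : G → G → Prop} (h1 : IsStrictTotalOrder G r)
    (h2 : ∀ a b c, r a b ↔ r (c * a) (c * b)) {x a : G} (k : r x (a * x)) (n : ℕ) :
    r x (a ^ (n + 1) * x) := by
  induction n with
  | zero => simpa using k
  | succ n ih => exact h1.trans _ _ _ k (by rw [pow_succ', mul_assoc]; exact (h2 _ _ a).1 ih)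

/-- Dependent elements of the same sign are never separated. -/
theorem LO.of_two {s : G → ℝ} (hs : Cf s) (h : LO fun a => Two a ∧ 0 < s a) :
    LO fun a => 0 < s a := by
  obtain ⟨r, h1, h2, h3⟩ := h
  refine ⟨r, h1, h2, fun x a b ha hb e k => ?_⟩
  by_cases d : Dep a b
  swap
  · exact h3 x a b ⟨⟨b, e.symm, d⟩, ha⟩ ⟨⟨a, e, fun l => d l.symm⟩, hb⟩ e k
  obtain ⟨m, n, q⟩ : ∃ m n : ℕ, a ^ (m + 1) = b ^ (n + 1) := by
    obtain ⟨m, n, d1, d2⟩ := d
    have w : (m : ℝ) * s a = n * s b := by rw [← hs.zpow, ← hs.zpow, d2]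
    have z : ∀ m n : ℤ, a ^ m = b ^ n → (m : ℝ) * s a = n * s b → 0 < m →
        ∃ m n : ℕ, a ^ (m + 1) = b ^ (n + 1) := fun m n d2 w p => by
      have : (0 : ℝ) < n := (mul_pos_iff_of_pos_right hb).1 (w ▸ mul_pos (by exact_mod_cast p) ha)
      have p' : 0 < n := by exact_mod_cast this
      refine ⟨(m - 1).toNat, (n - 1).toNat, ?_⟩
      rw [← zpow_natCast, ← zpow_natCast]
      convert d2 using 2 <;> omega
    rcases lt_trichotomy m 0 with p | p | p
    · exact z (-m) (-n) (by rw [zpow_neg, zpow_neg, d2]) (by push_cast; linarith) (by omega)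
    · subst p
      have : (n : ℝ) = 0 := by simpa [hb.ne'] using w.symm
      exact absurd ⟨rfl, by exact_mod_cast this⟩ d1
    · exact z m n d2 w p
  by_contra n1
  have l := lo_pow h1 h2 k m
  rw [q] at l
  by_cases e1 : b * x = x
  · have : b = 1 := by simpa using e1
    rw [this, hs.one] at hb
    exact lt_irrefl _ hb
  have n2 : r (b * x) x := by
    by_contra n2
    exact e1 (h1.trichotomous _ _ n2 n1)
  have n3 : r x (b⁻¹ * x) := by simpa using (h2 _ _ b⁻¹).1 n2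
  have n4 := (h2 _ _ (b ^ (n + 1))).1 (lo_pow h1 h2 n3 n)
  rw [inv_pow, mul_inv_cancel_left] at n4
  exact h1.irrefl _ (h1.trans _ _ _ l n4)

/-- The relative theorem for a subgroup. -/
theorem piece [Countable G] (tf : ∀ a : G, a ≠ 1 → ¬ IsOfFinOrder a) (O : Cv.Ob G C up) (x₀ : X)
    {A : Subgroup G} (hA : Hy A) (hB : Bg2 A) {s : A → ℝ} (hs : Cf s)
    (ax : ∀ a : A, Two a → 0 < s a →
      ∃ y : X, ∀ p : A, p * a = a * p → 0 < s p → Lt up y (p.1 • y)) :
    LO fun a => 0 < s a := by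
  classical
  obtain ⟨Y, _, C', up', j, h1, h2, h3, h4, h5⟩ := exists_nf tf O
  have w : ∀ a : A, 0 < (if Two a then s a else 0) ↔ Two a ∧ 0 < s a := fun a => by
    by_cases k : Two a <;> simp [k]
  refine LO.of_two hs ((thmR hA hB (hs.cut hA) (h1.res A) (j x₀)
    (fun g hg => h2 g.1 fun e => hg (Subtype.ext e))
    (fun x a b ha hb => dep_coe.2 (dep_of_cyc h3 x a.1 b.1 ha hb)) fun a ha => ?_).mono
      fun a => (w a).2)
  obtain ⟨y, hy⟩ := ax a ((w a).1 ha).1 ((w a).1 ha).2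
  exact ⟨j y, fun p hp k => (h4 p.1 y) ▸ h5 _ _ (hy p hp ((w p).1 k).2)⟩

theorem hy_of_csa (h : Gr.Csa G) : Hy G := by
  refine ⟨h.tf, fun a ha => ?_, fun a g => h.mn g a⟩
  have c : ∀ x ∈ Subgroup.centralizer ({a} : Set G), ∀ y ∈ Subgroup.centralizer ({a} : Set G),
      x * y = y * x := fun x hx y hy => h.ct ha (Gr.mem_Zc.1 hx) (Gr.mem_Zc.1 hy)
  have cy : ∀ α ∈ Subgroup.centralizer ({a} : Set G),
      (∀ x ∈ Subgroup.centralizer ({a} : Set G), ∃ n : ℤ, x = α ^ n) →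
        IsCyclic (Subgroup.centralizer ({a} : Set G)) := fun α hα k =>
    ⟨⟨⟨α, hα⟩, fun x => (k x.1 x.2).imp fun n e => Subtype.ext e.symm⟩⟩
  obtain ⟨α, hα, β, hβ, k⟩ := h.two_gen c
  by_cases d : ∀ m n : ℤ, α ^ m * β ^ n = 1 → m = 0 ∧ n = 0
  · let f : Multiplicative (ℤ × ℤ) →* Subgroup.centralizer ({a} : Set G) :=
      MonoidHom.mk' (fun v => ⟨α ^ v.toAdd.1 * β ^ v.toAdd.2,
        mul_mem (zpow_mem hα _) (zpow_mem hβ _)⟩) fun v w =>
          Subtype.ext (Ax.pair_mul (c α hα β hβ) _ _ _ _)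
    refine Or.inr ⟨(MulEquiv.ofBijective f ⟨(injective_iff_map_eq_one f).2 fun v e => ?_,
      fun x => ?_⟩).symm⟩
    · have := d _ _ (congrArg Subtype.val e)
      exact Multiplicative.toAdd.injective (Prod.ext this.1 this.2)
    · obtain ⟨m, n, e⟩ := k x.1 x.2
      exact ⟨Multiplicative.ofAdd (m, n), Subtype.ext e.symm⟩
  · push Not at d
    obtain ⟨m, n, e, d⟩ := d
    have w : ∀ {α β : G} {m n : ℤ}, α * β = β * α → α ^ m * β ^ n = 1 → n ≠ 0 →
        ∀ i j i' j' : ℤ, Gr.Dep (α ^ i * β ^ j) (α ^ i' * β ^ j') := fun {α β m n} c e hn => by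
      have e' : β ^ n = α ^ (-m) := by rw [zpow_neg]; exact (inv_eq_of_mul_eq_one_right e).symm
      have p : ∀ i j : ℤ, (α ^ i * β ^ j) ^ n = α ^ (i * n - m * j) := fun i j => by
        rw [(Commute.zpow_zpow c i j).mul_zpow, ← zpow_mul, ← zpow_mul, mul_comm j, zpow_mul β, e',
          ← zpow_mul, ← zpow_add]
        congr 1
        ring
      intro i j i' j'
      by_cases z : i * n - m * j = 0
      · exact ⟨n, 0, .inl hn, by rw [p, z, zpow_zero, zpow_zero]⟩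
      · exact ⟨n * (i' * n - m * j'), n * (i * n - m * j), .inr (mul_ne_zero hn z), by
          rw [zpow_mul, zpow_mul, p, p, ← zpow_mul, ← zpow_mul, mul_comm]⟩
    obtain ⟨τ, h1, h2⟩ := h.cyc (K := Subgroup.centralizer ({a} : Set G)) fun x hx y hy => by
      obtain ⟨i, j, rfl⟩ := k x hx
      obtain ⟨i', j', rfl⟩ := k y hy
      have cm : Commute α β := c α hα β hβ
      by_cases hn : n = 0
      · rw [(cm.zpow_zpow i j).eq, (cm.zpow_zpow i' j').eq]
        exact w cm.symm.eq ((cm.zpow_zpow m n).eq.symm.trans e) (fun q => d q hn) _ _ _ _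
      · exact w cm.eq e hn _ _ _ _
    exact Or.inl (cy τ h1 h2)

theorem Hy.sub (h : Hy G) (A : Subgroup G) : Hy A := hy_of_csa (h.csa.sub A)

/-- The natural slopes of an object. -/
theorem slopes (hG : Hy G) (h : Om G C up) (x₀ : X)
    (dep : ∀ (x : X) (a b : G), a • x = x → b • x = x → Dep a b) :
    ∃ s : G → ℝ, Cf s ∧ (∀ a b, a * b = b * a → ¬ Dep a b → s a ≠ 0 ∨ s b ≠ 0) ∧
      ∀ a : G, a ≠ 1 → ∃ y : X, ∀ p, p * a = a * p → 0 < s p → Lt up y (p • y) := by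
  refine (hG.exists_cf (fun a σ =>
    (∀ u v, u * a = a * u → v * a = a * v → ¬ Dep u v → σ u ≠ 0 ∨ σ v ≠ 0) ∧
      ∃ y : X, ∀ p, p * a = a * p → 0 < σ p → Lt up y (p • y)) (fun a ha => ?_) ?_).imp
    fun s k => ⟨k.1, fun a b e n => (k.2 a (ne_one_of_not_dep n).1).1 a b rfl e.symm n,
      fun a ha => (k.2 a ha).2⟩
  · by_cases k : ∀ u v, u * a = a * u → v * a = a * v → Dep u v
    · exact ⟨0, fun _ _ _ _ => by simp, fun u v hu hv n => absurd (k u v hu hv) n, x₀,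
        fun p _ q => absurd q (lt_irrefl _)⟩
    push Not at k
    obtain ⟨u, v, hu, hv, n⟩ := k
    have c : ∀ x ∈ Gr.Zc a, ∀ y ∈ Gr.Zc a, x * y = y * x := fun x hx y hy =>
      hG.ct ha (Gr.mem_Zc.1 hx) (Gr.mem_Zc.1 hy)
    obtain ⟨α, hα, β, hβ, k⟩ := hG.csa.two_gen c
    have hab := c α hα β hβ
    have m : ∀ x, x * a = a * x → x ∈ Subgroup.closure {α, β} := fun x hx =>
      (Ax.mem_pair hab).2 (k x (Gr.mem_Zc.2 hx))
    obtain ⟨σ, s1, ⟨p₀, p1, p2⟩, s3⟩ := Ax.axis h hab x₀ fun y q => by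
      have : Subgroup.closure {α, β} ≤ stabilizer G y := (Subgroup.closure_le _).2 (by
        rintro _ (rfl | rfl)
        exacts [q.1, q.2])
      exact n (dep y u v (this (m u hu)) (this (m v hv)))
    have ad : ∀ x y, x * a = a * x → y * a = a * y → σ (x * y) = σ x + σ y :=
      fun x y hx hy => s1 x (m x hx) y (m y hy)
    refine ⟨σ, ad, fun u v hu hv n => ?_, ?_⟩
    · by_contra z
      push Not at z
      have q : p₀ * a = a * p₀ := Gr.mem_Zc.1 ((Subgroup.closure_le (Gr.Zc a)).2 (by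
        rintro _ (rfl | rfl)
        exacts [hα, hβ]) p1)
      obtain ⟨l, i, j, l0, e⟩ := hG.rank (hG.ct ha hu hv) n (hG.ct ha q hu)
      have := congrArg σ e
      rw [coord_zpow ad q, ad _ _ (cm_zpow hu _) (cm_zpow hv _), coord_zpow ad hu,
        coord_zpow ad hv, z.1, z.2] at this
      simp [l0.ne', p2.ne'] at this
    · rcases s3 with ⟨y, hy⟩ | ⟨x, y, -, hy⟩
      · exact ⟨y, fun p hp q => Ax.asc_nest h ((hy p (m p hp)).2 q)⟩
      · exact ⟨y, fun p hp q => ((hy p (m p hp)).2.1.1 q).nest h⟩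
  · rintro a g b σ τ ha hb e k ⟨q, y, hy⟩
    have w : ∀ x, x * b = b * x → g * x * g⁻¹ * a = a * (g * x * g⁻¹) := fun x hx =>
      hG.ct (b := g * b * g⁻¹) (by simpa using hb)
        (by simpa [mul_assoc] using congrArg (· * g⁻¹) hx |>.trans (mul_assoc _ _ _)) e.symm
    refine ⟨fun u v hu hv n => ?_, g⁻¹ • y, fun p hp l => ?_⟩
    · rw [k u hu, k v hv]
      exact q _ _ (w u hu) (w v hv) fun d => n ((dep_conj g).1 d)
    · have := hy _ (w p hp) (k p hp ▸ l)
      refine ⟨by simpa [mul_smul] using h.ups g⁻¹ _ _ this.1, fun z => this.2 ?_⟩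
      simpa [mul_smul] using h.ups g _ _ z

/-- All pieces are of hyperbolic type. -/
theorem lo_of_hy [Countable G] (hG : Hy G) (O : Cv.Ob G C up) (x₀ : X) {V : Type*}
    [MulAction G V] {T : SimpleGraph V} (hT : T.IsTree)
    (act : ∀ (g : G) p q, T.Adj p q → T.Adj (g • p) (g • q))
    (ninv : ∀ (g : G) p q, T.Adj p q → g • p = q → g • q ≠ p)
    (ab : ∀ v w, T.Adj v w → ∀ a b : G, a • v = v → a • w = w → b • v = v → b • w = w →
      a * b = b * a) (big : ∀ v : V, Bg2 (stabilizer G v)) :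
    ∃ r : G → G → Prop, IsStrictTotalOrder G r ∧ ∀ a b c, r a b ↔ r (c * a) (c * b) := by
  obtain ⟨s, h1, h2, h3⟩ := slopes hG O.om x₀ (dep_of_cyc O.cy)
  refine lo_of_pieces hG h1 h2 hT act ninv ab fun v => piece hG.tf O x₀ (hG.sub _) (big v)
    ⟨fun g a => h1.conj g a, fun a b e => h1.add a b (congrArg Subtype.val e)⟩ fun a _ k => ?_
  obtain ⟨y, hy⟩ := h3 a fun e => by rw [e, h1.one] at k; exact lt_irrefl _ k
  exact ⟨y, fun p e => hy p (congrArg Subtype.val e)⟩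

end Pool.Agent.Work.MP_3d425c_gt.To
end

-- merged part: Pool.Agent.Work.MP_3d425c_gt.Nz.EDefs
section
/-! Groups with locally cyclic centralisers: definitions and group theory. -/

namespace Pool.Agent.Work.MP_3d425c_gt.Nz
open Set Pool.Agent.Work.MP_3d425c_gt.Cy Pool.Agent.Work.MP_3d425c_gt.To Subgroup

variable {G : Type} [Group G] {X : Type*} [MulAction G X]

/-- Abelian malnormal centralisers of rank one. -/
structure Lc (G : Type) [Group G] : Prop where
  csa : Bg.Sf.Csa G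
  dep : ∀ a b : G, a * b = b * a → Dep a b

/-- Stabilisers are cyclic or whole centralisers. -/
def Zc (G : Type) [Group G] {X : Type*} [MulAction G X] (r : X → X → Prop) : Prop :=
  ∀ x, (∃ z : G, ∀ a : G, r (a • x) x → a ∈ zpowers z) ∨
    ∃ κ : G, κ ≠ 1 ∧ ∀ a : G, r (a • x) x ↔ a * κ = κ * a

/-- Nontrivial stabilisers grow only by elements of the least missing depth. -/
def Dp (δ : G → ℕ) (r r' : X → X → Prop) : Prop :=
  ∀ (x : X) (a : G), a ≠ 1 → r (a • x) x → ∀ b : G, r' (b • x) x →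
    b ∈ closure ({c : G | r (c • x) x} ∪
      {c | c * a = a * c ∧ ∀ d : G, d * a = a * d → δ d < δ c → r' (d • x) x})

/-- A class function with finite levels on centralisers. -/
structure Dt (δ : G → ℕ) : Prop where
  conj : ∀ g a, δ (g * a * g⁻¹) = δ a
  fin : ∀ a : G, a ≠ 1 → ∀ n, {b | b * a = a * b ∧ δ b ≤ n}.Finite

theorem gen_of_le {K : Subgroup G} {z : G} (k : ∀ a ∈ K, a ∈ zpowers z) :
    ∃ τ ∈ K, ∀ γ ∈ K, ∃ n : ℤ, γ = τ ^ n := by
  obtain ⟨τ, hτ⟩ := (Subgroup.isCyclic_of_le (H' := zpowers z) k).exists_zpow_surjective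
  exact ⟨τ.1, τ.2, fun x hx => (hτ ⟨x, hx⟩).imp fun _ e => (congrArg Subtype.val e).symm⟩

theorem Lc.two (h : Lc G) {a b : G} (e : a * b = b * a) :
    ∃ z ∈ closure ({a, b} : Set G), a ∈ zpowers z ∧ b ∈ zpowers z := by
  have c : Commute a b := e
  obtain ⟨m, n, mn, q⟩ := h.dep a b e
  obtain ⟨d, i, j, d0, ij, rfl, rfl⟩ := Int.exists_gcd_one' (m := m) (n := n)
    (Int.gcd_pos_iff.2 (not_and_or.1 mn))
  have q' : a ^ i = b ^ j := by
    by_contra ne
    refine Bg.Sf.zpow_ne_one h.csa.tf (s := a ^ i * (b ^ j)⁻¹) (m := d)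
      (fun k => ne (mul_inv_eq_one.1 k)) (by omega) ?_
    rw [(c.zpow_zpow i j).inv_right.mul_zpow, inv_zpow, ← zpow_mul, ← zpow_mul, q, mul_inv_cancel]
  obtain ⟨u, v, uv⟩ := Int.isCoprime_iff_gcd_eq_one.2 ij
  refine ⟨a ^ v * b ^ u, mul_mem (zpow_mem (subset_closure (by simp)) _)
    (zpow_mem (subset_closure (by simp)) _), ⟨j, ?_⟩, ⟨i, ?_⟩⟩
  · show (a ^ v * b ^ u) ^ j = a
    rw [(c.zpow_zpow v u).mul_zpow, ← zpow_mul, ← zpow_mul, mul_comm u, zpow_mul b, ← q',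
      ← zpow_mul, ← zpow_add, show v * j + i * u = 1 by linarith, zpow_one]
  · show (a ^ v * b ^ u) ^ i = b
    rw [(c.zpow_zpow v u).mul_zpow, ← zpow_mul, ← zpow_mul, mul_comm v, zpow_mul a, q',
      ← zpow_mul, ← zpow_add, show j * v + u * i = 1 by linarith, zpow_one]

theorem cl_comm {a : G} {S : Set G} (k : ∀ x ∈ S, x * a = a * x) {x : G} (hx : x ∈ closure S) :
    x * a = a * x :=
  mem_centralizer_singleton_iff.1 ((closure_le (centralizer {a})).2
    (fun y hy => mem_centralizer_singleton_iff.2 (k y hy)) hx)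

theorem Lc.fin (h : Lc G) {a : G} (ha : a ≠ 1) {S : Set G} (hS : S.Finite)
    (k : ∀ x ∈ S, x * a = a * x) : ∃ z : G, ∀ x ∈ closure S, x ∈ zpowers z := by
  suffices ∃ z : G, z * a = a * z ∧ ∀ x ∈ S, x ∈ zpowers z from
    this.imp fun z l _ hx => (closure_le _).2 l.2 hx
  induction S, hS using Set.Finite.induction_on with
  | empty => exact ⟨1, by simp, nofun⟩
  | @insert x S _ _ ih =>
    obtain ⟨z, z1, z2⟩ := ih fun y hy => k y (.inr hy)
    have hx := k x (.inl rfl)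
    obtain ⟨w, w1, w2, w3⟩ := h.two (h.csa.ct a x z ha hx z1)
    refine ⟨w, cl_comm ?_ w1, ?_⟩
    · rintro _ (rfl | rfl)
      exacts [hx, z1]
    · rintro y (rfl | hy)
      exacts [w2, zpowers_le.2 w3 (z2 y hy)]

theorem Lc.depth [Countable G] (h : Lc G) : ∃ δ : G → ℕ, Dt δ := by
  have := (ConjClasses.mk_surjective (α := G)).countable
  obtain ⟨e, he⟩ := exists_injective_nat (ConjClasses G)
  refine ⟨fun a => e (ConjClasses.mk a), fun g a => congrArg e
    (ConjClasses.mk_eq_mk_iff_isConj.2 (isConj_iff.2 ⟨g, rfl⟩).symm), fun a ha n => ?_⟩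
  refine Set.Finite.of_finite_image (f := fun a => e (ConjClasses.mk a))
    ((finite_Iic n).subset ?_) fun x hx y hy q => ?_
  · rintro _ ⟨b, hb, rfl⟩
    exact hb.2
  obtain ⟨g, rfl⟩ := isConj_iff.1 (ConjClasses.mk_eq_mk_iff_isConj.1 (he q))
  by_cases x1 : x = 1
  · simp [x1]
  rw [h.csa.mn x g x1 (h.csa.ct a _ _ ha hx.1 hy.1), mul_inv_cancel_right]

theorem Zc.ab (h : Lc G) {r : X → X → Prop} (z : Zc G r) (x : X) (a b : G) (ha : r (a • x) x)
    (hb : r (b • x) x) : a * b = b * a := by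
  rcases z x with ⟨w, k⟩ | ⟨κ, k1, k⟩
  · obtain ⟨i, rfl⟩ := k a ha
    obtain ⟨j, rfl⟩ := k b hb
    exact zpow_mul_comm w i j
  · exact h.csa.ct κ a b k1 ((k a).1 ha) ((k b).1 hb)

end Pool.Agent.Work.MP_3d425c_gt.Nz
end

-- merged part: Pool.Agent.Work.MP_3d425c_gt.Nz.EZorn
section
/-! A quotient that is maximal for the depth order. -/

namespace Pool.Agent.Work.MP_3d425c_gt.Nz
open Set Pool.Agent.Work.MP_3d425c_gt.Cy Pool.Agent.Work.MP_3d425c_gt.To Subgroup

universe u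
variable {G : Type} [Group G] {X : Type u} [MulAction G X] {C : Set (ℝ → X)}
  {up : X → X → Prop} {δ : G → ℕ} {r r' r'' : X → X → Prop}

theorem dp_mono (l : r' ≤ r'') (S : Set G) (x : X) (a : G) :
    closure (S ∪ {c | c * a = a * c ∧ ∀ d : G, d * a = a * d → δ d < δ c → r' (d • x) x}) ≤
      closure (S ∪ {c | c * a = a * c ∧ ∀ d : G, d * a = a * d → δ d < δ c → r'' (d • x) x}) :=
  Subgroup.closure_mono (union_subset_union_right _ fun _ e =>
    ⟨e.1, fun d p q => l _ _ (e.2 d p q)⟩)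

theorem Dp.trans (h : Dp δ r r') (h' : Dp δ r' r'') (l : r ≤ r') (l' : r' ≤ r'') : Dp δ r r'' :=
  fun x a ha k b hb => (closure_le _).2 (union_subset (fun c hc => dp_mono l' _ x a
    (h x a ha k c hc)) fun _ hc => Subgroup.subset_closure (.inr hc)) (h' x a ha (l _ _ k) b hb)

/-- An upper bound with abelian stabilisers keeps the invariant. -/
theorem Dp.zc (hG : Lc G) (hδ : Dt δ) (h : Dp δ r r') (l : r ≤ r') (z : Zc G r) {x : X} {a : G}
    (ha : a ≠ 1) (k : r (a • x) x)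
    (ab : ∀ b c : G, r' (b • x) x → r' (c • x) x → b * c = c * b) :
    (∃ z : G, ∀ b : G, r' (b • x) x → b ∈ zpowers z) ∨
      ∃ κ : G, κ ≠ 1 ∧ ∀ b : G, r' (b • x) x ↔ b * κ = κ * b := by
  rcases z x with ⟨t, ht⟩ | ⟨κ, k1, hκ⟩
  swap
  · exact .inr ⟨κ, k1, fun b => ⟨fun e => ab _ _ e (l _ _ ((hκ κ).2 rfl)),
      fun e => l _ _ ((hκ b).2 e)⟩⟩
  by_cases f : ∀ d : G, d * a = a * d → r' (d • x) x
  · exact .inr ⟨a, ha, fun b => ⟨fun e => ab _ _ e (l _ _ k), f b⟩⟩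
  push Not at f
  obtain ⟨d, d1, d2⟩ := f
  obtain ⟨n, rfl⟩ := ht a k
  obtain ⟨w, hw⟩ := hG.fin ha ((hδ.fin _ ha (δ d)).insert t) (by
    rintro _ (rfl | e)
    exacts [(Commute.self_zpow _ n).eq, e.1])
  refine .inl ⟨w, fun b hb => hw b ((closure_le _).2 (union_subset (fun c hc => ?_) fun c hc => ?_)
    (h x _ ha k b hb))⟩
  · exact zpowers_le.2 (subset_closure (mem_insert _ _)) (ht c hc)
  · exact subset_closure (.inr ⟨hc.1, not_lt.1 fun e => d2 (hc.2 d d1 e)⟩)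

theorem exists_max2 (hG : Lc G) (hδ : Dt δ) (h : Om G C up) (nf : Nf G C Eq)
    (zc : Zc G (Eq : X → X → Prop)) :
    ∃ (Y : Type u) (_ : MulAction G Y) (C' : Set (ℝ → Y)) (U : Y → Y → Prop),
      (Nonempty X → Nonempty Y) ∧ Om G C' U ∧ Nf G C' Eq ∧ Zc G (Eq : Y → Y → Prop) ∧
      ∀ r U', Gq G C' r U' → Nf G C' r → Zc G r → Dp δ Eq r → ∀ x y, r x y → x = y := by
  have : Nonempty {m : X → X → Prop // (∃ U, Gq G C m U) ∧ Nf G C m ∧ Zc G m} :=
    ⟨⟨Eq, ⟨up, h.gq⟩, nf, zc⟩⟩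
  obtain ⟨⟨m, ⟨U, m1⟩, m2, m3⟩, hm⟩ := exists_maximal_of_nonempty_chains_bounded
    (α := {m : X → X → Prop // (∃ U, Gq G C m U) ∧ Nf G C m ∧ Zc G m})
    (r := fun a b => a.1 ≤ b.1 ∧ Dp δ a.1 b.1) (fun S hS ⟨s, hs⟩ => by
      have ch : IsChain (· ≤ ·) (Subtype.val '' S) := by
        rintro _ ⟨p, hp, rfl⟩ _ ⟨q, hq, rfl⟩ e
        exact (hS hp hq fun k => e (congrArg _ k)).imp And.left And.left
      have gq : ∀ r ∈ Subtype.val '' S, ∃ U, Gq G C r U := by
        rintro _ ⟨p, -, rfl⟩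
        exact p.2.1
      choose! U hU using gq
      have ub : ∀ t ∈ S, t.1 ≤ unR (Subtype.val '' S) ∧ Dp δ t.1 (unR (Subtype.val '' S)) :=
        fun t ht => ⟨fun x y k => ⟨_, ⟨t, ht, rfl⟩, k⟩, fun x a ha k b ⟨_, ⟨q, hq, rfl⟩, l⟩ => by
          rcases eq_or_ne t q with rfl | e
          · exact subset_closure (.inl l)
          rcases hS ht hq e with e | e
          · exact dp_mono (fun _ _ c => ⟨_, ⟨q, hq, rfl⟩, c⟩) _ x a (e.2 x a ha k b l)
          · exact subset_closure (.inl (e.1 _ _ l))⟩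
      refine ⟨⟨_, ⟨_, gq_chain ⟨_, mem_image_of_mem _ hs⟩ ch hU⟩, nf_chain h.smul ch hU ?_,
        fun x => ?_⟩, ub⟩
      · rintro _ ⟨p, -, rfl⟩
        exact p.2.2.1
      · by_cases k : ∃ a : G, a ≠ 1 ∧ unR (Subtype.val '' S) (a • x) x
        · obtain ⟨a, ha, _, ⟨q, hq, rfl⟩, l⟩ := k
          refine (ub q hq).2.zc hG hδ (ub q hq).1 q.2.2.2 ha l fun b c ⟨_, b1, b2⟩ ⟨_, c1, c2⟩ => ?_
          obtain ⟨_, ⟨p, -, rfl⟩, p1, p2⟩ := chain_max ch b1 c1
          exact p.2.2.2.ab hG x b c (p1 _ _ b2) (p2 _ _ c2)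
        · exact .inl ⟨1, fun a l => by
            rw [(by_contra fun n => k ⟨a, n, l⟩ : a = 1)]
            exact one_mem _⟩)
    fun k l => ⟨k.1.trans l.1, k.2.trans l.2 k.1 l.1⟩
  obtain ⟨Y, A, π, C', U', Q, hr, -⟩ := m1.exists_quot h
  have fx : ∀ (b : G) x, b • π x = π x ↔ m (b • x) x := fun b x => by rw [← Q.smul, hr]
  refine ⟨Y, A, C', U', fun ⟨x⟩ => ⟨π x⟩, Q.om, Q.nf fun g hg c hc u v l =>
    (m2 g hg c hc u v l).imp fun t k => ⟨k.1, fun e => k.2 ((hr _ _).1 e)⟩, fun y => ?_,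
    fun s V s1 s2 s3 s4 y y' l => ?_⟩
  · obtain ⟨x, rfl⟩ := Q.surj y
    simpa only [fx] using m3 x
  obtain ⟨x, rfl⟩ := Q.surj y
  obtain ⟨x', rfl⟩ := Q.surj y'
  refine (hr x x').2 ((hm ⟨fun x y => s (π x) (π y), ⟨_, s1.pull π Q.smul fun c => Q.mem⟩,
    s2.pull π Q.smul fun c => Q.mem, fun x => by simpa only [Q.smul] using s3 (π x)⟩
      ⟨fun a b e => ?_, fun x a ha k b hb => ?_⟩).1 x x' l)
  · show s (π a) (π b)
    rw [(hr a b).2 e]
    exact s1.eqv.refl _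
  simpa only [fx, Q.smul] using s4 (π x) a ha ((fx a x).2 k) b (Q.smul b x ▸ hb)

end Pool.Agent.Work.MP_3d425c_gt.Nz
end
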