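import Pool.Agent.Work.MP_3d425c_gt.Nh.Rhm
import Pool.Agent.Work.MP_3d425c_gt.Sv.Line
import Pool.Agent.Work.MP_3d425c_gt.Nz.EZorn
import Pool.Agent.Work.MP_3d425c_gt.Bg.LatEnd
import Pool.Agent.Work.MP_3d425c_gt.Bg.Rank
import Pool.Agent.Work.MP_3d425c_gt.Bq.Dual1
import Pool.Agent.Work.MP_3d425c_gt.Bg.Bdy
import Pool.Agent.Work.MP_3d425c_gt.Bg.Tf2
import Pool.Agent.Work.MP_3d425c_gt.Nz.Surf4

-- merged part: Pool.Agent.Work.MP_3d425c_gt.Bq.Grp
section
/-! The group side: from the bound on the number of detecting elements to characters. -/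

namespace Pool.Agent.Work.MP_3d425c_gt.Bq
open Set Relation MulAction Pool.Agent.Work.MP_3d425c_gt.Md Pool.Agent.Work.MP_3d425c_gt.Cy
  Pool.Agent.Work.MP_3d425c_gt.Bg Pool.Agent.Work.MP_3d425c_gt.Gl Pool.Agent.Work.MP_3d425c_gt.To

/-- a space of functions of dimension at most `m` is detected on `m` points -/
theorem gp_det {X : Type*} (x₀ : X) (m : ℕ) : ∀ (U : Submodule ℝ (X → ℝ)) [Module.Finite ℝ U],
    Module.finrank ℝ U ≤ m → ∃ κ : Fin m → X, ∀ χ ∈ U, (∀ i, χ (κ i) = 0) → χ = 0 := by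
  induction m with
  | zero =>
    intro U _ h
    refine ⟨fun _ => x₀, fun χ hχ _ => ?_⟩
    rwa [Submodule.finrank_eq_zero.1 (Nat.le_zero.1 h)] at hχ
  | succ m ih =>
    intro U _ h
    by_cases z : ∀ χ ∈ U, χ = 0
    · exact ⟨fun _ => x₀, fun χ hχ _ => z χ hχ⟩
    push Not at z
    obtain ⟨χ₀, h0, n0⟩ := z
    obtain ⟨g, hg⟩ := Function.ne_iff.1 n0
    have lt : U ⊓ LinearMap.ker (LinearMap.proj g : (X → ℝ) →ₗ[ℝ] ℝ) < U :=
      lt_of_le_of_ne inf_le_left fun e => hg (e.ge h0).2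
    have := Submodule.finiteDimensional_of_le lt.le
    obtain ⟨κ, hκ⟩ := ih _ (Nat.le_of_lt_succ ((Submodule.finrank_lt_finrank_of_lt lt).trans_le h))
    exact ⟨Fin.cons g κ, fun χ hχ k => hκ χ ⟨hχ, k 0⟩ fun i => k i.succ⟩

section Grp
variable {D : Type*} [Group D]

/-- the real characters are detected on the family -/
def Det {n : ℕ} (κ : Fin n → D) : Prop :=
  ∀ φ : D →* Multiplicative ℝ, (∀ i, φ (κ i) = 1) → φ = 1

theorem gp_gen (h : Group.FG D) : ∃ (n : ℕ) (κ : Fin n → D), Det κ := by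
  obtain ⟨S, hS⟩ := h.out
  refine ⟨S.card, fun i => (S.equivFin.symm i).1, fun φ k =>
    MonoidHom.eq_of_eqOn_dense hS fun x hx => ?_⟩
  simpa using k (S.equivFin ⟨x, hx⟩)

theorem gp_room {S : D → ℝ} (hS : Cf S) {k : ℕ} (P : Fin k → Subgroup D)
    (gen : ∀ i, ∃ α β : D, α * β = β * α ∧ ∀ p ∈ P i, ∃ m n : ℤ, p = α ^ m * β ^ n)
    (nd : ∀ κ : Fin (k + 1) → D, ¬ Det κ) (κ : D) :
    ∃ χ : D → ℝ, (∀ a b, χ (a * b) = χ a + χ b) ∧ (∃ a, χ a ≠ 0) ∧ χ κ = 0 ∧
      ∀ i g a b, g * a * g⁻¹ ∈ P i → g * b * g⁻¹ ∈ P i → χ a * S b = χ b * S a := by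
  choose α β c gen using gen
  let U : Submodule ℝ (D → ℝ) :=
    { carrier := {χ | ∀ a b, χ (a * b) = χ a + χ b}
      add_mem' := fun {x y} hx hy a b => by simp only [Pi.add_apply, hx a b, hy a b]; ring
      zero_mem' := fun a b => by simp
      smul_mem' := fun t x hx a b => by simp only [Pi.smul_apply, hx a b, smul_add] }
  let Λ : U →ₗ[ℝ] Fin (k + 1) → ℝ := LinearMap.pi fun i => (Fin.cons (LinearMap.proj κ)
    (fun i => S (β i) • LinearMap.proj (α i) - S (α i) • LinearMap.proj (β i)) :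
      Fin (k + 1) → (D → ℝ) →ₗ[ℝ] ℝ) i ∘ₗ U.subtype
  have ni : ¬ Function.Injective Λ := fun inj => by
    have := Module.Finite.of_injective Λ inj
    obtain ⟨κ', h⟩ := gp_det (1 : D) (k + 1) U
      ((LinearMap.finrank_le_finrank_of_injective inj).trans (by simp))
    refine nd κ' fun φ e => MonoidHom.ext fun x => ?_
    exact congrFun (h (fun g => (φ g).toAdd) (fun a b => by simp) fun i => by simp [e i]) x
  rw [injective_iff_map_eq_zero] at ni
  push Not at ni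
  obtain ⟨χ, h0, n0⟩ := ni
  have ad : Gr.Ad (⊤ : Subgroup D) χ.1 := fun a _ b _ => χ.2 a b
  refine ⟨χ.1, χ.2, Function.ne_iff.1 fun e => n0 (Subtype.ext e), congrFun h0 0,
    fun i g a b ha hb => ?_⟩
  have e : S (β i) * χ.1 (α i) - S (α i) * χ.1 (β i) = 0 := congrFun h0 i.succ
  have q : ∀ a, g * a * g⁻¹ ∈ P i → ∃ m n : ℤ, χ.1 a = m * χ.1 (α i) + n * χ.1 (β i) ∧
      S a = m * S (α i) + n * S (β i) := fun a ha => by
    obtain ⟨m, n, e⟩ := gen i _ ha
    refine ⟨m, n, ?_, ?_⟩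
    · rw [← ad.conj (g := g) trivial trivial, e, χ.2, ad.zpow trivial, ad.zpow trivial,
        zsmul_eq_mul, zsmul_eq_mul]
    · rw [← hS.conj g, e, hS.add _ _ (Commute.zpow_zpow (c i) m n).eq, hS.zpow, hS.zpow]
  obtain ⟨m, n, a1, a2⟩ := q a ha
  obtain ⟨m', n', b1, b2⟩ := q b hb
  rw [a1, a2, b1, b2]
  linear_combination (m * n' - n * m' : ℝ) * e

theorem gp_nc {D' : Type*} [Group D'] (f : D →* D') (hf : Function.Injective f) {A : Subgroup D}
    (hA : ∀ a, ∃ x ∈ A, x ∉ Subgroup.zpowers a) {K : Subgroup D'} (le : ∀ x ∈ A, f x ∈ K) :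
    ¬ IsCyclic K := fun c => by
  obtain ⟨y, hy⟩ := (isCyclic_of_injective ((f.comp A.subtype).codRestrict K fun x => le x x.2)
    fun x y e => Subtype.ext (hf (congrArg Subtype.val e))).exists_zpow_surjective
  obtain ⟨x, hx, n⟩ := hA y
  obtain ⟨i, hi⟩ := hy ⟨x, hx⟩
  exact n ⟨i, congrArg Subtype.val hi⟩

theorem gp_fi (h : Hy D) {K : Subgroup D} (hK : K.FiniteIndex)
    (ab : ∀ a ∈ K, ∀ b ∈ K, a * b = b * a) (a b : D) : a * b = b * a := by
  by_cases ha : a = 1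
  · simp [ha]
  by_cases hb : b = 1
  · simp [hb]
  obtain ⟨p, p0, -, hp⟩ := Subgroup.exists_pow_mem_of_index_ne_zero hK.1 a
  obtain ⟨q, q0, -, hq⟩ := Subgroup.exists_pow_mem_of_index_ne_zero hK.1 b
  have n : ∀ {a : D} {p : ℕ}, a ≠ 1 → 0 < p → a ^ p ≠ 1 := fun ha p0 e =>
    h.tf _ ha (isOfFinOrder_iff_pow_eq_one.2 ⟨_, p0, e⟩)
  exact h.ct (n hb q0) (h.ct (n ha p0) (Commute.self_pow a p).eq (ab _ hq _ hp))
    (Commute.self_pow b q).eq

theorem gp_max {F : ℕ → Prop} (h0 : F 0) {n : ℕ} (hn : ¬ F n) : ∃ k, F k ∧ ¬ F (k + 1) := by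
  by_contra c
  push Not at c
  exact hn (Nat.rec h0 c n)

end Grp

variable {G X0 X1 X2 X3 : Type} {V : Type*} [Group G] [MulAction G X0] [MulAction G X1]
  [MulAction G X2] [MulAction G X3] [MulAction G V] {T : Tri G X0 X1 X2 X3} {Γ : SimpleGraph V}

/-- the sums of the translates are independent modulo coboundaries -/
def Ind (T : Tri G X0 X1 X2 X3) {E : Subgroup G} {k : ℕ} (P : Fin k → Subgroup E)
    (z : Fin k → X1 → ℝ) : Prop :=
  ∀ (c : Fin k → ℝ) (s : X0 → ℝ), SmP (⊤ : Subgroup E) (Function.support s) →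
    (∀ e, ∑ i, c i * sm0 (P i) (z i) e = s (T.d1 e 0) - s (T.d1 e 1)) → c = 0

/-- each cocycle spans the cocycles of its subgroup modulo coboundaries -/
def Spn (T : Tri G X0 X1 X2 X3) {E : Subgroup G} (P : Subgroup E) (z : X1 → ℝ) : Prop :=
  ∀ y, Wz T P y → ∃ (c : ℝ) (s : X0 → ℝ), (∀ p ∈ P, ∀ x, s (p • x) = s x) ∧
    SmP P (Function.support s) ∧ ∀ e, y e = c * z e + (s (T.d1 e 0) - s (T.d1 e 1))

/-- the outcome of the tower -/
def End (T : Tri G X0 X1 X2 X3) : Prop :=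
  ∀ E : Subgroup G, ¬ E.FiniteIndex → E.FG → Sf.Csa E → ∀ (k n : ℕ) (P : Fin k → Subgroup E)
    (z : Fin k → X1 → ℝ) (κ : Fin n → E), (∀ i, Wz T (P i) (z i)) → Ind T P z →
    (∀ i, Spn T (P i) (z i)) →
    (∀ (a g : E) i j, a ≠ 1 → a ∈ P i → g * a * g⁻¹ ∈ P j → i = j ∧ g ∈ P i) →
    (∀ i, ∀ a ∈ P i, ∀ b ∈ P i, a * b = b * a) → (∀ i, ¬ IsCyclic (P i)) → Det κ →
    (n ≤ k ∨ n ≤ k + 1 ∧ ∀ A : Subgroup E, (∀ a ∈ A, ∀ b ∈ A, a * b = b * a) →
      (∀ a, ∃ x ∈ A, x ∉ Subgroup.zpowers a) → ∃ i g, ∀ x ∈ A, g * x * g⁻¹ ∈ P i) →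
    ∀ a b : E, a * b = b * a

theorem gp_iso (act : ∀ (g : G) p q, Γ.Adj p q → Γ.Adj (g • p) (g • q)) {v : V}
    (hy : Hy (stabilizer G v))
    (ab : ∀ w, Γ.Adj v w → ∀ a b : G, a • v = v → a • w = w → b • v = v → b • w = w →
      a * b = b * a)
    (mal : ∀ (a : G) w w', Γ.Adj v w → Γ.Adj v w' → a ≠ 1 → a • v = v → a • w = w →
      a • w' = w' → w = w') {w : V} (hw : Γ.Adj v w)
    (hn : ¬ IsCyclic (stabilizer G v ⊓ stabilizer G w : Subgroup G)) :
    Nonempty ((stabilizer G v ⊓ stabilizer G w : Subgroup G) ≃* Multiplicative (ℤ × ℤ)) := by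
  obtain ⟨a, n⟩ : ∃ a : (stabilizer G v ⊓ stabilizer G w : Subgroup G), a ≠ 1 := by
    by_contra c
    push Not at c
    have : Subsingleton (stabilizer G v ⊓ stabilizer G w : Subgroup G) :=
      ⟨fun x y => by rw [c x, c y]⟩
    exact hn inferInstance
  have n1 : a.1 ≠ 1 := fun e => n (Subtype.ext e)
  have e : (Subgroup.centralizer {(⟨a.1, a.2.1⟩ : stabilizer G v)}).map (stabilizer G v).subtype =
      stabilizer G v ⊓ stabilizer G w := by
    ext b
    constructor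
    · rintro ⟨b, hb, rfl⟩
      have c : b.1 * a.1 = a.1 * b.1 :=
        congrArg Subtype.val (Subgroup.mem_centralizer_singleton_iff.1 hb)
      have j := act b.1 _ _ hw
      rw [show b.1 • v = v from b.2] at j
      exact ⟨b.2, mal a.1 (b.1 • w) w j hw n1 a.2.1
        (by rw [← mul_smul, ← c, mul_smul, show a.1 • w = w from a.2.2]) a.2.2⟩
    · exact fun hb => ⟨⟨b, hb.1⟩, Subgroup.mem_centralizer_singleton_iff.2
        (Subtype.ext (ab w hw _ _ hb.1 hb.2 a.2.1 a.2.2)), rfl⟩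
  have i := (Subgroup.equivMapOfInjective _ _ (stabilizer G v).subtype_injective).trans
    (MulEquiv.subgroupCongr e)
  rcases hy.cent ⟨a.1, a.2.1⟩ (fun e => n1 (congrArg Subtype.val e)) with c | ⟨⟨j⟩⟩
  · exact absurd (isCyclic_of_surjective i i.surjective) hn
  · exact ⟨i.symm.trans j⟩

theorem bg2_of_end (hM : Mfd T) (hend : End T) (hT : Γ.IsTree)
    (act : ∀ (g : G) p q, Γ.Adj p q → Γ.Adj (g • p) (g • q)) (v : V)
    (beh : ∀ w, Γ.Adj v w → ∃ g : G, side Γ v w (g • v)) (hy : Hy (stabilizer G v))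
    (ab : ∀ w, Γ.Adj v w → ∀ a b : G, a • v = v → a • w = w → b • v = v → b • w = w →
      a * b = b * a)
    (mal : ∀ (a : G) w w', Γ.Adj v w → Γ.Adj v w' → a ≠ 1 → a • v = v → a • w = w →
      a • w' = w' → w = w')
    (per : ∀ a : stabilizer G v, a ≠ 1 → ¬ IsCyclic (Subgroup.centralizer {a}) →
      ∃ w, Γ.Adj v w ∧ ∀ b : stabilizer G v, b * a = a * b → b.1 • w = w) :
    Bg2 (stabilizer G v) := by
  classical
  refine bg2_of_room hy fun S hS E' hE' => ?_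
  by_cases na : ∀ a ∈ E', ∀ b ∈ E', a * b = b * a
  · exact .inl na
  by_cases nf : E'.FiniteIndex
  · exact .inr (.inl nf)
  refine .inr (.inr fun κ hκ => ?_)
  have hi : ∀ w, Γ.Adj v w → ¬ ((stabilizer G w).subgroupOf (stabilizer G v)).FiniteIndex :=
    fun w hw f => na fun a _ b _ => gp_fi hy f
      (fun a ha b hb => Subtype.ext (ab w hw _ _ a.2 ha b.2 hb)) a b
  obtain ⟨E, eE⟩ : ∃ E, E = E'.map (stabilizer G v).subtype := ⟨_, rfl⟩
  have hE : E ≤ stabilizer G v := eE ▸ Subgroup.map_subtype_le _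
  have mE : ∀ x : stabilizer G v, x.1 ∈ E ↔ x ∈ E' := fun x => by
    rw [eE]
    exact Subgroup.mem_map_iff_mem (stabilizer G v).subtype_injective
  have hEi : ¬ (E.subgroupOf (stabilizer G v)).FiniteIndex := by
    rwa [show E.subgroupOf (stabilizer G v) = E' from Subgroup.ext mE]
  have fg : E.FG := by
    obtain ⟨s, hs⟩ := hE'
    exact ⟨s.image Subtype.val, by rw [eE, ← hs, MonoidHom.map_closure, Finset.coe_image]; rfl⟩
  have inj := Subgroup.inclusion_injective hE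
  obtain ⟨ι, hι⟩ : ∃ ι : E →* stabilizer G v, ι = Subgroup.inclusion hE := ⟨_, rfl⟩
  have cι : ∀ x, (ι x).1 = x.1 := fun x => by rw [hι]; rfl
  rw [← hι] at inj
  have n1 : ∀ {a : E}, a ≠ 1 → ι a ≠ 1 := fun n e => n (inj (e.trans (map_one ι).symm))
  have cs : Sf.Csa E := ⟨fun a n k => hy.tf _ (n1 n) (ι.isOfFinOrder k),
    fun a x y n p q => inj (by
      simpa only [map_mul] using hy.ct (n1 n) (by simpa only [map_mul] using congrArg ι p)
        (by simpa only [map_mul] using congrArg ι q)),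
    fun a g n p => inj (by
      simpa only [map_mul] using hy.mn _ (ι g) (n1 n)
        (by simpa only [map_mul, map_inv] using congrArg ι p.symm))⟩
  have nE : ¬ ∀ a b : E, a * b = b * a := fun c => na fun a ha b hb => Subtype.ext
    (show a.1 * b.1 = b.1 * a.1 from congrArg Subtype.val (c ⟨a, (mE a).2 ha⟩ ⟨b, (mE b).2 hb⟩))
  have adj : ∀ g ∈ E, ∀ w, Γ.Adj v w → Γ.Adj v (g • w) := fun g hg w hw => by
    have j := act g _ _ hw
    rwa [show g • v = v from hE hg] at j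
  let Fm : ∀ k, (Fin k → V) → Prop := fun k w => (∀ i, Γ.Adj v (w i)) ∧
    (∀ i j, ∀ g ∈ E, g • w i = w j → i = j) ∧
      ∀ i, ¬ IsCyclic (E ⊓ stabilizer G (w i) : Subgroup G)
  have iso : ∀ u, Γ.Adj v u → ¬ IsCyclic (E ⊓ stabilizer G u : Subgroup G) → Nonempty
      ((stabilizer G v ⊓ stabilizer G u : Subgroup G) ≃* Multiplicative (ℤ × ℤ)) := fun u hu n =>
    gp_iso act hy ab mal hu fun c => n (Subgroup.isCyclic_of_le (inf_le_inf_right _ hE))
  have key : ∀ k w, Fm k w → ∀ n (κ : Fin n → E), Det κ → ¬ (n ≤ k ∨ n ≤ k + 1 ∧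
      ∀ A : Subgroup E, (∀ a ∈ A, ∀ b ∈ A, a * b = b * a) →
        (∀ a, ∃ x ∈ A, x ∉ Subgroup.zpowers a) →
          ∃ i g, ∀ x ∈ A, g * x * g⁻¹ ∈ (stabilizer G (w i)).subgroupOf E) := by
    rintro k w ⟨hw, hne, hn⟩ n κ d c
    obtain ⟨z, z1, z2, z3, z4, z5⟩ := exists_wz hM hT act v beh hi hE hEi w hw hne
      (fun i => iso _ (hw i) (hn i)) hn (fun i => (stabilizer G (w i)).subgroupOf E)
      fun _ _ => Iff.rfl
    refine nE (hend E (fun f => hEi inferInstance) fg cs k n _ z κ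
      (fun i => ⟨z1 i, z2 i, z3 i⟩) z4 (fun i y h => z5 i y h.coc h.inv h.sup)
      (fun a g i j n ha hg => ?_) (fun i a ha b hb => Subtype.ext
        (ab _ (hw i) _ _ (hE a.2) ha (hE b.2) hb)) (fun i c => hn i ?_) d c)
    · have e : (g.1 * a.1 * g.1⁻¹) • w j = w j := hg
      have e' := mal a.1 _ _ (adj _ (inv_mem g.2) _ (hw j)) (hw i) (fun e => n (Subtype.ext e))
        (hE a.2) (by rwa [mul_smul, mul_smul, smul_eq_iff_eq_inv_smul] at e) ha
      obtain rfl := hne _ _ _ (inv_mem g.2) e'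
      exact ⟨rfl, (inv_smul_eq_iff.1 e').symm⟩
    · have i := (Subgroup.equivMapOfInjective _ _ E.subtype_injective).trans
        (MulEquiv.subgroupCongr ((Subgroup.subgroupOf_map_subtype (stabilizer G (w i)) E).trans
          (inf_comm _ _)))
      exact isCyclic_of_surjective i i.surjective
  obtain ⟨n, κ₀, d₀⟩ := gp_gen ((Group.fg_iff_subgroup_fg E).2 fg)
  obtain ⟨k, ⟨w, hw⟩, mx⟩ := gp_max (F := fun k => ∃ w, Fm k w) (n := n)
    ⟨Fin.elim0, fun i => i.elim0, fun i => i.elim0, fun i => i.elim0⟩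
    fun ⟨w, hw⟩ => key n w hw n κ₀ d₀ (.inl le_rfl)
  have pr : ∀ A : Subgroup E, (∀ a ∈ A, ∀ b ∈ A, a * b = b * a) →
      (∀ a, ∃ x ∈ A, x ∉ Subgroup.zpowers a) →
        ∃ i g, ∀ x ∈ A, g * x * g⁻¹ ∈ (stabilizer G (w i)).subgroupOf E := by
    intro A c hA
    obtain ⟨a, ha, n⟩ := hA 1
    obtain ⟨u, hu, f⟩ := per (ι a) (n1 fun e => n (by rw [e]; exact one_mem _))
      (gp_nc ι inj hA fun x hx =>
        Subgroup.mem_centralizer_singleton_iff.2 (by rw [← map_mul, c x hx a ha, map_mul]))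
    have fx : ∀ x ∈ A, x.1 • u = u := fun x hx =>
      cι x ▸ f (ι x) (by rw [← map_mul, c x hx a ha, map_mul])
    have nc : ¬ IsCyclic (E ⊓ stabilizer G u : Subgroup G) :=
      gp_nc E.subtype E.subtype_injective hA fun x hx => ⟨x.2, fx x hx⟩
    obtain ⟨i, g, hg, e⟩ : ∃ i, ∃ g ∈ E, g • u = w i := by
      by_contra m
      push Not at m
      refine mx ⟨Fin.cons u w, Fin.cases hu hw.1, fun i j g hg => ?_, Fin.cases nc hw.2.2⟩
      refine Fin.cases ?_ (fun i => ?_) i <;> refine Fin.cases ?_ (fun j => ?_) j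
      · exact fun _ => rfl
      · exact fun e => absurd e (m j g hg)
      · exact fun e => absurd (inv_smul_eq_iff.2 e.symm) (m i _ (inv_mem hg))
      · exact fun e => congrArg Fin.succ (hw.2.1 i j g hg e)
    refine ⟨i, ⟨g, hg⟩, fun x hx => ?_⟩
    show (g * x.1 * g⁻¹) • w i = w i
    rw [← e, mul_smul, mul_smul, inv_smul_smul, fx x hx]
  obtain ⟨χ, c1, ⟨x, c2⟩, c3, c4⟩ := gp_room (S := fun x : E => S (ι x))
    ⟨fun g a => by rw [map_mul, map_mul, map_inv, hS.conj], fun a b e => by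
      rw [map_mul, hS.add _ _ (by rw [← map_mul, e, map_mul])]⟩
    (fun i => (stabilizer G (w i)).subgroupOf E) (fun i => by
      obtain ⟨a, b, c, -, h⟩ := d1_basis _ _ (inf_le_inf_right _ hE)
        (iso _ (hw.1 i) (hw.2.2 i)).some (hw.2.2 i)
      refine ⟨⟨a, ((h a).2 ⟨1, 0, by simp⟩).1⟩, ⟨b, ((h b).2 ⟨0, 1, by simp⟩).1⟩,
        Subtype.ext c.eq, fun p hp => ?_⟩
      obtain ⟨m, n, e⟩ := (h p).1 ⟨p.2, hp⟩
      exact ⟨m, n, Subtype.ext e⟩)
    (fun κ' d => key k w hw _ κ' d (.inr ⟨le_rfl, pr⟩)) ⟨κ, (mE κ).2 hκ⟩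
  have ev : ∀ x : E, (fun y : stabilizer G v => if h : y.1 ∈ E then χ ⟨y, h⟩ else 0) (ι x) = χ x :=
    fun x => by simp only [cι, dif_pos x.2]
  have sj : ∀ a ∈ E', ∃ x, ι x = a := fun a ha => ⟨⟨a, (mE a).2 ha⟩, Subtype.ext (cι _)⟩
  refine ⟨fun y => if h : y.1 ∈ E then χ ⟨y, h⟩ else 0, fun a ha b hb => ?_,
    ⟨ι x, (mE _).1 (cι x ▸ x.2), by rwa [ev]⟩, (dif_pos ((mE κ).2 hκ)).trans c3,
    fun a ha b hb e n => ?_⟩
  · obtain ⟨a, rfl⟩ := sj a ha
    obtain ⟨b, rfl⟩ := sj b hb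
    rw [← map_mul, ev, ev, ev, c1]
  · obtain ⟨a, rfl⟩ := sj a ha
    obtain ⟨b, rfl⟩ := sj b hb
    have na : a ≠ 1 := fun e => n (by rw [e, map_one]; exact (Gr.dep_one _).symm)
    have mb : b ∈ Subgroup.centralizer {a} := Subgroup.mem_centralizer_singleton_iff.2
      (inj (by rw [map_mul, map_mul, e]))
    have ma : a ∈ Subgroup.centralizer {a} := Subgroup.mem_centralizer_singleton_iff.2 rfl
    obtain ⟨i, g, h⟩ := pr (Subgroup.centralizer {a}) (fun x hx y hy => cs.ct a x y na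
      (Subgroup.mem_centralizer_singleton_iff.1 hx) (Subgroup.mem_centralizer_singleton_iff.1 hy))
      fun c => by_contra fun m => by
        push Not at m
        obtain ⟨i, hi⟩ := m a ma
        obtain ⟨j, hj⟩ := m b mb
        exact n (by rw [← hi, ← hj, map_zpow, map_zpow]; exact Gr.dep_zpow _ _ _)
    rw [ev, ev]
    exact c4 i g a b (h a ma) (h b mb)

theorem end_of_dual (hM : Mfd T) (tf : ∀ a : G, a ≠ 1 → ¬ IsOfFinOrder a)
    (hd : ∀ E : Subgroup G, ¬ E.FiniteIndex → E.FG → Dual T E) : End T := by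
  intro E hE fg cs k n P z κ wz ind one mal ab _ d c
  rcases c with c | ⟨c, per⟩
  · exact topA hM tf cs hE fg (hd E hE fg) wz (fun c s _ => ind c s) κ d (by simpa using c)
  · exact topB hM tf cs hE fg (hd E hE fg) wz (fun c s _ => ind c s) one per
      (fun i j x g => mal x g i j) ab κ d (by simpa using c)

/-- Characters on the subgroups of a hyperbolic vertex group, from duality. -/
theorem bg2_of_dual (hM : Mfd T) (tf : ∀ a : G, a ≠ 1 → ¬ IsOfFinOrder a)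
    (hd : ∀ E : Subgroup G, ¬ E.FiniteIndex → E.FG → Dual T E) (hT : Γ.IsTree)
    (act : ∀ (g : G) p q, Γ.Adj p q → Γ.Adj (g • p) (g • q)) (v : V)
    (beh : ∀ w, Γ.Adj v w → ∃ g : G, side Γ v w (g • v)) (hy : Hy (stabilizer G v))
    (ab : ∀ w, Γ.Adj v w → ∀ a b : G, a • v = v → a • w = w → b • v = v → b • w = w →
      a * b = b * a)
    (mal : ∀ (a : G) w w', Γ.Adj v w → Γ.Adj v w' → a ≠ 1 → a • v = v → a • w = w →
      a • w' = w' → w = w')
    (per : ∀ a : stabilizer G v, a ≠ 1 → ¬ IsCyclic (Subgroup.centralizer {a}) →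
      ∃ w, Γ.Adj v w ∧ ∀ b : stabilizer G v, b * a = a * b → b.1 • w = w) :
    Bg2 (stabilizer G v) :=
  bg2_of_end hM (end_of_dual hM tf hd) hT act v beh hy ab mal per

end Pool.Agent.Work.MP_3d425c_gt.Bq
end

-- merged part: Pool.Agent.Work.MP_3d425c_gt.Bg.Grp
section
/-! Group theory. -/

namespace Pool.Agent.Work.MP_3d425c_gt.Bg
open Set Relation Pool.Agent.Work.MP_3d425c_gt.Md Pool.Agent.Work.MP_3d425c_gt.Cy

variable {G X0 X1 X2 X3 : Type} [Group G] [MulAction G X0] [MulAction G X1] [MulAction G X2]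
  [MulAction G X3] {T : Tri G X0 X1 X2 X3} {E : Subgroup G} {Ω : Type} [MulAction E Ω]

theorem hyp_sub (hG : Hyp G) (E : Subgroup G) : Hyp E := by
  refine ⟨fun a ha h => hG.tf a (fun e => ha (Subtype.ext e)) (E.subtype.isOfFinOrder h),
    fun a ha => ?_⟩
  have := hG.cent a fun e => ha (Subtype.ext e)
  refine isCyclic_of_injective (G' := Subgroup.centralizer ({(a : G)} : Set G))
    ((E.subtype.comp (Subgroup.centralizer ({a} : Set E)).subtype).codRestrict _ fun x => ?_) ?_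
  · exact Subgroup.mem_centralizer_singleton_iff.2
      (congrArg Subtype.val (Subgroup.mem_centralizer_singleton_iff.1 x.2))
  · exact fun x y e => Subtype.ext (Subtype.ext (Subtype.ext_iff.1 e :))

theorem cyc_of_sm {D A : Type} [Group D] [MulAction D A] (hD : Hyp D)
    (hA : ∀ (g : D) (x : A), g • x = x → g = 1) (x : A) {a : D} (h : Sm a (univ : Set A)) :
    IsCyclic D := by
  obtain ⟨K, hK, h⟩ := h
  have key : ∀ g : D, ∃ p l : ℤ, p ≠ 0 ∧ g ^ p = a ^ l := fun g => by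
    choose k hk i hi using fun n : ℤ => h (g ^ n • x) (mem_univ _)
    obtain ⟨m, -, n, -, hmn, e⟩ := infinite_univ.exists_ne_map_eq_of_mapsTo (fun n _ => hk n) hK
    refine ⟨n - m, i n - i m, sub_ne_zero.2 hmn.symm, ?_⟩
    have e1 := hA ((g ^ n)⁻¹ * (a ^ i n * (a ^ i m)⁻¹) * g ^ m) x (by
      rw [mul_smul, mul_smul, mul_smul, hi m, inv_smul_smul, e, ← hi n, inv_smul_smul])
    rw [zpow_sub, zpow_sub, mul_inv_eq_iff_eq_mul]
    rw [mul_assoc, inv_mul_eq_one] at e1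
    exact e1
  have comm : ∀ g : D, g * a = a * g ∧ (a = 1 → g = 1) := fun g => by
    by_cases hg : g = 1
    · simp [hg]
    obtain ⟨p, l, hp, e⟩ := key g
    have h1 : g ^ p ≠ 1 := fun k => hp (hD.zpow_inj hg (k.trans (zpow_zero g).symm))
    refine ⟨hD.ct h1 (Commute.self_zpow g p).eq (e ▸ (Commute.self_zpow a l).eq), fun k => ?_⟩
    exact absurd (by rw [e, k, one_zpow]) h1
  by_cases ha : a = 1
  · have : Subsingleton D := ⟨fun g g' => ((comm g).2 ha).trans ((comm g').2 ha).symm⟩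
    infer_instance
  · have := hD.cent a ha
    exact isCyclic_of_surjective (Subgroup.centralizer ({a} : Set D)).subtype fun g =>
      ⟨⟨g, Subgroup.mem_centralizer_singleton_iff.2 (comm g).1⟩, rfl⟩

theorem gr_two {B : Type} [AddGroup B] [AddGroup.FG B] (φ ψ : B →+ ℝ) {a b : B} (ha : φ a ≠ 0)
    (hψ : ψ a = 0) (hb : ψ b ≠ 0) : ∃ f : B →+ ℤ × ℤ, Function.Surjective f := by
  have : Module.Finite ℤ (φ.prod ψ).range := Module.Finite.iff_addGroup_fg.2 inferInstance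
  have li : LinearIndependent ℤ ![(φ.prod ψ).rangeRestrict a, (φ.prod ψ).rangeRestrict b] := by
    refine LinearIndependent.pair_iff.2 fun s t e => ?_
    have e1 : s • φ a + t • φ b = 0 := congrArg (fun x : (φ.prod ψ).range => x.1.1) e
    have e2 : s • ψ a + t • ψ b = 0 := congrArg (fun x : (φ.prod ψ).range => x.1.2) e
    rw [hψ, smul_zero, zero_add, smul_eq_zero_iff_left hb] at e2
    rw [e2, zero_smul, add_zero, smul_eq_zero_iff_left ha] at e1
    exact ⟨e1, e2⟩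
  have h2 := li.fintype_card_le_finrank
  rw [Fintype.card_fin] at h2
  let β := Module.finBasis ℤ (φ.prod ψ).range
  refine ⟨((β.coord ⟨0, by omega⟩).prod (β.coord ⟨1, by omega⟩)).toAddMonoidHom.comp
    (φ.prod ψ).rangeRestrict, fun y => ?_⟩
  obtain ⟨g, hg⟩ := (φ.prod ψ).rangeRestrict_surjective
    (y.1 • β ⟨0, by omega⟩ + y.2 • β ⟨1, by omega⟩)
  refine ⟨g, ?_⟩
  rw [AddMonoidHom.comp_apply, hg]
  ext <;> simp

theorem big_of (h : ∀ E : Subgroup G, E.FG → ¬ E.FiniteIndex → ∀ κ : E,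
    (∀ φ : E →* Multiplicative ℝ, φ κ = 1 → φ = 1) → IsCyclic E) : Big G := by
  intro E hE
  by_cases h1 : E.FiniteIndex
  · exact Or.inr (Or.inl h1)
  by_cases h2 : IsCyclic E
  · exact Or.inl h2
  have k : ∀ κ : E, ∃ φ : E →* Multiplicative ℝ, φ κ = 1 ∧ ∃ g, φ g ≠ 1 := fun κ => by
    by_contra hc
    refine h2 (h E hE h1 κ fun φ hφ => MonoidHom.ext fun g => ?_)
    by_contra hg
    exact hc ⟨φ, hφ, g, hg⟩
  obtain ⟨φ, -, a, ha⟩ := k 1
  obtain ⟨ψ, hψ, b, hb⟩ := k a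
  have : Group.FG E := (Group.fg_iff_subgroup_fg E).2 hE
  obtain ⟨f, hf⟩ := gr_two (MonoidHom.toAdditiveLeft φ) (MonoidHom.toAdditiveLeft ψ)
    (a := Additive.ofMul a) (b := Additive.ofMul b) ha hψ hb
  exact Or.inr (Or.inr ⟨AddMonoidHom.toMultiplicativeRight f, fun y => hf y.toAdd⟩)

end Pool.Agent.Work.MP_3d425c_gt.Bg
end

-- merged part: Pool.Agent.Work.MP_3d425c_gt.Bg.Main
section
/-! Finitely generated subgroups of infinite index are cyclic or map onto a rank two lattice. -/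

namespace Pool.Agent.Work.MP_3d425c_gt.Bg
open Set Relation Pool.Agent.Work.MP_3d425c_gt.Md Pool.Agent.Work.MP_3d425c_gt.Cy

variable {G X0 X1 X2 X3 : Type} [Group G] [MulAction G X0] [MulAction G X1] [MulAction G X2]
  [MulAction G X3] {T : Tri G X0 X1 X2 X3} {E : Subgroup G} {Ω : Type} [MulAction E Ω]

theorem big (hs : S_surf) (hM : Mfd T) (hG : Hyp G) : Big G := by
  refine big_of fun E hE hi κ h0 => ?_
  obtain ⟨D⟩ := exists_dat hM hE κ h0
  obtain ⟨Ω, _, W, ω, fc, hz, top⟩ := tower hM hG hi D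
  have := fc.fin
  have h1 := euler hM W
  have h2 := rank hM hi fc top
  obtain ⟨a, U, u0, u1, u2, u3, u4⟩ := bdy hs hM (hyp_sub hG E) W (hM.exists_bd hi fc) (by omega)
  exact cyc_of_sm (hyp_sub hG E) W.free ω (fill fc hz u0 u1 u2 u3 u4)

end Pool.Agent.Work.MP_3d425c_gt.Bg
end

-- merged part: Pool.Agent.Work.MP_3d425c_gt.Nz.Big
section
/-! Finitely generated subgroups of infinite index when commuting elements are dependent. -/

namespace Pool.Agent.Work.MP_3d425c_gt.Nz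
open Set Pool.Agent.Work.MP_3d425c_gt.Md Pool.Agent.Work.MP_3d425c_gt.Cy
  Pool.Agent.Work.MP_3d425c_gt.Bg Pool.Agent.Work.MP_3d425c_gt.Bq

theorem fi_of_sm {D A : Type} [Group D] [MulAction D A]
    (hA : ∀ (g : D) (x : A), g • x = x → g = 1) (x : A) {a : D} (h : Sm a (univ : Set A)) :
    (Subgroup.zpowers a).FiniteIndex := by
  obtain ⟨K, hK, h⟩ := h
  choose k hk i hi using fun q : D ⧸ Subgroup.zpowers a => h (q.out⁻¹ • x) (mem_univ _)
  have := hK.to_subtype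
  have : Finite (D ⧸ Subgroup.zpowers a) := by
    refine Finite.of_injective (fun q => (⟨k q, hk q⟩ : K)) fun p q e => ?_
    have e : k p = k q := congrArg Subtype.val e
    have e1 := hA (q.out * (a ^ i q * (a ^ i p)⁻¹ * p.out⁻¹)) x (by
      rw [mul_smul, mul_smul, mul_smul, hi p, inv_smul_smul, e, ← hi q, smul_inv_smul])
    rw [← p.out_eq, ← q.out_eq]
    refine QuotientGroup.eq.2 ⟨i p - i q, ?_⟩
    rw [eq_inv_of_mul_eq_one_left e1]
    group
  exact Subgroup.finiteIndex_of_finite_quotient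

variable {G X0 X1 X2 X3 : Type} [Group G] [MulAction G X0] [MulAction G X1] [MulAction G X2]
  [MulAction G X3] {T : Tri G X0 X1 X2 X3}

theorem big (hM : Mfd T) (tf : ∀ a : G, a ≠ 1 → ¬ IsOfFinOrder a)
    (nz : ∀ a b : G, a * b = b * a → To.Dep a b) : Big G := by
  refine big_of fun E hE hi κ h0 => ?_
  obtain ⟨Ω, _, W, ω, fc, hz, ⟨Λ, top⟩, -⟩ := to_stage (I := Empty) (P := fun _ => ⊥)
    (z := fun _ _ => 0) hM hi hE (adm_zp hM (zbase_tf hM tf E)) (fun i => i.elim)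
    (fun _ : Fin 1 => κ) fun φ k => h0 φ (k 0)
  have := fc.fin
  have h1 := euler hM W
  have h2 := rank hM hi fc ⟨LinearMap.proj 0 ∘ₗ Λ, fun χ c k => top χ c (funext fun i => by
    rw [Subsingleton.elim i 0]; exact k)⟩
  obtain ⟨a, U, u0, u1, u2, u3, u4⟩ := bdyZ hM (Sf.tf_sub tf E) (Sf.nz_sub nz E) W
    (hM.exists_bd hi fc) (by omega)
  have := fi_of_sm W.free ω (fill fc hz u0 u1 u2 u3 u4)
  exact cyc_of_fi (Sf.tf_sub tf E) a

end Pool.Agent.Work.MP_3d425c_gt.Nz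
end
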